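import Mathlib

/-! Bundle of small proof modules (one section per former module). -/

section

/-!
# Density in `L^p(ℂ)`, `0 < p ≤ 9/25`, of complex spans of the kernels `(z-a)/|z-a|^3`

Definitions used by all items.  Everything is for the Lebesgue measure of `ℂ`.
-/

open MeasureTheory Complex Set Filter Topology
open scoped ENNReal ComplexConjugate

namespace Pool.Agent.Work.MP_440970_an

/-- The kernel `z/|z|^3` (value `0` at `z = 0`). -/
noncomputable def K (z : ℂ) : ℂ := z / (‖z‖ : ℂ) ^ 3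

/-- `𝒳(ℂ)`: the complex span of the functions `z ↦ (z-a)/|z-a|^3`. -/
noncomputable def X : Submodule ℂ (ℂ → ℂ) :=
  Submodule.span ℂ (range fun a : ℂ => fun z : ℂ => K (z - a))

/-- `∫ |f|^p`. -/
noncomputable def np (p : ℝ) (f : ℂ → ℂ) : ℝ≥0∞ := ∫⁻ z, ‖f z‖ₑ ^ p

/-- Distance to `𝒳(ℂ) ∩ L^p(ℂ)` in the metric `∫ |f-g|^p`. -/
noncomputable def dX (p : ℝ) (g : ℂ → ℂ) : ℝ≥0∞ :=
  ⨅ (f : ℂ → ℂ) (_ : f ∈ X) (_ : np p f < ⊤), np p (fun z => g z - f z)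

/-- `2 ∂/∂(conj z)`. -/
noncomputable def dbar2 (h : ℂ → ℂ) (a : ℂ) : ℂ := fderiv ℝ h a 1 + I * fderiv ℝ h a I

/-- `C¹` functions with decay. -/
structure Nice (N : ℕ) (A : ℝ) (h : ℂ → ℂ) : Prop where
  smooth : ContDiff ℝ 1 h
  bd : ∀ a, ‖h a‖ * (1 + ‖a‖) ^ N ≤ A
  bd' : ∀ a, ‖fderiv ℝ h a‖ * (1 + ‖a‖) ^ N ≤ A

/-- The (complex) Riesz transform `(1/2π) K * h`, written as an absolutely convergent integral. -/
noncomputable def bb (h : ℂ → ℂ) (z : ℂ) : ℂ :=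
  -(1 / (2 * Real.pi : ℂ)) * ∫ a, (‖z - a‖ : ℂ)⁻¹ * dbar2 h a

/-- Polynomials in `a, conj a` of degree at most `m` in each variable. -/
noncomputable def Pol (m : ℕ) : Submodule ℂ (ℂ → ℂ) :=
  Submodule.span ℂ (range fun ij : Fin (m + 1) × Fin (m + 1) =>
    fun a : ℂ => a ^ (ij.1 : ℕ) * conj a ^ (ij.2 : ℕ))

/-- Interpolation nodes `y l` with dual polynomials `φ l`. -/
structure Nodes (m L : ℕ) (y : Fin L → ℂ) (φ : Fin L → ℂ → ℂ) : Prop where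
  mem : ∀ l, φ l ∈ Pol m
  exact : ∀ P ∈ Pol m, ∀ a, P a = ∑ l, P (y l) * φ l a

/-- `bb h`, corrected by point charges at the nodes so that it decays fast. -/
noncomputable def bH {L : ℕ} (y : Fin L → ℂ) (φ : Fin L → ℂ → ℂ) (h : ℂ → ℂ) (z : ℂ) : ℂ :=
  bb h z - (1 / (2 * Real.pi : ℂ)) * ∑ l, (∫ a, φ l a * h a) * K (z - y l)

/-- `s (s² + |z|²)^{-3/2}`. -/
noncomputable def hs (s : ℝ) (z : ℂ) : ℂ := ((s * (s ^ 2 + ‖z‖ ^ 2) ^ (-(3 / 2) : ℝ) : ℝ) : ℂ)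

/-- `z (s² + |z|²)^{-3/2}`. -/
noncomputable def ks (s : ℝ) (z : ℂ) : ℂ := z * (((s ^ 2 + ‖z‖ ^ 2) ^ (-(3 / 2) : ℝ) : ℝ) : ℂ)

/-- first component of the basic block: `M`-th difference in `s` of `hs s` at `s = 1` -/
noncomputable def D1 (M : ℕ) (z : ℂ) : ℂ :=
  ∑ j ∈ Finset.range (M + 1), ((-1) ^ j * (M.choose j : ℂ)) * hs (1 + j) z

/-- second component of the basic block -/
noncomputable def D2 (M : ℕ) (z : ℂ) : ℂ :=
  ∑ j ∈ Finset.range (M + 1), ((-1) ^ j * (M.choose j : ℂ)) * ks (1 + j) z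

/-- the quaternionic symmetry of pairs -/
noncomputable def Jq (F : ℂ → ℂ × ℂ) (z : ℂ) : ℂ × ℂ := (-conj (F z).2, conj (F z).1)

/-- the basic pair -/
noncomputable def DD (M : ℕ) (z : ℂ) : ℂ × ℂ := (D1 M z, D2 M z)

/-- The class of pairs generated by translates, dilates and `Jq` of the basic pair. -/
noncomputable def Cs (M : ℕ) : Submodule ℂ (ℂ → ℂ × ℂ) :=
  Submodule.span ℂ ({F | ∃ (b : ℂ) (u : ℝ), 0 < u ∧ F = fun z => DD M ((z - b) / u)} ∪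
    {F | ∃ (b : ℂ) (u : ℝ), 0 < u ∧ F = fun z => Jq (DD M) ((z - b) / u)})

/-- `(|a|² + |b|²)^{p/2}`. -/
noncomputable def q2 (p : ℝ) (a b : ℂ) : ℝ := (‖a‖ ^ 2 + ‖b‖ ^ 2) ^ (p / 2)

/-- `∫ |F|^p` for pairs -/
noncomputable def cost (p : ℝ) (F : ℂ → ℂ × ℂ) : ℝ≥0∞ :=
  ∫⁻ z, ENNReal.ofReal (q2 p (F z).1 (F z).2)

/-- `∫ (|e + G|^p - 1)`, `e = (1, 0)` -/
noncomputable def JJ (p : ℝ) (G : ℂ → ℂ × ℂ) : ℝ :=
  ∫ z, (q2 p (1 + (G z).1) (G z).2 - 1)

end Pool.Agent.Work.MP_440970_an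

end

section

/-!
# The claims (interfaces of the items)
-/

open MeasureTheory Complex Set Filter Topology
open scoped ENNReal ComplexConjugate

namespace Pool.Agent.Work.MP_440970_an

/-! ## Group A: far field expansions and the correction `bH` -/

/-- [A1] interpolation nodes for the polynomials -/
def ClaimNodes : Prop := ∀ m : ℕ, ∃ (L : ℕ) (y : Fin L → ℂ) (φ : Fin L → ℂ → ℂ), Nodes m L y φ

/-- [A2] smoothness and growth of the polynomials; `dbar2` -/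
def ClaimPol : Prop := ∀ (m : ℕ), ∀ P ∈ Pol m, ContDiff ℝ 1 P ∧
  (∃ C, ∀ a, ‖P a‖ ≤ C * (1 + ‖a‖) ^ (2 * m)) ∧ ∃ C, ∀ a, ‖fderiv ℝ P a‖ ≤ C * (1 + ‖a‖) ^ (2 * m)

/-- [A2] composition with a complex dilation stays in `Pol m` -/
def ClaimPolDil : Prop := ∀ (m : ℕ), ∀ P ∈ Pol m, ∀ c : ℂ, (fun a => P (c * a)) ∈ Pol m

/-- [A3] expansion of `|1-w|^{-1}` and of `K (1-w)` at `w = 0` -/
def ClaimTaylor : Prop := ∀ m : ℕ, ∃ T ∈ Pol m, ∃ τ ∈ Pol m, ∃ C > 0, (∀ w, dbar2 T w = τ w) ∧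
  ∀ w : ℂ, ‖w‖ ≤ 1 / 2 → ‖(‖1 - w‖ : ℂ)⁻¹ - T w‖ ≤ C * ‖w‖ ^ (m + 1) ∧
    ‖K (1 - w) - τ w‖ ≤ C * ‖w‖ ^ m

/-- [A4] integration by parts on `ℂ` -/
def ClaimParts : Prop := ∀ u v : ℂ → ℂ, ContDiff ℝ 1 u → ContDiff ℝ 1 v →
  Integrable (fun a => u a * v a) → Integrable (fun a => dbar2 u a * v a) →
  Integrable (fun a => u a * dbar2 v a) →
  ∫ a, dbar2 u a * v a = - ∫ a, u a * dbar2 v a

/-- [A4] the weakly singular integral -/
def ClaimSing : Prop := ∃ C > 0, ∀ z : ℂ,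
  Integrable (fun a : ℂ => ‖z - a‖⁻¹ * (1 + ‖a‖) ^ (-(3 : ℝ))) ∧
  ∫ a : ℂ, ‖z - a‖⁻¹ * (1 + ‖a‖) ^ (-(3 : ℝ)) ≤ C

/-- [A5] far field and near field of `bH` -/
def ClaimWpt : Prop := ∀ (m L : ℕ) (y : Fin L → ℂ) (φ : Fin L → ℂ → ℂ), Nodes m L y φ →
  ∃ R > 0, ∃ C > 0, ∀ (A : ℝ) (h : ℂ → ℂ), Nice (2 * m + 4) A h →
    (∀ z, ‖bH y φ h z‖ ≤ C * A * (1 + ∑ l, (‖z - y l‖ ^ 2)⁻¹)) ∧
    ∀ z, R ≤ ‖z‖ → ‖bH y φ h z‖ ≤ C * A * (‖z‖ ^ (m + 2))⁻¹

/-- [A6] `bH` is bounded from the weighted `C¹` space to `L^p` -/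
def ClaimW : Prop := ∀ (m : ℕ) (p : ℝ) (L : ℕ) (y : Fin L → ℂ) (φ : Fin L → ℂ → ℂ),
  Nodes m L y φ → 0 < p → p < 1 → 2 < (m + 2) * p →
  ∃ C > 0, ∀ (A : ℝ) (h : ℂ → ℂ), Nice (2 * m + 4) A h →
    Measurable (bH y φ h) ∧ np p (bH y φ h) ≤ ENNReal.ofReal (C * A ^ p)

/-- [A7] linearity and scaling of `bb` -/
def ClaimBb : Prop :=
  (∀ (A B : ℝ) (f g : ℂ → ℂ), ContDiff ℝ 1 f → ContDiff ℝ 1 g →
    (∀ a, ‖fderiv ℝ f a‖ * (1 + ‖a‖) ^ 3 ≤ A) → (∀ a, ‖fderiv ℝ g a‖ * (1 + ‖a‖) ^ 3 ≤ B) →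
    ∀ z, bb (fun a => f a + g a) z = bb f z + bb g z) ∧
  (∀ (c : ℂ) (f : ℂ → ℂ), ContDiff ℝ 1 f → ∀ z, bb (fun a => c * f a) z = c * bb f z) ∧
  (∀ (b : ℂ) (u : ℝ) (f : ℂ → ℂ), 0 < u → ContDiff ℝ 1 f →
    ∀ z, bb (fun a => f ((a - b) / u)) z = bb f ((z - b) / u))

/-- [A7] linearity of `bH` -/
def ClaimBHadd : Prop := ∀ (m L : ℕ) (y : Fin L → ℂ) (φ : Fin L → ℂ → ℂ), Nodes m L y φ →
  ∀ (ι : Type) (s : Finset ι) (f : ι → ℂ → ℂ) (A : ι → ℝ),
    (∀ i ∈ s, Nice (2 * m + 4) (A i) (f i)) →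
    ∀ z, bH y φ (fun a => ∑ i ∈ s, f i a) z = ∑ i ∈ s, bH y φ (f i) z

/-! ## Group B: conversion of densities to point charges -/

/-- [B1] elementary properties of `np`, `dX` -/
def ClaimDX : Prop := ∀ p : ℝ, 0 < p → p < 1 →
  (∀ f ∈ X, Measurable f) ∧
  (∀ (b : ℂ) (u : ℝ), 0 < u → ∀ f ∈ X, (fun z => f ((z - b) / u)) ∈ X) ∧
  (∀ (b : ℂ) (u : ℝ) (f : ℂ → ℂ), 0 < u →
    np p (fun z => f ((z - b) / u)) = ENNReal.ofReal (u ^ 2) * np p f) ∧
  (∀ f g : ℂ → ℂ, Measurable f → np p (fun z => f z + g z) ≤ np p f + np p g) ∧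
  (∀ f : ℂ → ℂ, dX p f ≤ np p f) ∧
  (∀ f g : ℂ → ℂ, Measurable f → dX p (fun z => f z + g z) ≤ np p f + dX p g) ∧
  (∀ (ι : Type) (s : Finset ι) (f : ι → ℂ → ℂ), (∀ i ∈ s, Measurable (f i)) →
    dX p (fun z => ∑ i ∈ s, f i z) ≤ ∑ i ∈ s, dX p (f i)) ∧
  (∀ f g : ℂ → ℂ, Measurable f → Measurable g → np p f < ⊤ → np p g < ⊤ →
    (fun z => f z - g z) ∈ X → dX p f = dX p g)

/-- [B2] a partition of unity -/
def ClaimPart : Prop := ∃ χ : ℂ → ℂ, ContDiff ℝ 1 χ ∧ (∀ z, ‖χ z‖ ≤ 1) ∧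
  (∃ C, ∀ z, ‖fderiv ℝ χ z‖ ≤ C) ∧ (∀ z, 2 ≤ ‖z‖ → χ z = 0) ∧
  ∃ Θ : ℕ → ℂ → ℂ, (∀ n z, Θ n z = ∑ k ∈ Finset.Icc (-(n : ℤ)) n ×ˢ Finset.Icc (-(n : ℤ)) n,
      χ (z - ((k.1 : ℂ) + k.2 * I))) ∧
    (∀ n, ContDiff ℝ 1 (Θ n)) ∧ (∀ n z, ‖Θ n z‖ ≤ 1) ∧ (∃ C, ∀ n z, ‖fderiv ℝ (Θ n) z‖ ≤ C) ∧
    ∀ (n : ℕ) z, ‖z‖ < n → Θ n z = 1

/-- [B3] one cell -/
def ClaimCell : Prop := ∀ (m : ℕ) (p : ℝ) (L : ℕ) (y : Fin L → ℂ) (φ : Fin L → ℂ → ℂ),
  Nodes m L y φ → 0 < p → p < 1 → 2 < (m + 2) * p →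
  ∀ χ : ℂ → ℂ, ContDiff ℝ 1 χ → (∀ z, ‖χ z‖ ≤ 1) → (∃ C, ∀ z, ‖fderiv ℝ χ z‖ ≤ C) →
  (∀ z, 2 ≤ ‖z‖ → χ z = 0) →
  ∃ C > 0, ∀ (δ : ℝ) (b : ℂ) (α : ℂ → ℂ) (r : ℝ), 0 < δ → ContDiff ℝ 1 α → 0 ≤ r →
    (∀ z, ‖z - b‖ ≤ 2 * δ → ‖α z‖ + δ * ‖fderiv ℝ α z‖ ≤ r) →
    dX p (bH y φ (fun z => α z * χ ((z - b) / δ))) ≤ ENNReal.ofReal (C * δ ^ 2 * r ^ p)

/-- [B4] conversion -/
def ClaimConvert : Prop := ∀ (m : ℕ) (p : ℝ) (L : ℕ) (y : Fin L → ℂ) (φ : Fin L → ℂ → ℂ),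
  Nodes m L y φ → 0 < p → p < 1 → 2 < (m + 2) * p →
  ∃ C : ℝ≥0∞, C < ⊤ ∧ ∀ (A : ℝ) (α : ℂ → ℂ), Nice (2 * m + 5) A α →
    dX p (bH y φ α) ≤ C * np p α

/-! ## Group C: explicit fields -/

/-- [C1] the Newtonian potential of the Poisson kernel -/
def ClaimPot : Prop := ∀ (s : ℝ) (z : ℂ), 0 < s →
  Integrable (fun a : ℂ => ‖z - a‖⁻¹ * (s * (s ^ 2 + ‖a‖ ^ 2) ^ (-(3 / 2) : ℝ))) ∧
  ∫ a : ℂ, ‖z - a‖⁻¹ * (s * (s ^ 2 + ‖a‖ ^ 2) ^ (-(3 / 2) : ℝ)) =
    2 * Real.pi * (s ^ 2 + ‖z‖ ^ 2) ^ (-(1 / 2) : ℝ)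

/-- [C2] -/
def ClaimI1 : Prop := ∀ (s : ℝ) (z : ℂ), 0 < s → bb (hs s) z = ks s z

/-- [C3] -/
def ClaimI2 : Prop := ∀ (s : ℝ) (z : ℂ), 0 < s → bb (fun a => - conj (ks s a)) z = hs s z

/-- [C4] decay of the basic blocks -/
def ClaimDecay : Prop := ∀ M : ℕ, ∃ A, Nice M A (D1 M) ∧ Nice M A (D2 M)

/-- [C5] the pairs of the class -/
def ClaimCs : Prop := ∀ (M : ℕ), 3 ≤ M →
  (∀ F ∈ Cs M, (∃ A, Nice M A (fun z => (F z).1) ∧ Nice M A (fun z => (F z).2)) ∧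
    ∀ z, bb (fun z => (F z).1) z = (F z).2) ∧
  (∀ F ∈ Cs M, ∀ (b : ℂ) (u : ℝ), 0 < u → (fun z => F ((z - b) / u)) ∈ Cs M) ∧
  (∀ F ∈ Cs M, Jq F ∈ Cs M)

/-! ## Group D: the negative functional -/

/-- [D1] Riemann sums -/
def ClaimRS : Prop := ∀ (Φ : ℝ → ℝ) (C c : ℝ), Continuous Φ → 0 < c →
  (∀ y, |Φ y| ≤ C * Real.exp (-(c * |y|))) →
  (∀ x, Tendsto (fun n : ℕ => (n : ℝ)⁻¹ * ∑ i ∈ Finset.Icc (-(n : ℤ) ^ 2) ((n : ℤ) ^ 2),
    Φ (x - i / n)) atTop (𝓝 (∫ y, Φ y))) ∧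
  ∃ C', ∀ (n : ℕ) (x : ℝ),
    |(n : ℝ)⁻¹ * ∑ i ∈ Finset.Icc (-(n : ℤ) ^ 2) ((n : ℤ) ^ 2), Φ (x - i / n)| ≤ C'

/-- radial profiles of `D1`, `D2` -/
noncomputable def d1 (M : ℕ) (v : ℝ) : ℝ :=
  ∑ j ∈ Finset.range (M + 1), ((-1) ^ j * (M.choose j : ℝ)) *
    ((1 + j) * ((1 + j) ^ 2 + v ^ 2) ^ (-(3 / 2) : ℝ))

noncomputable def d2 (M : ℕ) (v : ℝ) : ℝ :=
  ∑ j ∈ Finset.range (M + 1), ((-1) ^ j * (M.choose j : ℝ)) *
    (v * ((1 + j) ^ 2 + v ^ 2) ^ (-(3 / 2) : ℝ))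

/-- Mellin transforms of the profiles -/
noncomputable def P1 (M : ℕ) : ℝ := ∫ y : ℝ, Real.exp (8 / 3 * y) * d1 M (Real.exp y)

noncomputable def P2 (M : ℕ) : ℝ := ∫ y : ℝ, Real.exp (8 / 3 * y) * d2 M (Real.exp y)

noncomputable def I1 : ℝ :=
  ∫ y : ℝ, Real.exp (8 / 3 * y) * (1 + Real.exp (2 * y)) ^ (-(3 / 2) : ℝ)

noncomputable def I2 : ℝ :=
  ∫ y : ℝ, Real.exp (11 / 3 * y) * (Real.exp (-3 * y) - (1 + Real.exp (2 * y)) ^ (-(3 / 2) : ℝ))

/-- [D2] ratio of the two beta integrals -/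
def ClaimRatio : Prop := 0 < I1 ∧ 0 ≤ I2 ∧ I2 ≤ 97 / 125 * I1

/-- [D3] reduction of `P1`, `P2` to `I1`, `I2` -/
def ClaimPP : Prop := ∀ M : ℕ, 3 ≤ M → P1 M < 0 ∧ P2 M * I1 = - (P1 M * I2)

/-- [D4] the one dimensional inequality -/
def ClaimNum1 : Prop :=
  IntegrableOn (fun r : ℝ => ((1 - 79 / 50 * r + r ^ 2) ^ (9 / 50 : ℝ) - 1) *
    r ^ (-(7 / 4) : ℝ)) (Ioi 0) ∧
  ∫ r in Ioi (0 : ℝ), ((1 - 79 / 50 * r + r ^ 2) ^ (9 / 50 : ℝ) - 1) * r ^ (-(7 / 4) : ℝ) < 0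

/-- [D5] the homogeneous field -/
def ClaimNum2 : Prop := ∀ t : ℝ, |t| ≤ 97 / 125 →
  ∫ z : ℂ, (((1 - ‖z‖ ^ (-(8 / 3) : ℝ)) ^ 2 + (t * ‖z‖ ^ (-(8 / 3) : ℝ)) ^ 2) ^ (9 / 50 : ℝ) - 1)
    < 0

/-- [D6] approximation of the homogeneous field by members of the class -/
def ClaimApprox : Prop := ∀ M : ℕ, 3 ≤ M → ∃ t : ℝ, |t| ≤ 97 / 125 ∧ ∃ C > 0,
  ∃ G : ℕ → ℂ → ℂ × ℂ, (∀ n, G n ∈ Cs M) ∧ ∀ z : ℂ, z ≠ 0 →
    (∀ n, ‖(G n z).1‖ ≤ C * ‖z‖ ^ (-(8 / 3) : ℝ) ∧ ‖(G n z).2‖ ≤ C * ‖z‖ ^ (-(8 / 3) : ℝ)) ∧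
    Tendsto (fun n => (G n z).1) atTop (𝓝 ((-‖z‖ ^ (-(8 / 3) : ℝ) : ℝ) : ℂ)) ∧
    Tendsto (fun n => (G n z).2) atTop (𝓝 (z / ‖z‖ * ((t * ‖z‖ ^ (-(8 / 3) : ℝ) : ℝ) : ℂ)))

/-- [D7] the functional is negative on the class -/
def ClaimNeg : Prop := ∀ (M : ℕ) (p : ℝ), 3 ≤ M → 0 < p → p ≤ 9 / 25 →
  ∃ G ∈ Cs M, JJ p G < 0

/-! ## Group E: density -/

/-- [E1] algebra of `q2` -/
def ClaimQ2 : Prop := ∀ p : ℝ, 0 < p → p < 1 →
  (∀ a b, 0 ≤ q2 p a b) ∧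
  (∀ a b a' b' : ℂ, q2 p (a + a') (b + b') ≤ q2 p a b + q2 p a' b') ∧
  (∀ a b x y : ℂ, q2 p (a * x - b * conj y) (a * y + b * conj x) = q2 p a b * q2 p x y) ∧
  (∀ a b : ℂ, ‖a‖ ^ p ≤ q2 p a b ∧ ‖b‖ ^ p ≤ q2 p a b ∧ q2 p a b ≤ ‖a‖ ^ p + ‖b‖ ^ p)

/-- the cube `[-ℓ, ℓ)²`, translated -/
def Cube (c : ℂ) (l : ℝ) : Set ℂ := {z | z.re - c.re ∈ Ico (-l) l ∧ z.im - c.im ∈ Ico (-l) l}

/-- [E2] pairs are approximated by step functions on disjoint equal cubes -/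
def ClaimStep : Prop := ∀ p : ℝ, 0 < p → p < 1 → ∀ E : ℂ → ℂ × ℂ, Measurable E → cost p E < ⊤ →
  ∀ η > 0, ∃ (l : ℝ) (s : Finset ℂ) (v : ℂ → ℂ × ℂ), 0 < l ∧
    (∀ c ∈ s, ∀ c' ∈ s, c ≠ c' → Disjoint (Cube c l) (Cube c' l)) ∧
    cost p (fun z => E z - ∑ c ∈ s, (Cube c l).indicator (fun _ => v c) z) ≤ η

/-- [E3] density of a symmetric class with a negative field -/
def ClaimDens : Prop := ∀ (p : ℝ) (C : Submodule ℂ (ℂ → ℂ × ℂ)), 0 < p → p < 1 →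
  (∀ F ∈ C, Measurable F ∧ cost p F < ⊤) →
  (∀ F ∈ C, ∀ (b : ℂ) (u : ℝ), 0 < u → (fun z => F ((z - b) / u)) ∈ C) →
  (∀ F ∈ C, Jq F ∈ C) → (∃ G ∈ C, JJ p G < 0) →
  ∀ E : ℂ → ℂ × ℂ, Measurable E → cost p E < ⊤ → ∀ η > 0, ∃ F ∈ C,
    cost p (fun z => E z - F z) ≤ η

/-- [F] the result -/
def ClaimMain : Prop := ∀ p : ℝ, 0 < p → p ≤ 9 / 25 → ∀ g : ℂ → ℂ, Measurable g → np p g < ⊤ →
  dX p g = 0

end Pool.Agent.Work.MP_440970_an

end

section

/-!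
# Item D6: approximation of the homogeneous field by members of the class
-/

open MeasureTheory Complex Set Filter Topology
open scoped ENNReal ComplexConjugate

namespace Pool.Agent.Work.MP_440970_an

theorem Approx_D1 (M : ℕ) (z : ℂ) : D1 M z = ((d1 M ‖z‖ : ℝ) : ℂ) := by
  unfold D1 d1 hs
  push_cast
  rfl

theorem Approx_D2' (M : ℕ) (z : ℂ) : D2 M z * ‖z‖ = z * ((d2 M ‖z‖ : ℝ) : ℂ) := by
  unfold D2 d2 ks
  push_cast
  rw [Finset.sum_mul, Finset.mul_sum]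
  refine Finset.sum_congr rfl fun j _ => ?_
  ring

theorem Approx_D2 (M : ℕ) (z : ℂ) (hz : z ≠ 0) :
    D2 M z = z / ‖z‖ * ((d2 M ‖z‖ : ℝ) : ℂ) := by
  have h : (‖z‖ : ℂ) ≠ 0 := by
    rw [Ne, Complex.ofReal_eq_zero]
    exact (norm_pos_iff.2 hz).ne'
  rw [div_mul_eq_mul_div, eq_div_iff h]
  exact Approx_D2' M z

theorem Approx_d1_cont (M : ℕ) : Continuous (d1 M) := by
  unfold d1
  refine continuous_finsetSum _ fun j _ => ?_
  refine continuous_const.mul (continuous_const.mul ?_)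
  refine Continuous.rpow_const (by fun_prop) fun v => Or.inl ?_
  positivity

theorem Approx_d2_cont (M : ℕ) : Continuous (d2 M) := by
  unfold d2
  refine continuous_finsetSum _ fun j _ => ?_
  refine continuous_const.mul (continuous_id.mul ?_)
  refine Continuous.rpow_const (by fun_prop) fun v => Or.inl ?_
  positivity

theorem Approx_exp_bd (M : ℕ) (hM : 3 ≤ M) (A : ℝ) (d : ℝ → ℝ)
    (h : ∀ v, 0 < v → |d v| * (1 + v) ^ M ≤ A) (y : ℝ) :
    |Real.exp (8 / 3 * y) * d (Real.exp y)| ≤ A * Real.exp (-(1 / 3 * |y|)) := by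
  have h1 := h (Real.exp y) (Real.exp_pos y)
  have h2 : (1 : ℝ) ≤ 1 + Real.exp y := by linarith [Real.exp_pos y]
  have h3 : |d (Real.exp y)| * (1 + Real.exp y) ^ 3 ≤ A :=
    le_trans (mul_le_mul_of_nonneg_left (pow_le_pow_right₀ h2 hM) (abs_nonneg _)) h1
  rw [abs_mul, abs_of_pos (Real.exp_pos _)]
  rcases le_total 0 y with hy | hy
  · rw [abs_of_nonneg hy]
    have h4 : Real.exp (3 * y) ≤ (1 + Real.exp y) ^ 3 := by
      have : Real.exp (3 * y) = Real.exp y ^ 3 := by rw [← Real.exp_nat_mul]; norm_num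
      rw [this]
      exact pow_le_pow_left₀ (Real.exp_pos y).le (by linarith) 3
    have h5 : |d (Real.exp y)| * Real.exp (3 * y) ≤ A :=
      le_trans (mul_le_mul_of_nonneg_left h4 (abs_nonneg _)) h3
    have h6 : Real.exp (8 / 3 * y) = Real.exp (3 * y) * Real.exp (-(1 / 3 * y)) := by
      rw [← Real.exp_add]; congr 1; ring
    rw [h6]
    calc Real.exp (3 * y) * Real.exp (-(1 / 3 * y)) * |d (Real.exp y)|
        = (|d (Real.exp y)| * Real.exp (3 * y)) * Real.exp (-(1 / 3 * y)) := by ring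
      _ ≤ A * Real.exp (-(1 / 3 * y)) :=
        mul_le_mul_of_nonneg_right h5 (Real.exp_pos _).le
  · rw [abs_of_nonpos hy]
    have h4 : |d (Real.exp y)| ≤ A := by
      have h5 : (1 : ℝ) ≤ (1 + Real.exp y) ^ 3 := one_le_pow₀ h2
      have := mul_le_mul_of_nonneg_left h5 (abs_nonneg (d (Real.exp y)))
      linarith
    have h6 : Real.exp (8 / 3 * y) ≤ Real.exp (-(1 / 3 * -y)) :=
      Real.exp_le_exp.2 (by linarith)
    calc Real.exp (8 / 3 * y) * |d (Real.exp y)|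
        ≤ Real.exp (-(1 / 3 * -y)) * A := mul_le_mul h6 h4 (abs_nonneg _) (Real.exp_pos _).le
      _ = _ := mul_comm _ _

/-- The approximating pairs. -/
noncomputable def Approx_G (M : ℕ) (n : ℕ) (z : ℂ) : ℂ × ℂ :=
  ∑ i ∈ Finset.Icc (-(n : ℤ) ^ 2) ((n : ℤ) ^ 2),
    (((|P1 M|⁻¹ * (n : ℝ)⁻¹ * Real.exp (-(8 / 3 * (i / n))) : ℝ)) : ℂ) •
      DD M ((z - 0) / (Real.exp (i / n) : ℝ))

theorem Approx_mem (M n : ℕ) : Approx_G M n ∈ Cs M := by
  have : Approx_G M n = ∑ i ∈ Finset.Icc (-(n : ℤ) ^ 2) ((n : ℤ) ^ 2),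
      (((|P1 M|⁻¹ * (n : ℝ)⁻¹ * Real.exp (-(8 / 3 * (i / n))) : ℝ)) : ℂ) •
        (fun z => DD M ((z - 0) / ((Real.exp (i / n) : ℝ) : ℂ))) := by
    funext z
    rw [Finset.sum_apply]
    rfl
  rw [this]
  refine Submodule.sum_mem _ fun i _ => Submodule.smul_mem _ _ (Submodule.subset_span ?_)
  exact Or.inl ⟨0, Real.exp (i / n), Real.exp_pos _, rfl⟩

theorem Approx_term (n : ℕ) (i : ℤ) (z : ℂ) (hz : z ≠ 0) (d : ℝ → ℝ) :
    Real.exp (-(8 / 3 * ((i : ℝ) / n))) * d (‖z‖ / Real.exp (i / n)) =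
      ‖z‖ ^ (-(8 / 3) : ℝ) * (Real.exp (8 / 3 * (Real.log ‖z‖ - i / n)) *
        d (Real.exp (Real.log ‖z‖ - i / n))) := by
  have hz' : 0 < ‖z‖ := norm_pos_iff.2 hz
  have h1 : Real.exp (Real.log ‖z‖ - i / n) = ‖z‖ / Real.exp (i / n) := by
    rw [Real.exp_sub, Real.exp_log hz']
  rw [h1, ← mul_assoc]
  congr 1
  rw [Real.rpow_def_of_pos hz', ← Real.exp_add]
  congr 1
  ring

theorem Approx_fst (M n : ℕ) (z : ℂ) (hz : z ≠ 0) :
    (Approx_G M n z).1 = ((|P1 M|⁻¹ * ‖z‖ ^ (-(8 / 3) : ℝ) * ((n : ℝ)⁻¹ *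
      ∑ i ∈ Finset.Icc (-(n : ℤ) ^ 2) ((n : ℤ) ^ 2),
        Real.exp (8 / 3 * (Real.log ‖z‖ - i / n)) * d1 M (Real.exp (Real.log ‖z‖ - i / n))) :
        ℝ) : ℂ) := by
  unfold Approx_G
  rw [Prod.fst_sum, Finset.mul_sum, Finset.mul_sum, Complex.ofReal_sum]
  refine Finset.sum_congr rfl fun i _ => ?_
  have h := Approx_term n i z hz (d1 M)
  have hn : ‖(z - 0) / ((Real.exp (i / n) : ℝ) : ℂ)‖ = ‖z‖ / Real.exp (i / n) := by
    rw [sub_zero, norm_div, Complex.norm_real, Real.norm_eq_abs, abs_of_pos (Real.exp_pos _)]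
  change (((|P1 M|⁻¹ * (n : ℝ)⁻¹ * Real.exp (-(8 / 3 * (i / n))) : ℝ)) : ℂ) *
    D1 M ((z - 0) / ((Real.exp (i / n) : ℝ) : ℂ)) = _
  rw [Approx_D1, hn, ← Complex.ofReal_mul]
  congr 1
  calc |P1 M|⁻¹ * (n : ℝ)⁻¹ * Real.exp (-(8 / 3 * (i / n))) * d1 M (‖z‖ / Real.exp (i / n))
      = |P1 M|⁻¹ * (n : ℝ)⁻¹ * (Real.exp (-(8 / 3 * (i / n))) *
        d1 M (‖z‖ / Real.exp (i / n))) := by ring
    _ = _ := by rw [h]; ring

theorem Approx_snd (M n : ℕ) (z : ℂ) (hz : z ≠ 0) :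
    (Approx_G M n z).2 = z / ‖z‖ * ((|P1 M|⁻¹ * ‖z‖ ^ (-(8 / 3) : ℝ) * ((n : ℝ)⁻¹ *
      ∑ i ∈ Finset.Icc (-(n : ℤ) ^ 2) ((n : ℤ) ^ 2),
        Real.exp (8 / 3 * (Real.log ‖z‖ - i / n)) * d2 M (Real.exp (Real.log ‖z‖ - i / n))) :
        ℝ) : ℂ) := by
  unfold Approx_G
  rw [Prod.snd_sum, Finset.mul_sum, Finset.mul_sum, Complex.ofReal_sum, Finset.mul_sum]
  refine Finset.sum_congr rfl fun i _ => ?_
  have h := Approx_term n i z hz (d2 M)
  have he : ((Real.exp (i / n) : ℝ) : ℂ) ≠ 0 := by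
    rw [Ne, Complex.ofReal_eq_zero]; exact (Real.exp_pos _).ne'
  have hn : ‖(z - 0) / ((Real.exp (i / n) : ℝ) : ℂ)‖ = ‖z‖ / Real.exp (i / n) := by
    rw [sub_zero, norm_div, Complex.norm_real, Real.norm_eq_abs, abs_of_pos (Real.exp_pos _)]
  have hz1 : (z - 0) / ((Real.exp (i / n) : ℝ) : ℂ) ≠ 0 := by
    rw [sub_zero]; exact div_ne_zero hz he
  have hdir : (z - 0) / ((Real.exp (i / n) : ℝ) : ℂ) /
      ((‖(z - 0) / ((Real.exp (i / n) : ℝ) : ℂ)‖ : ℝ) : ℂ) = z / ‖z‖ := by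
    rw [hn, Complex.ofReal_div, sub_zero, div_div_div_cancel_right₀ he]
  change (((|P1 M|⁻¹ * (n : ℝ)⁻¹ * Real.exp (-(8 / 3 * (i / n))) : ℝ)) : ℂ) *
    D2 M ((z - 0) / ((Real.exp (i / n) : ℝ) : ℂ)) = _
  rw [Approx_D2 M _ hz1, hdir, hn, mul_left_comm, ← Complex.ofReal_mul]
  congr 2
  calc |P1 M|⁻¹ * (n : ℝ)⁻¹ * Real.exp (-(8 / 3 * (i / n))) * d2 M (‖z‖ / Real.exp (i / n))
      = |P1 M|⁻¹ * (n : ℝ)⁻¹ * (Real.exp (-(8 / 3 * (i / n))) *
        d2 M (‖z‖ / Real.exp (i / n))) := by ring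
    _ = _ := by rw [h]; ring

theorem claimApprox (hRS : ClaimRS) (hPP : ClaimPP) (hR : ClaimRatio) (hD : ClaimDecay) :
    ClaimApprox := by
  intro M hM
  obtain ⟨hP1, hP2⟩ := hPP M hM
  obtain ⟨hI1, hI2, hI⟩ := hR
  obtain ⟨A, hA1, hA2⟩ := hD M
  have hP : 0 < |P1 M| := abs_pos.2 hP1.ne
  -- decay of the profiles
  have e1 : ∀ v, 0 < v → |d1 M v| * (1 + v) ^ M ≤ A := by
    intro v hv
    have h := hA1.bd (v : ℂ)
    have hv' : ‖(v : ℂ)‖ = v := by rw [Complex.norm_real, Real.norm_eq_abs, abs_of_pos hv]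
    rw [Approx_D1, Complex.norm_real, hv', Real.norm_eq_abs] at h
    exact h
  have e2 : ∀ v, 0 < v → |d2 M v| * (1 + v) ^ M ≤ A := by
    intro v hv
    have h := hA2.bd (v : ℂ)
    have hv' : ‖(v : ℂ)‖ = v := by rw [Complex.norm_real, Real.norm_eq_abs, abs_of_pos hv]
    have hv0 : (v : ℂ) ≠ 0 := by rw [Ne, Complex.ofReal_eq_zero]; exact hv.ne'
    rw [Approx_D2 M _ hv0, hv', div_self hv0, one_mul, Complex.norm_real, Real.norm_eq_abs] at h
    exact h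
  have r1 := hRS (fun y => Real.exp (8 / 3 * y) * d1 M (Real.exp y)) A (1 / 3)
    ((by fun_prop : Continuous fun y : ℝ => Real.exp (8 / 3 * y)).mul
      ((Approx_d1_cont M).comp Real.continuous_exp)) (by norm_num)
    (Approx_exp_bd M hM A (d1 M) e1)
  have r2 := hRS (fun y => Real.exp (8 / 3 * y) * d2 M (Real.exp y)) A (1 / 3)
    ((by fun_prop : Continuous fun y : ℝ => Real.exp (8 / 3 * y)).mul
      ((Approx_d2_cont M).comp Real.continuous_exp)) (by norm_num)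
    (Approx_exp_bd M hM A (d2 M) e2)
  obtain ⟨lim1, C1, hC1⟩ := r1
  obtain ⟨lim2, C2, hC2⟩ := r2
  have ht : P2 M * |P1 M|⁻¹ = I2 / I1 := by
    have hne : P1 M ≠ 0 := hP1.ne
    rw [eq_div_iff hI1.ne', mul_right_comm, hP2, abs_of_neg hP1]
    field_simp
  refine ⟨P2 M * |P1 M|⁻¹, ?_, |P1 M|⁻¹ * (|C1| + |C2| + 1), by positivity, Approx_G M,
    Approx_mem M, ?_⟩
  · rw [ht, abs_of_nonneg (div_nonneg hI2 hI1.le), div_le_iff₀ hI1]
    exact hI
  · intro z hz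
    have hz' : 0 < ‖z‖ := norm_pos_iff.2 hz
    have hr : 0 ≤ ‖z‖ ^ (-(8 / 3) : ℝ) := Real.rpow_nonneg (norm_nonneg _) _
    have hzz : ‖z / ‖z‖‖ = 1 := by
      rw [norm_div, Complex.norm_real, norm_norm, div_self hz'.ne']
    refine ⟨fun n => ⟨?_, ?_⟩, ?_, ?_⟩
    · rw [Approx_fst M n z hz, Complex.norm_real, Real.norm_eq_abs, abs_mul, abs_mul,
        abs_of_pos (inv_pos.2 hP), abs_of_nonneg hr]
      have h1 := hC1 n (Real.log ‖z‖)
      have h2 : |(n : ℝ)⁻¹ * ∑ i ∈ Finset.Icc (-(n : ℤ) ^ 2) ((n : ℤ) ^ 2),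
          Real.exp (8 / 3 * (Real.log ‖z‖ - i / n)) * d1 M (Real.exp (Real.log ‖z‖ - i / n))| ≤
          |C1| + |C2| + 1 := by
        refine h1.trans ?_
        linarith [le_abs_self C1, abs_nonneg C2]
      calc |P1 M|⁻¹ * ‖z‖ ^ (-(8 / 3) : ℝ) * _ ≤ |P1 M|⁻¹ * ‖z‖ ^ (-(8 / 3) : ℝ) *
            (|C1| + |C2| + 1) := mul_le_mul_of_nonneg_left h2 (by positivity)
        _ = _ := by ring
    · rw [Approx_snd M n z hz, norm_mul, hzz, one_mul, Complex.norm_real, Real.norm_eq_abs,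
        abs_mul, abs_mul, abs_of_pos (inv_pos.2 hP), abs_of_nonneg hr]
      have h1 := hC2 n (Real.log ‖z‖)
      have h2 : |(n : ℝ)⁻¹ * ∑ i ∈ Finset.Icc (-(n : ℤ) ^ 2) ((n : ℤ) ^ 2),
          Real.exp (8 / 3 * (Real.log ‖z‖ - i / n)) * d2 M (Real.exp (Real.log ‖z‖ - i / n))| ≤
          |C1| + |C2| + 1 := by
        refine h1.trans ?_
        linarith [le_abs_self C2, abs_nonneg C1]
      calc |P1 M|⁻¹ * ‖z‖ ^ (-(8 / 3) : ℝ) * _ ≤ |P1 M|⁻¹ * ‖z‖ ^ (-(8 / 3) : ℝ) *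
            (|C1| + |C2| + 1) := mul_le_mul_of_nonneg_left h2 (by positivity)
        _ = _ := by ring
    · have h1 := (lim1 (Real.log ‖z‖)).const_mul (|P1 M|⁻¹ * ‖z‖ ^ (-(8 / 3) : ℝ))
      have h2 : |P1 M|⁻¹ * ‖z‖ ^ (-(8 / 3) : ℝ) *
          (∫ y, Real.exp (8 / 3 * y) * d1 M (Real.exp y)) = -‖z‖ ^ (-(8 / 3) : ℝ) := by
        change |P1 M|⁻¹ * ‖z‖ ^ (-(8 / 3) : ℝ) * P1 M = _
        rw [abs_of_neg hP1]
        have := hP1.ne
        field_simp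
      rw [h2] at h1
      have h3 := (Complex.continuous_ofReal.tendsto _).comp h1
      refine h3.congr fun n => ?_
      rw [Approx_fst M n z hz]
      rfl
    · have h1 := (lim2 (Real.log ‖z‖)).const_mul (|P1 M|⁻¹ * ‖z‖ ^ (-(8 / 3) : ℝ))
      have h2 : |P1 M|⁻¹ * ‖z‖ ^ (-(8 / 3) : ℝ) *
          (∫ y, Real.exp (8 / 3 * y) * d2 M (Real.exp y)) =
          P2 M * |P1 M|⁻¹ * ‖z‖ ^ (-(8 / 3) : ℝ) := by
        change |P1 M|⁻¹ * ‖z‖ ^ (-(8 / 3) : ℝ) * P2 M = _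
        ring
      rw [h2] at h1
      have h3 := ((Complex.continuous_ofReal.tendsto _).comp h1).const_mul (z / ‖z‖)
      refine h3.congr fun n => ?_
      rw [Approx_snd M n z hz]
      rfl

end Pool.Agent.Work.MP_440970_an

end

section

/-!
# [A7] linearity and scaling of `bb`, linearity of `bH`
-/

open MeasureTheory Complex Set Filter Topology
open scoped ENNReal ComplexConjugate

namespace Pool.Agent.Work.MP_440970_an

theorem BbLin_dbar_add {f g : ℂ → ℂ} (hf : ContDiff ℝ 1 f) (hg : ContDiff ℝ 1 g) (a : ℂ) :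
    dbar2 (fun a => f a + g a) a = dbar2 f a + dbar2 g a := by
  have h1 : DifferentiableAt ℝ f a := (hf.differentiable (by norm_num)) a
  have h2 : DifferentiableAt ℝ g a := (hg.differentiable (by norm_num)) a
  unfold dbar2
  have : fderiv ℝ (fun a => f a + g a) a = fderiv ℝ f a + fderiv ℝ g a := fderiv_add h1 h2
  rw [this]
  simp only [add_apply]
  ring

theorem BbLin_dbar_mul {f : ℂ → ℂ} (hf : ContDiff ℝ 1 f) (c : ℂ) (a : ℂ) :
    dbar2 (fun a => c * f a) a = c * dbar2 f a := by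
  have h1 : DifferentiableAt ℝ f a := (hf.differentiable (by norm_num)) a
  unfold dbar2
  have : fderiv ℝ (fun a => c * f a) a = c • fderiv ℝ f a := fderiv_const_mul h1 c
  rw [this]
  simp only [smul_apply, smul_eq_mul]
  ring

theorem BbLin_dbar_scale {f : ℂ → ℂ} (hf : ContDiff ℝ 1 f) (b : ℂ) {u : ℝ} (hu : 0 < u) (a : ℂ) :
    dbar2 (fun a => f ((a - b) / u)) a = (u : ℂ)⁻¹ * dbar2 f ((a - b) / u) := by
  have h1 : HasFDerivAt f (fderiv ℝ f ((a - b) / u)) ((a - b) / u) :=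
    ((hf.differentiable (by norm_num)) _).hasFDerivAt
  have h2 : HasFDerivAt (fun a : ℂ => (a - b) / u)
      ((u⁻¹ : ℝ) • ContinuousLinearMap.id ℝ ℂ) a := by
    refine (((hasFDerivAt_id a).sub_const b).const_smul (u⁻¹ : ℝ)).congr_of_eventuallyEq
      (Eventually.of_forall fun a => ?_)
    simp only [Pi.smul_apply, id, Complex.real_smul, ofReal_inv]
    rw [div_eq_inv_mul]
  have h4 := (h1.comp a h2).fderiv
  have h5 : fderiv ℝ (fun a => f ((a - b) / u)) a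
      = (fderiv ℝ f ((a - b) / u)).comp ((u⁻¹ : ℝ) • ContinuousLinearMap.id ℝ ℂ) := h4
  have h6 : ∀ v : ℂ, (fderiv ℝ f ((a - b) / u)).comp ((u⁻¹ : ℝ) • ContinuousLinearMap.id ℝ ℂ) v
      = (u : ℂ)⁻¹ * fderiv ℝ f ((a - b) / u) v := by
    intro v
    have : (fderiv ℝ f ((a - b) / u)).comp ((u⁻¹ : ℝ) • ContinuousLinearMap.id ℝ ℂ) v
      = fderiv ℝ f ((a - b) / u) ((u⁻¹ : ℝ) • v) := rfl
    rw [this, map_smul, Complex.real_smul, ofReal_inv]
  unfold dbar2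
  rw [h5, h6, h6]
  ring

theorem BbLin_dbar_cont {f : ℂ → ℂ} (hf : ContDiff ℝ 1 f) : Continuous (dbar2 f) := by
  have h := hf.continuous_fderiv (by norm_num)
  unfold dbar2
  exact (h.clm_apply continuous_const).add (continuous_const.mul (h.clm_apply continuous_const))

theorem BbLin_dbar_norm (f : ℂ → ℂ) (a : ℂ) : ‖dbar2 f a‖ ≤ 2 * ‖fderiv ℝ f a‖ := by
  unfold dbar2
  have h1 : ‖fderiv ℝ f a 1‖ ≤ ‖fderiv ℝ f a‖ * ‖(1 : ℂ)‖ := (fderiv ℝ f a).le_opNorm 1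
  have h2 : ‖fderiv ℝ f a I‖ ≤ ‖fderiv ℝ f a‖ * ‖I‖ := (fderiv ℝ f a).le_opNorm I
  rw [norm_one, mul_one] at h1
  rw [Complex.norm_I, mul_one] at h2
  calc ‖fderiv ℝ f a 1 + I * fderiv ℝ f a I‖ ≤ ‖fderiv ℝ f a 1‖ + ‖I * fderiv ℝ f a I‖ :=
        norm_add_le _ _
    _ = ‖fderiv ℝ f a 1‖ + ‖fderiv ℝ f a I‖ := by rw [norm_mul, Complex.norm_I, one_mul]
    _ ≤ _ := by linarith

theorem BbLin_integrable (hS : ClaimSing) {A : ℝ} {f : ℂ → ℂ} (hf : ContDiff ℝ 1 f)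
    (hA : ∀ a, ‖fderiv ℝ f a‖ * (1 + ‖a‖) ^ 3 ≤ A) (z : ℂ) :
    Integrable (fun a => (‖z - a‖ : ℂ)⁻¹ * dbar2 f a) := by
  obtain ⟨C, -, hC⟩ := hS
  refine ((hC z).1.const_mul (2 * A)).mono' ?_ (Eventually.of_forall fun a => ?_)
  · refine AEStronglyMeasurable.mul ?_ (BbLin_dbar_cont hf).aestronglyMeasurable
    have : Measurable fun a : ℂ => (‖z - a‖ : ℂ)⁻¹ := by fun_prop
    exact this.aestronglyMeasurable
  · have h1 : 0 < (1 + ‖a‖) ^ 3 := by positivity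
    have h2 : ‖fderiv ℝ f a‖ ≤ A * (1 + ‖a‖) ^ (-(3 : ℝ)) := by
      rw [Real.rpow_neg (by positivity)]
      have : (1 + ‖a‖) ^ (3 : ℝ) = (1 + ‖a‖) ^ 3 := by
        rw [← Real.rpow_natCast]; norm_num
      rw [this, ← div_eq_mul_inv, le_div_iff₀ h1]
      exact hA a
    rw [norm_mul, norm_inv, norm_real, norm_norm]
    have h3 := BbLin_dbar_norm f a
    have h4 : 0 ≤ ‖z - a‖⁻¹ := by positivity
    calc ‖z - a‖⁻¹ * ‖dbar2 f a‖ ≤ ‖z - a‖⁻¹ * (2 * (A * (1 + ‖a‖) ^ (-(3 : ℝ)))) := by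
          apply mul_le_mul_of_nonneg_left _ h4
          linarith
      _ = _ := by ring

theorem claimBb (hS : ClaimSing) : ClaimBb := by
  refine ⟨?_, ?_, ?_⟩
  · intro A B f g hf hg hA hB z
    unfold bb
    rw [← mul_add, ← integral_add (BbLin_integrable hS hf hA z) (BbLin_integrable hS hg hB z)]
    congr 1
    refine integral_congr_ae (Eventually.of_forall fun a => ?_)
    simp only
    rw [BbLin_dbar_add hf hg]
    ring
  · intro c f hf z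
    unfold bb
    have : ∫ a, (‖z - a‖ : ℂ)⁻¹ * dbar2 (fun a => c * f a) a
        = c * ∫ a, (‖z - a‖ : ℂ)⁻¹ * dbar2 f a := by
      rw [← integral_const_mul]
      refine integral_congr_ae (Eventually.of_forall fun a => ?_)
      simp only
      rw [BbLin_dbar_mul hf]
      ring
    rw [this]
    ring
  · intro b u f hu hf z
    unfold bb
    congr 1
    have hu' : (u : ℂ) ≠ 0 := by exact_mod_cast hu.ne'
    let G : ℂ → ℂ := fun a' => (u : ℂ)⁻¹ * (u : ℂ)⁻¹ *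
      ((‖(z - b) / u - a'‖ : ℂ)⁻¹ * dbar2 f a')
    have h1 : ∫ a, (‖z - a‖ : ℂ)⁻¹ * dbar2 (fun a => f ((a - b) / u)) a
        = ∫ a, G ((u⁻¹ : ℝ) • (a - b)) := by
      refine integral_congr_ae (Eventually.of_forall fun a => ?_)
      simp only
      rw [BbLin_dbar_scale hf b hu]
      have e1 : (u⁻¹ : ℝ) • (a - b) = (a - b) / u := by
        rw [Complex.real_smul, ofReal_inv, div_eq_inv_mul]
      have e2 : ‖z - a‖ = u * ‖(z - b) / u - (a - b) / u‖ := by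
        have e3 : (z - b) / u - (a - b) / u = (z - a) / u := by
          field_simp
          ring
        rw [e3, norm_div, norm_real, Real.norm_of_nonneg hu.le]
        field_simp
      simp only [G]
      rw [e1, e2]
      push_cast
      rw [mul_inv]
      ring
    rw [h1, integral_sub_right_eq_self (fun a => G ((u⁻¹ : ℝ) • a)) b,
      Measure.integral_comp_inv_smul volume G u, Complex.finrank_real_complex]
    simp only [G]
    rw [integral_const_mul, abs_of_nonneg (by positivity : (0 : ℝ) ≤ u ^ 2), Complex.real_smul]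
    push_cast
    field_simp

theorem BbLin_pow_mono {k : ℕ} (hk : 3 ≤ k) (a : ℂ) : (1 + ‖a‖) ^ 3 ≤ (1 + ‖a‖) ^ k :=
  pow_le_pow_right₀ (by linarith [norm_nonneg a]) hk

theorem BbLin_bd3 {k : ℕ} (hk : 3 ≤ k) {A : ℝ} {f : ℂ → ℂ} (hf : Nice k A f) (a : ℂ) :
    ‖fderiv ℝ f a‖ * (1 + ‖a‖) ^ 3 ≤ A :=
  (mul_le_mul_of_nonneg_left (BbLin_pow_mono hk a) (norm_nonneg _)).trans (hf.bd' a)

theorem BbLin_nice_add {k : ℕ} {A B : ℝ} {f g : ℂ → ℂ} (hf : Nice k A f) (hg : Nice k B g) :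
    Nice k (A + B) (fun a => f a + g a) := by
  refine ⟨hf.smooth.add hg.smooth, fun a => ?_, fun a => ?_⟩
  · have h1 := hf.bd a
    have h2 := hg.bd a
    have h3 : 0 ≤ (1 + ‖a‖) ^ k := by positivity
    have h4 := mul_le_mul_of_nonneg_right (norm_add_le (f a) (g a)) h3
    linarith [add_mul ‖f a‖ ‖g a‖ ((1 + ‖a‖) ^ k)]
  · have h1 := hf.bd' a
    have h2 := hg.bd' a
    have h3 : 0 ≤ (1 + ‖a‖) ^ k := by positivity
    have e : fderiv ℝ (fun a => f a + g a) a = fderiv ℝ f a + fderiv ℝ g a :=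
      fderiv_add ((hf.smooth.differentiable (by norm_num)) a)
        ((hg.smooth.differentiable (by norm_num)) a)
    rw [e]
    have h4 := mul_le_mul_of_nonneg_right (norm_add_le (fderiv ℝ f a) (fderiv ℝ g a)) h3
    linarith [add_mul ‖fderiv ℝ f a‖ ‖fderiv ℝ g a‖ ((1 + ‖a‖) ^ k)]

theorem BbLin_nice_zero (k : ℕ) : Nice k 0 (fun _ => (0 : ℂ)) := by
  refine ⟨contDiff_const, fun a => ?_, fun a => ?_⟩
  · simp
  · simp

theorem BbLin_nice_sum {k : ℕ} {ι : Type} (s : Finset ι) (f : ι → ℂ → ℂ) (A : ι → ℝ)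
    (hf : ∀ i ∈ s, Nice k (A i) (f i)) : Nice k (∑ i ∈ s, A i) (fun a => ∑ i ∈ s, f i a) := by
  classical
  induction s using Finset.induction_on with
  | empty =>
    simp only [Finset.sum_empty]
    exact BbLin_nice_zero k
  | insert i s hi ih =>
    simp only [Finset.sum_insert hi]
    exact BbLin_nice_add (hf i (Finset.mem_insert_self _ _))
      (ih fun j hj => hf j (Finset.mem_insert_of_mem hj))

theorem BbLin_int_pol (hP : ClaimPol) {m : ℕ} {P : ℂ → ℂ} (hPm : P ∈ Pol m) {A : ℝ} {h : ℂ → ℂ}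
    (hh : Nice (2 * m + 4) A h) : Integrable (fun a => P a * h a) := by
  obtain ⟨hP1, ⟨C, hC⟩, -⟩ := hP m P hPm
  have hint : Integrable (fun a : ℂ => (1 + ‖a‖) ^ (-(4 : ℝ))) :=
    integrable_one_add_norm (by rw [Complex.finrank_real_complex]; norm_num)
  refine (hint.const_mul (C * A)).mono' ?_ (Eventually.of_forall fun a => ?_)
  · exact (hP1.continuous.mul hh.smooth.continuous).aestronglyMeasurable
  · have h1 : 0 < 1 + ‖a‖ := by positivity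
    rw [norm_mul, Real.rpow_neg h1.le]
    have e4 : (1 + ‖a‖) ^ (4 : ℝ) = (1 + ‖a‖) ^ 4 := by
      rw [← Real.rpow_natCast]; norm_num
    rw [e4, ← div_eq_mul_inv, le_div_iff₀ (by positivity)]
    have h2 := hC a
    have h3 := hh.bd a
    have h4 : (1 + ‖a‖) ^ (2 * m + 4) = (1 + ‖a‖) ^ (2 * m) * (1 + ‖a‖) ^ 4 := pow_add _ _ _
    rw [h4] at h3
    have hC0 : 0 ≤ C := by
      have := (norm_nonneg _).trans h2
      have hp : 0 < (1 + ‖a‖) ^ (2 * m) := by positivity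
      by_contra hneg
      push Not at hneg
      have := mul_neg_of_neg_of_pos hneg hp
      linarith
    calc ‖P a‖ * ‖h a‖ * (1 + ‖a‖) ^ 4
        ≤ (C * (1 + ‖a‖) ^ (2 * m)) * ‖h a‖ * (1 + ‖a‖) ^ 4 := by
          apply mul_le_mul_of_nonneg_right _ (by positivity)
          exact mul_le_mul_of_nonneg_right h2 (norm_nonneg _)
      _ = C * (‖h a‖ * ((1 + ‖a‖) ^ (2 * m) * (1 + ‖a‖) ^ 4)) := by ring
      _ ≤ C * A := mul_le_mul_of_nonneg_left h3 hC0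

theorem BbLin_bH_add (hP : ClaimPol) (hB : ClaimBb) {m L : ℕ} {y : Fin L → ℂ}
    {φ : Fin L → ℂ → ℂ} (hN : Nodes m L y φ) {A B : ℝ} {f g : ℂ → ℂ}
    (hf : Nice (2 * m + 4) A f) (hg : Nice (2 * m + 4) B g) (z : ℂ) :
    bH y φ (fun a => f a + g a) z = bH y φ f z + bH y φ g z := by
  unfold bH
  rw [hB.1 A B f g hf.smooth hg.smooth (BbLin_bd3 (by omega) hf) (BbLin_bd3 (by omega) hg) z]
  have h1 : ∀ l, ∫ a, φ l a * (f a + g a) = (∫ a, φ l a * f a) + ∫ a, φ l a * g a := by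
    intro l
    rw [← integral_add (BbLin_int_pol hP (hN.mem l) hf) (BbLin_int_pol hP (hN.mem l) hg)]
    refine integral_congr_ae (Eventually.of_forall fun a => ?_)
    simp only
    ring
  have h2 : ∑ l, (∫ a, φ l a * (f a + g a)) * K (z - y l)
      = (∑ l, (∫ a, φ l a * f a) * K (z - y l)) + ∑ l, (∫ a, φ l a * g a) * K (z - y l) := by
    rw [← Finset.sum_add_distrib]
    refine Finset.sum_congr rfl fun l _ => ?_
    rw [h1 l]
    ring
  rw [h2]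
  ring

theorem BbLin_bH_zero {L : ℕ} (y : Fin L → ℂ) (φ : Fin L → ℂ → ℂ) (z : ℂ) :
    bH y φ (fun _ => 0) z = 0 := by
  unfold bH bb
  have h : ∀ a, dbar2 (fun _ : ℂ => (0 : ℂ)) a = 0 := by
    intro a
    unfold dbar2
    simp
  simp [h]

theorem claimBHadd (hP : ClaimPol) (hB : ClaimBb) : ClaimBHadd := by
  classical
  intro m L y φ hN ι s f A hf z
  induction s using Finset.induction_on with
  | empty =>
    simp only [Finset.sum_empty]
    exact BbLin_bH_zero y φ z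
  | insert i s hi ih =>
    have hs : ∀ j ∈ s, Nice (2 * m + 4) (A j) (f j) :=
      fun j hj => hf j (Finset.mem_insert_of_mem hj)
    simp only [Finset.sum_insert hi]
    rw [BbLin_bH_add hP hB hN (hf i (Finset.mem_insert_self _ _)) (BbLin_nice_sum s f A hs) z,
      ih hs]

end Pool.Agent.Work.MP_440970_an

end

section

/-!
# [B3] One cell
-/

open MeasureTheory Complex Set Filter Topology
open scoped ENNReal ComplexConjugate

namespace Pool.Agent.Work.MP_440970_an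

theorem Cell_K_div {δ : ℝ} (hδ : 0 < δ) (w : ℂ) : K (w / δ) = (δ : ℂ) ^ 2 * K w := by
  unfold K
  have h1 : ‖w / (δ : ℂ)‖ = ‖w‖ / δ := by
    rw [norm_div, Complex.norm_real, Real.norm_of_nonneg hδ.le]
  have h2 : (δ : ℂ) ≠ 0 := by exact_mod_cast hδ.ne'
  rw [h1]
  push_cast
  by_cases hw : w = 0
  · simp [hw]
  · have h3 : (‖w‖ : ℂ) ≠ 0 := by exact_mod_cast (norm_pos_iff.2 hw).ne'
    field_simp

theorem Cell_K_mem (a : ℂ) : (fun z : ℂ => K (z - a)) ∈ X :=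
  Submodule.subset_span ⟨a, rfl⟩

/-- The rescaled cell is in the weighted space. -/
theorem Cell_nice {χ α : ℂ → ℂ} {Cχ r δ : ℝ} {b : ℂ} (hχ : ContDiff ℝ 1 χ)
    (h1 : ∀ z, ‖χ z‖ ≤ 1) (h2 : ∀ z, ‖fderiv ℝ χ z‖ ≤ Cχ) (h3 : ∀ z, 2 ≤ ‖z‖ → χ z = 0)
    (hδ : 0 < δ) (hα : ContDiff ℝ 1 α) (hr : 0 ≤ r)
    (hb : ∀ z, ‖z - b‖ ≤ 2 * δ → ‖α z‖ + δ * ‖fderiv ℝ α z‖ ≤ r) (N : ℕ) :
    Nice N (3 ^ N * (1 + Cχ) * r) (fun w => α (b + δ • w) * χ w) := by
  have hC : 0 ≤ Cχ := (norm_nonneg _).trans (h2 0)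
  have hT : ∀ w : ℂ, HasFDerivAt (fun w : ℂ => b + δ • w) (δ • ContinuousLinearMap.id ℝ ℂ) w :=
    fun w => ((hasFDerivAt_id w).const_smul δ).const_add b
  have hTs : ContDiff ℝ 1 (fun w : ℂ => b + δ • w) := contDiff_const.add (contDiff_const_smul δ)
  have hsm : ContDiff ℝ 1 (fun w => α (b + δ • w) * χ w) := (hα.comp hTs).mul hχ
  have hin : ∀ w : ℂ, ‖w‖ ≤ 2 →
      ‖α (b + δ • w)‖ + δ * ‖fderiv ℝ α (b + δ • w)‖ ≤ r := by
    intro w hw
    apply hb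
    rw [add_sub_cancel_left, norm_smul, Real.norm_of_nonneg hδ.le]
    nlinarith
  have hder : ∀ w : ℂ, ‖w‖ ≤ 2 → ‖fderiv ℝ (fun w => α (b + δ • w) * χ w) w‖ ≤ (1 + Cχ) * r := by
    intro w hw
    have e1 : HasFDerivAt (fun w => α (b + δ • w))
        ((fderiv ℝ α (b + δ • w)).comp (δ • ContinuousLinearMap.id ℝ ℂ)) w :=
      (hα.differentiable one_ne_zero (b + δ • w)).hasFDerivAt.comp w (hT w)
    have e2 : HasFDerivAt χ (fderiv ℝ χ w) w := (hχ.differentiable one_ne_zero w).hasFDerivAt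
    have e3 := (e1.mul e2).fderiv
    have e4 : ‖(fderiv ℝ α (b + δ • w)).comp (δ • ContinuousLinearMap.id ℝ ℂ)‖ ≤
        δ * ‖fderiv ℝ α (b + δ • w)‖ := by
      rw [ContinuousLinearMap.comp_smul, ContinuousLinearMap.comp_id, norm_smul,
        Real.norm_of_nonneg hδ.le]
    have e5 := hin w hw
    have e6 : 0 ≤ δ * ‖fderiv ℝ α (b + δ • w)‖ := by positivity
    have e7 : ‖α (b + δ • w)‖ ≤ r := by linarith
    have e8 : fderiv ℝ (fun w => α (b + δ • w) * χ w) w =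
        α (b + δ • w) • fderiv ℝ χ w +
          χ w • (fderiv ℝ α (b + δ • w)).comp (δ • ContinuousLinearMap.id ℝ ℂ) := e3
    rw [e8]
    calc ‖α (b + δ • w) • fderiv ℝ χ w +
          χ w • (fderiv ℝ α (b + δ • w)).comp (δ • ContinuousLinearMap.id ℝ ℂ)‖
        ≤ ‖α (b + δ • w)‖ * ‖fderiv ℝ χ w‖ +
          ‖χ w‖ * ‖(fderiv ℝ α (b + δ • w)).comp (δ • ContinuousLinearMap.id ℝ ℂ)‖ := by
          refine (norm_add_le _ _).trans (add_le_add ?_ ?_) <;> rw [norm_smul]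
      _ ≤ r * Cχ + 1 * (δ * ‖fderiv ℝ α (b + δ • w)‖) := by
          refine add_le_add (mul_le_mul e7 (h2 w) (norm_nonneg _) hr)
            (mul_le_mul (h1 w) e4 (norm_nonneg _) zero_le_one)
      _ ≤ (1 + Cχ) * r := by
          have : 0 ≤ ‖α (b + δ • w)‖ := norm_nonneg _
          nlinarith
  have hval : ∀ w : ℂ, ‖w‖ ≤ 2 → ‖α (b + δ • w) * χ w‖ ≤ (1 + Cχ) * r := by
    intro w hw
    have e5 := hin w hw
    have e6 : 0 ≤ δ * ‖fderiv ℝ α (b + δ • w)‖ := by positivity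
    rw [norm_mul]
    have e7 : ‖α (b + δ • w)‖ * ‖χ w‖ ≤ ‖α (b + δ • w)‖ * 1 :=
      mul_le_mul_of_nonneg_left (h1 w) (norm_nonneg _)
    nlinarith [mul_nonneg hC hr]
  have hw3 : ∀ w : ℂ, ‖w‖ ≤ 2 → (1 + ‖w‖) ^ N ≤ (3 : ℝ) ^ N := by
    intro w hw
    exact pow_le_pow_left₀ (by positivity) (by linarith) N
  have hzero : ∀ w : ℂ, 2 < ‖w‖ → (fun w => α (b + δ • w) * χ w) =ᶠ[𝓝 w] fun _ => 0 := by
    intro w hw
    have : {w : ℂ | 2 < ‖w‖} ∈ 𝓝 w := (isOpen_lt continuous_const continuous_norm).mem_nhds hw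
    filter_upwards [this] with v hv
    rw [h3 v (le_of_lt hv), mul_zero]
  have hA : 0 ≤ 3 ^ N * (1 + Cχ) * r := by positivity
  refine ⟨hsm, fun w => ?_, fun w => ?_⟩
  · rcases le_or_gt ‖w‖ 2 with hw | hw
    · calc ‖α (b + δ • w) * χ w‖ * (1 + ‖w‖) ^ N ≤ ((1 + Cχ) * r) * 3 ^ N :=
          mul_le_mul (hval w hw) (hw3 w hw) (by positivity) (by positivity)
        _ = 3 ^ N * (1 + Cχ) * r := by ring
    · have := (hzero w hw).eq_of_nhds
      rw [this, norm_zero, zero_mul]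
      exact hA
  · rcases le_or_gt ‖w‖ 2 with hw | hw
    · calc ‖fderiv ℝ (fun w => α (b + δ • w) * χ w) w‖ * (1 + ‖w‖) ^ N ≤ ((1 + Cχ) * r) * 3 ^ N :=
          mul_le_mul (hder w hw) (hw3 w hw) (by positivity) (by positivity)
        _ = 3 ^ N * (1 + Cχ) * r := by ring
    · rw [(hzero w hw).fderiv_eq]
      simpa using hA

/-- Dilations preserve the weighted spaces. -/
theorem Cell_dil {N : ℕ} {A : ℝ} {a : ℂ → ℂ} (h : Nice N A a) (b : ℂ) {δ : ℝ} (hδ : 0 < δ) :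
    ∃ A', Nice N A' (fun z => a ((z - b) / δ)) := by
  have hT : ∀ z : ℂ, HasFDerivAt (fun z : ℂ => (z - b) / (δ : ℂ))
      (δ⁻¹ • ContinuousLinearMap.id ℝ ℂ) z := by
    intro z
    have e1 : (fun z : ℂ => (z - b) / (δ : ℂ)) = fun z : ℂ => δ⁻¹ • (z - b) := by
      funext z
      rw [Complex.real_smul, div_eq_inv_mul]
      push_cast
      rfl
    rw [e1]
    exact ((hasFDerivAt_id z).sub_const b).const_smul δ⁻¹
  have hTs : ContDiff ℝ 1 (fun z : ℂ => (z - b) / (δ : ℂ)) :=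
    (contDiff_id.sub contDiff_const).div_const _
  have hw : ∀ z : ℂ, (1 + ‖z‖) ^ N ≤ (1 + ‖b‖ + δ) ^ N * (1 + ‖(z - b) / (δ : ℂ)‖) ^ N := by
    intro z
    rw [← mul_pow]
    refine pow_le_pow_left₀ (by positivity) ?_ N
    have e1 : ‖(z - b) / (δ : ℂ)‖ = ‖z - b‖ / δ := by
      rw [norm_div, Complex.norm_real, Real.norm_of_nonneg hδ.le]
    rw [e1]
    have e2 : ‖z‖ ≤ ‖z - b‖ + ‖b‖ := by
      calc ‖z‖ = ‖(z - b) + b‖ := by rw [sub_add_cancel]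
        _ ≤ _ := norm_add_le _ _
    have e3 : (1 + ‖b‖ + δ) * (1 + ‖z - b‖ / δ) =
        1 + ‖b‖ + δ + (1 + ‖b‖) * (‖z - b‖ / δ) + ‖z - b‖ := by
      field_simp
      ring
    rw [e3]
    have e4 : 0 ≤ (1 + ‖b‖) * (‖z - b‖ / δ) := by positivity
    linarith
  have hA : 0 ≤ A := by
    have := h.bd 0
    exact (by positivity : (0 : ℝ) ≤ ‖a 0‖ * (1 + ‖(0 : ℂ)‖) ^ N).trans this
  obtain ⟨W, hW⟩ : ∃ W, W = (1 + ‖b‖ + δ) ^ N := ⟨_, rfl⟩
  have hW0 : 0 ≤ W := by rw [hW]; positivity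
  have hd0 : 0 ≤ δ⁻¹ := (inv_pos.2 hδ).le
  refine ⟨W * A * (1 + δ⁻¹), h.smooth.comp hTs, fun z => ?_, fun z => ?_⟩
  · have e1 := h.bd ((z - b) / δ)
    have e2 := hw z
    rw [← hW] at e2
    calc ‖a ((z - b) / δ)‖ * (1 + ‖z‖) ^ N
        ≤ ‖a ((z - b) / δ)‖ * (W * (1 + ‖(z - b) / (δ : ℂ)‖) ^ N) :=
          mul_le_mul_of_nonneg_left e2 (norm_nonneg _)
      _ = W * (‖a ((z - b) / δ)‖ * (1 + ‖(z - b) / (δ : ℂ)‖) ^ N) := by ring
      _ ≤ W * A := mul_le_mul_of_nonneg_left e1 hW0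
      _ ≤ W * A * (1 + δ⁻¹) := by nlinarith [mul_nonneg (mul_nonneg hW0 hA) hd0]
  · have e1 := h.bd' ((z - b) / δ)
    have e2 := hw z
    rw [← hW] at e2
    have e3 : HasFDerivAt (fun z : ℂ => a ((z - b) / (δ : ℂ)))
        ((fderiv ℝ a ((z - b) / (δ : ℂ))).comp (δ⁻¹ • ContinuousLinearMap.id ℝ ℂ)) z :=
      (h.smooth.differentiable one_ne_zero ((z - b) / (δ : ℂ))).hasFDerivAt.comp z (hT z)
    rw [e3.fderiv, ContinuousLinearMap.comp_smul, ContinuousLinearMap.comp_id, norm_smul,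
      Real.norm_of_nonneg hd0]
    calc δ⁻¹ * ‖fderiv ℝ a ((z - b) / (δ : ℂ))‖ * (1 + ‖z‖) ^ N
        ≤ δ⁻¹ * ‖fderiv ℝ a ((z - b) / (δ : ℂ))‖ * (W * (1 + ‖(z - b) / (δ : ℂ)‖) ^ N) :=
          mul_le_mul_of_nonneg_left e2 (by positivity)
      _ = W * (‖fderiv ℝ a ((z - b) / (δ : ℂ))‖ * (1 + ‖(z - b) / (δ : ℂ)‖) ^ N) * δ⁻¹ := by
          ring
      _ ≤ W * A * δ⁻¹ :=
          mul_le_mul_of_nonneg_right (mul_le_mul_of_nonneg_left e1 hW0) hd0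
      _ ≤ W * A * (1 + δ⁻¹) := by nlinarith [mul_nonneg hW0 hA]

/-- The corrections differ by an element of `X`. -/
theorem Cell_mem {L : ℕ} (y : Fin L → ℂ) (φ : Fin L → ℂ → ℂ) (hB : ClaimBb) {a : ℂ → ℂ}
    (ha : ContDiff ℝ 1 a) (b : ℂ) {δ : ℝ} (hδ : 0 < δ) :
    (fun z => bH y φ (fun z => a ((z - b) / δ)) z - bH y φ a ((z - b) / δ)) ∈ X := by
  have e1 : (fun z => bH y φ (fun z => a ((z - b) / δ)) z - bH y φ a ((z - b) / δ)) =
      (∑ l, (-(1 / (2 * Real.pi : ℂ)) * ∫ w, φ l w * a ((w - b) / δ)) •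
        fun z : ℂ => K (z - y l)) +
      ∑ l, ((1 / (2 * Real.pi : ℂ)) * (∫ w, φ l w * a w) * (δ : ℂ) ^ 2) •
        fun z : ℂ => K (z - (b + δ * y l)) := by
    funext z
    simp only [Pi.add_apply, Finset.sum_apply, Pi.smul_apply, smul_eq_mul]
    unfold bH
    rw [hB.2.2 b δ a hδ ha z]
    have e2 : ∀ l, K ((z - b) / δ - y l) = (δ : ℂ) ^ 2 * K (z - (b + δ * y l)) := by
      intro l
      rw [← Cell_K_div hδ]
      congr 1
      have h2 : (δ : ℂ) ≠ 0 := by exact_mod_cast hδ.ne'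
      field_simp
      ring
    simp only [e2]
    rw [Finset.mul_sum, Finset.mul_sum]
    have e3 : ∑ l, -(1 / (2 * Real.pi : ℂ)) * (∫ w, φ l w * a ((w - b) / δ)) * K (z - y l) =
        -∑ l, (1 / (2 * Real.pi : ℂ)) * ((∫ w, φ l w * a ((w - b) / δ)) * K (z - y l)) := by
      rw [← Finset.sum_neg_distrib]
      exact Finset.sum_congr rfl fun l _ => by ring
    have e4 : ∑ l, (1 / (2 * Real.pi : ℂ)) * (∫ w, φ l w * a w) * (δ : ℂ) ^ 2 *
          K (z - (b + δ * y l)) =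
        ∑ l, (1 / (2 * Real.pi : ℂ)) * ((∫ w, φ l w * a w) *
          ((δ : ℂ) ^ 2 * K (z - (b + δ * y l)))) :=
      Finset.sum_congr rfl fun l _ => by ring
    rw [e3, e4]
    ring
  rw [e1]
  exact X.add_mem (Submodule.sum_mem _ fun l _ => X.smul_mem _ (Cell_K_mem _))
    (Submodule.sum_mem _ fun l _ => X.smul_mem _ (Cell_K_mem _))

/-- [B3] -/
theorem claimCell (hW : ClaimW) (hDX : ClaimDX) (hB : ClaimBb) : ClaimCell := by
  intro m p L y φ hN hp0 hp1 hmp χ hχ h1 h2 h3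
  obtain ⟨Cχ, h2⟩ := h2
  obtain ⟨C2, hC2, hW'⟩ := hW m p L y φ hN hp0 hp1 hmp
  have hCχ : 0 ≤ Cχ := (norm_nonneg _).trans (h2 0)
  obtain ⟨C1, hC1⟩ : ∃ C1 : ℝ, C1 = 3 ^ (2 * m + 4) * (1 + Cχ) := ⟨_, rfl⟩
  have hC1p : 0 < C1 := by rw [hC1]; positivity
  refine ⟨C2 * C1 ^ p, by positivity, ?_⟩
  intro δ b α r hδ hα hr hb
  have hnice := Cell_nice hχ h1 h2 h3 hδ hα hr hb (2 * m + 4)
  rw [← hC1] at hnice
  obtain ⟨a, ha⟩ : ∃ a : ℂ → ℂ, a = fun w => α (b + δ • w) * χ w := ⟨_, rfl⟩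
  rw [← ha] at hnice
  have hh : (fun z => α z * χ ((z - b) / δ)) = fun z => a ((z - b) / δ) := by
    funext z
    rw [ha]
    simp only
    have e1 : b + δ • ((z - b) / (δ : ℂ)) = z := by
      have h2 : (δ : ℂ) ≠ 0 := by exact_mod_cast hδ.ne'
      rw [Complex.real_smul]
      field_simp
      ring
    rw [e1]
  rw [hh]
  obtain ⟨A', hnice'⟩ := Cell_dil hnice b hδ
  obtain ⟨m1, n1⟩ := hW' _ _ hnice
  obtain ⟨m2, n2⟩ := hW' _ _ hnice'
  obtain ⟨d1, d2, d3, d4, d5, d6, d7, d8⟩ := hDX p hp0 hp1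
  have hTm : Measurable (fun z : ℂ => (z - b) / (δ : ℂ)) := by fun_prop
  have hnp := d3 b δ (bH y φ a) hδ
  have hfin : np p (fun z => bH y φ a ((z - b) / δ)) < ⊤ := by
    rw [hnp]
    exact ENNReal.mul_lt_top ENNReal.ofReal_lt_top (n1.trans_lt ENNReal.ofReal_lt_top)
  rw [d8 (bH y φ (fun z => a ((z - b) / δ))) (fun z => bH y φ a ((z - b) / δ)) m2
    (m1.comp hTm) (n2.trans_lt ENNReal.ofReal_lt_top) hfin (Cell_mem y φ hB hnice.smooth b hδ)]
  refine (d5 _).trans ?_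
  rw [hnp]
  refine (mul_le_mul_right n1 _).trans ?_
  rw [← ENNReal.ofReal_mul (by positivity)]
  apply ENNReal.ofReal_le_ofReal
  rw [Real.mul_rpow hC1p.le hr]
  apply le_of_eq
  ring

end Pool.Agent.Work.MP_440970_an

end

section

/-!
# [B4] conversion: sum over the cells
-/

open MeasureTheory Complex Set Filter Topology
open scoped ENNReal ComplexConjugate

namespace Pool.Agent.Work.MP_440970_an

theorem Convert_nonneg {N : ℕ} {A : ℝ} {α : ℂ → ℂ} (h : Nice N A α) : 0 ≤ A := by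
  have := h.bd 0
  refine le_trans ?_ this
  positivity

theorem Convert_mul {N : ℕ} {A B D ρ : ℝ} {α θ : ℂ → ℂ} (hα : Nice (N + 1) A α)
    (hθ : ContDiff ℝ 1 θ) (hB : ∀ z, ‖θ z‖ ≤ B) (hD : ∀ z, ‖fderiv ℝ θ z‖ ≤ D) (hρ : 0 ≤ ρ)
    (h0 : ∀ z, ‖z‖ < ρ → θ z = 0) : Nice N ((B + D) * A / (1 + ρ)) (fun z => α z * θ z) := by
  have hA : 0 ≤ A := Convert_nonneg hα
  have hB0 : 0 ≤ B := (norm_nonneg _).trans (hB 0)
  have hD0 : 0 ≤ D := (norm_nonneg _).trans (hD 0)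
  have hpos : 0 ≤ (B + D) * A / (1 + ρ) := by positivity
  have key : ∀ z : ℂ, ρ ≤ ‖z‖ → ∀ t : ℝ, 0 ≤ t → t * (1 + ‖z‖) ^ (N + 1) ≤ A →
      t * (1 + ‖z‖) ^ N ≤ A / (1 + ρ) := by
    intro z hz t ht h
    rw [le_div_iff₀ (by positivity)]
    calc t * (1 + ‖z‖) ^ N * (1 + ρ) ≤ t * (1 + ‖z‖) ^ N * (1 + ‖z‖) := by gcongr
      _ = t * (1 + ‖z‖) ^ (N + 1) := by ring
      _ ≤ A := h
  refine ⟨hα.smooth.mul hθ, ?_, ?_⟩
  · intro z
    rcases lt_or_ge ‖z‖ ρ with hz | hz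
    · simp only [h0 z hz, mul_zero, norm_zero, zero_mul]
      exact hpos
    · have h1 := key z hz _ (norm_nonneg _) (hα.bd z)
      rw [norm_mul]
      calc ‖α z‖ * ‖θ z‖ * (1 + ‖z‖) ^ N = ‖θ z‖ * (‖α z‖ * (1 + ‖z‖) ^ N) := by ring
        _ ≤ B * (A / (1 + ρ)) := by
            gcongr
            exact hB z
        _ ≤ (B + D) * A / (1 + ρ) := by
            rw [mul_div_assoc]
            gcongr
            linarith
  · intro z
    rcases lt_or_ge ‖z‖ ρ with hz | hz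
    · have : (fun z => α z * θ z) =ᶠ[𝓝 z] fun _ => 0 := by
        have ho : {w : ℂ | ‖w‖ < ρ} ∈ 𝓝 z := (isOpen_lt continuous_norm continuous_const).mem_nhds hz
        filter_upwards [ho] with w hw
        simp [h0 w hw]
      rw [this.fderiv_eq]
      simp only [fderiv_fun_const, Pi.zero_apply, norm_zero, zero_mul]
      exact hpos
    · have h1 := key z hz _ (norm_nonneg _) (hα.bd z)
      have h2 := key z hz _ (norm_nonneg _) (hα.bd' z)
      have hd1 : DifferentiableAt ℝ α z := (hα.smooth.differentiable one_ne_zero) z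
      have hd2 : DifferentiableAt ℝ θ z := (hθ.differentiable one_ne_zero) z
      have e : fderiv ℝ (fun z => α z * θ z) z = α z • fderiv ℝ θ z + θ z • fderiv ℝ α z :=
        fderiv_fun_mul hd1 hd2
      rw [e]
      have h3 : ‖α z • fderiv ℝ θ z + θ z • fderiv ℝ α z‖ ≤ ‖α z‖ * D + B * ‖fderiv ℝ α z‖ := by
        refine (norm_add_le _ _).trans ?_
        rw [norm_smul, norm_smul]
        gcongr
        · exact hD z
        · exact hB z
      calc ‖α z • fderiv ℝ θ z + θ z • fderiv ℝ α z‖ * (1 + ‖z‖) ^ N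
          ≤ (‖α z‖ * D + B * ‖fderiv ℝ α z‖) * (1 + ‖z‖) ^ N := by gcongr
        _ = D * (‖α z‖ * (1 + ‖z‖) ^ N) + B * (‖fderiv ℝ α z‖ * (1 + ‖z‖) ^ N) := by ring
        _ ≤ D * (A / (1 + ρ)) + B * (A / (1 + ρ)) := by gcongr
        _ = (B + D) * A / (1 + ρ) := by ring

/-- The cell with lower left corner `δ k`. -/
def Convert_Q (δ : ℝ) (k : ℤ × ℤ) : Set ℂ :=
  {z | z.re ∈ Ico (δ * k.1) (δ * (k.1 + 1)) ∧ z.im ∈ Ico (δ * k.2) (δ * (k.2 + 1))}

theorem Convert_Q_eq (δ : ℝ) (k : ℤ × ℤ) :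
    Convert_Q δ k = (Ico (δ * k.1) (δ * (k.1 + 1))) ×ℂ (Ico (δ * k.2) (δ * (k.2 + 1))) := by
  ext z
  simp [Convert_Q, Complex.mem_reProdIm]

theorem Convert_rp {s t : Set ℝ} (hs : MeasurableSet s) (ht : MeasurableSet t) :
    MeasurableSet (s ×ℂ t) :=
  (Complex.measurable_re hs).inter (Complex.measurable_im ht)

theorem Convert_Q_meas (δ : ℝ) (k : ℤ × ℤ) : MeasurableSet (Convert_Q δ k) := by
  rw [Convert_Q_eq]
  exact Convert_rp measurableSet_Ico measurableSet_Ico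

theorem Convert_Q_vol (δ : ℝ) (hδ : 0 < δ) (k : ℤ × ℤ) :
    volume (Convert_Q δ k) = ENNReal.ofReal (δ ^ 2) := by
  rw [Convert_Q_eq]
  have h : volume ((Ico (δ * k.1) (δ * (k.1 + 1))) ×ℂ (Ico (δ * (k.2 : ℝ)) (δ * (k.2 + 1)))) =
      volume (Ico (δ * (k.1 : ℝ)) (δ * (k.1 + 1))) * volume (Ico (δ * (k.2 : ℝ)) (δ * (k.2 + 1))) := by
    rw [← (Complex.volume_preserving_equiv_real_prod.symm).measure_preimage
      ((Convert_rp measurableSet_Ico measurableSet_Ico).nullMeasurableSet)]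
    have : Complex.measurableEquivRealProd.symm ⁻¹'
        ((Ico (δ * (k.1 : ℝ)) (δ * (k.1 + 1))) ×ℂ (Ico (δ * (k.2 : ℝ)) (δ * (k.2 + 1)))) =
        (Ico (δ * (k.1 : ℝ)) (δ * (k.1 + 1))) ×ˢ (Ico (δ * (k.2 : ℝ)) (δ * (k.2 + 1))) := by
      ext x
      simp [Complex.mem_reProdIm, Complex.measurableEquivRealProd_symm_apply]
    rw [this, Measure.volume_eq_prod, Measure.prod_prod]
  rw [h, Real.volume_Ico, Real.volume_Ico, ← ENNReal.ofReal_mul (by nlinarith)]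
  congr 1
  ring

theorem Convert_Q_disj {δ : ℝ} (hδ : 0 < δ) {k l : ℤ × ℤ} (h : k ≠ l) :
    Disjoint (Convert_Q δ k) (Convert_Q δ l) := by
  rw [Set.disjoint_left]
  rintro z ⟨⟨h1, h2⟩, h3, h4⟩ ⟨⟨h5, h6⟩, h7, h8⟩
  apply h
  have key : ∀ (a b : ℤ) (x : ℝ), δ * a ≤ x → x < δ * (b + 1) → a ≤ b := by
    intro a b x ha hb
    have : δ * a < δ * (b + 1) := lt_of_le_of_lt ha hb
    have h9 : (a : ℝ) < b + 1 := lt_of_mul_lt_mul_left this hδ.le
    have h10 : a < b + 1 := by exact_mod_cast h9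
    omega
  refine Prod.ext ?_ ?_
  · exact le_antisymm (key _ _ _ h1 h6) (key _ _ _ h5 h2)
  · exact le_antisymm (key _ _ _ h3 h8) (key _ _ _ h7 h4)

/-- The corner of the cell. -/
noncomputable def Convert_b (δ : ℝ) (k : ℤ × ℤ) : ℂ := δ * ((k.1 : ℂ) + k.2 * I)

theorem Convert_Q_dist {δ : ℝ} (k : ℤ × ℤ) {a : ℂ} (ha : a ∈ Convert_Q δ k) :
    ‖a - Convert_b δ k‖ ≤ 2 * δ := by
  obtain ⟨⟨h1, h2⟩, h3, h4⟩ := ha
  refine (Complex.norm_le_abs_re_add_abs_im _).trans ?_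
  have e1 : (a - Convert_b δ k).re = a.re - δ * k.1 := by
    simp [Convert_b]
  have e2 : (a - Convert_b δ k).im = a.im - δ * k.2 := by
    simp [Convert_b]
  rw [e1, e2, abs_of_nonneg (by linarith), abs_of_nonneg (by linarith)]
  linarith

/-- the local bound by the value at an arbitrary point of the cell -/
theorem Convert_loc {N : ℕ} {A : ℝ} {α : ℂ → ℂ} (hα : Nice N A α) {δ : ℝ} (hδ : 0 < δ)
    (hδ1 : δ ≤ 1) {b a z : ℂ} (ha : ‖a - b‖ ≤ 2 * δ) (hz : ‖z - b‖ ≤ 2 * δ) :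
    ‖α z‖ + δ * ‖fderiv ℝ α z‖ ≤ ‖α a‖ + 5 ^ (N + 1) * δ * A * ((1 + ‖a‖) ^ N)⁻¹ := by
  have hA := Convert_nonneg hα
  have hab : ∀ w : ℂ, ‖w - b‖ ≤ 2 * δ → ‖fderiv ℝ α w‖ ≤ 5 ^ N * A * ((1 + ‖a‖) ^ N)⁻¹ := by
    intro w hw
    have h1 : ‖a‖ ≤ ‖w‖ + 4 * δ := by
      have : a = (a - b) - (w - b) + w := by ring
      calc ‖a‖ = ‖(a - b) - (w - b) + w‖ := by rw [← this]
        _ ≤ ‖(a - b) - (w - b)‖ + ‖w‖ := norm_add_le _ _
        _ ≤ (‖a - b‖ + ‖w - b‖) + ‖w‖ := by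
            gcongr
            exact norm_sub_le _ _
        _ ≤ ‖w‖ + 4 * δ := by linarith
    have h2 : 1 + ‖a‖ ≤ 5 * (1 + ‖w‖) := by
      have := norm_nonneg w
      linarith
    have h3 : (1 + ‖a‖) ^ N ≤ 5 ^ N * (1 + ‖w‖) ^ N := by
      rw [← mul_pow]
      gcongr
    rw [← div_eq_mul_inv, le_div_iff₀ (by positivity)]
    calc ‖fderiv ℝ α w‖ * (1 + ‖a‖) ^ N ≤ ‖fderiv ℝ α w‖ * (5 ^ N * (1 + ‖w‖) ^ N) := by gcongr
      _ = 5 ^ N * (‖fderiv ℝ α w‖ * (1 + ‖w‖) ^ N) := by ring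
      _ ≤ 5 ^ N * A := by
          gcongr
          exact hα.bd' w
  have hconv : Convex ℝ (Metric.closedBall b (2 * δ)) := convex_closedBall _ _
  have hmv := hconv.norm_image_sub_le_of_norm_fderiv_le (𝕜 := ℝ) (f := α)
    (C := 5 ^ N * A * ((1 + ‖a‖) ^ N)⁻¹)
    (fun w _ => (hα.smooth.differentiable one_ne_zero) w)
    (fun w hw => hab w (by simpa [dist_eq_norm] using hw))
    (show a ∈ Metric.closedBall b (2 * δ) by simpa [dist_eq_norm] using ha)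
    (show z ∈ Metric.closedBall b (2 * δ) by simpa [dist_eq_norm] using hz)
  have hza : ‖z - a‖ ≤ 4 * δ := by
    have : z - a = (z - b) - (a - b) := by ring
    rw [this]
    refine (norm_sub_le _ _).trans ?_
    linarith
  have h4 : ‖α z‖ ≤ ‖α a‖ + 5 ^ N * A * ((1 + ‖a‖) ^ N)⁻¹ * (4 * δ) := by
    have h5 : ‖α z‖ ≤ ‖α a‖ + ‖α z - α a‖ := by
      have : α z = α a + (α z - α a) := by ring
      calc ‖α z‖ = ‖α a + (α z - α a)‖ := by rw [← this]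
        _ ≤ _ := norm_add_le _ _
    have h6 : 5 ^ N * A * ((1 + ‖a‖) ^ N)⁻¹ * ‖z - a‖ ≤ 5 ^ N * A * ((1 + ‖a‖) ^ N)⁻¹ * (4 * δ) := by
      gcongr
    linarith
  have h7 := hab z hz
  have h8 : δ * ‖fderiv ℝ α z‖ ≤ δ * (5 ^ N * A * ((1 + ‖a‖) ^ N)⁻¹) := by gcongr
  calc ‖α z‖ + δ * ‖fderiv ℝ α z‖
      ≤ (‖α a‖ + 5 ^ N * A * ((1 + ‖a‖) ^ N)⁻¹ * (4 * δ)) + δ * (5 ^ N * A * ((1 + ‖a‖) ^ N)⁻¹) :=
        add_le_add h4 h8
    _ = ‖α a‖ + 5 ^ (N + 1) * δ * A * ((1 + ‖a‖) ^ N)⁻¹ := by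
        rw [pow_succ]
        ring

/-- the comparison function -/
noncomputable def Convert_psi (N : ℕ) (A δ : ℝ) (α : ℂ → ℂ) (a : ℂ) : ℝ≥0∞ :=
  ‖α a‖ₑ + ENNReal.ofReal (5 ^ (N + 1) * δ * A * ((1 + ‖a‖) ^ N)⁻¹)

theorem Convert_cell {N : ℕ} {A : ℝ} {α : ℂ → ℂ} (hα : Nice N A α) {δ : ℝ} (hδ : 0 < δ)
    (hδ1 : δ ≤ 1) {p : ℝ} (hp : 0 < p) (k : ℤ × ℤ) :
    ∃ r : ℝ, 0 ≤ r ∧ (∀ z, ‖z - Convert_b δ k‖ ≤ 2 * δ → ‖α z‖ + δ * ‖fderiv ℝ α z‖ ≤ r) ∧
      ENNReal.ofReal (δ ^ 2 * r ^ p) ≤ ∫⁻ a in Convert_Q δ k, Convert_psi N A δ α a ^ p := by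
  have hA := Convert_nonneg hα
  have hcont : Continuous fun z => ‖α z‖ + δ * ‖fderiv ℝ α z‖ := by
    have h1 : Continuous α := hα.smooth.continuous
    have h2 : Continuous (fderiv ℝ α) := hα.smooth.continuous_fderiv one_ne_zero
    fun_prop
  obtain ⟨z0, hz0, hmax⟩ := (isCompact_closedBall (Convert_b δ k) (2 * δ)).exists_isMaxOn
    ⟨Convert_b δ k, Metric.mem_closedBall_self (by positivity)⟩ hcont.continuousOn
  refine ⟨‖α z0‖ + δ * ‖fderiv ℝ α z0‖, by positivity, ?_, ?_⟩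
  · intro z hz
    exact hmax (show z ∈ Metric.closedBall (Convert_b δ k) (2 * δ) by simpa [dist_eq_norm] using hz)
  · have hz0' : ‖z0 - Convert_b δ k‖ ≤ 2 * δ := by simpa [dist_eq_norm] using hz0
    set r := ‖α z0‖ + δ * ‖fderiv ℝ α z0‖ with hr
    have hr0 : 0 ≤ r := by positivity
    have h1 : ∀ a ∈ Convert_Q δ k, ENNReal.ofReal (r ^ p) ≤ Convert_psi N A δ α a ^ p := by
      intro a ha
      have h2 := Convert_loc hα hδ hδ1 (Convert_Q_dist k ha) hz0'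
      have h3 : ENNReal.ofReal r ≤ Convert_psi N A δ α a := by
        unfold Convert_psi
        rw [← ofReal_norm, ← ENNReal.ofReal_add (norm_nonneg _) (by positivity)]
        exact ENNReal.ofReal_le_ofReal h2
      rw [← ENNReal.ofReal_rpow_of_nonneg hr0 hp.le]
      exact ENNReal.rpow_le_rpow h3 hp.le
    calc ENNReal.ofReal (δ ^ 2 * r ^ p) = ENNReal.ofReal (r ^ p) * volume (Convert_Q δ k) := by
          rw [Convert_Q_vol δ hδ k, ← ENNReal.ofReal_mul (by positivity), mul_comm]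
      _ = ∫⁻ _ in Convert_Q δ k, ENNReal.ofReal (r ^ p) := by
          rw [setLIntegral_const]
      _ ≤ _ := setLIntegral_mono' (Convert_Q_meas δ k) h1

theorem Convert_psi_int {N : ℕ} {A : ℝ} {α : ℂ → ℂ} (hα : Nice N A α) {p : ℝ} (hp : 0 < p)
    (hp1 : p < 1) (hN : 2 < N * p) : ∃ K : ℝ≥0∞, K < ⊤ ∧ ∀ δ : ℝ, 0 < δ →
      ∫⁻ a, Convert_psi N A δ α a ^ p ≤ np p α + ENNReal.ofReal (δ ^ p) * K := by
  have hA := Convert_nonneg hα
  have hfin : ∫⁻ a : ℂ, ENNReal.ofReal ((1 + ‖a‖) ^ (-(N * p))) < ⊤ := by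
    apply finite_integral_one_add_norm
    rw [Complex.finrank_real_complex]
    exact_mod_cast hN
  refine ⟨ENNReal.ofReal ((5 ^ (N + 1) * A) ^ p) *
    ∫⁻ a : ℂ, ENNReal.ofReal ((1 + ‖a‖) ^ (-(N * p))),
    ENNReal.mul_lt_top ENNReal.ofReal_lt_top hfin, ?_⟩
  intro δ hδ
  have hmeas : Measurable fun a : ℂ => ENNReal.ofReal ((1 + ‖a‖) ^ (-(N * p) : ℝ)) := by
    fun_prop
  have h1 : ∀ a : ℂ, Convert_psi N A δ α a ^ p ≤ ‖α a‖ₑ ^ p +
      ENNReal.ofReal (δ ^ p) * (ENNReal.ofReal ((5 ^ (N + 1) * A) ^ p) *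
        ENNReal.ofReal ((1 + ‖a‖) ^ (-(N * p)))) := by
    intro a
    unfold Convert_psi
    refine (ENNReal.rpow_add_le_add_rpow _ _ hp.le hp1.le).trans ?_
    gcongr
    rw [ENNReal.ofReal_rpow_of_nonneg (by positivity) hp.le,
      ← ENNReal.ofReal_mul (by positivity), ← ENNReal.ofReal_mul (by positivity)]
    apply le_of_eq
    congr 1
    have e : 5 ^ (N + 1) * δ * A * ((1 + ‖a‖) ^ N)⁻¹ =
        δ * ((5 ^ (N + 1) * A) * ((1 + ‖a‖) ^ N)⁻¹) := by ring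
    rw [e, Real.mul_rpow hδ.le (by positivity), Real.mul_rpow (by positivity) (by positivity)]
    congr 2
    rw [Real.inv_rpow (by positivity), Real.rpow_neg (by positivity), ← Real.rpow_natCast,
      ← Real.rpow_mul (by positivity)]
  calc ∫⁻ a, Convert_psi N A δ α a ^ p ≤ ∫⁻ a, (‖α a‖ₑ ^ p +
      ENNReal.ofReal (δ ^ p) * (ENNReal.ofReal ((5 ^ (N + 1) * A) ^ p) *
        ENNReal.ofReal ((1 + ‖a‖) ^ (-(N * p))))) := lintegral_mono h1
    _ = _ := by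
        rw [lintegral_add_right _ (by fun_prop), lintegral_const_mul _ (by fun_prop),
          lintegral_const_mul _ (by fun_prop)]
        rfl

theorem Convert_chi {N : ℕ} {A B D : ℝ} {α χ : ℂ → ℂ} (hα : Nice (N + 1) A α)
    (hχ : ContDiff ℝ 1 χ) (hB : ∀ z, ‖χ z‖ ≤ B) (hD : ∀ z, ‖fderiv ℝ χ z‖ ≤ D) {δ : ℝ}
    (hδ : 0 < δ) (b : ℂ) : Nice N ((B + D / δ) * A / (1 + 0)) (fun z => α z * χ ((z - b) / δ)) := by
  have hD0 : 0 ≤ D := (norm_nonneg _).trans (hD 0)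
  have hlin : ∀ z : ℂ, HasFDerivAt (fun z : ℂ => (z - b) / (δ : ℂ))
      ((δ⁻¹ : ℝ) • (ContinuousLinearMap.id ℝ ℂ)) z := by
    intro z
    have h1 : HasFDerivAt (fun z : ℂ => z - b) (ContinuousLinearMap.id ℝ ℂ) z :=
      (hasFDerivAt_id z).sub_const b
    have h2 := h1.const_smul (δ⁻¹ : ℝ)
    refine h2.congr_of_eventuallyEq (Eventually.of_forall fun w => ?_)
    simp only [Pi.smul_apply, Complex.real_smul, Complex.ofReal_inv]
    rw [div_eq_inv_mul]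
  have hsm : ContDiff ℝ 1 (fun z : ℂ => (z - b) / (δ : ℂ)) := by
    have : (fun z : ℂ => (z - b) / (δ : ℂ)) = fun z : ℂ => (z - b) * (δ : ℂ)⁻¹ := by
      funext z
      rw [div_eq_mul_inv]
    rw [this]
    fun_prop
  refine Convert_mul (D := D / δ) hα (hχ.comp hsm) (fun z => hB _) ?_ le_rfl ?_
  · intro z
    have hd : DifferentiableAt ℝ χ ((z - b) / δ) := (hχ.differentiable one_ne_zero) _
    have h3 := hd.hasFDerivAt.comp z (hlin z)
    have h4 : fderiv ℝ (fun z => χ ((z - b) / δ)) z =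
        (fderiv ℝ χ ((z - b) / δ)).comp ((δ⁻¹ : ℝ) • (ContinuousLinearMap.id ℝ ℂ)) := h3.fderiv
    rw [h4]
    refine (ContinuousLinearMap.opNorm_comp_le _ _).trans ?_
    have h5 : ‖(δ⁻¹ : ℝ) • (ContinuousLinearMap.id ℝ ℂ)‖ ≤ δ⁻¹ := by
      rw [norm_smul, Real.norm_of_nonneg (by positivity)]
      have := ContinuousLinearMap.norm_id_le (𝕜 := ℝ) (E := ℂ)
      calc δ⁻¹ * ‖ContinuousLinearMap.id ℝ ℂ‖ ≤ δ⁻¹ * 1 := by gcongr
        _ = δ⁻¹ := mul_one _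
    rw [div_eq_mul_inv]
    exact mul_le_mul (hD _) h5 (norm_nonneg _) hD0
  · intro z hz
    exact absurd hz (not_lt.mpr (norm_nonneg _))

theorem claimConvert (hW : ClaimW) (hDX : ClaimDX) (hA : ClaimBHadd) (hU : ClaimPart)
    (hC : ClaimCell) : ClaimConvert := by
  intro m p L y φ hN hp hp1 hmp
  obtain ⟨C1, hC1, hW1⟩ := hW m p L y φ hN hp hp1 hmp
  obtain ⟨χ, hχs, hχ1, ⟨Cχ, hχd⟩, hχ0, Θ, hΘ, hΘs, hΘ1, ⟨CΘ, hΘd⟩, hΘe⟩ := hU
  obtain ⟨C0, hC0, hcell⟩ := hC m p L y φ hN hp hp1 hmp χ hχs hχ1 ⟨Cχ, hχd⟩ hχ0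
  obtain ⟨-, -, -, -, -, hX6, hX7, -⟩ := hDX p hp hp1
  refine ⟨ENNReal.ofReal C0, ENNReal.ofReal_lt_top, ?_⟩
  intro A α hα
  have hA0 := Convert_nonneg hα
  have hCΘ0 : 0 ≤ CΘ := (norm_nonneg _).trans (hΘd 0 0)
  have hmp5 : (2 : ℝ) < ((2 * m + 5 : ℕ) : ℝ) * p := by
    push_cast
    nlinarith
  obtain ⟨K, hK, hKint⟩ := Convert_psi_int hα hp hp1 hmp5
  -- the inequality for fixed `δ` and `n`
  have main : ∀ δ : ℝ, 0 < δ → δ ≤ 1 → ∀ n : ℕ, dX p (bH y φ α) ≤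
      ENNReal.ofReal (C1 * ((2 + CΘ / δ) * A / (1 + n * δ)) ^ p) +
      ENNReal.ofReal C0 * (np p α + ENNReal.ofReal (δ ^ p) * K) := by
    intro δ hδ hδ1 n
    set s : Finset (ℤ × ℤ) := Finset.Icc (-(n : ℤ)) n ×ˢ Finset.Icc (-(n : ℤ)) n with hs
    set g : ℂ → ℂ := fun z => α z * (1 - Θ n ((z - 0) / δ)) with hg
    set f : Option (ℤ × ℤ) → ℂ → ℂ := fun o => match o with
      | none => g
      | some k => fun z => α z * χ ((z - Convert_b δ k) / δ) with hf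
    have hδC : (δ : ℂ) ≠ 0 := by exact_mod_cast hδ.ne'
    -- g is nice
    have hgn : Nice (2 * m + 4) ((2 + CΘ / δ) * A / (1 + n * δ)) g := by
      have hlin : ContDiff ℝ 1 (fun z : ℂ => (z - 0) / (δ : ℂ)) := by
        have : (fun z : ℂ => (z - 0) / (δ : ℂ)) = fun z : ℂ => (z - 0) * (δ : ℂ)⁻¹ := by
          funext z
          rw [div_eq_mul_inv]
        rw [this]
        fun_prop
      have hd0 : ∀ z : ℂ, HasFDerivAt (fun z : ℂ => (z - 0) / (δ : ℂ))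
          ((δ⁻¹ : ℝ) • (ContinuousLinearMap.id ℝ ℂ)) z := by
        intro z
        have h1 : HasFDerivAt (fun z : ℂ => z - 0) (ContinuousLinearMap.id ℝ ℂ) z :=
          (hasFDerivAt_id z).sub_const 0
        have h2 := h1.const_smul (δ⁻¹ : ℝ)
        refine h2.congr_of_eventuallyEq (Eventually.of_forall fun w => ?_)
        simp only [Pi.smul_apply, Complex.real_smul, Complex.ofReal_inv]
        rw [div_eq_inv_mul]
      refine Convert_mul (B := 2) (D := CΘ / δ) (ρ := n * δ) hα ?_ ?_ ?_ (by positivity) ?_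
      · exact contDiff_const.sub ((hΘs n).comp hlin)
      · intro z
        refine (norm_sub_le _ _).trans ?_
        have := hΘ1 n ((z - 0) / δ)
        rw [norm_one]
        linarith
      · intro z
        have hd : DifferentiableAt ℝ (Θ n) ((z - 0) / δ) := ((hΘs n).differentiable one_ne_zero) _
        have h3 := hd.hasFDerivAt.comp z (hd0 z)
        have h4 : HasFDerivAt (fun z => 1 - Θ n ((z - 0) / δ))
            (-((fderiv ℝ (Θ n) ((z - 0) / δ)).comp ((δ⁻¹ : ℝ) • (ContinuousLinearMap.id ℝ ℂ)))) z :=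
          h3.const_sub 1
        rw [h4.fderiv, norm_neg]
        refine (ContinuousLinearMap.opNorm_comp_le _ _).trans ?_
        have h5 : ‖(δ⁻¹ : ℝ) • (ContinuousLinearMap.id ℝ ℂ)‖ ≤ δ⁻¹ := by
          rw [norm_smul, Real.norm_of_nonneg (by positivity)]
          have := ContinuousLinearMap.norm_id_le (𝕜 := ℝ) (E := ℂ)
          calc δ⁻¹ * ‖ContinuousLinearMap.id ℝ ℂ‖ ≤ δ⁻¹ * 1 := by gcongr
            _ = δ⁻¹ := mul_one _
        rw [div_eq_mul_inv]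
        exact mul_le_mul (hΘd n _) h5 (norm_nonneg _) hCΘ0
      · intro z hz
        rw [hΘe n, sub_self]
        rw [sub_zero, norm_div, Complex.norm_real, Real.norm_of_nonneg hδ.le, div_lt_iff₀ hδ]
        exact hz
    have hfn : ∀ o ∈ Finset.insertNone s, Nice (2 * m + 4)
        (match o with
          | none => (2 + CΘ / δ) * A / (1 + n * δ)
          | some _ => (1 + Cχ / δ) * A / (1 + 0)) (f o) := by
      intro o _
      match o with
      | none => exact hgn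
      | some k => exact Convert_chi hα hχs hχ1 hχd hδ _
    have hsum : α = fun a => ∑ o ∈ Finset.insertNone s, f o a := by
      funext a
      rw [Finset.sum_insertNone]
      have h1 : ∀ k : ℤ × ℤ, f (some k) a = α a * χ (a / δ - ((k.1 : ℂ) + k.2 * I)) := by
        intro k
        have : (a - Convert_b δ k) / δ = a / δ - ((k.1 : ℂ) + k.2 * I) := by
          unfold Convert_b
          rw [sub_div, mul_div_cancel_left₀ _ hδC]
        simp only [hf, this]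
      have h2 : f none a = α a * (1 - Θ n (a / δ)) := by
        simp only [hf, hg, sub_zero]
      rw [h2, Finset.sum_congr rfl fun k _ => h1 k, ← Finset.mul_sum, hΘ n (a / δ)]
      ring
    have hbH : bH y φ α = fun z => bH y φ (f none) z + ∑ k ∈ s, bH y φ (f (some k)) z := by
      funext z
      have h1 := hA m L y φ hN (Option (ℤ × ℤ)) (Finset.insertNone s) f _ hfn z
      rw [← hsum, Finset.sum_insertNone] at h1
      exact h1
    have hme : ∀ k : ℤ × ℤ, Measurable (bH y φ (f (some k))) := fun k =>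
      (hW1 _ _ (Convert_chi hα hχs hχ1 hχd hδ (Convert_b δ k))).1
    obtain ⟨hm0, hnp0⟩ := hW1 _ _ hgn
    choose r hr0 hr1 hr2 using fun k : ℤ × ℤ => Convert_cell hα hδ hδ1 hp k
    calc dX p (bH y φ α) ≤ np p (bH y φ (f none)) + dX p (fun z => ∑ k ∈ s, bH y φ (f (some k)) z) := by
          rw [hbH]
          exact hX6 _ _ hm0
      _ ≤ ENNReal.ofReal (C1 * ((2 + CΘ / δ) * A / (1 + n * δ)) ^ p) +
          ∑ k ∈ s, dX p (bH y φ (f (some k))) :=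
          add_le_add hnp0 (hX7 _ s (fun k => bH y φ (f (some k))) (fun k _ => hme k))
      _ ≤ ENNReal.ofReal (C1 * ((2 + CΘ / δ) * A / (1 + n * δ)) ^ p) +
          ∑ k ∈ s, ENNReal.ofReal C0 * ∫⁻ a in Convert_Q δ k,
            Convert_psi (2 * m + 5) A δ α a ^ p := by
          gcongr with k hk
          refine (hcell δ (Convert_b δ k) α (r k) hδ hα.smooth (hr0 k) (hr1 k)).trans ?_
          rw [mul_assoc, ENNReal.ofReal_mul hC0.le]
          gcongr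
          exact hr2 k
      _ ≤ ENNReal.ofReal (C1 * ((2 + CΘ / δ) * A / (1 + n * δ)) ^ p) +
          ENNReal.ofReal C0 * ∫⁻ a, Convert_psi (2 * m + 5) A δ α a ^ p := by
          gcongr
          rw [← Finset.mul_sum]
          gcongr
          rw [← lintegral_biUnion_finset (fun k _ l _ hkl => Convert_Q_disj hδ hkl)
            (fun k _ => Convert_Q_meas δ k)]
          exact setLIntegral_le_lintegral _ _
      _ ≤ _ := by
          gcongr
          exact hKint δ hδ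
  -- `n → ∞`
  have step1 : ∀ δ : ℝ, 0 < δ → δ ≤ 1 → dX p (bH y φ α) ≤
      ENNReal.ofReal C0 * (np p α + ENNReal.ofReal (δ ^ p) * K) := by
    intro δ hδ hδ1
    have ht : Tendsto (fun n : ℕ => ENNReal.ofReal (C1 * ((2 + CΘ / δ) * A / (1 + n * δ)) ^ p))
        atTop (𝓝 0) := by
      have h1 : Tendsto (fun n : ℕ => (1 + (n : ℝ) * δ)) atTop atTop := by
        apply tendsto_atTop_add_const_left
        exact tendsto_natCast_atTop_atTop.atTop_mul_const hδ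
      have h2 : Tendsto (fun n : ℕ => (2 + CΘ / δ) * A / (1 + (n : ℝ) * δ)) atTop (𝓝 0) :=
        h1.const_div_atTop _
      have h3 : Tendsto (fun n : ℕ => ((2 + CΘ / δ) * A / (1 + (n : ℝ) * δ)) ^ p) atTop
          (𝓝 (0 ^ p)) := h2.rpow_const (Or.inr hp.le)
      rw [Real.zero_rpow hp.ne'] at h3
      have h4 := h3.const_mul C1
      rw [mul_zero] at h4
      have h5 := ENNReal.tendsto_ofReal h4
      rwa [ENNReal.ofReal_zero] at h5
    have h6 := ht.add_const (ENNReal.ofReal C0 * (np p α + ENNReal.ofReal (δ ^ p) * K))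
    rw [zero_add] at h6
    exact ge_of_tendsto' h6 (fun n => main δ hδ hδ1 n)
  -- `δ → 0`
  have ht : Tendsto (fun n : ℕ => ENNReal.ofReal C0 *
      (np p α + ENNReal.ofReal ((1 / ((n : ℝ) + 1)) ^ p) * K)) atTop
      (𝓝 (ENNReal.ofReal C0 * (np p α + 0 * K))) := by
    apply ENNReal.Tendsto.const_mul _ (Or.inr ENNReal.ofReal_ne_top)
    apply Tendsto.const_add
    apply ENNReal.Tendsto.mul_const _ (Or.inr hK.ne)
    have h1 : Tendsto (fun n : ℕ => (1 / ((n : ℝ) + 1)) ^ p) atTop (𝓝 (0 ^ p)) :=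
      tendsto_one_div_add_atTop_nhds_zero_nat.rpow_const (Or.inr hp.le)
    rw [Real.zero_rpow hp.ne'] at h1
    have h5 := ENNReal.tendsto_ofReal h1
    rwa [ENNReal.ofReal_zero] at h5
  rw [zero_mul, add_zero] at ht
  refine ge_of_tendsto' ht fun n => step1 _ (by positivity) ?_
  rw [div_le_one (by positivity)]
  have : (0 : ℝ) ≤ n := Nat.cast_nonneg n
  linarith

end Pool.Agent.Work.MP_440970_an

end

section

/-!
# [C5] the class of pairs
-/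

open MeasureTheory Complex Set Filter Topology
open scoped ENNReal ComplexConjugate

namespace Pool.Agent.Work.MP_440970_an

/-! ### The functions `hs s`, `ks s` -/

/-- `(s² + |z|²)^(-3/2)`. -/
noncomputable def CsF_rho (s : ℝ) (z : ℂ) : ℝ := (s ^ 2 + ‖z‖ ^ 2) ^ (-(3 / 2) : ℝ)

/-- its derivative -/
noncomputable def CsF_rho' (s : ℝ) (z : ℂ) : ℂ →L[ℝ] ℝ :=
  (-(3 / 2) * (s ^ 2 + ‖z‖ ^ 2) ^ (-(5 / 2) : ℝ)) • ((2 : ℝ) • innerSL ℝ z)

lemma CsF_q_pos {s : ℝ} (hs : 0 < s) (z : ℂ) : 0 < s ^ 2 + ‖z‖ ^ 2 := by positivity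

lemma CsF_rho_contDiff {s : ℝ} (hs : 0 < s) : ContDiff ℝ 1 (CsF_rho s) := by
  refine ContDiff.rpow_const_of_ne ?_ fun z => (CsF_q_pos hs z).ne'
  exact contDiff_const.add (contDiff_norm_sq ℝ)

lemma CsF_rho_hasFDerivAt {s : ℝ} (hs : 0 < s) (z : ℂ) :
    HasFDerivAt (CsF_rho s) (CsF_rho' s z) z := by
  have h1 : HasFDerivAt (fun z : ℂ => s ^ 2 + ‖z‖ ^ 2) ((2 : ℝ) • innerSL ℝ z) z := by
    have := (hasStrictFDerivAt_norm_sq z).hasFDerivAt (𝕜 := ℝ)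
    have h2 : (2 : ℝ) • innerSL ℝ z = (2 : ℕ) • innerSL ℝ z := by rw [two_smul, two_nsmul]
    rw [h2]
    exact this.const_add _
  have h2 := h1.rpow_const (p := (-(3 / 2) : ℝ)) (Or.inl (CsF_q_pos hs z).ne')
  have h3 : (-(3 / 2) : ℝ) - 1 = -(5 / 2) := by norm_num
  rw [h3] at h2
  exact h2

lemma CsF_rho'_norm {s : ℝ} (hs : 0 < s) (z : ℂ) :
    ‖CsF_rho' s z‖ ≤ 3 * (s ^ 2 + ‖z‖ ^ 2) ^ (-(5 / 2) : ℝ) * ‖z‖ := by
  have hq := CsF_q_pos hs z
  have hp : 0 < (s ^ 2 + ‖z‖ ^ 2) ^ (-(5 / 2) : ℝ) := Real.rpow_pos_of_pos hq _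
  unfold CsF_rho'
  rw [norm_smul, norm_smul, innerSL_apply_norm]
  rw [Real.norm_eq_abs, Real.norm_eq_abs, abs_mul, abs_of_pos hp]
  rw [abs_of_neg (by norm_num : (-(3 / 2) : ℝ) < 0), abs_of_pos (by norm_num : (0 : ℝ) < 2)]
  linarith

lemma CsF_z_le {s : ℝ} (z : ℂ) : ‖z‖ ≤ (s ^ 2 + ‖z‖ ^ 2) ^ (1 / 2 : ℝ) := by
  rw [← Real.sqrt_eq_rpow]
  apply Real.le_sqrt_of_sq_le
  nlinarith [sq_nonneg s]

lemma CsF_rho'_norm2 {s : ℝ} (hs : 0 < s) (z : ℂ) :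
    ‖CsF_rho' s z‖ ≤ 3 * (s ^ 2 + ‖z‖ ^ 2) ^ (-2 : ℝ) := by
  have hq := CsF_q_pos hs z
  refine (CsF_rho'_norm hs z).trans ?_
  have h1 : (s ^ 2 + ‖z‖ ^ 2) ^ (-2 : ℝ) =
      (s ^ 2 + ‖z‖ ^ 2) ^ (-(5 / 2) : ℝ) * (s ^ 2 + ‖z‖ ^ 2) ^ (1 / 2 : ℝ) := by
    rw [← Real.rpow_add hq]
    norm_num
  rw [h1, ← mul_assoc]
  exact mul_le_mul_of_nonneg_left (CsF_z_le z) (by positivity)

lemma CsF_rho'_norm3 {s : ℝ} (hs : 0 < s) (z : ℂ) :
    ‖z‖ * ‖CsF_rho' s z‖ ≤ 3 * (s ^ 2 + ‖z‖ ^ 2) ^ (-(3 / 2) : ℝ) := by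
  have hq := CsF_q_pos hs z
  have h1 : (s ^ 2 + ‖z‖ ^ 2) ^ (-(3 / 2) : ℝ) =
      (s ^ 2 + ‖z‖ ^ 2) ^ (1 / 2 : ℝ) * (s ^ 2 + ‖z‖ ^ 2) ^ (-2 : ℝ) := by
    rw [← Real.rpow_add hq]
    norm_num
  rw [h1]
  calc ‖z‖ * ‖CsF_rho' s z‖ ≤ (s ^ 2 + ‖z‖ ^ 2) ^ (1 / 2 : ℝ) *
        (3 * (s ^ 2 + ‖z‖ ^ 2) ^ (-2 : ℝ)) :=
        mul_le_mul (CsF_z_le z) (CsF_rho'_norm2 hs z) (norm_nonneg _) (by positivity)
    _ = _ := by ring

/-- `(1+|z|)^3 ≤ C (s²+|z|²)^(3/2)`. -/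
lemma CsF_weight {s : ℝ} (hs : 0 < s) : ∃ C : ℝ, 0 < C ∧ ∀ z : ℂ,
    (1 + ‖z‖) ^ 3 ≤ C * (s ^ 2 + ‖z‖ ^ 2) ^ (3 / 2 : ℝ) := by
  set c : ℝ := 2 * (1 + 1 / s ^ 2) with hc
  have hc0 : 0 < c := by positivity
  refine ⟨c ^ (3 / 2 : ℝ), by positivity, fun z => ?_⟩
  have hq := CsF_q_pos hs z
  rw [← Real.mul_rpow hc0.le hq.le]
  have h1 : (1 + ‖z‖) ^ 2 ≤ c * (s ^ 2 + ‖z‖ ^ 2) := by
    have h2 : c * (s ^ 2 + ‖z‖ ^ 2) = 2 * (s ^ 2 + ‖z‖ ^ 2 + 1 + ‖z‖ ^ 2 / s ^ 2) := by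
      rw [hc]
      field_simp
      ring
    rw [h2]
    have h3 : 0 ≤ ‖z‖ ^ 2 / s ^ 2 := by positivity
    nlinarith [sq_nonneg (1 - ‖z‖), sq_nonneg s]
  have h4 : (1 + ‖z‖) ^ 3 = ((1 + ‖z‖) ^ 2) ^ (3 / 2 : ℝ) := by
    rw [← Real.rpow_natCast, ← Real.rpow_natCast, ← Real.rpow_mul (by positivity)]
    norm_num
  rw [h4]
  exact Real.rpow_le_rpow (by positivity) h1 (by norm_num)

/-- The class of functions for which `bb` is additive. -/
def CsF_W (f : ℂ → ℂ) : Prop :=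
  ContDiff ℝ 1 f ∧ ∃ A, ∀ a, ‖fderiv ℝ f a‖ * (1 + ‖a‖) ^ 3 ≤ A

lemma CsF_W_hs {s : ℝ} (h0 : 0 < s) : CsF_W (hs s) := by
  have hfun : hs s = fun z => (((s * CsF_rho s z : ℝ)) : ℂ) := rfl
  constructor
  · rw [hfun]
    exact ofRealCLM.contDiff.comp (contDiff_const.mul (CsF_rho_contDiff h0))
  · obtain ⟨C, hC, hw⟩ := CsF_weight h0
    refine ⟨s * (3 * C) * s⁻¹, fun z => ?_⟩
    have hq := CsF_q_pos h0 z
    have h1 : HasFDerivAt (hs s) (ofRealCLM.comp (s • CsF_rho' s z)) z := by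
      rw [hfun]
      exact ofRealCLM.hasFDerivAt.comp z ((CsF_rho_hasFDerivAt h0 z).const_mul s)
    rw [h1.fderiv]
    have h2 : ‖ofRealCLM.comp (s • CsF_rho' s z)‖ ≤ s * (3 * (s ^ 2 + ‖z‖ ^ 2) ^ (-2 : ℝ)) := by
      refine (ContinuousLinearMap.opNorm_comp_le _ _).trans ?_
      rw [ofRealCLM_norm, one_mul, norm_smul, Real.norm_eq_abs, abs_of_pos h0]
      exact mul_le_mul_of_nonneg_left (CsF_rho'_norm2 h0 z) h0.le
    have h3 : (s ^ 2 + ‖z‖ ^ 2) ^ (-2 : ℝ) * (s ^ 2 + ‖z‖ ^ 2) ^ (3 / 2 : ℝ) ≤ s⁻¹ := by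
      rw [← Real.rpow_add hq]
      have h4 : (-2 + 3 / 2 : ℝ) = -(1 / 2) := by norm_num
      rw [h4, Real.rpow_neg hq.le, ← Real.sqrt_eq_rpow]
      apply inv_anti₀ h0
      apply Real.le_sqrt_of_sq_le
      nlinarith [sq_nonneg ‖z‖]
    calc _ ≤ s * (3 * (s ^ 2 + ‖z‖ ^ 2) ^ (-2 : ℝ)) *
          (C * (s ^ 2 + ‖z‖ ^ 2) ^ (3 / 2 : ℝ)) :=
          mul_le_mul h2 (hw z) (by positivity) (by positivity)
      _ = s * (3 * C) * ((s ^ 2 + ‖z‖ ^ 2) ^ (-2 : ℝ) * (s ^ 2 + ‖z‖ ^ 2) ^ (3 / 2 : ℝ)) := by ring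
      _ ≤ _ := mul_le_mul_of_nonneg_left h3 (by positivity)

lemma CsF_W_ks {s : ℝ} (h0 : 0 < s) : CsF_W (ks s) := by
  have hfun : ks s = fun z => z * ((CsF_rho s z : ℝ) : ℂ) := rfl
  constructor
  · rw [hfun]
    exact contDiff_id.mul (ofRealCLM.contDiff.comp (CsF_rho_contDiff h0))
  · obtain ⟨C, hC, hw⟩ := CsF_weight h0
    refine ⟨4 * C, fun z => ?_⟩
    have hq := CsF_q_pos h0 z
    have h1 : HasFDerivAt (ks s) (z • (ofRealCLM.comp (CsF_rho' s z)) +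
        ((CsF_rho s z : ℝ) : ℂ) • ContinuousLinearMap.id ℝ ℂ) z := by
      rw [hfun]
      exact (hasFDerivAt_id z).mul (ofRealCLM.hasFDerivAt.comp z (CsF_rho_hasFDerivAt h0 z))
    rw [h1.fderiv]
    have hr : 0 < CsF_rho s z := Real.rpow_pos_of_pos hq _
    have h2 : ‖z • (ofRealCLM.comp (CsF_rho' s z)) +
        ((CsF_rho s z : ℝ) : ℂ) • ContinuousLinearMap.id ℝ ℂ‖ ≤
        4 * (s ^ 2 + ‖z‖ ^ 2) ^ (-(3 / 2) : ℝ) := by
      refine (norm_add_le _ _).trans ?_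
      have e1 : ‖z • (ofRealCLM.comp (CsF_rho' s z))‖ ≤
          3 * (s ^ 2 + ‖z‖ ^ 2) ^ (-(3 / 2) : ℝ) := by
        rw [norm_smul]
        refine le_trans ?_ (CsF_rho'_norm3 h0 z)
        refine mul_le_mul_of_nonneg_left ?_ (norm_nonneg _)
        refine (ContinuousLinearMap.opNorm_comp_le _ _).trans ?_
        rw [ofRealCLM_norm, one_mul]
      have e2 : ‖((CsF_rho s z : ℝ) : ℂ) • ContinuousLinearMap.id ℝ ℂ‖ ≤
          (s ^ 2 + ‖z‖ ^ 2) ^ (-(3 / 2) : ℝ) := by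
        rw [norm_smul, Complex.norm_real, Real.norm_eq_abs, abs_of_pos hr]
        calc CsF_rho s z * ‖ContinuousLinearMap.id ℝ ℂ‖ ≤ CsF_rho s z * 1 :=
              mul_le_mul_of_nonneg_left ContinuousLinearMap.norm_id_le hr.le
          _ = _ := by rw [mul_one]; rfl
      linarith
    calc _ ≤ 4 * (s ^ 2 + ‖z‖ ^ 2) ^ (-(3 / 2) : ℝ) *
          (C * (s ^ 2 + ‖z‖ ^ 2) ^ (3 / 2 : ℝ)) :=
          mul_le_mul h2 (hw z) (by positivity) (by positivity)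
      _ = 4 * C * ((s ^ 2 + ‖z‖ ^ 2) ^ (-(3 / 2) : ℝ) * (s ^ 2 + ‖z‖ ^ 2) ^ (3 / 2 : ℝ)) := by
          ring
      _ = 4 * C := by
          rw [← Real.rpow_add hq]
          norm_num

/-! ### Closure properties of `CsF_W` -/

lemma CsF_fderiv_conj {f : ℂ → ℂ} (hf : ContDiff ℝ 1 f) (a : ℂ) :
    ‖fderiv ℝ (fun z => conj (f z)) a‖ ≤ ‖fderiv ℝ f a‖ := by
  have h1 : HasFDerivAt (fun z => conj (f z)) (conjCLE.toContinuousLinearMap.comp (fderiv ℝ f a)) a :=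
    conjCLE.toContinuousLinearMap.hasFDerivAt.comp a
      (hf.differentiable (by norm_num) a).hasFDerivAt
  rw [h1.fderiv]
  refine ContinuousLinearMap.opNorm_le_bound _ (norm_nonneg _) fun v => ?_
  have : (conjCLE.toContinuousLinearMap.comp (fderiv ℝ f a)) v = conj (fderiv ℝ f a v) := rfl
  rw [this, RCLike.norm_conj]
  exact (fderiv ℝ f a).le_opNorm v

lemma CsF_conj_smooth {f : ℂ → ℂ} (hf : ContDiff ℝ 1 f) : ContDiff ℝ 1 fun z => conj (f z) :=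
  conjCLE.contDiff.comp hf

lemma CsF_fderiv_smul {f : ℂ → ℂ} (hf : ContDiff ℝ 1 f) (c a : ℂ) :
    ‖fderiv ℝ (fun z => c * f z) a‖ ≤ ‖c‖ * ‖fderiv ℝ f a‖ := by
  have h1 : HasFDerivAt (fun z => c * f z) (c • fderiv ℝ f a) a :=
    (hf.differentiable (by norm_num) a).hasFDerivAt.const_mul c
  rw [h1.fderiv, norm_smul]

lemma CsF_fderiv_add {f g : ℂ → ℂ} (hf : ContDiff ℝ 1 f) (hg : ContDiff ℝ 1 g) (a : ℂ) :
    ‖fderiv ℝ (fun z => f z + g z) a‖ ≤ ‖fderiv ℝ f a‖ + ‖fderiv ℝ g a‖ := by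
  have h1 : HasFDerivAt (fun z => f z + g z) (fderiv ℝ f a + fderiv ℝ g a) a :=
    (hf.differentiable (by norm_num) a).hasFDerivAt.add
      (hg.differentiable (by norm_num) a).hasFDerivAt
  rw [h1.fderiv]
  exact norm_add_le _ _

lemma CsF_W_add {f g : ℂ → ℂ} (hf : CsF_W f) (hg : CsF_W g) : CsF_W fun z => f z + g z := by
  obtain ⟨hf1, A, hA⟩ := hf
  obtain ⟨hg1, B, hB⟩ := hg
  refine ⟨hf1.add hg1, A + B, fun a => ?_⟩
  have h1 := mul_le_mul_of_nonneg_right (CsF_fderiv_add hf1 hg1 a)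
    (by positivity : 0 ≤ (1 + ‖a‖) ^ 3)
  rw [add_mul] at h1
  linarith [hA a, hB a]

lemma CsF_W_smul {f : ℂ → ℂ} (hf : CsF_W f) (c : ℂ) : CsF_W fun z => c * f z := by
  obtain ⟨hf1, A, hA⟩ := hf
  refine ⟨contDiff_const.mul hf1, ‖c‖ * A, fun a => ?_⟩
  have h1 := mul_le_mul_of_nonneg_right (CsF_fderiv_smul hf1 c a)
    (by positivity : 0 ≤ (1 + ‖a‖) ^ 3)
  have h2 := mul_le_mul_of_nonneg_left (hA a) (norm_nonneg c)
  linarith

lemma CsF_W_conj {f : ℂ → ℂ} (hf : CsF_W f) : CsF_W fun z => conj (f z) := by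
  obtain ⟨hf1, A, hA⟩ := hf
  refine ⟨CsF_conj_smooth hf1, A, fun a => ?_⟩
  have h1 := mul_le_mul_of_nonneg_right (CsF_fderiv_conj hf1 a)
    (by positivity : 0 ≤ (1 + ‖a‖) ^ 3)
  linarith [hA a]

lemma CsF_W_negconj {f : ℂ → ℂ} (hf : CsF_W f) : CsF_W fun z => -conj (f z) := by
  have h := CsF_W_smul (CsF_W_conj hf) (-1)
  simpa using h

lemma CsF_W_zero : CsF_W fun _ => (0 : ℂ) := ⟨contDiff_const, 0, fun a => by simp⟩

lemma CsF_bb_add (hB : ClaimBb) {f g : ℂ → ℂ} (hf : CsF_W f) (hg : CsF_W g) (z : ℂ) :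
    bb (fun a => f a + g a) z = bb f z + bb g z := by
  obtain ⟨hf1, A, hA⟩ := hf
  obtain ⟨hg1, B, hB'⟩ := hg
  exact hB.1 A B f g hf1 hg1 hA hB' z

lemma CsF_bb_zero (hB : ClaimBb) (z : ℂ) : bb (fun _ => (0 : ℂ)) z = 0 := by
  have h := hB.2.1 0 (fun _ => (0 : ℂ)) contDiff_const z
  simpa using h

lemma CsF_bb_sum (hB : ClaimBb) (s : Finset ℕ) (c : ℕ → ℂ) (f : ℕ → ℂ → ℂ)
    (hf : ∀ j, CsF_W (f j)) : CsF_W (fun z => ∑ j ∈ s, c j * f j z) ∧
      ∀ z, bb (fun z => ∑ j ∈ s, c j * f j z) z = ∑ j ∈ s, c j * bb (f j) z := by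
  classical
  induction s using Finset.induction_on with
  | empty =>
    simp only [Finset.sum_empty]
    exact ⟨CsF_W_zero, CsF_bb_zero hB⟩
  | insert j s hj ih =>
    simp only [Finset.sum_insert hj]
    refine ⟨CsF_W_add (CsF_W_smul (hf j) (c j)) ih.1, fun z => ?_⟩
    rw [CsF_bb_add hB (CsF_W_smul (hf j) (c j)) ih.1 z, ih.2 z, hB.2.1 (c j) (f j) (hf j).1 z]

/-! ### Closure properties of `Nice` -/

lemma CsF_Nice_mono {N : ℕ} {A B : ℝ} {f : ℂ → ℂ} (h : Nice N A f) (hAB : A ≤ B) :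
    Nice N B f := ⟨h.smooth, fun a => (h.bd a).trans hAB, fun a => (h.bd' a).trans hAB⟩

lemma CsF_Nice_nonneg {N : ℕ} {A : ℝ} {f : ℂ → ℂ} (h : Nice N A f) : 0 ≤ A :=
  le_trans (by positivity) (h.bd 0)

lemma CsF_Nice_W {N : ℕ} (hN : 3 ≤ N) {A : ℝ} {f : ℂ → ℂ} (h : Nice N A f) : CsF_W f := by
  refine ⟨h.smooth, A, fun a => le_trans ?_ (h.bd' a)⟩
  refine mul_le_mul_of_nonneg_left ?_ (norm_nonneg _)
  exact pow_le_pow_right₀ (by linarith [norm_nonneg a]) hN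

lemma CsF_Nice_add {N : ℕ} {A B : ℝ} {f g : ℂ → ℂ} (hf : Nice N A f) (hg : Nice N B g) :
    Nice N (A + B) fun z => f z + g z := by
  refine ⟨hf.smooth.add hg.smooth, fun a => ?_, fun a => ?_⟩
  · have h1 := mul_le_mul_of_nonneg_right (norm_add_le (f a) (g a))
      (by positivity : 0 ≤ (1 + ‖a‖) ^ N)
    rw [add_mul] at h1
    linarith [hf.bd a, hg.bd a]
  · have h1 := mul_le_mul_of_nonneg_right (CsF_fderiv_add hf.smooth hg.smooth a)
      (by positivity : 0 ≤ (1 + ‖a‖) ^ N)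
    rw [add_mul] at h1
    linarith [hf.bd' a, hg.bd' a]

lemma CsF_Nice_smul {N : ℕ} {A : ℝ} {f : ℂ → ℂ} (hf : Nice N A f) (c : ℂ) :
    Nice N (‖c‖ * A) fun z => c * f z := by
  refine ⟨contDiff_const.mul hf.smooth, fun a => ?_, fun a => ?_⟩
  · rw [norm_mul, mul_assoc]
    exact mul_le_mul_of_nonneg_left (hf.bd a) (norm_nonneg c)
  · have h1 := mul_le_mul_of_nonneg_right (CsF_fderiv_smul hf.smooth c a)
      (by positivity : 0 ≤ (1 + ‖a‖) ^ N)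
    have h2 := mul_le_mul_of_nonneg_left (hf.bd' a) (norm_nonneg c)
    linarith

lemma CsF_Nice_conj {N : ℕ} {A : ℝ} {f : ℂ → ℂ} (hf : Nice N A f) :
    Nice N A fun z => conj (f z) := by
  refine ⟨CsF_conj_smooth hf.smooth, fun a => ?_, fun a => ?_⟩
  · rw [RCLike.norm_conj]
    exact hf.bd a
  · have h1 := mul_le_mul_of_nonneg_right (CsF_fderiv_conj hf.smooth a)
      (by positivity : 0 ≤ (1 + ‖a‖) ^ N)
    linarith [hf.bd' a]

lemma CsF_Nice_zero (N : ℕ) : Nice N 0 fun _ => (0 : ℂ) :=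
  ⟨contDiff_const, fun a => by simp, fun a => by simp⟩

lemma CsF_dil_smooth {f : ℂ → ℂ} (hf : ContDiff ℝ 1 f) (b : ℂ) (u : ℝ) :
    ContDiff ℝ 1 fun z => f ((z - b) / u) :=
  hf.comp ((contDiff_id.sub contDiff_const).div_const _)

lemma CsF_Nice_dil {N : ℕ} {A : ℝ} {f : ℂ → ℂ} (hf : Nice N A f) (b : ℂ) {u : ℝ} (hu : 0 < u) :
    Nice N ((1 + u⁻¹) * ((1 + ‖b‖ + u) ^ N * A)) fun z => f ((z - b) / u) := by
  have hA := CsF_Nice_nonneg hf
  have hw : ∀ z : ℂ, 1 + ‖z‖ ≤ (1 + ‖b‖ + u) * (1 + ‖(z - b) / u‖) := by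
    intro z
    have h1 : z = b + u * ((z - b) / u) := by
      have : (u : ℂ) ≠ 0 := by exact_mod_cast hu.ne'
      field_simp
      ring
    have h2 : ‖z‖ ≤ ‖b‖ + u * ‖(z - b) / u‖ := by
      conv_lhs => rw [h1]
      refine (norm_add_le _ _).trans ?_
      rw [norm_mul, Complex.norm_real, Real.norm_eq_abs, abs_of_pos hu]
    have h3 : 0 ≤ ‖(z - b) / u‖ := norm_nonneg _
    have h4 : 0 ≤ ‖b‖ := norm_nonneg _
    have h5 : 0 ≤ ‖b‖ * ‖(z - b) / u‖ := mul_nonneg h4 h3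
    nlinarith
  have hwN : ∀ z : ℂ, (1 + ‖z‖) ^ N ≤ (1 + ‖b‖ + u) ^ N * (1 + ‖(z - b) / u‖) ^ N := by
    intro z
    rw [← mul_pow]
    exact pow_le_pow_left₀ (by positivity) (hw z) N
  have key : ∀ (x : ℝ) (z : ℂ), 0 ≤ x → x * (1 + ‖(z - b) / u‖) ^ N ≤ A →
      x * (1 + ‖z‖) ^ N ≤ (1 + ‖b‖ + u) ^ N * A := by
    intro x z hx h
    calc x * (1 + ‖z‖) ^ N ≤ x * ((1 + ‖b‖ + u) ^ N * (1 + ‖(z - b) / u‖) ^ N) :=
          mul_le_mul_of_nonneg_left (hwN z) hx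
      _ = (1 + ‖b‖ + u) ^ N * (x * (1 + ‖(z - b) / u‖) ^ N) := by ring
      _ ≤ _ := mul_le_mul_of_nonneg_left h (by positivity)
  have hE : 0 ≤ (1 + ‖b‖ + u) ^ N * A := by positivity
  have hu' : 0 < u⁻¹ := inv_pos.2 hu
  refine ⟨CsF_dil_smooth hf.smooth b u, fun z => ?_, fun z => ?_⟩
  · have h1 := key _ z (norm_nonneg _) (hf.bd ((z - b) / u))
    have h2 : 0 ≤ u⁻¹ * ((1 + ‖b‖ + u) ^ N * A) := mul_nonneg hu'.le hE
    rw [add_mul, one_mul]
    linarith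
  · have hlin : HasFDerivAt (fun z : ℂ => (z - b) / (u : ℂ))
        ((u : ℂ)⁻¹ • ContinuousLinearMap.id ℝ ℂ) z := by
      have h1 : HasFDerivAt (fun z : ℂ => z - b) (ContinuousLinearMap.id ℝ ℂ) z :=
        (hasFDerivAt_id z).sub_const b
      have h2 := h1.const_mul ((u : ℂ)⁻¹)
      have h3 : (fun z : ℂ => (u : ℂ)⁻¹ * (z - b)) = fun z : ℂ => (z - b) / (u : ℂ) := by
        funext w
        rw [div_eq_mul_inv, mul_comm]
      rw [h3] at h2
      exact h2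
    have hcomp : HasFDerivAt (fun z => f ((z - b) / u))
        ((fderiv ℝ f ((z - b) / u)).comp ((u : ℂ)⁻¹ • ContinuousLinearMap.id ℝ ℂ)) z :=
      HasFDerivAt.comp z (hf.smooth.differentiable (by norm_num) _).hasFDerivAt hlin
    rw [hcomp.fderiv]
    have hn : ‖(fderiv ℝ f ((z - b) / u)).comp ((u : ℂ)⁻¹ • ContinuousLinearMap.id ℝ ℂ)‖ ≤
        u⁻¹ * ‖fderiv ℝ f ((z - b) / u)‖ := by
      refine (ContinuousLinearMap.opNorm_comp_le _ _).trans ?_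
      rw [norm_smul, norm_inv, Complex.norm_real, Real.norm_eq_abs, abs_of_pos hu]
      have : u⁻¹ * ‖ContinuousLinearMap.id ℝ ℂ‖ ≤ u⁻¹ * 1 :=
        mul_le_mul_of_nonneg_left ContinuousLinearMap.norm_id_le hu'.le
      calc _ ≤ ‖fderiv ℝ f ((z - b) / u)‖ * (u⁻¹ * 1) :=
            mul_le_mul_of_nonneg_left this (norm_nonneg _)
        _ = _ := by ring
    have h1 := key _ z (norm_nonneg _) (hf.bd' ((z - b) / u))
    calc _ ≤ u⁻¹ * ‖fderiv ℝ f ((z - b) / u)‖ * (1 + ‖z‖) ^ N :=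
          mul_le_mul_of_nonneg_right hn (by positivity)
      _ = u⁻¹ * (‖fderiv ℝ f ((z - b) / u)‖ * (1 + ‖z‖) ^ N) := by ring
      _ ≤ u⁻¹ * ((1 + ‖b‖ + u) ^ N * A) := mul_le_mul_of_nonneg_left h1 hu'.le
      _ ≤ _ := by
          rw [add_mul, one_mul]
          linarith

/-! ### The basic pair -/

lemma CsF_conj_hs (s : ℝ) (z : ℂ) : conj (hs s z) = hs s z := by
  unfold hs
  exact conj_ofReal _

lemma CsF_conj_coef (M j : ℕ) :
    conj ((-1) ^ j * (M.choose j : ℂ)) = (-1) ^ j * (M.choose j : ℂ) := by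
  simp

lemma CsF_conj_D1 (M : ℕ) (z : ℂ) : conj (D1 M z) = D1 M z := by
  unfold D1
  rw [map_sum]
  refine Finset.sum_congr rfl fun j _ => ?_
  rw [map_mul, CsF_conj_coef, CsF_conj_hs]

lemma CsF_negconj_D2 (M : ℕ) (z : ℂ) : -conj (D2 M z) =
    ∑ j ∈ Finset.range (M + 1), ((-1) ^ j * (M.choose j : ℂ)) * -conj (ks (1 + j) z) := by
  unfold D2
  rw [map_sum, ← Finset.sum_neg_distrib]
  refine Finset.sum_congr rfl fun j _ => ?_
  rw [map_mul, CsF_conj_coef]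
  ring

lemma CsF_bb_D1 (hB : ClaimBb) (h1 : ClaimI1) (M : ℕ) (z : ℂ) : bb (D1 M) z = D2 M z := by
  have hpos : ∀ j : ℕ, (0 : ℝ) < 1 + j := fun j => by positivity
  have h := (CsF_bb_sum hB (Finset.range (M + 1)) (fun j => (-1) ^ j * (M.choose j : ℂ))
    (fun j => hs (1 + j)) fun j => CsF_W_hs (hpos j)).2 z
  have e : (fun z => ∑ j ∈ Finset.range (M + 1), ((-1) ^ j * (M.choose j : ℂ)) *
      hs (1 + j) z) = D1 M := rfl
  rw [e] at h
  rw [h]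
  unfold D2
  refine Finset.sum_congr rfl fun j _ => ?_
  rw [h1 _ z (hpos j)]

lemma CsF_bb_D2 (hB : ClaimBb) (h2 : ClaimI2) (M : ℕ) (z : ℂ) :
    bb (fun a => -conj (D2 M a)) z = D1 M z := by
  have hpos : ∀ j : ℕ, (0 : ℝ) < 1 + j := fun j => by positivity
  have h := (CsF_bb_sum hB (Finset.range (M + 1)) (fun j => (-1) ^ j * (M.choose j : ℂ))
    (fun j => fun z => -conj (ks (1 + j) z)) fun j => CsF_W_negconj (CsF_W_ks (hpos j))).2 z
  have e : (fun z => ∑ j ∈ Finset.range (M + 1), ((-1) ^ j * (M.choose j : ℂ)) *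
      -conj (ks (1 + j) z)) = fun a => -conj (D2 M a) := by
    funext a
    exact (CsF_negconj_D2 M a).symm
  rw [e] at h
  rw [h]
  unfold D1
  refine Finset.sum_congr rfl fun j _ => ?_
  rw [h2 _ z (hpos j)]

/-- the dilations act on `ℂ` -/
lemma CsF_dil_dil (b b' : ℂ) {u u' : ℝ} (hu : 0 < u) (hu' : 0 < u') (z : ℂ) :
    ((z - b) / u - b') / u' = (z - (b + u * b')) / ((u * u' : ℝ) : ℂ) := by
  have h1 : (u : ℂ) ≠ 0 := by exact_mod_cast hu.ne'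
  have h2 : (u' : ℂ) ≠ 0 := by exact_mod_cast hu'.ne'
  push_cast
  field_simp
  ring

/-- [C5]. -/
theorem claimCs (hB : ClaimBb) (h1 : ClaimI1) (h2 : ClaimI2) (hD : ClaimDecay) : ClaimCs := by
  intro M hM
  obtain ⟨A, hA1, hA2⟩ := hD M
  refine ⟨?_, ?_, ?_⟩
  · intro F hF
    induction hF using Submodule.span_induction with
    | mem F hF =>
      rcases hF with ⟨b, u, hu, rfl⟩ | ⟨b, u, hu, rfl⟩
      · refine ⟨⟨_, CsF_Nice_dil hA1 b hu, CsF_Nice_dil hA2 b hu⟩, fun z => ?_⟩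
        have h := hB.2.2 b u (D1 M) hu hA1.smooth z
        rw [CsF_bb_D1 hB h1] at h
        exact h
      · have hN1 : Nice M A fun z => -conj (D2 M z) := by
          have := CsF_Nice_smul (CsF_Nice_conj hA2) (-1)
          simpa using this
        have hN2 : Nice M A fun z => conj (D1 M z) := CsF_Nice_conj hA1
        refine ⟨⟨_, CsF_Nice_dil hN1 b hu, CsF_Nice_dil hN2 b hu⟩, fun z => ?_⟩
        have h := hB.2.2 b u (fun z => -conj (D2 M z)) hu hN1.smooth z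
        rw [CsF_bb_D2 hB h2] at h
        refine Eq.trans h ?_
        exact (CsF_conj_D1 M _).symm
    | zero => exact ⟨⟨0, CsF_Nice_zero M, CsF_Nice_zero M⟩, CsF_bb_zero hB⟩
    | add F G _ _ ihF ihG =>
      obtain ⟨⟨A1, hF1, hF2⟩, hF3⟩ := ihF
      obtain ⟨⟨A2, hG1, hG2⟩, hG3⟩ := ihG
      refine ⟨⟨A1 + A2, CsF_Nice_add hF1 hG1, CsF_Nice_add hF2 hG2⟩, fun z => ?_⟩
      refine (CsF_bb_add hB (CsF_Nice_W hM hF1) (CsF_Nice_W hM hG1) z).trans ?_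
      rw [hF3, hG3]
      rfl
    | smul c F _ ihF =>
      obtain ⟨⟨A1, hF1, hF2⟩, hF3⟩ := ihF
      refine ⟨⟨_, CsF_Nice_smul hF1 c, CsF_Nice_smul hF2 c⟩, fun z => ?_⟩
      refine (hB.2.1 c _ hF1.smooth z).trans ?_
      rw [hF3]
      rfl
  · intro F hF b u hu
    induction hF using Submodule.span_induction with
    | mem F hF =>
      rcases hF with ⟨b', u', hu', rfl⟩ | ⟨b', u', hu', rfl⟩
      · apply Submodule.subset_span
        left
        refine ⟨b + u * b', u * u', mul_pos hu hu', ?_⟩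
        funext z
        change DD M (((z - b) / u - b') / u') = _
        rw [CsF_dil_dil b b' hu hu' z]
      · apply Submodule.subset_span
        right
        refine ⟨b + u * b', u * u', mul_pos hu hu', ?_⟩
        funext z
        change Jq (DD M) (((z - b) / u - b') / u') = _
        rw [CsF_dil_dil b b' hu hu' z]
    | zero => exact (Cs M).zero_mem
    | add F G _ _ ihF ihG => exact (Cs M).add_mem ihF ihG
    | smul c F _ ihF => exact (Cs M).smul_mem c ihF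
  · intro F hF
    induction hF using Submodule.span_induction with
    | mem F hF =>
      rcases hF with ⟨b', u', hu', rfl⟩ | ⟨b', u', hu', rfl⟩
      · apply Submodule.subset_span
        right
        exact ⟨b', u', hu', rfl⟩
      · have h : Jq (fun z => Jq (DD M) ((z - b') / u')) = -(fun z => DD M ((z - b') / u')) := by
          funext z
          simp [Jq]
          rfl
        rw [h]
        apply (Cs M).neg_mem
        apply Submodule.subset_span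
        left
        exact ⟨b', u', hu', rfl⟩
    | zero =>
      have h : Jq (0 : ℂ → ℂ × ℂ) = 0 := by
        funext z
        simp [Jq]
      rw [h]
      exact (Cs M).zero_mem
    | add F G _ _ ihF ihG =>
      have h : Jq (F + G) = Jq F + Jq G := by
        funext z
        simp [Jq]
        ring
      rw [h]
      exact (Cs M).add_mem ihF ihG
    | smul c F _ ihF =>
      have h : Jq (c • F) = conj c • Jq F := by
        funext z
        simp [Jq]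
      rw [h]
      exact (Cs M).smul_mem _ ihF

end Pool.Agent.Work.MP_440970_an

end

section

/-!
Elementary properties of `np` and `dX`.
-/

open MeasureTheory Complex Set Filter Topology
open scoped ENNReal ComplexConjugate

namespace Pool.Agent.Work.MP_440970_an

theorem DXb_K_meas : Measurable K := by
  unfold K
  fun_prop

theorem DXb_meas {f : ℂ → ℂ} (hf : f ∈ X) : Measurable f := by
  unfold X at hf
  induction hf using Submodule.span_induction with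
  | mem x hx =>
    obtain ⟨a, rfl⟩ := hx
    exact DXb_K_meas.comp (measurable_id.sub_const a)
  | zero => exact measurable_zero
  | add x y _ _ hx hy => exact hx.add hy
  | smul a x _ hx => exact hx.const_smul a

theorem DXb_K_scale (z : ℂ) (u : ℝ) (hu : 0 < u) : K (z / u) = (u : ℂ) ^ 2 * K z := by
  unfold K
  rw [norm_div, Complex.norm_real, Real.norm_eq_abs, abs_of_pos hu]
  by_cases hz : z = 0
  · simp [hz]
  have h1 : (u : ℂ) ≠ 0 := by exact_mod_cast hu.ne'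
  have h2 : ((‖z‖ : ℝ) : ℂ) ≠ 0 := by simpa using hz
  push_cast
  field_simp

theorem DXb_affine (b : ℂ) (u : ℝ) (hu : 0 < u) {f : ℂ → ℂ} (hf : f ∈ X) :
    (fun z => f ((z - b) / u)) ∈ X := by
  unfold X at hf ⊢
  have h1 : (u : ℂ) ≠ 0 := by exact_mod_cast hu.ne'
  induction hf using Submodule.span_induction with
  | mem x hx =>
    obtain ⟨a, rfl⟩ := hx
    have : (fun z : ℂ => K ((z - b) / u - a)) =
        ((u : ℂ) ^ 2) • (fun z : ℂ => K (z - (b + u * a))) := by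
      funext z
      have : (z - b) / u - a = (z - (b + u * a)) / u := by field_simp; ring
      rw [this, DXb_K_scale _ u hu]
      rfl
    show (fun z : ℂ => K ((z - b) / u - a)) ∈ _
    rw [this]
    exact Submodule.smul_mem _ _ (Submodule.subset_span ⟨_, rfl⟩)
  | zero => exact Submodule.zero_mem _
  | add x y _ _ hx hy => exact Submodule.add_mem _ hx hy
  | smul a x _ hx => exact Submodule.smul_mem _ a hx

theorem DXb_np_affine (p : ℝ) (b : ℂ) (u : ℝ) (f : ℂ → ℂ) (hu : 0 < u) :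
    np p (fun z => f ((z - b) / u)) = ENNReal.ofReal (u ^ 2) * np p f := by
  unfold np
  have h0 : ∫⁻ z : ℂ, ‖f ((z - b) / u)‖ₑ ^ p = ∫⁻ z : ℂ, ‖f (z / u)‖ₑ ^ p :=
    lintegral_sub_right_eq_self (fun z : ℂ => ‖f (z / u)‖ₑ ^ p) b
  rw [h0]
  have hu' : (u⁻¹ : ℝ) ≠ 0 := inv_ne_zero hu.ne'
  have h1 : ∀ z : ℂ, z / u = (u⁻¹ : ℝ) • z := by
    intro z
    rw [Complex.real_smul, Complex.ofReal_inv, div_eq_inv_mul]
  simp only [h1]
  have h2 := lintegral_map_equiv (μ := (volume : Measure ℂ)) (fun z : ℂ => ‖f z‖ₑ ^ p)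
    (Homeomorph.smulOfNeZero (u⁻¹ : ℝ) hu').toMeasurableEquiv
  have h3 : Measure.map (Homeomorph.smulOfNeZero (u⁻¹ : ℝ) hu').toMeasurableEquiv
      (volume : Measure ℂ) = ENNReal.ofReal (u ^ 2) • (volume : Measure ℂ) := by
    have h4 := Measure.map_addHaar_smul (volume : Measure ℂ) hu'
    rw [Complex.finrank_real_complex] at h4
    have h5 : |(((u⁻¹ : ℝ)) ^ 2)⁻¹| = u ^ 2 := by
      rw [abs_of_pos (by positivity)]
      simp
    rw [h5] at h4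
    exact h4
  rw [h3, lintegral_smul_measure] at h2
  exact h2.symm

theorem DXb_np_add (p : ℝ) (hp : 0 < p) (hp1 : p < 1) {f : ℂ → ℂ} (g : ℂ → ℂ)
    (hf : Measurable f) : np p (fun z => f z + g z) ≤ np p f + np p g := by
  unfold np
  rw [← lintegral_add_left (by fun_prop)]
  refine lintegral_mono fun z => ?_
  show ‖f z + g z‖ₑ ^ p ≤ ‖f z‖ₑ ^ p + ‖g z‖ₑ ^ p
  exact (ENNReal.rpow_le_rpow (enorm_add_le _ _) hp.le).trans
    (ENNReal.rpow_add_le_add_rpow _ _ hp.le hp1.le)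

theorem DXb_np_zero (p : ℝ) (hp : 0 < p) : np p (0 : ℂ → ℂ) = 0 := by
  unfold np
  simp [hp]

theorem DXb_np_neg (p : ℝ) (f : ℂ → ℂ) : np p (fun z => -f z) = np p f := by
  unfold np
  simp

theorem DXb_dX_le (p : ℝ) (g F : ℂ → ℂ) (hF : F ∈ X) (hn : np p F < ⊤) :
    dX p g ≤ np p (fun z => g z - F z) := by
  unfold dX
  exact iInf_le_of_le F (iInf_le_of_le hF (iInf_le_of_le hn le_rfl))

theorem DXb_dX_add (p : ℝ) (hp : 0 < p) (hp1 : p < 1) {f : ℂ → ℂ} (g : ℂ → ℂ)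
    (hf : Measurable f) : dX p (fun z => f z + g z) ≤ dX p f + dX p g := by
  have key : ∀ F ∈ X, np p F < ⊤ → ∀ G ∈ X, np p G < ⊤ →
      dX p (fun z => f z + g z) ≤ np p (fun z => f z - F z) + np p (fun z => g z - G z) := by
    intro F hF hF' G hG hG'
    have h1 : np p (F + G) < ⊤ :=
      lt_of_le_of_lt (DXb_np_add p hp hp1 G (DXb_meas hF)) (ENNReal.add_lt_top.2 ⟨hF', hG'⟩)
    refine (DXb_dX_le p _ (F + G) (Submodule.add_mem _ hF hG) h1).trans ?_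
    have h2 : (fun z => f z + g z - (F + G) z) = fun z => (f z - F z) + (g z - G z) := by
      funext z
      rw [Pi.add_apply]; ring
    rw [h2]
    exact DXb_np_add p hp hp1 (fun z => g z - G z) (hf.sub (DXb_meas hF))
  have h3 : ∀ F ∈ X, np p F < ⊤ →
      dX p (fun z => f z + g z) ≤ np p (fun z => f z - F z) + dX p g := by
    intro F hF hF'
    rw [← tsub_le_iff_left]
    unfold dX
    refine le_iInf fun G => le_iInf fun hG => le_iInf fun hG' => ?_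
    rw [tsub_le_iff_left]
    exact key F hF hF' G hG hG'
  rw [← tsub_le_iff_right]
  conv_rhs => unfold dX
  refine le_iInf fun F => le_iInf fun hF => le_iInf fun hF' => ?_
  rw [tsub_le_iff_right]
  exact h3 F hF hF'

theorem DXb_dX_np (p : ℝ) (hp : 0 < p) (f : ℂ → ℂ) : dX p f ≤ np p f := by
  have := DXb_dX_le p f 0 (Submodule.zero_mem _) (by rw [DXb_np_zero p hp]; exact ENNReal.zero_lt_top)
  simpa using this

theorem DXb_sub (p : ℝ) (hp : 0 < p) (hp1 : p < 1) {f g : ℂ → ℂ} (hf : Measurable f)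
    (hf' : np p f < ⊤) (hg' : np p g < ⊤) (h : (fun z => f z - g z) ∈ X) :
    dX p f ≤ dX p g := by
  conv_rhs => unfold dX
  refine le_iInf fun F => le_iInf fun hF => le_iInf fun hF' => ?_
  have h1 : np p (fun z => f z - g z) < ⊤ := by
    have := DXb_np_add p hp hp1 (fun z => -g z) hf
    rw [DXb_np_neg] at this
    simp only [← sub_eq_add_neg] at this
    exact lt_of_le_of_lt this (ENNReal.add_lt_top.2 ⟨hf', hg'⟩)
  have h2 : np p (F + fun z => f z - g z) < ⊤ :=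
    lt_of_le_of_lt (DXb_np_add p hp hp1 _ (DXb_meas hF)) (ENNReal.add_lt_top.2 ⟨hF', h1⟩)
  have h3 := DXb_dX_le p f _ (Submodule.add_mem _ hF h) h2
  have h4 : (fun z => f z - (F + fun z => f z - g z) z) = fun z => g z - F z := by
    funext z
    rw [Pi.add_apply]; ring
  rw [h4] at h3
  exact h3

theorem claimDX : ClaimDX := by
  intro p hp hp1
  refine ⟨fun f hf => DXb_meas hf, fun b u hu f hf => DXb_affine b u hu hf,
    fun b u f hu => DXb_np_affine p b u f hu, fun f g hf => DXb_np_add p hp hp1 g hf,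
    fun f => DXb_dX_np p hp f, fun f g hf => ?_, fun ι s f hf => ?_, fun f g hf hg hf' hg' h => ?_⟩
  · exact (DXb_dX_add p hp hp1 g hf).trans (by gcongr; exact DXb_dX_np p hp f)
  · classical
    induction s using Finset.induction_on with
    | empty =>
      simp only [Finset.sum_empty]
      have := DXb_dX_np p hp (fun _ => 0)
      have h0 : np p (fun _ : ℂ => (0 : ℂ)) = 0 := DXb_np_zero p hp
      rw [h0] at this
      exact this
    | insert i s hi ih =>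
      simp only [Finset.sum_insert hi]
      refine (DXb_dX_add p hp hp1 (fun z => ∑ j ∈ s, f j z) (hf i (Finset.mem_insert_self i s))).trans ?_
      gcongr
      exact ih fun j hj => hf j (Finset.mem_insert_of_mem hj)
  · apply le_antisymm
    · exact DXb_sub p hp hp1 hf hf' hg' h
    · apply DXb_sub p hp hp1 hg hg' hf'
      have := Submodule.neg_mem _ h
      have h2 : (-fun z => f z - g z) = fun z => g z - f z := by
        funext z; simp
      rwa [h2] at this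

end Pool.Agent.Work.MP_440970_an

end

section

/-!
# C4: decay of the basic blocks
-/

open MeasureTheory Complex Set Filter Topology
open scoped ComplexConjugate fwdDiff ContDiff

namespace Pool.Agent.Work.MP_440970_an

/-- Forward differences commute with the derivative. -/
theorem Decay_hasDeriv (h : ℝ) (M : ℕ) : ∀ f : ℝ → ℝ, (∀ x, DifferentiableAt ℝ f x) → ∀ x,
    HasDerivAt ((fwdDiff h)^[M] f) ((fwdDiff h)^[M] (deriv f) x) x := by
  induction M with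
  | zero => intro f hf x; simpa using (hf x).hasDerivAt
  | succ M ih =>
    intro f hf x
    rw [Function.iterate_succ_apply', Function.iterate_succ_apply']
    have h1 := (ih f hf (x + h)).comp_add_const x h
    have h2 := ih f hf x
    exact h1.sub h2

/-- The bound for the forward differences of a smooth function. -/
theorem Decay_fwd (M : ℕ) : ∀ (f : ℝ → ℝ), ContDiff ℝ ∞ f → ∀ R : ℝ, ∃ C : ℝ, 0 ≤ C ∧
    ∀ h ∈ Icc (0 : ℝ) 1, ∀ x ∈ Icc (0 : ℝ) R, |(fwdDiff h)^[M] f x| ≤ C * h ^ M := by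
  induction M with
  | zero =>
    intro f hf R
    obtain ⟨C, hC⟩ := (isCompact_Icc (a := (0 : ℝ)) (b := R)).exists_bound_of_continuousOn
      hf.continuous.continuousOn
    refine ⟨max C 0, le_max_right _ _, fun h _ x hx => ?_⟩
    have := hC x hx
    rw [Real.norm_eq_abs] at this
    simpa using this.trans (le_max_left C 0)
  | succ M ih =>
    intro f hf R
    have hf' : ContDiff ℝ ∞ (deriv f) := (contDiff_infty_iff_deriv.mp hf).2
    have hd : ∀ x, DifferentiableAt ℝ f x := fun x => (hf.differentiable (by simp)) x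
    obtain ⟨C, hC0, hC⟩ := ih (deriv f) hf' (R + 1)
    refine ⟨C, hC0, fun h hh x hx => ?_⟩
    rw [Function.iterate_succ_apply']
    have h1 := norm_image_sub_le_of_norm_deriv_le_segment' (f := (fwdDiff h)^[M] f)
      (f' := fun y => (fwdDiff h)^[M] (deriv f) y) (C := C * h ^ M) (a := x) (b := x + h)
      (fun y _ => (Decay_hasDeriv h M f hd y).hasDerivWithinAt)
      (fun y hy => by
        rw [Real.norm_eq_abs]
        exact hC h hh y ⟨hx.1.trans hy.1, hy.2.le.trans (add_le_add hx.2 hh.2)⟩)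
      (x + h) ⟨by linarith [hh.1], le_refl _⟩
    rw [Real.norm_eq_abs] at h1
    refine h1.trans (le_of_eq ?_)
    ring

/-- The alternating sum. -/
theorem Decay_sum (M : ℕ) (f : ℝ → ℝ) (hf : ContDiff ℝ ∞ f) : ∃ C : ℝ, 0 ≤ C ∧
    ∀ h ∈ Icc (0 : ℝ) 1, |∑ j ∈ Finset.range (M + 1), ((-1) ^ j * (M.choose j : ℝ)) *
      f ((1 + j) * h)| ≤ C * h ^ M := by
  obtain ⟨C, hC0, hC⟩ := Decay_fwd M f hf 1
  refine ⟨C, hC0, fun h hh => ?_⟩
  have h1 := hC h hh h hh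
  rw [fwdDiff_iter_eq_sum_shift] at h1
  refine le_of_eq_of_le ?_ h1
  have h2 : ∑ j ∈ Finset.range (M + 1), ((-1) ^ j * (M.choose j : ℝ)) * f ((1 + j) * h) =
      (-1) ^ M * ∑ k ∈ Finset.range (M + 1), ((-1 : ℤ) ^ (M - k) * M.choose k) • f (h + k • h) := by
    rw [Finset.mul_sum]
    refine Finset.sum_congr rfl fun k hk => ?_
    have hk' : k ≤ M := Nat.lt_succ_iff.mp (Finset.mem_range.mp hk)
    have h3 : h + k • h = (1 + k) * h := by rw [nsmul_eq_mul]; ring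
    rw [h3, zsmul_eq_mul]
    push_cast
    have h4 : ((-1 : ℝ)) ^ k = (-1) ^ M * (-1) ^ (M - k) := by
      rw [← pow_add]
      have : M + (M - k) = k + 2 * (M - k) := by omega
      rw [this, pow_add, pow_mul]
      norm_num
    rw [h4]
    ring
  rw [h2, abs_mul, abs_pow, abs_neg, abs_one, one_pow, one_mul]

/-- The function of `t = |z|²`. -/
noncomputable def DecayG (M e : ℕ) (c t : ℝ) : ℝ :=
  ∑ j ∈ Finset.range (M + 1), ((-1) ^ j * (M.choose j : ℝ)) *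
    ((1 + j) ^ e * ((1 + j) ^ 2 + t) ^ (-c))

theorem Decay_bound (M e : ℕ) (c : ℝ) (_hc : 0 ≤ c) (hec : e + 2 ≤ 2 * c) :
    ∃ C : ℝ, 0 ≤ C ∧ ∀ r : ℝ, 0 ≤ r → |DecayG M e c (r ^ 2)| * (1 + r) ^ (M + 2) ≤ C := by
  have hf : ContDiff ℝ ∞ (fun x : ℝ => x ^ e * (1 + x ^ 2) ^ (-c)) := by
    refine (contDiff_id.pow e).mul ?_
    refine ContDiff.rpow_const_of_ne (contDiff_const.add (contDiff_id.pow 2)) fun x => ?_
    have : 0 < 1 + x ^ 2 := by positivity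
    exact this.ne'
  obtain ⟨C, hC0, hC⟩ := Decay_sum M _ hf
  set B : ℝ := ∑ j ∈ Finset.range (M + 1), ((M.choose j : ℝ)) * (1 + j) ^ e with hB
  have hB0 : 0 ≤ B := Finset.sum_nonneg fun j _ => by positivity
  refine ⟨(B + C) * 2 ^ (M + 2), by positivity, fun r hr => ?_⟩
  rcases le_total r 1 with h1 | h1
  · have h2 : |DecayG M e c (r ^ 2)| ≤ B := by
      refine (Finset.abs_sum_le_sum_abs _ _).trans ?_
      refine Finset.sum_le_sum fun j _ => ?_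
      rw [abs_mul, abs_mul, abs_pow, abs_neg, abs_one, one_pow, one_mul, Nat.abs_cast]
      refine mul_le_mul_of_nonneg_left ?_ (Nat.cast_nonneg _)
      have h3 : (1 : ℝ) ≤ (1 + j) ^ 2 + r ^ 2 := by
        have : (0 : ℝ) ≤ j := Nat.cast_nonneg j
        nlinarith [sq_nonneg r]
      have h4 : ((1 + (j : ℝ)) ^ 2 + r ^ 2) ^ (-c) ≤ 1 :=
        Real.rpow_le_one_of_one_le_of_nonpos h3 (by linarith)
      have h5 : 0 ≤ ((1 + (j : ℝ)) ^ 2 + r ^ 2) ^ (-c) := by positivity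
      rw [abs_of_nonneg (by positivity)]
      exact mul_le_of_le_one_right (by positivity) h4
    have h6 : (1 + r) ^ (M + 2) ≤ 2 ^ (M + 2) := pow_le_pow_left₀ (by linarith) (by linarith) _
    calc |DecayG M e c (r ^ 2)| * (1 + r) ^ (M + 2) ≤ B * 2 ^ (M + 2) :=
          mul_le_mul h2 h6 (by positivity) hB0
      _ ≤ (B + C) * 2 ^ (M + 2) := by
          refine mul_le_mul_of_nonneg_right ?_ (by positivity)
          linarith
  · have hr0 : 0 < r := by linarith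
    have h2 : DecayG M e c (r ^ 2) = r ^ e * (r ^ 2) ^ (-c) *
        ∑ j ∈ Finset.range (M + 1), ((-1) ^ j * (M.choose j : ℝ)) *
          ((fun x : ℝ => x ^ e * (1 + x ^ 2) ^ (-c)) ((1 + j) * r⁻¹)) := by
      rw [DecayG, Finset.mul_sum]
      refine Finset.sum_congr rfl fun j _ => ?_
      have h3 : ((1 + (j : ℝ)) ^ 2 + r ^ 2) = r ^ 2 * (1 + ((1 + j) * r⁻¹) ^ 2) := by
        field_simp
        ring
      have h4 : (1 + (j : ℝ)) ^ e = r ^ e * ((1 + j) * r⁻¹) ^ e := by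
        rw [← mul_pow]
        congr 1
        field_simp
      simp only []
      rw [h3, Real.mul_rpow (by positivity) (by positivity)]
      conv_lhs => rw [h4]
      ring
    have h5 := hC r⁻¹ ⟨by positivity, inv_le_one_of_one_le₀ h1⟩
    have h6 : r ^ e * (r ^ 2) ^ (-c) ≤ (r ^ 2)⁻¹ := by
      have h7 : (r ^ 2) ^ (-c) = r ^ (-(2 * c)) := by
        rw [← Real.rpow_natCast r 2, ← Real.rpow_mul hr0.le]
        congr 1
        push_cast
        ring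
      have h8 : r ^ e * r ^ (-(2 * c)) = r ^ ((e : ℝ) - 2 * c) := by
        rw [← Real.rpow_natCast r e, ← Real.rpow_add hr0]
        congr 1
      rw [h7, h8, ← Real.rpow_natCast r 2, ← Real.rpow_neg hr0.le]
      refine Real.rpow_le_rpow_of_exponent_le h1 ?_
      push_cast
      linarith
    have h9 : (1 + r) ^ (M + 2) ≤ 2 ^ (M + 2) * r ^ (M + 2) := by
      rw [← mul_pow]
      exact pow_le_pow_left₀ (by linarith) (by linarith) _
    rw [h2, abs_mul, abs_of_nonneg (show 0 ≤ r ^ e * (r ^ 2) ^ (-c) by positivity)]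
    calc r ^ e * (r ^ 2) ^ (-c) * |∑ j ∈ Finset.range (M + 1), ((-1) ^ j * (M.choose j : ℝ)) *
          ((fun x : ℝ => x ^ e * (1 + x ^ 2) ^ (-c)) ((1 + j) * r⁻¹))| * (1 + r) ^ (M + 2)
        ≤ (r ^ 2)⁻¹ * (C * r⁻¹ ^ M) * (2 ^ (M + 2) * r ^ (M + 2)) :=
          mul_le_mul (mul_le_mul h6 h5 (abs_nonneg _) (by positivity)) h9 (by positivity)
            (by positivity)
      _ = C * 2 ^ (M + 2) := by
          rw [pow_add r M 2, inv_pow]
          field_simp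
      _ ≤ (B + C) * 2 ^ (M + 2) := by
          refine mul_le_mul_of_nonneg_right ?_ (by positivity)
          linarith

/-- The derivative in `t`. -/
theorem Decay_deriv (M e : ℕ) (c t : ℝ) (ht : 0 ≤ t) :
    HasDerivAt (DecayG M e c) (-c * DecayG M e (c + 1) t) t := by
  have h1 : HasDerivAt (fun t => ∑ j ∈ Finset.range (M + 1), ((-1) ^ j * (M.choose j : ℝ)) *
    ((1 + j) ^ e * ((1 + j) ^ 2 + t) ^ (-c))) (∑ j ∈ Finset.range (M + 1),
      ((-1) ^ j * (M.choose j : ℝ)) * ((1 + j) ^ e * (1 * (-c) * ((1 + j) ^ 2 + t) ^ (-c - 1)))) t := by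
    refine HasDerivAt.fun_sum fun j _ => ?_
    refine HasDerivAt.const_mul _ (HasDerivAt.const_mul _ ?_)
    refine HasDerivAt.rpow_const ?_ (Or.inl ?_)
    · exact (hasDerivAt_id t).const_add _
    · have : (0 : ℝ) < (1 + j) ^ 2 + t := by positivity
      exact this.ne'
  refine h1.congr_deriv ?_
  rw [DecayG, Finset.mul_sum]
  refine Finset.sum_congr rfl fun j _ => ?_
  rw [show -(c + 1) = -c - 1 by ring]
  ring

/-- The function of `z`. -/
theorem Decay_fderiv (M e : ℕ) (c : ℝ) (z : ℂ) :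
    HasFDerivAt (fun z : ℂ => DecayG M e c (‖z‖ ^ 2))
      ((-c * DecayG M e (c + 1) (‖z‖ ^ 2)) • (2 • innerSL ℝ z)) z :=
  HasDerivAt.comp_hasFDerivAt (h₂ := DecayG M e c) z
    (Decay_deriv M e c (‖z‖ ^ 2) (by positivity)) (hasStrictFDerivAt_norm_sq z).hasFDerivAt

theorem Decay_contDiff (M e : ℕ) (c : ℝ) : ContDiff ℝ 1 (fun z : ℂ => DecayG M e c (‖z‖ ^ 2)) := by
  unfold DecayG
  refine ContDiff.sum fun j _ => ?_
  refine contDiff_const.mul (contDiff_const.mul ?_)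
  refine ContDiff.rpow_const_of_ne (contDiff_const.add (contDiff_norm_sq ℝ)) fun z => ?_
  have : (0 : ℝ) < (1 + j) ^ 2 + ‖z‖ ^ 2 := by positivity
  exact this.ne'

theorem Decay_D1 (M : ℕ) (z : ℂ) : D1 M z = ((DecayG M 1 (3 / 2) (‖z‖ ^ 2) : ℝ) : ℂ) := by
  unfold D1 DecayG hs
  push_cast
  refine Finset.sum_congr rfl fun j _ => ?_
  rw [pow_one]

theorem Decay_D2 (M : ℕ) (z : ℂ) : D2 M z = z * ((DecayG M 0 (3 / 2) (‖z‖ ^ 2) : ℝ) : ℂ) := by
  unfold D2 DecayG ks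
  push_cast
  rw [Finset.mul_sum]
  refine Finset.sum_congr rfl fun j _ => ?_
  rw [pow_zero]
  ring

theorem Decay_norm_inner (a : ℝ) (z : ℂ) : ‖a • ((2 : ℕ) • innerSL ℝ z)‖ ≤ 2 * |a| * ‖z‖ := by
  rw [norm_smul, Real.norm_eq_abs]
  have h1 : ‖(2 : ℕ) • innerSL ℝ z‖ ≤ 2 * ‖z‖ := by
    rw [← Nat.cast_smul_eq_nsmul ℝ, norm_smul, innerSL_apply_norm]
    simp
  calc |a| * ‖(2 : ℕ) • innerSL ℝ z‖ ≤ |a| * (2 * ‖z‖) :=
        mul_le_mul_of_nonneg_left h1 (abs_nonneg _)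
    _ = 2 * |a| * ‖z‖ := by ring

/-- [C4] -/
theorem claimDecay : ClaimDecay := by
  intro M
  obtain ⟨C1, hC1, hb1⟩ := Decay_bound M 1 (3 / 2) (by norm_num) (by norm_num)
  obtain ⟨C2, hC2, hb2⟩ := Decay_bound M 1 (3 / 2 + 1) (by norm_num) (by norm_num)
  obtain ⟨C3, hC3, hb3⟩ := Decay_bound M 0 (3 / 2) (by norm_num) (by norm_num)
  obtain ⟨C4, hC4, hb4⟩ := Decay_bound M 0 (3 / 2 + 1) (by norm_num) (by norm_num)
  have hp : ∀ r : ℝ, 0 ≤ r → (1 + r) ^ (M + 2) = (1 + r) ^ M * (1 + r) ^ 2 := fun r _ => pow_add _ _ _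
  -- auxiliary bounds
  have aux0 : ∀ (x C r : ℝ), 0 ≤ r → 0 ≤ x → x * (1 + r) ^ (M + 2) ≤ C → x * (1 + r) ^ M ≤ C := by
    intro x C r hr hx h
    refine le_trans ?_ h
    refine mul_le_mul_of_nonneg_left ?_ hx
    exact pow_le_pow_right₀ (by linarith) (by omega)
  have aux1 : ∀ (x C r : ℝ), 0 ≤ r → 0 ≤ x → x * (1 + r) ^ (M + 2) ≤ C →
      r * x * (1 + r) ^ M ≤ C := by
    intro x C r hr hx h
    refine le_trans ?_ h
    rw [hp r hr]
    have h1 : r ≤ (1 + r) ^ 2 := by nlinarith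
    have h2 : 0 ≤ x * (1 + r) ^ M := by positivity
    calc r * x * (1 + r) ^ M = (x * (1 + r) ^ M) * r := by ring
      _ ≤ (x * (1 + r) ^ M) * (1 + r) ^ 2 := mul_le_mul_of_nonneg_left h1 h2
      _ = _ := by ring
  have aux2 : ∀ (x C r : ℝ), 0 ≤ r → 0 ≤ x → x * (1 + r) ^ (M + 2) ≤ C →
      r ^ 2 * x * (1 + r) ^ M ≤ C := by
    intro x C r hr hx h
    refine le_trans ?_ h
    rw [hp r hr]
    have h1 : r ^ 2 ≤ (1 + r) ^ 2 := by nlinarith
    have h2 : 0 ≤ x * (1 + r) ^ M := by positivity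
    calc r ^ 2 * x * (1 + r) ^ M = (x * (1 + r) ^ M) * r ^ 2 := by ring
      _ ≤ (x * (1 + r) ^ M) * (1 + r) ^ 2 := mul_le_mul_of_nonneg_left h1 h2
      _ = _ := by ring
  refine ⟨C1 + 3 * C2 + C3 + 3 * C4, ?_, ?_⟩
  · have hD : D1 M = fun z => ((DecayG M 1 (3 / 2) (‖z‖ ^ 2) : ℝ) : ℂ) := funext (Decay_D1 M)
    constructor
    · rw [hD]
      exact ofRealCLM.contDiff.comp (Decay_contDiff M 1 (3 / 2))
    · intro z
      rw [Decay_D1, Complex.norm_real, Real.norm_eq_abs]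
      have := aux0 _ _ _ (norm_nonneg z) (abs_nonneg _) (hb1 ‖z‖ (norm_nonneg z))
      linarith
    · intro z
      have h1 : HasFDerivAt (D1 M) (ofRealCLM.comp
          ((-(3 / 2) * DecayG M 1 (3 / 2 + 1) (‖z‖ ^ 2)) • (2 • innerSL ℝ z))) z := by
        rw [hD]
        exact ofRealCLM.hasFDerivAt.comp z (Decay_fderiv M 1 (3 / 2) z)
      rw [h1.fderiv]
      have h2 : ‖ofRealCLM.comp
          ((-(3 / 2) * DecayG M 1 (3 / 2 + 1) (‖z‖ ^ 2)) • (2 • innerSL ℝ z))‖ ≤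
            3 * (‖z‖ * |DecayG M 1 (3 / 2 + 1) (‖z‖ ^ 2)|) := by
        refine (ContinuousLinearMap.opNorm_comp_le _ _).trans ?_
        rw [ofRealCLM_norm, one_mul]
        refine (Decay_norm_inner _ _).trans (le_of_eq ?_)
        rw [abs_mul, abs_neg, abs_of_pos (by norm_num : (0 : ℝ) < 3 / 2)]
        ring
      have h3 := aux1 _ _ _ (norm_nonneg z) (abs_nonneg _) (hb2 ‖z‖ (norm_nonneg z))
      calc _ ≤ 3 * (‖z‖ * |DecayG M 1 (3 / 2 + 1) (‖z‖ ^ 2)|) * (1 + ‖z‖) ^ M :=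
            mul_le_mul_of_nonneg_right h2 (by positivity)
        _ = 3 * (‖z‖ * |DecayG M 1 (3 / 2 + 1) (‖z‖ ^ 2)| * (1 + ‖z‖) ^ M) := by ring
        _ ≤ _ := by linarith
  · have hD : D2 M = fun z => z * ((DecayG M 0 (3 / 2) (‖z‖ ^ 2) : ℝ) : ℂ) := funext (Decay_D2 M)
    constructor
    · rw [hD]
      exact contDiff_id.mul (ofRealCLM.contDiff.comp (Decay_contDiff M 0 (3 / 2)))
    · intro z
      rw [Decay_D2, norm_mul, Complex.norm_real, Real.norm_eq_abs]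
      have := aux1 _ _ _ (norm_nonneg z) (abs_nonneg _) (hb3 ‖z‖ (norm_nonneg z))
      linarith
    · intro z
      have h1 : HasFDerivAt (D2 M) (z • (ofRealCLM.comp
          ((-(3 / 2) * DecayG M 0 (3 / 2 + 1) (‖z‖ ^ 2)) • (2 • innerSL ℝ z))) +
            ((DecayG M 0 (3 / 2) (‖z‖ ^ 2) : ℝ) : ℂ) • (ContinuousLinearMap.id ℝ ℂ)) z := by
        rw [hD]
        exact (hasFDerivAt_id z).mul (ofRealCLM.hasFDerivAt.comp z (Decay_fderiv M 0 (3 / 2) z))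
      rw [h1.fderiv]
      have h2 : ‖ofRealCLM.comp
          ((-(3 / 2) * DecayG M 0 (3 / 2 + 1) (‖z‖ ^ 2)) • (2 • innerSL ℝ z))‖ ≤
            3 * (‖z‖ * |DecayG M 0 (3 / 2 + 1) (‖z‖ ^ 2)|) := by
        refine (ContinuousLinearMap.opNorm_comp_le _ _).trans ?_
        rw [ofRealCLM_norm, one_mul]
        refine (Decay_norm_inner _ _).trans (le_of_eq ?_)
        rw [abs_mul, abs_neg, abs_of_pos (by norm_num : (0 : ℝ) < 3 / 2)]
        ring
      have h3 := aux0 _ _ _ (norm_nonneg z) (abs_nonneg _) (hb3 ‖z‖ (norm_nonneg z))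
      have h4 := aux2 _ _ _ (norm_nonneg z) (abs_nonneg _) (hb4 ‖z‖ (norm_nonneg z))
      have h5 : ‖z • (ofRealCLM.comp
          ((-(3 / 2) * DecayG M 0 (3 / 2 + 1) (‖z‖ ^ 2)) • (2 • innerSL ℝ z))) +
            ((DecayG M 0 (3 / 2) (‖z‖ ^ 2) : ℝ) : ℂ) • (ContinuousLinearMap.id ℝ ℂ)‖ ≤
          3 * (‖z‖ ^ 2 * |DecayG M 0 (3 / 2 + 1) (‖z‖ ^ 2)|) +
            |DecayG M 0 (3 / 2) (‖z‖ ^ 2)| := by
        refine (norm_add_le _ _).trans (add_le_add ?_ ?_)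
        · rw [norm_smul]
          calc ‖z‖ * _ ≤ ‖z‖ * (3 * (‖z‖ * |DecayG M 0 (3 / 2 + 1) (‖z‖ ^ 2)|)) :=
                mul_le_mul_of_nonneg_left h2 (norm_nonneg _)
            _ = _ := by ring
        · rw [norm_smul, Complex.norm_real, Real.norm_eq_abs]
          exact mul_le_of_le_one_right (abs_nonneg _) ContinuousLinearMap.norm_id_le
      calc _ ≤ (3 * (‖z‖ ^ 2 * |DecayG M 0 (3 / 2 + 1) (‖z‖ ^ 2)|) +
            |DecayG M 0 (3 / 2) (‖z‖ ^ 2)|) * (1 + ‖z‖) ^ M :=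
            mul_le_mul_of_nonneg_right h5 (by positivity)
        _ = 3 * (‖z‖ ^ 2 * |DecayG M 0 (3 / 2 + 1) (‖z‖ ^ 2)| * (1 + ‖z‖) ^ M) +
            |DecayG M 0 (3 / 2) (‖z‖ ^ 2)| * (1 + ‖z‖) ^ M := by ring
        _ ≤ _ := by linarith

end Pool.Agent.Work.MP_440970_an

end

section

/-!
# [E3] density of a symmetric class with a negative field
-/

open MeasureTheory Complex Set Filter Topology
open scoped ENNReal ComplexConjugate

namespace Pool.Agent.Work.MP_440970_an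

theorem Dens_q2_cont {p : ℝ} (hp : 0 < p) : Continuous (fun z : ℂ × ℂ => q2 p z.1 z.2) := by
  unfold q2
  refine Continuous.rpow_const (by fun_prop) fun z => Or.inr (by positivity)

theorem Dens_meas {p : ℝ} (hp : 0 < p) {F : ℂ → ℂ × ℂ} (hF : Measurable F) :
    Measurable (fun z => ENNReal.ofReal (q2 p (F z).1 (F z).2)) :=
  ENNReal.measurable_ofReal.comp ((Dens_q2_cont hp).measurable.comp hF)

theorem Dens_cost_add {p : ℝ} (hp : 0 < p) (hp1 : p < 1) (hQ : ClaimQ2) {F G : ℂ → ℂ × ℂ}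
    (hF : Measurable F) : cost p (fun z => F z + G z) ≤ cost p F + cost p G := by
  obtain ⟨hq0, hq, -, -⟩ := hQ p hp hp1
  unfold cost
  rw [← lintegral_add_left (Dens_meas hp hF)]
  refine lintegral_mono fun z => ?_
  rw [← ENNReal.ofReal_add (hq0 _ _) (hq0 _ _)]
  exact ENNReal.ofReal_le_ofReal (hq _ _ _ _)

theorem Dens_q2_neg (p : ℝ) (a b : ℂ) : q2 p (-a) (-b) = q2 p a b := by
  unfold q2
  rw [norm_neg, norm_neg]

theorem Dens_cost_neg (p : ℝ) (F : ℂ → ℂ × ℂ) : cost p (fun z => - F z) = cost p F := by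
  unfold cost
  simp only [Prod.fst_neg, Prod.snd_neg, Dens_q2_neg]

theorem Dens_cost_sub {p : ℝ} (hp : 0 < p) (hp1 : p < 1) (hQ : ClaimQ2) {F G : ℂ → ℂ × ℂ}
    (hF : Measurable F) : cost p (fun z => F z - G z) ≤ cost p F + cost p G := by
  have h := Dens_cost_add hp hp1 hQ (G := fun z => - G z) hF
  rw [Dens_cost_neg] at h
  simpa only [sub_eq_add_neg] using h

/-- dilations -/
theorem Dens_scale (b : ℂ) {u : ℝ} (hu : 0 < u) (f : ℂ → ℝ≥0∞) :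
    ∫⁻ z, f ((z - b) / u) = ENNReal.ofReal (u ^ 2) * ∫⁻ z, f z := by
  have h1 : ∫⁻ z, f ((z - b) / u) = ∫⁻ z, f (z / u) :=
    lintegral_sub_right_eq_self (fun z => f (z / u)) b
  rw [h1]
  have hu' : u⁻¹ ≠ 0 := (inv_pos.2 hu).ne'
  have h2 : ∀ z : ℂ, z / u = u⁻¹ • z := by
    intro z
    rw [Complex.real_smul]
    push_cast
    rw [div_eq_inv_mul]
  simp only [h2]
  have h3 := lintegral_map_equiv (μ := (volume : Measure ℂ)) f
    (Homeomorph.smulOfNeZero u⁻¹ hu').toMeasurableEquiv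
  have h4 : Measure.map (Homeomorph.smulOfNeZero u⁻¹ hu').toMeasurableEquiv
      (volume : Measure ℂ) = ENNReal.ofReal (u ^ 2) • volume := by
    have := Measure.map_addHaar_smul (volume : Measure ℂ) hu'
    rw [Complex.finrank_real_complex, inv_pow, inv_inv, abs_of_pos (by positivity)] at this
    exact this
  rw [h4, lintegral_smul_measure] at h3
  exact h3.symm

/-- quaternionic multiple of a pair -/
noncomputable def Dens_vmul (v : ℂ × ℂ) (F : ℂ → ℂ × ℂ) (z : ℂ) : ℂ × ℂ :=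
  (v.1 * (F z).1 - v.2 * conj (F z).2, v.1 * (F z).2 + v.2 * conj (F z).1)

theorem Dens_vmul_cost {p : ℝ} (hp : 0 < p) (hp1 : p < 1) (hQ : ClaimQ2) (v : ℂ × ℂ)
    {F : ℂ → ℂ × ℂ} (hF : Measurable F) :
    cost p (Dens_vmul v F) = ENNReal.ofReal (q2 p v.1 v.2) * cost p F := by
  obtain ⟨hq0, -, hq, -⟩ := hQ p hp hp1
  unfold cost
  rw [← lintegral_const_mul _ (Dens_meas hp hF)]
  refine lintegral_congr fun z => ?_
  rw [← ENNReal.ofReal_mul (hq0 _ _)]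
  congr 1
  exact hq _ _ _ _

theorem Dens_vmul_mem {C : Submodule ℂ (ℂ → ℂ × ℂ)} (hJ : ∀ F ∈ C, Jq F ∈ C) (v : ℂ × ℂ)
    {F : ℂ → ℂ × ℂ} (hF : F ∈ C) : Dens_vmul v F ∈ C := by
  have e : Dens_vmul v F = v.1 • F + v.2 • Jq F := by
    funext z
    simp only [Dens_vmul, Pi.add_apply, Pi.smul_apply, Jq, Prod.ext_iff, Prod.fst_add,
      Prod.smul_fst, Prod.snd_add, Prod.smul_snd, smul_eq_mul]
    constructor
    · ring
    · trivial
  rw [e]
  exact C.add_mem (C.smul_mem _ hF) (C.smul_mem _ (hJ F hF))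

theorem Dens_cube_meas (c : ℂ) (l : ℝ) : MeasurableSet (Cube c l) := by
  have h1 : Measurable (fun z : ℂ => z.re - c.re) := (measurable_re).sub_const _
  have h2 : Measurable (fun z : ℂ => z.im - c.im) := (measurable_im).sub_const _
  exact (h1 measurableSet_Ico).inter (h2 measurableSet_Ico)

theorem Dens_cube_pos {l : ℝ} (hl : 0 < l) : 0 < volume (Cube 0 l) := by
  have hsub : Metric.ball (0 : ℂ) l ⊆ Cube 0 l := by
    intro z hz
    rw [mem_ball_zero_iff] at hz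
    have h1 := (abs_re_le_norm z).trans_lt hz
    have h2 := (abs_im_le_norm z).trans_lt hz
    rw [abs_lt] at h1 h2
    simp only [Cube, zero_re, sub_zero, zero_im, mem_Ico]
    exact ⟨⟨h1.1.le, h1.2⟩, h2.1.le, h2.2⟩
  exact lt_of_lt_of_le (Metric.measure_ball_pos _ _ hl) (measure_mono hsub)

theorem Dens_cube_lt (l : ℝ) : volume (Cube 0 l) < ⊤ := by
  have hsub : Cube 0 l ⊆ Metric.closedBall (0 : ℂ) (|l| + |l|) := by
    intro z hz
    rw [mem_closedBall_zero_iff]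
    simp only [Cube, zero_re, sub_zero, zero_im] at hz
    obtain ⟨h1, h2⟩ := hz
    refine (norm_le_abs_re_add_abs_im z).trans (add_le_add ?_ ?_)
    · rw [abs_le]
      exact ⟨by linarith [h1.1, le_abs_self l], by linarith [h1.2, le_abs_self l]⟩
    · rw [abs_le]
      exact ⟨by linarith [h2.1, le_abs_self l], by linarith [h2.2, le_abs_self l]⟩
  exact lt_of_le_of_lt (measure_mono hsub) measure_closedBall_lt_top

/-- indicator of a cube times a vector -/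
noncomputable def Dens_ind (c : ℂ) (l : ℝ) (v : ℂ × ℂ) (z : ℂ) : ℂ × ℂ :=
  (Cube c l).indicator (fun _ => v) z

theorem Dens_ind_meas (c : ℂ) (l : ℝ) (v : ℂ × ℂ) : Measurable (Dens_ind c l v) :=
  measurable_const.indicator (Dens_cube_meas c l)

/-- the first step: a cube on which the field is efficient -/
theorem Dens_step1 {p : ℝ} (hp : 0 < p) (hp1 : p < 1) (hQ : ClaimQ2) {G : ℂ → ℂ × ℂ}
    (hG : Measurable G) (hGc : cost p G < ⊤) (hJ : JJ p G < 0) :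
    ∃ l : ℝ, 0 < l ∧ cost p (fun z => Dens_ind 0 l (1, 0) z + G z) < volume (Cube 0 l) := by
  obtain ⟨hq0, -, -, -⟩ := hQ p hp hp1
  set k : ℂ → ℝ := fun z => q2 p (1 + (G z).1) (G z).2 - 1 with hk
  set h : ℂ → ℝ := fun z => q2 p (G z).1 (G z).2 with hh
  have hki : Integrable k := by
    by_contra hcon
    have : JJ p G = 0 := integral_undef hcon
    linarith
  have hhm : Measurable h := (Dens_q2_cont hp).measurable.comp hG
  have hhi : Integrable h := by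
    refine ⟨hhm.aestronglyMeasurable, ?_⟩
    rw [hasFiniteIntegral_iff_ofReal (Eventually.of_forall fun z => hq0 _ _)]
    exact hGc
  set s : ℕ → Set ℂ := fun n => Cube 0 n with hs
  have hsm : ∀ n, MeasurableSet (s n) := fun n => Dens_cube_meas _ _
  have hmono : Monotone s := by
    intro i j hij z hz
    have : (i : ℝ) ≤ j := by exact_mod_cast hij
    simp only [hs, Cube, zero_re, sub_zero, zero_im] at hz ⊢
    exact ⟨⟨by linarith [hz.1.1], by linarith [hz.1.2]⟩, by linarith [hz.2.1], by linarith [hz.2.2]⟩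
  have hun : ⋃ n, s n = univ := by
    rw [eq_univ_iff_forall]
    intro z
    obtain ⟨n, hn⟩ := exists_nat_gt ‖z‖
    rw [mem_iUnion]
    refine ⟨n, ?_⟩
    have h1 := (abs_re_le_norm z).trans_lt hn
    have h2 := (abs_im_le_norm z).trans_lt hn
    rw [abs_lt] at h1 h2
    simp only [hs, Cube, zero_re, sub_zero, zero_im]
    exact ⟨⟨h1.1.le, h1.2⟩, h2.1.le, h2.2⟩
  have hk1 := tendsto_setIntegral_of_monotone hsm hmono (f := k) (μ := volume)
    (by rw [hun]; exact hki.integrableOn)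
  have hh1 := tendsto_setIntegral_of_monotone hsm hmono (f := h) (μ := volume)
    (by rw [hun]; exact hhi.integrableOn)
  rw [hun, setIntegral_univ] at hk1 hh1
  have hlim : Tendsto (fun n => (∫ z in s n, k z) + ((∫ z, h z) - ∫ z in s n, h z)) atTop
      (𝓝 (JJ p G + ((∫ z, h z) - ∫ z, h z))) := hk1.add (tendsto_const_nhds.sub hh1)
  rw [sub_self, add_zero] at hlim
  obtain ⟨n, hn, hn1⟩ := ((hlim.eventually (eventually_lt_nhds hJ)).and
    (eventually_ge_atTop 1)).exists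
  have hn0 : (0 : ℝ) < n := by
    have : 1 ≤ n := hn1
    positivity
  refine ⟨n, hn0, ?_⟩
  -- compute the cost
  have hV := Dens_cube_lt (n : ℝ)
  have e1 : cost p (fun z => Dens_ind 0 n (1, 0) z + G z) =
      (∫⁻ z in s n, ENNReal.ofReal (k z + 1)) + ∫⁻ z in (s n)ᶜ, ENNReal.ofReal (h z) := by
    unfold cost
    rw [← lintegral_add_compl _ (hsm n)]
    congr 1
    · refine setLIntegral_congr_fun (hsm n) fun z hz => ?_
      have : Dens_ind 0 n (1, 0) z = (1, 0) := indicator_of_mem hz _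
      simp only [this, hk, Prod.fst_add, Prod.snd_add, zero_add, sub_add_cancel]
    · refine setLIntegral_congr_fun (hsm n).compl fun z hz => ?_
      have : Dens_ind 0 n (1, 0) z = 0 := indicator_of_notMem hz _
      simp only [this, hh, zero_add]
  have hk2 : IntegrableOn (fun z => k z + 1) (s n) := by
    refine hki.integrableOn.add ?_
    exact integrableOn_const (by exact hV.ne)
  have e2 : ∫⁻ z in s n, ENNReal.ofReal (k z + 1) = ENNReal.ofReal (∫ z in s n, (k z + 1)) := by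
    rw [ofReal_integral_eq_lintegral_ofReal hk2]
    refine Eventually.of_forall fun z => ?_
    simp only [hk, sub_add_cancel]
    exact hq0 _ _
  have e3 : ∫⁻ z in (s n)ᶜ, ENNReal.ofReal (h z) = ENNReal.ofReal (∫ z in (s n)ᶜ, h z) := by
    rw [ofReal_integral_eq_lintegral_ofReal hhi.integrableOn]
    exact Eventually.of_forall fun z => hq0 _ _
  have e4 : ∫ z in (s n)ᶜ, h z = (∫ z, h z) - ∫ z in s n, h z := by
    have := integral_add_compl (hsm n) hhi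
    linarith
  have e5 : ∫ z in s n, (k z + 1) = (∫ z in s n, k z) + (volume (s n)).toReal := by
    rw [integral_add hki.integrableOn (integrableOn_const (by exact hV.ne))]
    simp [Measure.real]
  rw [e1, e2, e3, ← ENNReal.ofReal_add, e4, e5]
  · have h1 : ENNReal.ofReal ((∫ z in s n, k z) + (volume (s n)).toReal +
        ((∫ z, h z) - ∫ z in s n, h z)) < ENNReal.ofReal (volume (s n)).toReal := by
      rw [ENNReal.ofReal_lt_ofReal_iff]
      · linarith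
      · exact ENNReal.toReal_pos (Dens_cube_pos hn0).ne' hV.ne
    rwa [ENNReal.ofReal_toReal hV.ne] at h1
  · refine integral_nonneg fun z => ?_
    simp only [hk, sub_add_cancel]
    exact hq0 _ _
  · exact integral_nonneg fun z => hq0 _ _

theorem claimDens (hQ : ClaimQ2) (hS : ClaimStep) : ClaimDens := by
  intro p C hp hp1 hC1 hC2 hC3 ⟨G, hGC, hGJ⟩ E hE hEc η hη
  obtain ⟨hq0, hq1, hq2, hq3⟩ := hQ p hp hp1
  obtain ⟨hGm, hGc⟩ := hC1 G hGC
  obtain ⟨l, hl, hlt⟩ := Dens_step1 hp hp1 hQ hGm hGc hGJ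
  set V := volume (Cube 0 l) with hV
  have hV0 : V ≠ 0 := (Dens_cube_pos hl).ne'
  have hVt : V ≠ ⊤ := (Dens_cube_lt l).ne
  set c := cost p (fun z => Dens_ind 0 l (1, 0) z + G z) / V with hc
  have hc1 : c < 1 := by
    rw [hc, ENNReal.div_lt_iff (Or.inl hV0) (Or.inl hVt), one_mul]
    exact hlt
  have hcV : cost p (fun z => Dens_ind 0 l (1, 0) z + G z) = c * V := by
    rw [hc, ENNReal.div_mul_cancel hV0 hVt]
  -- one cube
  have hone : ∀ (c0 : ℂ) (l' : ℝ) (v : ℂ × ℂ), 0 < l' → ∃ F ∈ C,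
      cost p (fun z => Dens_ind c0 l' v z - F z) ≤
        c * (ENNReal.ofReal (q2 p v.1 v.2) * volume (Cube c0 l')) := by
    intro c0 l' v hl'
    set u := l' / l with hu
    have hu0 : 0 < u := by positivity
    have hF1 : (fun z => G ((z - c0) / u)) ∈ C := hC2 G hGC c0 u hu0
    refine ⟨-Dens_vmul v (fun z => G ((z - c0) / u)), C.neg_mem (Dens_vmul_mem hC3 v hF1), ?_⟩
    have hmem : ∀ z : ℂ, z ∈ Cube c0 l' ↔ (z - c0) / u ∈ Cube 0 l := by
      intro z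
      simp only [Cube, mem_ofPred_eq, zero_re, sub_zero, zero_im, mem_Ico, div_ofReal_re,
        div_ofReal_im, sub_re, sub_im]
      have hul : l' = u * l := by
        rw [hu]
        field_simp
      rw [le_div_iff₀ hu0, div_lt_iff₀ hu0, le_div_iff₀ hu0, div_lt_iff₀ hu0, hul]
      constructor
      · rintro ⟨⟨a1, a2⟩, a3, a4⟩
        exact ⟨⟨by linarith, by linarith⟩, by linarith, by linarith⟩
      · rintro ⟨⟨a1, a2⟩, a3, a4⟩
        exact ⟨⟨by linarith, by linarith⟩, by linarith, by linarith⟩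
    have hind : ∀ z, Dens_ind c0 l' v z = Dens_vmul v (Dens_ind 0 l (1, 0)) ((z - c0) / u) := by
      intro z
      by_cases hz : z ∈ Cube c0 l'
      · have hz' := (hmem z).1 hz
        simp only [Dens_ind, Dens_vmul, indicator_of_mem hz, indicator_of_mem hz', map_zero,
          mul_one, mul_zero, sub_zero, map_one, zero_add]
      · have hz' : (z - c0) / u ∉ Cube 0 l := fun h => hz ((hmem z).2 h)
        simp only [Dens_ind, Dens_vmul, indicator_of_notMem hz, indicator_of_notMem hz',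
          Prod.fst_zero, Prod.snd_zero, map_zero, mul_zero, sub_zero, add_zero]
        rfl
    have e : (fun z => Dens_ind c0 l' v z - (-Dens_vmul v (fun z => G ((z - c0) / u))) z) =
        fun z => Dens_vmul v (fun z => Dens_ind 0 l (1, 0) z + G z) ((z - c0) / u) := by
      funext z
      rw [Pi.neg_apply, sub_neg_eq_add, hind z]
      simp only [Dens_vmul, Prod.mk_add_mk, Prod.fst_add, Prod.snd_add, map_add]
      refine Prod.ext ?_ ?_
      · show _ = _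
        ring
      · show _ = _
        ring
    rw [e]
    have h1 : cost p (fun z => Dens_vmul v (fun z => Dens_ind 0 l (1, 0) z + G z)
        ((z - c0) / u)) = ENNReal.ofReal (u ^ 2) *
          cost p (Dens_vmul v (fun z => Dens_ind 0 l (1, 0) z + G z)) :=
      Dens_scale c0 hu0 (fun z => ENNReal.ofReal
        (q2 p (Dens_vmul v (fun z => Dens_ind 0 l (1, 0) z + G z) z).1
          (Dens_vmul v (fun z => Dens_ind 0 l (1, 0) z + G z) z).2))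
    have hm : Measurable (fun z => Dens_ind 0 l (1, 0) z + G z) := (Dens_ind_meas _ _ _).add hGm
    rw [h1, Dens_vmul_cost hp hp1 hQ v hm, hcV]
    have h2 : volume (Cube c0 l') = ENNReal.ofReal (u ^ 2) * V := by
      have h3 := Dens_scale c0 hu0 ((Cube 0 l).indicator 1)
      rw [lintegral_indicator_one (Dens_cube_meas 0 l)] at h3
      rw [← h3, ← lintegral_indicator_one (Dens_cube_meas c0 l')]
      refine lintegral_congr fun z => ?_
      by_cases hz : z ∈ Cube c0 l'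
      · rw [indicator_of_mem hz, indicator_of_mem ((hmem z).1 hz)]
        rfl
      · rw [indicator_of_notMem hz, indicator_of_notMem fun h => hz ((hmem z).2 h)]
    rw [h2]
    exact le_of_eq (by ring)
  -- step functions
  have hstep : ∀ (l' : ℝ) (s : Finset ℂ) (v : ℂ → ℂ × ℂ), 0 < l' →
      (∀ a ∈ s, ∀ b ∈ s, a ≠ b → Disjoint (Cube a l') (Cube b l')) →
      ∃ F ∈ C, cost p (fun z => ∑ a ∈ s, Dens_ind a l' (v a) z - F z) ≤
        c * cost p (fun z => ∑ a ∈ s, Dens_ind a l' (v a) z) := by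
    intro l' s v hl' hdisj
    choose F hFC hF using fun a : ℂ => hone a l' (v a) hl'
    refine ⟨∑ a ∈ s, F a, C.sum_mem fun a _ => hFC a, ?_⟩
    have h1 : ∀ t : Finset ℂ, cost p (fun z => ∑ a ∈ t, (Dens_ind a l' (v a) z - F a z)) ≤
        ∑ a ∈ t, cost p (fun z => Dens_ind a l' (v a) z - F a z) := by
      classical
      intro t
      induction t using Finset.induction_on with
      | empty =>
        simp only [Finset.sum_empty, nonpos_iff_eq_zero]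
        unfold cost q2
        simp [Real.zero_rpow (by positivity : p / 2 ≠ 0)]
      | insert a t ha ih =>
        rw [Finset.sum_insert ha]
        simp only [Finset.sum_insert ha]
        refine (Dens_cost_add hp hp1 hQ ((Dens_ind_meas _ _ _).sub (hC1 _ (hFC a)).1)).trans ?_
        exact add_le_add le_rfl ih
    have e1 : (fun z => ∑ a ∈ s, Dens_ind a l' (v a) z - (∑ a ∈ s, F a) z) =
        fun z => ∑ a ∈ s, (Dens_ind a l' (v a) z - F a z) := by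
      funext z
      rw [Finset.sum_apply, Finset.sum_sub_distrib]
    rw [e1]
    refine (h1 s).trans ((Finset.sum_le_sum fun a _ => hF a).trans ?_)
    rw [← Finset.mul_sum]
    refine mul_le_mul_right ?_ c
    -- sum of the costs of the cubes
    have h2 : ∀ a ∈ s, ENNReal.ofReal (q2 p (v a).1 (v a).2) * volume (Cube a l') =
        ∫⁻ z in Cube a l', ENNReal.ofReal (q2 p (∑ b ∈ s, Dens_ind b l' (v b) z).1
          (∑ b ∈ s, Dens_ind b l' (v b) z).2) := by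
      intro a ha
      rw [← setLIntegral_const]
      refine setLIntegral_congr_fun (Dens_cube_meas a l') fun z hz => ?_
      have : ∑ b ∈ s, Dens_ind b l' (v b) z = v a := by
        rw [Finset.sum_eq_single a]
        · exact indicator_of_mem hz _
        · intro b hb hba
          refine indicator_of_notMem (fun hzb => ?_) _
          exact (Set.disjoint_left.1 (hdisj a ha b hb (Ne.symm hba))) hz hzb
        · intro h
          exact absurd ha h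
      simp only [this]
    rw [Finset.sum_congr rfl h2, ← lintegral_biUnion_finset
      (fun a ha b hb hab => hdisj a ha b hb hab) (fun a _ => Dens_cube_meas a l')]
    exact setLIntegral_le_lintegral _ _
  -- all pairs
  have hall : ∀ E' : ℂ → ℂ × ℂ, Measurable E' → cost p E' < ⊤ → ∀ ε : ℝ≥0∞, 0 < ε →
      ∃ F ∈ C, cost p (fun z => E' z - F z) ≤ c * cost p E' + (ε + ε) := by
    intro E' hE' hE'c ε hε
    obtain ⟨l', s, v, hl', hdisj, hle⟩ := hS p hp hp1 E' hE' hE'c ε hε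
    obtain ⟨F, hF, hFle⟩ := hstep l' s v hl' hdisj
    refine ⟨F, hF, ?_⟩
    set S : ℂ → ℂ × ℂ := fun z => ∑ a ∈ s, Dens_ind a l' (v a) z with hSdef
    have hSm : Measurable S := Finset.measurable_fun_sum s fun a _ => Dens_ind_meas _ _ _
    have hle' : cost p (fun z => E' z - S z) ≤ ε := hle
    have h1 : cost p (fun z => E' z - F z) ≤ cost p (fun z => E' z - S z) +
        cost p (fun z => S z - F z) := by
      have := Dens_cost_add hp hp1 hQ (F := fun z => E' z - S z) (G := fun z => S z - F z)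
        (hE'.sub hSm)
      simpa only [Pi.sub_apply, sub_add_sub_cancel] using this
    have h2 : cost p S ≤ cost p E' + ε := by
      have := Dens_cost_sub hp hp1 hQ (G := fun z => E' z - S z) hE'
      simp only [sub_sub_cancel] at this
      exact this.trans (add_le_add le_rfl hle')
    calc cost p (fun z => E' z - F z) ≤ ε + c * cost p S := h1.trans (add_le_add hle' hFle)
      _ ≤ ε + c * (cost p E' + ε) := by gcongr
      _ = c * cost p E' + (ε + c * ε) := by ring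
      _ ≤ c * cost p E' + (ε + ε) := by
          gcongr
          exact mul_le_of_le_one_left' hc1.le
  -- the infimum
  set d : ℝ≥0∞ := ⨅ F ∈ C, cost p (fun z => E z - F z) with hd
  have hdE : d ≤ cost p E := by
    refine (iInf₂_le (0 : ℂ → ℂ × ℂ) C.zero_mem).trans (le_of_eq ?_)
    simp
  have hdt : d ≠ ⊤ := (lt_of_le_of_lt hdE hEc).ne
  have hkey : ∀ ε : ℝ≥0∞, 0 < ε → d ≤ c * (d + ε) + (ε + ε) := by
    intro ε hε
    by_cases hεt : ε = ⊤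
    · rw [hεt]
      simp
    have hlt2 : d < d + ε := ENNReal.lt_add_right hdt hε.ne'
    rw [hd] at hlt2
    simp only [iInf_lt_iff] at hlt2
    obtain ⟨F, hF, hFlt⟩ := hlt2
    rw [← hd] at hFlt
    have hEF : cost p (fun z => E z - F z) < ⊤ :=
      lt_trans hFlt (ENNReal.add_lt_top.2 ⟨hdt.lt_top, lt_top_iff_ne_top.2 hεt⟩)
    obtain ⟨F', hF', hle⟩ := hall (fun z => E z - F z) (hE.sub (hC1 F hF).1) hEF ε hε
    have h1 : d ≤ cost p (fun z => E z - F z - F' z) := by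
      refine (iInf₂_le (F + F') (C.add_mem hF hF')).trans (le_of_eq ?_)
      simp only [Pi.add_apply, sub_add_eq_sub_sub]
    refine h1.trans (hle.trans ?_)
    gcongr
  have hd0 : d = 0 := by
    have hct : c ≠ ⊤ := (hc1.trans ENNReal.one_lt_top).ne
    have hlim : d ≤ c * d := by
      refine ENNReal.le_of_forall_pos_le_add fun ε hε _ => ?_
      have h3 : (0 : ℝ≥0∞) < (ε : ℝ≥0∞) / 3 := ENNReal.div_pos (by exact_mod_cast hε.ne') (by simp)
      refine (hkey _ h3).trans ?_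
      calc c * (d + (ε : ℝ≥0∞) / 3) + ((ε : ℝ≥0∞) / 3 + (ε : ℝ≥0∞) / 3)
          = c * d + (c * ((ε : ℝ≥0∞) / 3) + ((ε : ℝ≥0∞) / 3 + (ε : ℝ≥0∞) / 3)) := by ring
        _ ≤ c * d + ((ε : ℝ≥0∞) / 3 + ((ε : ℝ≥0∞) / 3 + (ε : ℝ≥0∞) / 3)) := by
            gcongr
            exact mul_le_of_le_one_left' hc1.le
        _ = c * d + ε := by
            rw [← add_assoc ((ε : ℝ≥0∞) / 3), ENNReal.add_thirds]
    by_contra hne
    have h4 : c * d < 1 * d := ENNReal.mul_lt_mul_left hne hdt hc1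
    rw [one_mul] at h4
    exact absurd hlim (not_le.2 h4)
  have hlt3 : d < η := by
    rw [hd0]
    exact hη
  rw [hd] at hlt3
  simp only [iInf_lt_iff] at hlt3
  obtain ⟨F, hF, hFlt⟩ := hlt3
  exact ⟨F, hF, hFlt.le⟩

end Pool.Agent.Work.MP_440970_an

end

section

/-!
# Item C3: `bb (- conj (ks s)) = hs s`
-/

open MeasureTheory Complex Set Filter Topology
open scoped ENNReal ComplexConjugate

namespace Pool.Agent.Work.MP_440970_an

theorem I2f_pos {s : ℝ} (hs : 0 < s) (x : ℝ) : 0 < s ^ 2 + x ^ 2 := by positivity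

/-- the basic decay bound -/
theorem I2f_bound {s : ℝ} (hs : 0 < s) : ∃ C > 0, ∀ σ : ℝ, s ≤ σ → ∀ a : ℂ,
    (σ ^ 2 + ‖a‖ ^ 2) ^ (-(3 / 2) : ℝ) ≤ C * (1 + ‖a‖) ^ (-(3 : ℝ)) := by
  set c : ℝ := min (s ^ 2) 1 / 2 with hc
  have hcpos : 0 < c := by
    have : 0 < min (s ^ 2) 1 := lt_min (by positivity) one_pos
    positivity
  refine ⟨c ^ (-(3 / 2) : ℝ), Real.rpow_pos_of_pos hcpos _, ?_⟩
  intro σ hσ a
  have h0 : (0 : ℝ) ≤ ‖a‖ := norm_nonneg a
  have h1 : c * (1 + ‖a‖) ^ 2 ≤ σ ^ 2 + ‖a‖ ^ 2 := by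
    have e1 : min (s ^ 2) 1 ≤ s ^ 2 := min_le_left _ _
    have e2 : min (s ^ 2) 1 ≤ 1 := min_le_right _ _
    have e3 : s ^ 2 ≤ σ ^ 2 := by gcongr
    have e4 : (1 + ‖a‖) ^ 2 ≤ 2 * (1 + ‖a‖ ^ 2) := by nlinarith [sq_nonneg (1 - ‖a‖)]
    have e5 : c * (1 + ‖a‖) ^ 2 ≤ c * (2 * (1 + ‖a‖ ^ 2)) := by gcongr
    have e6 : c * (2 * (1 + ‖a‖ ^ 2)) = min (s ^ 2) 1 + min (s ^ 2) 1 * ‖a‖ ^ 2 := by
      rw [hc]; ring
    have e7 : min (s ^ 2) 1 * ‖a‖ ^ 2 ≤ 1 * ‖a‖ ^ 2 := by gcongr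
    linarith
  have h2 : 0 < c * (1 + ‖a‖) ^ 2 := by positivity
  calc (σ ^ 2 + ‖a‖ ^ 2) ^ (-(3 / 2) : ℝ) ≤ (c * (1 + ‖a‖) ^ 2) ^ (-(3 / 2) : ℝ) :=
        Real.rpow_le_rpow_of_nonpos h2 h1 (by norm_num)
    _ = c ^ (-(3 / 2) : ℝ) * ((1 + ‖a‖) ^ 2) ^ (-(3 / 2) : ℝ) := by
        rw [Real.mul_rpow hcpos.le (by positivity)]
    _ = c ^ (-(3 / 2) : ℝ) * (1 + ‖a‖) ^ (-(3 : ℝ)) := by
        congr 1
        rw [← Real.rpow_natCast (1 + ‖a‖) 2, ← Real.rpow_mul (by positivity)]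
        norm_num

/-- `dbar2` of a real valued function times something -/
theorem I2f_norm_sq (s : ℝ) (a : ℂ) :
    HasFDerivAt (fun z : ℂ => s ^ 2 + ‖z‖ ^ 2) (2 • innerSL ℝ a) a :=
  (hasStrictFDerivAt_norm_sq a).hasFDerivAt.const_add _

theorem I2f_rho {s : ℝ} (hs : 0 < s) (a : ℂ) :
    HasFDerivAt (fun z : ℂ => (((s ^ 2 + ‖z‖ ^ 2) ^ (-(3 / 2) : ℝ) : ℝ) : ℂ))
      (ofRealCLM.comp ((-(3 / 2) * (s ^ 2 + ‖a‖ ^ 2) ^ (-(5 / 2) : ℝ)) • (2 • innerSL ℝ a))) a := by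
  have h1 := (I2f_norm_sq s a).rpow_const (p := -(3 / 2)) (Or.inl (I2f_pos hs ‖a‖).ne')
  have h6 : ((-(3 / 2) : ℝ) - 1) = -(5 / 2) := by norm_num
  rw [h6] at h1
  exact ofRealCLM.hasFDerivAt.comp a h1

theorem I2f_rho_apply (r : ℝ) (a v : ℂ) :
    (ofRealCLM.comp ((-(3 / 2) * r) • (2 • innerSL ℝ a))) v =
      ((-3 * r * (a.re * v.re + a.im * v.im) : ℝ) : ℂ) := by
  simp [Complex.inner]
  ring_nf

theorem I2f_rpow {s : ℝ} (hs : 0 < s) (x : ℝ) : (s ^ 2 + x ^ 2) ^ (-(3 / 2) : ℝ) =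
      (s ^ 2 + x ^ 2) * (s ^ 2 + x ^ 2) ^ (-(5 / 2) : ℝ) := by
  have hp := I2f_pos hs x
  conv_rhs => rw [← Real.rpow_one_add' hp.le (by norm_num)]
  norm_num

theorem I2f_dbar {s : ℝ} (hs : 0 < s) (a : ℂ) :
    dbar2 (fun a => - conj (ks s a)) a =
      (((‖a‖ ^ 2 - 2 * s ^ 2) * (s ^ 2 + ‖a‖ ^ 2) ^ (-(5 / 2) : ℝ) : ℝ) : ℂ) := by
  have h1 := I2f_rho hs a
  have h2 : HasFDerivAt (fun z : ℂ => conj z) (conjCLE : ℂ →L[ℝ] ℂ) a :=
    conjCLE.hasFDerivAt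
  have h3 : HasFDerivAt
      (fun z : ℂ => - (conj z * (((s ^ 2 + ‖z‖ ^ 2) ^ (-(3 / 2) : ℝ) : ℝ) : ℂ))) _ a :=
    (h2.mul h1).neg
  have h4 : (fun a : ℂ => - conj (ks s a)) =
      fun z => - (conj z * (((s ^ 2 + ‖z‖ ^ 2) ^ (-(3 / 2) : ℝ) : ℝ) : ℂ)) := by
    funext z
    simp [ks]
  have h7 : ‖a‖ ^ 2 = a.re ^ 2 + a.im ^ 2 := by
    rw [← Complex.normSq_eq_norm_sq, Complex.normSq_apply]; ring
  unfold dbar2
  rw [h4, h3.fderiv]
  simp only [neg_apply, add_apply, smul_apply, I2f_rho_apply]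
  rw [I2f_rpow hs]
  generalize (s ^ 2 + ‖a‖ ^ 2) ^ (-(5 / 2) : ℝ) = r
  rw [h7, show (a.re ^ 2 + a.im ^ 2 - 2 * s ^ 2) * r = 3 * (a.re * a.re + a.im * a.im) * r -
    2 * ((s ^ 2 + (a.re ^ 2 + a.im ^ 2)) * r) by ring]
  generalize (s ^ 2 + (a.re ^ 2 + a.im ^ 2)) * r = u
  apply Complex.ext
  · simp
    ring
  · simp
    ring

theorem claimI2 (hP : ClaimPot) (hS : ClaimSing) : ClaimI2 := by
  intro s z hs0
  obtain ⟨C, hC, hb⟩ := I2f_bound (s := s / 2) (by positivity)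
  obtain ⟨C1, -, hS1⟩ := hS
  have hmem : Ioi (s / 2) ∈ 𝓝 s := Ioi_mem_nhds (by linarith)
  -- measurability
  have hmeas1 : ∀ σ : ℝ, 0 < σ → AEStronglyMeasurable
      (fun a : ℂ => ‖z - a‖⁻¹ * (σ * (σ ^ 2 + ‖a‖ ^ 2) ^ (-(3 / 2) : ℝ))) volume := by
    intro σ hσ
    exact (hP σ z hσ).1.aestronglyMeasurable
  have hcontr : ∀ e : ℝ, Continuous (fun a : ℂ => (s ^ 2 + ‖a‖ ^ 2) ^ e) := by
    intro e
    refine Continuous.rpow_const (by fun_prop) (fun a => Or.inl (I2f_pos hs0 ‖a‖).ne')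
  have hmeas2 : AEStronglyMeasurable
      (fun a : ℂ => ‖z - a‖⁻¹ * ((‖a‖ ^ 2 - 2 * s ^ 2) * (s ^ 2 + ‖a‖ ^ 2) ^ (-(5 / 2) : ℝ)))
      volume := by
    refine AEStronglyMeasurable.mul ?_ ?_
    · exact (Measurable.inv (by fun_prop)).aestronglyMeasurable
    · refine Continuous.aestronglyMeasurable ?_
      exact Continuous.mul (by fun_prop) (hcontr _)
  have key := hasDerivAt_integral_of_dominated_loc_of_deriv_le (μ := (volume : Measure ℂ))
    (F := fun (σ : ℝ) (a : ℂ) => ‖z - a‖⁻¹ * (σ * (σ ^ 2 + ‖a‖ ^ 2) ^ (-(3 / 2) : ℝ)))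
    (F' := fun (σ : ℝ) (a : ℂ) =>
      ‖z - a‖⁻¹ * ((‖a‖ ^ 2 - 2 * σ ^ 2) * (σ ^ 2 + ‖a‖ ^ 2) ^ (-(5 / 2) : ℝ)))
    (x₀ := s) (s := Ioi (s / 2))
    (bound := fun a => 2 * C * (‖z - a‖⁻¹ * (1 + ‖a‖) ^ (-(3 : ℝ)))) hmem
    (by
      filter_upwards [hmem] with σ hσ
      exact hmeas1 σ (by have := mem_Ioi.1 hσ; linarith))
    ((hP s z hs0).1) hmeas2
    (by
      refine Eventually.of_forall ?_
      intro a σ hσ
      have hσ' : s / 2 < σ := hσ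
      have hσ0 : 0 < σ := by linarith
      have e1 := hb σ hσ'.le a
      have e2 := I2f_rpow hσ0 ‖a‖
      have e3 : 0 ≤ (σ ^ 2 + ‖a‖ ^ 2) ^ (-(5 / 2) : ℝ) := by positivity
      have e4 : |‖a‖ ^ 2 - 2 * σ ^ 2| ≤ 2 * (σ ^ 2 + ‖a‖ ^ 2) := by
        rw [abs_le]
        constructor
        · nlinarith [sq_nonneg ‖a‖, sq_nonneg σ]
        · nlinarith [sq_nonneg ‖a‖, sq_nonneg σ]
      rw [norm_mul, norm_mul, norm_inv, norm_norm, Real.norm_eq_abs, Real.norm_eq_abs,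
        abs_of_nonneg e3]
      have e5 : |‖a‖ ^ 2 - 2 * σ ^ 2| * (σ ^ 2 + ‖a‖ ^ 2) ^ (-(5 / 2) : ℝ) ≤
          2 * (C * (1 + ‖a‖) ^ (-(3 : ℝ))) := by
        calc _ ≤ 2 * (σ ^ 2 + ‖a‖ ^ 2) * (σ ^ 2 + ‖a‖ ^ 2) ^ (-(5 / 2) : ℝ) := by gcongr
          _ = 2 * (σ ^ 2 + ‖a‖ ^ 2) ^ (-(3 / 2) : ℝ) := by rw [e2]; ring
          _ ≤ _ := by gcongr
      have e6 : 0 ≤ ‖z - a‖⁻¹ := by positivity
      calc _ ≤ ‖z - a‖⁻¹ * (2 * (C * (1 + ‖a‖) ^ (-(3 : ℝ)))) := by gcongr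
        _ = _ := by ring)
    (((hS1 z).1).const_mul _)
    (by
      refine Eventually.of_forall ?_
      intro a σ hσ
      have hσ' : s / 2 < σ := hσ
      have hσ0 : 0 < σ := by linarith
      have d1 : HasDerivAt (fun σ : ℝ => σ ^ 2 + ‖a‖ ^ 2) (2 * σ) σ := by
        have := (hasDerivAt_pow 2 σ).add_const (‖a‖ ^ 2)
        simpa using this
      have d2 := d1.rpow_const (p := -(3 / 2)) (Or.inl (I2f_pos hσ0 ‖a‖).ne')
      have h6 : ((-(3 / 2) : ℝ) - 1) = -(5 / 2) := by norm_num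
      rw [h6] at d2
      have d3 : HasDerivAt (fun σ : ℝ => ‖z - a‖⁻¹ * (σ * (σ ^ 2 + ‖a‖ ^ 2) ^ (-(3 / 2) : ℝ)))
          (‖z - a‖⁻¹ * (1 * (σ ^ 2 + ‖a‖ ^ 2) ^ (-(3 / 2) : ℝ) +
            σ * (2 * σ * -(3 / 2) * (σ ^ 2 + ‖a‖ ^ 2) ^ (-(5 / 2) : ℝ)))) σ :=
        ((hasDerivAt_id σ).mul d2).const_mul (‖z - a‖⁻¹)
      refine d3.congr_deriv ?_
      rw [I2f_rpow hσ0]
      ring)
  have hder := key.2
  -- the right hand side
  have hrhs : HasDerivAt (fun σ : ℝ => 2 * Real.pi * (σ ^ 2 + ‖z‖ ^ 2) ^ (-(1 / 2) : ℝ))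
      (2 * Real.pi * (-(s * (s ^ 2 + ‖z‖ ^ 2) ^ (-(3 / 2) : ℝ)))) s := by
    have d1 : HasDerivAt (fun σ : ℝ => σ ^ 2 + ‖z‖ ^ 2) (2 * s) s := by
      have := (hasDerivAt_pow 2 s).add_const (‖z‖ ^ 2)
      simpa using this
    have d2 := (d1.rpow_const (p := -(1 / 2)) (Or.inl (I2f_pos hs0 ‖z‖).ne')).const_mul
      (2 * Real.pi)
    have h6 : ((-(1 / 2) : ℝ) - 1) = -(3 / 2) := by norm_num
    rw [h6] at d2
    exact d2.congr_deriv (by ring)
  have heq : (fun σ : ℝ => ∫ a : ℂ, ‖z - a‖⁻¹ * (σ * (σ ^ 2 + ‖a‖ ^ 2) ^ (-(3 / 2) : ℝ)))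
      =ᶠ[𝓝 s] (fun σ : ℝ => 2 * Real.pi * (σ ^ 2 + ‖z‖ ^ 2) ^ (-(1 / 2) : ℝ)) := by
    filter_upwards [hmem] with σ hσ
    exact (hP σ z (by have := mem_Ioi.1 hσ; linarith)).2
  have hval := hder.unique (hrhs.congr_of_eventuallyEq heq)
  unfold bb
  have hint : (∫ a, (‖z - a‖ : ℂ)⁻¹ * dbar2 (fun a => - conj (ks s a)) a) =
      ((∫ a : ℂ, ‖z - a‖⁻¹ * ((‖a‖ ^ 2 - 2 * s ^ 2) * (s ^ 2 + ‖a‖ ^ 2) ^ (-(5 / 2) : ℝ)) : ℝ)
        : ℂ) := by
    rw [← integral_complex_ofReal]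
    congr 1
    funext a
    rw [I2f_dbar hs0]
    push_cast
    ring
  rw [hint, hval]
  unfold hs
  have hpi : (Real.pi : ℂ) ≠ 0 := by exact_mod_cast Real.pi_ne_zero
  push_cast
  field_simp

end Pool.Agent.Work.MP_440970_an

end

section

/-!
# Assembly
-/

open MeasureTheory Complex Set Filter Topology
open scoped ENNReal ComplexConjugate

namespace Pool.Agent.Work.MP_440970_an

theorem Main_cost_lt {M : ℕ} {p A : ℝ} (hp : 0 < p) (hp1 : p < 1) (hM : 2 < M * p)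
    (hQ : ClaimQ2) {F : ℂ → ℂ × ℂ} (h1 : Nice M A (fun z => (F z).1))
    (h2 : Nice M A (fun z => (F z).2)) :
    Measurable F ∧ cost p F < ⊤ ∧ np p (fun z => (F z).2) < ⊤ := by
  have hm1 : Measurable (fun z => (F z).1) := h1.smooth.continuous.measurable
  have hm2 : Measurable (fun z => (F z).2) := h2.smooth.continuous.measurable
  have hF : Measurable F := hm1.prodMk hm2
  have hA : 0 ≤ A := (by positivity : (0:ℝ) ≤ ‖(F 0).1‖ * (1 + ‖(0:ℂ)‖) ^ M).trans (h1.bd 0)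
  -- the bound
  have hb : ∀ (h : ℂ → ℂ), Nice M A h → ∀ z, ‖h z‖ ^ p ≤ A ^ p * (1 + ‖z‖) ^ (-(M * p)) := by
    intro h hh z
    have h0 : (0:ℝ) < (1 + ‖z‖) ^ M := by positivity
    have h3 : ‖h z‖ ≤ A / (1 + ‖z‖) ^ M := by
      rw [le_div_iff₀ h0]
      exact hh.bd z
    calc ‖h z‖ ^ p ≤ (A / (1 + ‖z‖) ^ M) ^ p := Real.rpow_le_rpow (norm_nonneg _) h3 hp.le
      _ = A ^ p / ((1 + ‖z‖) ^ M) ^ p := Real.div_rpow hA h0.le _
      _ = A ^ p * (1 + ‖z‖) ^ (-(M * p)) := by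
          rw [div_eq_mul_inv, ← Real.rpow_natCast, ← Real.rpow_mul (by positivity),
            Real.rpow_neg (by positivity)]
  have hint : Integrable (fun z : ℂ => A ^ p * (1 + ‖z‖) ^ (-(M * p : ℝ))) := by
    refine Integrable.const_mul ?_ _
    refine integrable_one_add_norm ?_
    rw [Complex.finrank_real_complex]
    exact_mod_cast hM
  obtain ⟨-, -, -, hq⟩ := hQ p hp hp1
  refine ⟨hF, ?_, ?_⟩
  · unfold cost
    refine lt_of_le_of_lt (lintegral_mono fun z => ENNReal.ofReal_le_ofReal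
      ((hq _ _).2.2.trans (add_le_add (hb _ h1 z) (hb _ h2 z)))) ?_
    exact (hint.add hint).lintegral_lt_top
  · unfold np
    refine lt_of_le_of_lt (lintegral_mono fun z => ?_) hint.lintegral_lt_top
    rw [← ofReal_norm, ENNReal.ofReal_rpow_of_nonneg (norm_nonneg _) hp.le]
    exact ENNReal.ofReal_le_ofReal (hb _ h2 z)

theorem Nice.weaken {N M : ℕ} {A : ℝ} {h : ℂ → ℂ} (hNM : N ≤ M) (hh : Nice M A h) :
    Nice N A h := by
  refine ⟨hh.smooth, fun a => ?_, fun a => ?_⟩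
  · refine le_trans (mul_le_mul_of_nonneg_left ?_ (norm_nonneg _)) (hh.bd a)
    exact pow_le_pow_right₀ (by linarith [norm_nonneg a]) hNM
  · refine le_trans (mul_le_mul_of_nonneg_left ?_ (norm_nonneg _)) (hh.bd' a)
    exact pow_le_pow_right₀ (by linarith [norm_nonneg a]) hNM

/-- The result, from the claims. -/
theorem claimMain (hN : ClaimNodes) (hW : ClaimW) (hDX : ClaimDX) (hC : ClaimConvert)
    (hCs : ClaimCs) (hNeg : ClaimNeg) (hQ : ClaimQ2) (hD : ClaimDens) : ClaimMain := by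
  intro p hp hp0 g hg hgp
  have hp1 : p < 1 := by linarith
  obtain ⟨m, hm⟩ : ∃ m : ℕ, 2 < (m + 2) * p := by
    obtain ⟨m, hm⟩ := exists_nat_gt (2 / p)
    refine ⟨m, ?_⟩
    rw [div_lt_iff₀ hp] at hm
    nlinarith
  obtain ⟨L, y, φ, hy⟩ := hN m
  set M := 2 * m + 5 with hM
  have hM3 : 3 ≤ M := by omega
  have hMp : 2 < (M : ℝ) * p := by
    have : ((m : ℝ) + 2) * p ≤ M * p := by
      refine mul_le_mul_of_nonneg_right ?_ hp.le
      rw [hM]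
      push_cast
      have : (0:ℝ) ≤ m := by positivity
      linarith
    linarith
  obtain ⟨hCs1, hCs2, hCs3⟩ := hCs M hM3
  obtain ⟨hX1, -, -, hnp, hdx1, hdx2, -, hdx4⟩ := hDX p hp hp1
  obtain ⟨C, hCtop, hCC⟩ := hC m p L y φ hy hp hp1 hm
  obtain ⟨CW, hCW, hWW⟩ := hW m p L y φ hy hp hp1 hm
  have hfin : ∀ F ∈ Cs M, Measurable F ∧ cost p F < ⊤ ∧ np p (fun z => (F z).2) < ⊤ := by
    intro F hF
    obtain ⟨⟨A, h1, h2⟩, -⟩ := hCs1 F hF
    exact Main_cost_lt hp hp1 hMp hQ h1 h2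
  -- conversion for members of the class
  have hconv : ∀ F ∈ Cs M, dX p (fun z => (F z).2) ≤ C * np p (fun z => (F z).1) := by
    intro F hF
    obtain ⟨⟨A, h1, h2⟩, hb⟩ := hCs1 F hF
    obtain ⟨hFm, -, hF2⟩ := hfin F hF
    have h3 := hCC A _ (h1 : Nice (2 * m + 5) A _)
    obtain ⟨hm1, hm2⟩ := hWW A _ (h1.weaken (by omega : 2 * m + 4 ≤ 2 * m + 5))
    rw [hdx4 (fun z => (F z).2) (bH y φ (fun z => (F z).1)) hFm.snd hm1 hF2
      (lt_of_le_of_lt hm2 ENNReal.ofReal_lt_top) ?_]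
    · exact h3
    · have e : (fun z => (F z).2 - bH y φ (fun z => (F z).1) z) =
          ∑ l, ((1 / (2 * Real.pi : ℂ)) * ∫ a, φ l a * (F a).1) •
            (fun z : ℂ => K (z - y l)) := by
        funext z
        simp only [bH, hb z, Finset.sum_apply, Pi.smul_apply, smul_eq_mul]
        rw [Finset.mul_sum]
        ring_nf
      rw [e]
      exact Submodule.sum_mem _ fun l _ => Submodule.smul_mem _ _
        (Submodule.subset_span ⟨y l, rfl⟩)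
  -- density
  have hdens := hD p (Cs M) hp hp1 (fun F hF => ⟨(hfin F hF).1, (hfin F hF).2.1⟩) hCs2 hCs3
    (hNeg M p hM3 hp hp0) (fun z => (0, g z)) (measurable_const.prodMk hg)
  have hcost : cost p (fun z => ((0 : ℂ), g z)) < ⊤ := by
    refine lt_of_le_of_lt (lintegral_mono fun z => ?_) hgp
    obtain ⟨-, -, -, hq⟩ := hQ p hp hp1
    rw [← ofReal_norm, ENNReal.ofReal_rpow_of_nonneg (norm_nonneg _) hp.le]
    refine ENNReal.ofReal_le_ofReal ((hq _ _).2.2.trans ?_)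
    simp [Real.zero_rpow hp.ne']
  have key : ∀ η : ℝ≥0∞, 0 < η → dX p g ≤ η + C * η := by
    intro η hη
    obtain ⟨F, hF, hle⟩ := hdens hcost η hη
    obtain ⟨-, -, -, hq⟩ := hQ p hp hp1
    have h1 : np p (fun z => (F z).1) ≤ η := by
      refine le_trans (lintegral_mono fun z => ?_) hle
      rw [← ofReal_norm, ENNReal.ofReal_rpow_of_nonneg (norm_nonneg _) hp.le]
      refine ENNReal.ofReal_le_ofReal ?_
      have := (hq (0 - (F z).1) (g z - (F z).2)).1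
      simpa using this
    have h2 : np p (fun z => g z - (F z).2) ≤ η := by
      refine le_trans (lintegral_mono fun z => ?_) hle
      rw [← ofReal_norm, ENNReal.ofReal_rpow_of_nonneg (norm_nonneg _) hp.le]
      refine ENNReal.ofReal_le_ofReal ?_
      exact (hq (0 - (F z).1) (g z - (F z).2)).2.1
    obtain ⟨hFm, -, -⟩ := hfin F hF
    have h3 := hdx2 (fun z => g z - (F z).2) (fun z => (F z).2) (hg.sub hFm.snd)
    simp only [sub_add_cancel] at h3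
    refine h3.trans (add_le_add h2 ((hconv F hF).trans ?_))
    exact mul_le_mul_right h1 C
  -- limit
  refine le_antisymm ?_ bot_le
  refine ENNReal.le_of_forall_pos_le_add fun ε hε _ => ?_
  rw [zero_add]
  by_cases hC1 : 1 + C = ⊤
  · exact absurd hC1 (ENNReal.add_lt_top.2 ⟨ENNReal.one_lt_top, hCtop⟩).ne
  · have hpos : 0 < (ε : ℝ≥0∞) / (1 + C) := ENNReal.div_pos (by exact_mod_cast hε.ne') hC1
    have h4 := key _ hpos
    refine h4.trans (le_of_eq ?_)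
    rw [← one_add_mul, ENNReal.mul_div_cancel (by simp) hC1]

end Pool.Agent.Work.MP_440970_an

end
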