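import Pool.Agent.Work.MP_440970_an.Bd.B01

/-! Bundle of small proof modules (one section per former module). -/

section

/-!
# Item D7: the functional is negative on the class
-/

open MeasureTheory Complex Set Filter Topology
open scoped ENNReal ComplexConjugate

namespace Pool.Agent.Work.MP_440970_an

/-! ### Integrability of the dominating functions -/

/-- The radial majorant. -/
noncomputable def Neg_rad (y : ℝ) : ℝ :=
  if 1 ≤ y then y ^ (-(8 / 3) : ℝ) else y ^ (-(24 / 25) : ℝ)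

lemma Neg_rad_int : Integrable (fun z : ℂ => Neg_rad ‖z‖) := by
  rw [integrable_fun_norm_addHaar (volume : Measure ℂ), Complex.finrank_real_complex]
  have h1 : IntegrableOn (fun y : ℝ => y ^ (2 - 1) • Neg_rad y) (Ioc 0 1) := by
    have h2 : IntegrableOn (fun y : ℝ => y ^ (1 / 25 : ℝ)) (Ioc 0 1) := by
      rw [← intervalIntegrable_iff_integrableOn_Ioc_of_le zero_le_one]
      exact intervalIntegral.intervalIntegrable_rpow' (by norm_num)
    refine IntegrableOn.congr_fun_ae h2 ?_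
    have h3 : ∀ᵐ y : ℝ ∂(volume.restrict (Ioc (0 : ℝ) 1)), y ≠ 1 := by
      refine ae_restrict_of_ae ?_
      rw [ae_iff]
      simp
    filter_upwards [h3, ae_restrict_mem measurableSet_Ioc] with y hy1 hy
    unfold Neg_rad
    have h4 : ¬ (1 : ℝ) ≤ y := fun h => hy1 (le_antisymm hy.2 h)
    rw [if_neg h4, smul_eq_mul]
    have h5 : y ^ (2 - 1) = y ^ (1 : ℝ) := by norm_num
    rw [h5, ← Real.rpow_add hy.1]
    norm_num
  have h2 : IntegrableOn (fun y : ℝ => y ^ (2 - 1) • Neg_rad y) (Ioi 1) := by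
    have h3 : IntegrableOn (fun y : ℝ => y ^ (-(5 / 3) : ℝ)) (Ioi 1) :=
      integrableOn_Ioi_rpow_of_lt (by norm_num) one_pos
    refine IntegrableOn.congr_fun h3 (fun y hy => ?_) measurableSet_Ioi
    have hy1 : (1 : ℝ) < y := hy
    unfold Neg_rad
    rw [if_pos hy1.le, smul_eq_mul]
    have h5 : y ^ (2 - 1) = y ^ (1 : ℝ) := by norm_num
    rw [h5, ← Real.rpow_add (by linarith)]
    norm_num
  have h3 := h1.union h2
  rwa [Ioc_union_Ioi_eq_Ioi zero_le_one] at h3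

/-! ### Elementary inequalities -/

lemma Neg_pow {x s : ℝ} (hx : 0 ≤ x) (hs0 : 0 ≤ s) (hs1 : s ≤ 1) : |x ^ s - 1| ≤ |x - 1| := by
  rcases le_total 1 x with h | h
  · have h1 : 1 ≤ x ^ s := Real.one_le_rpow h hs0
    have h2 : x ^ s ≤ x := by
      calc x ^ s ≤ x ^ (1 : ℝ) := Real.rpow_le_rpow_of_exponent_le h hs1
        _ = x := Real.rpow_one x
    rw [abs_of_nonneg (by linarith), abs_of_nonneg (by linarith)]
    linarith
  · have h1 : x ^ s ≤ 1 := Real.rpow_le_one hx h hs0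
    rcases hx.eq_or_lt with h0 | h0
    · rw [← h0]
      have h3 : (0 : ℝ) ≤ 0 ^ s := Real.rpow_nonneg le_rfl s
      have h4 : (0 : ℝ) ^ s ≤ 1 := Real.zero_rpow_le_one s
      rw [abs_le]
      constructor <;> norm_num <;> linarith
    · have h2 : x ≤ x ^ s := by
        calc x = x ^ (1 : ℝ) := (Real.rpow_one x).symm
          _ ≤ x ^ s := Real.rpow_le_rpow_of_exponent_ge h0 h hs1
      rw [abs_of_nonpos (by linarith), abs_of_nonpos (by linarith)]
      linarith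

lemma Neg_sq (a b : ℂ) : |‖1 + a‖ ^ 2 + ‖b‖ ^ 2 - 1| ≤ 2 * ‖a‖ + ‖a‖ ^ 2 + ‖b‖ ^ 2 := by
  have h1 : ‖1 + a‖ ≤ 1 + ‖a‖ := by
    have := norm_add_le (1 : ℂ) a
    rwa [norm_one] at this
  have h2 : 1 - ‖a‖ ≤ ‖1 + a‖ := by
    have := norm_sub_norm_le (1 : ℂ) (-a)
    rw [norm_one, norm_neg, sub_neg_eq_add] at this
    exact this
  have h3 := norm_nonneg a
  have h4 := norm_nonneg (1 + a)
  have h5 := sq_nonneg ‖b‖
  rw [abs_le]
  constructor
  · rcases le_total 1 ‖a‖ with h | h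
    · nlinarith [sq_nonneg ‖1 + a‖]
    · nlinarith
  · nlinarith

/-- The bound by the small field. -/
lemma Neg_small {p : ℝ} (hp : 0 < p) (hp1 : p < 1) (a b : ℂ) :
    |q2 p (1 + a) b - 1| ≤ 2 * ‖a‖ + ‖a‖ ^ 2 + ‖b‖ ^ 2 := by
  unfold q2
  exact (Neg_pow (by positivity) (by linarith) (by linarith)).trans (Neg_sq a b)

lemma Neg_big (hQ : ClaimQ2) {p : ℝ} (hp : 0 < p) (hp1 : p < 1) (a b : ℂ) :
    |q2 p (1 + a) b - 1| ≤ ‖a‖ ^ p + ‖b‖ ^ p := by
  obtain ⟨-, h2, -, h4⟩ := hQ p hp hp1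
  have e1 : q2 p 1 0 = 1 := by unfold q2; simp
  have e2 : q2 p (-a) (-b) = q2 p a b := by unfold q2; simp
  have a1 := h2 1 0 a b
  rw [zero_add, e1] at a1
  have a2 := h2 (1 + a) b (-a) (-b)
  rw [add_neg_cancel_right, add_neg_cancel, e1, e2] at a2
  have a3 := (h4 a b).2.2
  rw [abs_le]
  constructor <;> linarith

lemma Neg_cont {p : ℝ} (hp : 0 < p) : Continuous fun q : ℂ × ℂ => q2 p q.1 q.2 := by
  unfold q2
  exact (by fun_prop : Continuous fun q : ℂ × ℂ => ‖q.1‖ ^ 2 + ‖q.2‖ ^ 2).rpow_const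
    fun _ => Or.inr (by linarith)

/-- Item D7. -/
theorem claimNeg (hA : ClaimApprox) (hN : ClaimNum2) (hQ : ClaimQ2) (hCs : ClaimCs) :
    ClaimNeg := by
  intro M p hM hp hp9
  obtain ⟨t, ht, C, hC, G, hG, hGz⟩ := hA M hM
  have hp0 : (0 : ℝ) < 9 / 25 := by norm_num
  have hp01 : (9 / 25 : ℝ) < 1 := by norm_num
  -- the dominated convergence
  set F : ℕ → ℂ → ℝ := fun n z => q2 (9 / 25) (1 + (G n z).1) (G n z).2 - 1 with hF
  have hmeas : ∀ (G : ℂ → ℂ × ℂ), G ∈ Cs M → ∀ p : ℝ, 0 < p →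
      Continuous fun z => q2 p (1 + (G z).1) (G z).2 - 1 := by
    intro G hG p hp
    obtain ⟨A, h1, h2⟩ := ((hCs M hM).1 G hG).1
    have c1 : Continuous fun z => (1 + (G z).1, (G z).2) :=
      (continuous_const.add h1.smooth.continuous).prodMk h2.smooth.continuous
    exact ((Neg_cont hp).comp c1).sub continuous_const
  have hbd : ∀ n, ∀ z : ℂ, z ≠ 0 →
      ‖F n z‖ ≤ (2 * C + 2 * C ^ 2 + 2 * C ^ (9 / 25 : ℝ)) * Neg_rad ‖z‖ := by
    intro n z hz
    obtain ⟨h1, h2⟩ := (hGz z hz).1 n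
    have hz0 : 0 < ‖z‖ := norm_pos_iff.2 hz
    have hr0 : 0 ≤ ‖z‖ ^ (-(8 / 3) : ℝ) := Real.rpow_nonneg hz0.le _
    have hCp : 0 ≤ C ^ (9 / 25 : ℝ) := Real.rpow_nonneg hC.le _
    rw [Real.norm_eq_abs]
    unfold Neg_rad
    by_cases h : 1 ≤ ‖z‖
    · rw [if_pos h]
      have h3 : |F n z| ≤ 2 * ‖(G n z).1‖ + ‖(G n z).1‖ ^ 2 + ‖(G n z).2‖ ^ 2 :=
        Neg_small hp0 hp01 _ _
      have hr1 : ‖z‖ ^ (-(8 / 3) : ℝ) ≤ 1 := Real.rpow_le_one_of_one_le_of_nonpos h (by norm_num)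
      set r := ‖z‖ ^ (-(8 / 3) : ℝ) with hr
      have h4 : ‖(G n z).1‖ ^ 2 ≤ (C * r) ^ 2 := pow_le_pow_left₀ (norm_nonneg _) h1 2
      have h5 : ‖(G n z).2‖ ^ 2 ≤ (C * r) ^ 2 := pow_le_pow_left₀ (norm_nonneg _) h2 2
      have h6 : (C * r) ^ 2 ≤ C ^ 2 * r := by
        have : r * r ≤ r := mul_le_of_le_one_left hr0 hr1
        nlinarith [mul_le_mul_of_nonneg_left this (sq_nonneg C)]
      nlinarith [mul_nonneg hCp hr0]
    · rw [if_neg h]
      have h3 : |F n z| ≤ ‖(G n z).1‖ ^ (9 / 25 : ℝ) + ‖(G n z).2‖ ^ (9 / 25 : ℝ) :=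
        Neg_big hQ hp0 hp01 _ _
      have h4 : ‖(G n z).1‖ ^ (9 / 25 : ℝ) ≤ (C * ‖z‖ ^ (-(8 / 3) : ℝ)) ^ (9 / 25 : ℝ) :=
        Real.rpow_le_rpow (norm_nonneg _) h1 (by norm_num)
      have h5 : ‖(G n z).2‖ ^ (9 / 25 : ℝ) ≤ (C * ‖z‖ ^ (-(8 / 3) : ℝ)) ^ (9 / 25 : ℝ) :=
        Real.rpow_le_rpow (norm_nonneg _) h2 (by norm_num)
      have h6 : (C * ‖z‖ ^ (-(8 / 3) : ℝ)) ^ (9 / 25 : ℝ) =
          C ^ (9 / 25 : ℝ) * ‖z‖ ^ (-(24 / 25) : ℝ) := by
        rw [Real.mul_rpow hC.le hr0, ← Real.rpow_mul hz0.le]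
        norm_num
      rw [h6] at h4 h5
      have h7 : 0 ≤ ‖z‖ ^ (-(24 / 25) : ℝ) := Real.rpow_nonneg hz0.le _
      nlinarith [mul_nonneg hC.le h7, mul_nonneg (sq_nonneg C) h7]
  have hae : ∀ᵐ z : ℂ, z ≠ 0 := by
    rw [ae_iff]
    simp
  have hlim := tendsto_integral_of_dominated_convergence (μ := (volume : Measure ℂ)) (F := F)
    (f := fun z : ℂ => ((1 - ‖z‖ ^ (-(8 / 3) : ℝ)) ^ 2 +
      (t * ‖z‖ ^ (-(8 / 3) : ℝ)) ^ 2) ^ (9 / 50 : ℝ) - 1)
    (fun z => (2 * C + 2 * C ^ 2 + 2 * C ^ (9 / 25 : ℝ)) * Neg_rad ‖z‖)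
    (fun n => (hmeas (G n) (hG n) _ hp0).aestronglyMeasurable) (Neg_rad_int.const_mul _)
    (fun n => by filter_upwards [hae] with z hz; exact hbd n z hz)
    (by
      filter_upwards [hae] with z hz
      obtain ⟨-, h2, h3⟩ := hGz z hz
      have hz0 : ‖z‖ ≠ 0 := norm_ne_zero_iff.2 hz
      have h4 : Tendsto (fun n => ((1 : ℂ) + (G n z).1, (G n z).2)) atTop
          (𝓝 (1 + ((-‖z‖ ^ (-(8 / 3) : ℝ) : ℝ) : ℂ),
            z / ‖z‖ * ((t * ‖z‖ ^ (-(8 / 3) : ℝ) : ℝ) : ℂ))) :=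
        (tendsto_const_nhds.add h2).prodMk_nhds h3
      have h5 := ((Neg_cont hp0).tendsto _).comp h4
      have h6 : q2 (9 / 25) (1 + ((-‖z‖ ^ (-(8 / 3) : ℝ) : ℝ) : ℂ))
          (z / ‖z‖ * ((t * ‖z‖ ^ (-(8 / 3) : ℝ) : ℝ) : ℂ)) =
          ((1 - ‖z‖ ^ (-(8 / 3) : ℝ)) ^ 2 + (t * ‖z‖ ^ (-(8 / 3) : ℝ)) ^ 2) ^ (9 / 50 : ℝ) := by
        unfold q2
        have e1 : (1 : ℂ) + ((-‖z‖ ^ (-(8 / 3) : ℝ) : ℝ) : ℂ) =
            ((1 - ‖z‖ ^ (-(8 / 3) : ℝ) : ℝ) : ℂ) := by push_cast; ring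
        rw [e1, Complex.norm_real, norm_mul, norm_div, Complex.norm_real, Complex.norm_real,
          norm_norm, div_self hz0, one_mul, Real.norm_eq_abs, Real.norm_eq_abs, sq_abs, sq_abs]
        norm_num
      have h7 : Tendsto (fun n => F n z) atTop (𝓝 (q2 (9 / 25)
          (1 + ((-‖z‖ ^ (-(8 / 3) : ℝ) : ℝ) : ℂ))
          (z / ‖z‖ * ((t * ‖z‖ ^ (-(8 / 3) : ℝ) : ℝ) : ℂ)) - 1)) := h5.sub tendsto_const_nhds
      rw [h6] at h7
      exact h7)
  have hneg := hN t ht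
  obtain ⟨n, hn⟩ := ((hlim.eventually (gt_mem_nhds hneg))).exists
  refine ⟨G n, hG n, ?_⟩
  -- smaller exponents
  obtain ⟨A, hA1, hA2⟩ := ((hCs M hM).1 (G n) (hG n)).1
  have hA0 : 0 ≤ A := le_trans (by positivity) (hA1.bd 0)
  have hint : ∀ q : ℝ, 0 < q → q < 1 →
      Integrable (fun z => q2 q (1 + (G n z).1) (G n z).2 - 1) := by
    intro q hq hq1
    have hI : Integrable (fun z : ℂ => (2 * A + 2 * A ^ 2) * (1 + ‖z‖) ^ (-(3 : ℝ))) := by
      refine (integrable_one_add_norm (E := ℂ) (μ := volume) (r := 3) ?_).const_mul _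
      rw [Complex.finrank_real_complex]; norm_num
    refine hI.mono' (hmeas (G n) (hG n) q hq).aestronglyMeasurable
      (Eventually.of_forall fun z => ?_)
    rw [Real.norm_eq_abs]
    refine (Neg_small hq hq1 _ _).trans ?_
    have hz1 : (1 : ℝ) ≤ 1 + ‖z‖ := by linarith [norm_nonneg z]
    have hdec : ∀ h : ℂ → ℂ, Nice M A h → ‖h z‖ ≤ A * (1 + ‖z‖) ^ (-(3 : ℝ)) := by
      intro h hh
      have h1 := hh.bd z
      have h2 : (1 + ‖z‖) ^ 3 ≤ (1 + ‖z‖) ^ M := pow_le_pow_right₀ hz1 hM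
      have h3 : ‖h z‖ * (1 + ‖z‖) ^ 3 ≤ A :=
        (mul_le_mul_of_nonneg_left h2 (norm_nonneg _)).trans h1
      have h4 : (0 : ℝ) < (1 + ‖z‖) ^ 3 := by positivity
      rw [Real.rpow_neg (by linarith), show (3 : ℝ) = ((3 : ℕ) : ℝ) by norm_num,
        Real.rpow_natCast, ← div_eq_mul_inv, le_div_iff₀ h4]
      exact h3
    have b1 := hdec _ hA1
    have b2 := hdec _ hA2
    have hr0 : 0 ≤ (1 + ‖z‖) ^ (-(3 : ℝ)) := Real.rpow_nonneg (by linarith) _
    have hr1 : (1 + ‖z‖) ^ (-(3 : ℝ)) ≤ 1 :=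
      Real.rpow_le_one_of_one_le_of_nonpos hz1 (by norm_num)
    set r := (1 + ‖z‖) ^ (-(3 : ℝ)) with hr
    have h4 : ‖(G n z).1‖ ^ 2 ≤ (A * r) ^ 2 := pow_le_pow_left₀ (norm_nonneg _) b1 2
    have h5 : ‖(G n z).2‖ ^ 2 ≤ (A * r) ^ 2 := pow_le_pow_left₀ (norm_nonneg _) b2 2
    have h6 : (A * r) ^ 2 ≤ A ^ 2 * r := by
      have : r * r ≤ r := mul_le_of_le_one_left hr0 hr1
      nlinarith [mul_le_mul_of_nonneg_left this (sq_nonneg A)]
    nlinarith
  set κ := p / (9 / 25) with hκ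
  have hκ0 : 0 < κ := by positivity
  have hκ1 : κ ≤ 1 := by rw [hκ, div_le_one hp0]; exact hp9
  have hle : ∀ z, q2 p (1 + (G n z).1) (G n z).2 - 1 ≤ κ * F n z := by
    intro z
    have e1 : q2 p (1 + (G n z).1) (G n z).2 =
        (q2 (9 / 25) (1 + (G n z).1) (G n z).2) ^ κ := by
      unfold q2
      rw [← Real.rpow_mul (by positivity)]
      congr 1
      rw [hκ]
      ring
    have e2 : 0 ≤ q2 (9 / 25) (1 + (G n z).1) (G n z).2 := (hQ _ hp0 hp01).1 _ _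
    rw [e1, hF]
    dsimp only
    set x := q2 (9 / 25) (1 + (G n z).1) (G n z).2 with hx
    have h3 := rpow_one_add_le_one_add_mul_self (s := x - 1) (by linarith) hκ0.le hκ1
    have e3 : 1 + (x - 1) = x := by ring
    rw [e3] at h3
    linarith
  have hp1 : p < 1 := by linarith
  calc JJ p (G n) = ∫ z, (q2 p (1 + (G n z).1) (G n z).2 - 1) := rfl
    _ ≤ ∫ z, κ * F n z := integral_mono (hint p hp hp1) ((hint _ hp0 hp01).const_mul κ) hle
    _ = κ * ∫ z, F n z := integral_const_mul _ _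
    _ < 0 := mul_neg_of_pos_of_neg hκ0 hn

end Pool.Agent.Work.MP_440970_an

end

section

/-!
# [A1] Interpolation nodes
-/

namespace Pool.Agent.Work.MP_440970_an

theorem Nodes_aux (n : ℕ) : ∀ V : Submodule ℂ (ℂ → ℂ), FiniteDimensional ℂ V →
    Module.finrank ℂ V ≤ n → ∃ (L : ℕ) (y : Fin L → ℂ) (φ : Fin L → ℂ → ℂ),
      (∀ l, φ l ∈ V) ∧ ∀ P ∈ V, ∀ a, P a = ∑ l, P (y l) * φ l a := by
  induction n with
  | zero =>
    intro V hV hn
    have h0 : V = ⊥ := Submodule.finrank_eq_zero.mp (Nat.le_zero.mp hn)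
    refine ⟨0, Fin.elim0, Fin.elim0, fun l => Fin.elim0 l, ?_⟩
    intro P hP a
    rw [h0, Submodule.mem_bot] at hP
    simp [hP]
  | succ n ih =>
    intro V hV hn
    by_cases hbot : V = ⊥
    · refine ⟨0, Fin.elim0, Fin.elim0, fun l => Fin.elim0 l, ?_⟩
      intro P hP a
      rw [hbot, Submodule.mem_bot] at hP
      simp [hP]
    obtain ⟨P1, hP1, hne⟩ := (Submodule.ne_bot_iff V).mp hbot
    obtain ⟨a0, ha0⟩ := Function.ne_iff.mp hne
    have ha0' : P1 a0 ≠ 0 := ha0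
    let P0 : ℂ → ℂ := (P1 a0)⁻¹ • P1
    have hP0 : P0 ∈ V := V.smul_mem _ hP1
    have hP0a : P0 a0 = 1 := by
      simp only [P0, Pi.smul_apply, smul_eq_mul]
      exact inv_mul_cancel₀ ha0'
    let ev : (ℂ → ℂ) →ₗ[ℂ] ℂ := LinearMap.proj a0
    let V' : Submodule ℂ (ℂ → ℂ) := V ⊓ LinearMap.ker ev
    have hle : V' ≤ V := inf_le_left
    have hlt : V' < V := by
      refine lt_of_le_of_ne hle ?_
      intro h
      have : P0 ∈ V' := h ▸ hP0
      have h2 : ev P0 = 0 := this.2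
      have h3 : P0 a0 = 0 := h2
      rw [hP0a] at h3
      exact one_ne_zero h3
    have hfd : FiniteDimensional ℂ V' := Submodule.finiteDimensional_of_le hle
    have hfr : Module.finrank ℂ V' ≤ n := by
      have := Submodule.finrank_lt_finrank_of_lt hlt
      omega
    obtain ⟨L, y, φ, hφ, hex⟩ := ih V' hfd hfr
    refine ⟨L + 1, Fin.cons a0 y, Fin.cons (P0 - ∑ l, P0 (y l) • φ l) φ, ?_, ?_⟩
    · intro l
      refine Fin.cases ?_ (fun l => ?_) l
      · simp only [Fin.cons_zero]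
        refine V.sub_mem hP0 (V.sum_mem fun l _ => V.smul_mem _ (hle (hφ l)))
      · simp only [Fin.cons_succ]
        exact hle (hφ l)
    · intro P hP a
      have hQ : P - P a0 • P0 ∈ V' := by
        refine ⟨V.sub_mem hP (V.smul_mem _ hP0), ?_⟩
        change P a0 - P a0 * P0 a0 = 0
        rw [hP0a]
        ring
      have h := hex _ hQ a
      simp only [Pi.sub_apply, Pi.smul_apply, smul_eq_mul] at h
      rw [Fin.sum_univ_succ]
      simp only [Fin.cons_zero, Fin.cons_succ, Pi.sub_apply, Finset.sum_apply, Pi.smul_apply,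
        smul_eq_mul]
      have h2 : ∑ l, (P (y l) - P a0 * P0 (y l)) * φ l a
          = ∑ l, P (y l) * φ l a - P a0 * ∑ l, P0 (y l) * φ l a := by
        rw [Finset.mul_sum, ← Finset.sum_sub_distrib]
        refine Finset.sum_congr rfl fun l _ => ?_
        ring
      rw [h2] at h
      linear_combination h

theorem claimNodes : ClaimNodes := by
  intro m
  have hfd : FiniteDimensional ℂ (Pol m) := by
    unfold Pol
    exact FiniteDimensional.span_of_finite ℂ (Set.finite_range _)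
  obtain ⟨L, y, φ, h1, h2⟩ := Nodes_aux (Module.finrank ℂ (Pol m)) (Pol m) hfd le_rfl
  exact ⟨L, y, φ, h1, h2⟩

end Pool.Agent.Work.MP_440970_an

end

section

/-!
# [D4] A one dimensional integral inequality
-/

open MeasureTheory Complex Set Filter Topology
open scoped ENNReal ComplexConjugate

namespace Pool.Agent.Work.MP_440970_an

/-- The integrand. -/
noncomputable def Num1_f (r : ℝ) : ℝ :=
  ((1 - 79 / 50 * r + r ^ 2) ^ (9 / 50 : ℝ) - 1) * r ^ (-(7 / 4) : ℝ)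

lemma Num1_y (r : ℝ) : 0 < 1 - 79 / 50 * r + r ^ 2 := by nlinarith [sq_nonneg (r - 79 / 100)]

lemma Num1_meas : Measurable Num1_f := by
  unfold Num1_f
  refine Measurable.mul (Measurable.sub ?_ measurable_const) ?_
  · exact (by fun_prop : Measurable fun r : ℝ => 1 - 79 / 50 * r + r ^ 2).pow_const _
  · exact measurable_id.pow_const _

lemma Num1_abs {r : ℝ} (hr : 0 ≤ r) :
    |(1 - 79 / 50 * r + r ^ 2) ^ (9 / 50 : ℝ) - 1| ≤ 79 / 50 * r + r ^ 2 := by
  have hy := Num1_y r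
  set y := 1 - 79 / 50 * r + r ^ 2 with hyd
  have h2 : 0 ≤ r ^ 2 := sq_nonneg r
  rcases le_total y 1 with h | h
  · have h1 : y ≤ y ^ (9 / 50 : ℝ) := by
      have := Real.rpow_le_rpow_of_exponent_ge hy h (by norm_num : (9 / 50 : ℝ) ≤ 1)
      rwa [Real.rpow_one] at this
    have h3 : y ^ (9 / 50 : ℝ) ≤ 1 := Real.rpow_le_one hy.le h (by norm_num)
    rw [abs_le]
    constructor <;> nlinarith
  · have h1 : y ^ (9 / 50 : ℝ) ≤ y := by
      have := Real.rpow_le_rpow_of_exponent_le h (by norm_num : (9 / 50 : ℝ) ≤ 1)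
      rwa [Real.rpow_one] at this
    have h3 : 1 ≤ y ^ (9 / 50 : ℝ) := Real.one_le_rpow h (by norm_num)
    rw [abs_le]
    constructor <;> nlinarith

lemma Num1_abs' {r : ℝ} (hr : 1 ≤ r) :
    |(1 - 79 / 50 * r + r ^ 2) ^ (9 / 50 : ℝ) - 1| ≤ 2 * r ^ (9 / 25 : ℝ) := by
  have hy := Num1_y r
  have hr0 : 0 < r := by linarith
  have h1 : (1 - 79 / 50 * r + r ^ 2) ^ (9 / 50 : ℝ) ≤ (2 * r ^ 2) ^ (9 / 50 : ℝ) :=
    Real.rpow_le_rpow hy.le (by nlinarith) (by norm_num)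
  have h2 : (2 * r ^ 2) ^ (9 / 50 : ℝ) = 2 ^ (9 / 50 : ℝ) * r ^ (9 / 25 : ℝ) := by
    rw [Real.mul_rpow (by norm_num) (by positivity), ← Real.rpow_natCast r 2,
      ← Real.rpow_mul hr0.le]
    norm_num
  have h3 : (2 : ℝ) ^ (9 / 50 : ℝ) ≤ 2 := by
    have := Real.rpow_le_rpow_of_exponent_le (by norm_num : (1 : ℝ) ≤ 2)
      (by norm_num : (9 / 50 : ℝ) ≤ 1)
    rwa [Real.rpow_one] at this
  have h4 : 1 ≤ r ^ (9 / 25 : ℝ) := Real.one_le_rpow hr (by norm_num)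
  have h5 : 0 ≤ (1 - 79 / 50 * r + r ^ 2) ^ (9 / 50 : ℝ) := Real.rpow_nonneg hy.le _
  rw [h2] at h1
  rw [abs_le]
  constructor <;> nlinarith

lemma Num1_int : IntegrableOn Num1_f (Ioi 0) := by
  have h1 : IntegrableOn Num1_f (Ioc 0 1) := by
    have hb : IntegrableOn (fun r : ℝ => 3 * r ^ (-(3 / 4) : ℝ)) (Ioc 0 1) := by
      have := (intervalIntegral.intervalIntegrable_rpow' (a := 0) (b := 1)
        (by norm_num : (-1 : ℝ) < -(3 / 4))).const_mul 3
      rwa [intervalIntegrable_iff_integrableOn_Ioc_of_le zero_le_one] at this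
    refine Integrable.mono' hb Num1_meas.aestronglyMeasurable ?_
    rw [ae_restrict_iff' measurableSet_Ioc]
    refine Eventually.of_forall fun r hr => ?_
    have h2 := Num1_abs hr.1.le
    have h3 : 0 ≤ r ^ (-(7 / 4) : ℝ) := Real.rpow_nonneg hr.1.le _
    unfold Num1_f
    rw [Real.norm_eq_abs, abs_mul, abs_of_nonneg h3]
    have h4 : r ^ (-(3 / 4) : ℝ) = r * r ^ (-(7 / 4) : ℝ) := by
      rw [← Real.rpow_one_add' hr.1.le (by norm_num)]
      congr 1
      norm_num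
    rw [h4]
    have h5 : 79 / 50 * r + r ^ 2 ≤ 3 * r := by nlinarith [hr.1, hr.2]
    calc _ ≤ (79 / 50 * r + r ^ 2) * r ^ (-(7 / 4) : ℝ) := mul_le_mul_of_nonneg_right h2 h3
      _ ≤ 3 * r * r ^ (-(7 / 4) : ℝ) := mul_le_mul_of_nonneg_right h5 h3
      _ = _ := by ring
  have h2 : IntegrableOn Num1_f (Ioi 1) := by
    have hb : IntegrableOn (fun r : ℝ => 2 * r ^ (-(139 / 100) : ℝ)) (Ioi 1) :=
      (integrableOn_Ioi_rpow_of_lt (by norm_num) one_pos).const_mul 2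
    refine Integrable.mono' hb Num1_meas.aestronglyMeasurable ?_
    rw [ae_restrict_iff' measurableSet_Ioi]
    refine Eventually.of_forall fun r hr => ?_
    have hr1 : 1 < r := hr
    have hr0 : 0 < r := by linarith
    have h2 := Num1_abs' hr1.le
    have h3 : 0 ≤ r ^ (-(7 / 4) : ℝ) := Real.rpow_nonneg hr0.le _
    unfold Num1_f
    rw [Real.norm_eq_abs, abs_mul, abs_of_nonneg h3]
    have h4 : r ^ (-(139 / 100) : ℝ) = r ^ (9 / 25 : ℝ) * r ^ (-(7 / 4) : ℝ) := by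
      rw [← Real.rpow_add hr0]
      congr 1
      norm_num
    rw [h4, ← mul_assoc]
    exact mul_le_mul_of_nonneg_right h2 h3
  have h3 := h1.union h2
  rwa [Ioc_union_Ioi_eq_Ioi zero_le_one] at h3

/-- Concavity. -/
lemma Num1_conc {y y0 c : ℝ} (hy : 0 < y) (hy0 : 0 < y0) (hc : 0 < c) (h : y0 ^ 9 ≤ c ^ 50) :
    y ^ (9 / 50 : ℝ) ≤ c * (1 + 9 / 50 * (y / y0 - 1)) := by
  have h1 : y0 ^ (9 / 50 : ℝ) ≤ c := by
    have h2 : (y0 ^ 9) ^ (1 / 50 : ℝ) ≤ (c ^ 50) ^ (1 / 50 : ℝ) :=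
      Real.rpow_le_rpow (by positivity) h (by norm_num)
    rw [← Real.rpow_natCast y0 9, ← Real.rpow_mul hy0.le, ← Real.rpow_natCast c 50,
      ← Real.rpow_mul hc.le] at h2
    norm_num at h2
    exact h2
  have h3 : (y / y0) ^ (9 / 50 : ℝ) ≤ 1 + 9 / 50 * (y / y0 - 1) := by
    have := rpow_one_add_le_one_add_mul_self (s := y / y0 - 1)
      (by have := div_pos hy hy0; linarith) (p := 9 / 50) (by norm_num) (by norm_num)
    rwa [add_sub_cancel] at this
  have h4 : y ^ (9 / 50 : ℝ) = y0 ^ (9 / 50 : ℝ) * (y / y0) ^ (9 / 50 : ℝ) := by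
    rw [← Real.mul_rpow hy0.le (div_pos hy hy0).le]
    congr 1
    field_simp
  rw [h4]
  exact mul_le_mul h1 h3 (Real.rpow_nonneg (div_pos hy hy0).le _) hc.le

/-- Majorants. -/
noncomputable def Num1_maj (α β r : ℝ) : ℝ :=
  α * r ^ (-(7 / 4) : ℝ) + (-(79 / 50 * β) * r ^ (-(3 / 4) : ℝ) + β * r ^ (1 / 4 : ℝ))

lemma Num1_maj_eq {α β r : ℝ} (hr : 0 < r) :
    Num1_maj α β r = (α + β * (-(79 / 50 * r) + r ^ 2)) * r ^ (-(7 / 4) : ℝ) := by
  have h1 : r ^ (-(3 / 4) : ℝ) = r * r ^ (-(7 / 4) : ℝ) := by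
    rw [← Real.rpow_one_add' hr.le (by norm_num)]
    congr 1
    norm_num
  have h2 : r ^ (1 / 4 : ℝ) = r ^ 2 * r ^ (-(7 / 4) : ℝ) := by
    rw [← Real.rpow_natCast r 2, ← Real.rpow_add hr]
    congr 1
    norm_num
  unfold Num1_maj
  rw [h1, h2]
  ring

lemma Num1_pow {a : ℝ} (ha : 0 < a) : (a ^ 4) ^ (-(3 / 4) : ℝ) = (a ^ 3)⁻¹ ∧
    (a ^ 4) ^ (1 / 4 : ℝ) = a ∧ (a ^ 4) ^ (5 / 4 : ℝ) = a ^ 5 := by
  refine ⟨?_, ?_, ?_⟩
  · rw [← Real.rpow_natCast a 4, ← Real.rpow_mul ha.le, ← Real.rpow_natCast a 3,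
      ← Real.rpow_neg ha.le]
    norm_num
  · rw [← Real.rpow_natCast a 4, ← Real.rpow_mul ha.le]
    norm_num
  · rw [← Real.rpow_natCast a 4, ← Real.rpow_mul ha.le, ← Real.rpow_natCast a 5]
    norm_num

/-- One piece. -/
lemma Num1_piece {a b y0 c : ℝ} (ha : 0 < a) (hab : a ≤ b) (hy0 : 0 < y0) (hc : 0 < c)
    (h : y0 ^ 9 ≤ c ^ 50) :
    ∫ r in Ioc (a ^ 4) (b ^ 4), Num1_f r ≤
      (c * (41 / 50) - 1 + 9 / 50 * c / y0) * (-(4 / 3)) * ((b ^ 3)⁻¹ - (a ^ 3)⁻¹) +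
      9 / 50 * c / y0 * (-(158 / 25) * (b - a) + 4 / 5 * (b ^ 5 - a ^ 5)) := by
  have hb : 0 < b := by linarith
  have hA : 0 < a ^ 4 := by positivity
  have hB : 0 < b ^ 4 := by positivity
  have hAB : a ^ 4 ≤ b ^ 4 := pow_le_pow_left₀ ha.le hab 4
  set β : ℝ := 9 / 50 * c / y0 with hβ
  set α : ℝ := c * (41 / 50) - 1 + β with hα
  have hnot : (0 : ℝ) ∉ uIcc (a ^ 4) (b ^ 4) := by
    rw [uIcc_of_le hAB]
    intro hc
    linarith [hc.1]
  have i1 : IntervalIntegrable (fun r : ℝ => α * r ^ (-(7 / 4) : ℝ)) volume (a ^ 4) (b ^ 4) :=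
    (intervalIntegral.intervalIntegrable_rpow (Or.inr hnot)).const_mul _
  have i2 : IntervalIntegrable (fun r : ℝ => -(79 / 50 * β) * r ^ (-(3 / 4) : ℝ)) volume (a ^ 4)
      (b ^ 4) := (intervalIntegral.intervalIntegrable_rpow (Or.inr hnot)).const_mul _
  have i3 : IntervalIntegrable (fun r : ℝ => β * r ^ (1 / 4 : ℝ)) volume (a ^ 4) (b ^ 4) :=
    (intervalIntegral.intervalIntegrable_rpow (Or.inr hnot)).const_mul _
  have hmaj : IntervalIntegrable (Num1_maj α β) volume (a ^ 4) (b ^ 4) := i1.add (i2.add i3)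
  have hval : ∫ r in (a ^ 4)..(b ^ 4), Num1_maj α β r =
      α * (-(4 / 3)) * ((b ^ 3)⁻¹ - (a ^ 3)⁻¹) +
      β * (-(158 / 25) * (b - a) + 4 / 5 * (b ^ 5 - a ^ 5)) := by
    unfold Num1_maj
    rw [intervalIntegral.integral_add i1 (i2.add i3), intervalIntegral.integral_add i2 i3,
      intervalIntegral.integral_const_mul, intervalIntegral.integral_const_mul,
      intervalIntegral.integral_const_mul, integral_rpow (Or.inr ⟨by norm_num, hnot⟩),
      integral_rpow (Or.inr ⟨by norm_num, hnot⟩), integral_rpow (Or.inr ⟨by norm_num, hnot⟩)]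
    have e1 : (-(7 / 4) + 1 : ℝ) = -(3 / 4) := by norm_num
    have e2 : (-(3 / 4) + 1 : ℝ) = 1 / 4 := by norm_num
    have e3 : (1 / 4 + 1 : ℝ) = 5 / 4 := by norm_num
    rw [e1, e2, e3, (Num1_pow ha).1, (Num1_pow hb).1, (Num1_pow ha).2.1, (Num1_pow hb).2.1,
      (Num1_pow ha).2.2, (Num1_pow hb).2.2]
    ring
  rw [← hval, intervalIntegral.integral_of_le hAB]
  have hsub : Ioc (a ^ 4) (b ^ 4) ⊆ Ioi 0 := fun r hr => hA.trans hr.1
  refine setIntegral_mono_on (Num1_int.mono_set hsub) ?_ measurableSet_Ioc fun r hr => ?_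
  · rwa [intervalIntegrable_iff_integrableOn_Ioc_of_le hAB] at hmaj
  · have hr0 : 0 < r := hsub hr
    rw [Num1_maj_eq hr0]
    unfold Num1_f
    refine mul_le_mul_of_nonneg_right ?_ (Real.rpow_nonneg hr0.le _)
    have h1 := Num1_conc (Num1_y r) hy0 hc h
    have h2 : c * (1 + 9 / 50 * ((1 - 79 / 50 * r + r ^ 2) / y0 - 1)) - 1 =
        α + β * (-(79 / 50 * r) + r ^ 2) := by
      rw [hα, hβ]
      field_simp
      ring
    linarith

/-- The first piece. -/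
lemma Num1_first {b : ℝ} (hb : 0 < b) :
    ∫ r in Ioc 0 (b ^ 4), Num1_f r ≤ 9 / 50 * (-(158 / 25) * b + 4 / 5 * b ^ 5) := by
  have hB : 0 < b ^ 4 := by positivity
  have i2 : IntervalIntegrable (fun r : ℝ => -(79 / 50 * (9 / 50)) * r ^ (-(3 / 4) : ℝ)) volume 0
      (b ^ 4) := (intervalIntegral.intervalIntegrable_rpow' (by norm_num)).const_mul _
  have i3 : IntervalIntegrable (fun r : ℝ => 9 / 50 * r ^ (1 / 4 : ℝ)) volume 0 (b ^ 4) :=
    (intervalIntegral.intervalIntegrable_rpow' (by norm_num)).const_mul _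
  have hval : ∫ r in (0 : ℝ)..(b ^ 4), (-(79 / 50 * (9 / 50)) * r ^ (-(3 / 4) : ℝ) +
      9 / 50 * r ^ (1 / 4 : ℝ)) = 9 / 50 * (-(158 / 25) * b + 4 / 5 * b ^ 5) := by
    rw [intervalIntegral.integral_add i2 i3,
      intervalIntegral.integral_const_mul, intervalIntegral.integral_const_mul,
      integral_rpow (Or.inl (by norm_num)), integral_rpow (Or.inl (by norm_num))]
    have e2 : (-(3 / 4) + 1 : ℝ) = 1 / 4 := by norm_num
    have e3 : (1 / 4 + 1 : ℝ) = 5 / 4 := by norm_num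
    rw [e2, e3, (Num1_pow hb).2.1, (Num1_pow hb).2.2, Real.zero_rpow (by norm_num),
      Real.zero_rpow (by norm_num)]
    ring
  rw [← hval, intervalIntegral.integral_of_le hB.le]
  have hsub : Ioc 0 (b ^ 4) ⊆ Ioi 0 := fun r hr => hr.1
  refine setIntegral_mono_on (Num1_int.mono_set hsub) ?_ measurableSet_Ioc fun r hr => ?_
  · have := i2.add i3
    rwa [intervalIntegrable_iff_integrableOn_Ioc_of_le hB.le] at this
  · have hr0 : 0 < r := hr.1
    have h0 := Num1_maj_eq (α := 0) (β := 9 / 50) hr0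
    unfold Num1_maj at h0
    rw [zero_mul, zero_add] at h0
    rw [h0]
    unfold Num1_f
    refine mul_le_mul_of_nonneg_right ?_ (Real.rpow_nonneg hr0.le _)
    have h1 := Num1_conc (Num1_y r) one_pos one_pos (by norm_num)
    linarith

/-- The tail. -/
lemma Num1_tail {X c : ℝ} (hX : 0 < X) (hc : 0 < c) (h : (X ^ 4) ^ 9 ≤ c ^ 25)
    (hpos : 0 ≤ (X ^ 3)⁻¹ / (39 / 100) - 711 / 2500 * (X ^ 7)⁻¹ / (139 / 100) +
      9 / 50 * (X ^ 11)⁻¹ / (239 / 100)) :
    ∫ r in Ioi (X ^ 4), Num1_f r ≤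
      c * ((X ^ 3)⁻¹ / (39 / 100) - 711 / 2500 * (X ^ 7)⁻¹ / (139 / 100) +
      9 / 50 * (X ^ 11)⁻¹ / (239 / 100)) - 4 / 3 * (X ^ 3)⁻¹ := by
  have hR : 0 < X ^ 4 := by positivity
  set ρ : ℝ := (X ^ 4) ^ (9 / 25 : ℝ) with hρ
  have hρc : ρ ≤ c := by
    have h2 : ((X ^ 4) ^ 9) ^ (1 / 25 : ℝ) ≤ (c ^ 25) ^ (1 / 25 : ℝ) :=
      Real.rpow_le_rpow (by positivity) h (by norm_num)
    rw [← Real.rpow_natCast (X ^ 4) 9, ← Real.rpow_mul hR.le, ← Real.rpow_natCast c 25,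
      ← Real.rpow_mul hc.le] at h2
    norm_num at h2
    rw [hρ]
    norm_num
    exact h2
  have p1 : (X ^ 4) ^ (-(39 / 100) : ℝ) = ρ * (X ^ 3)⁻¹ := by
    rw [hρ, ← (Num1_pow hX).1, ← Real.rpow_add hR]
    norm_num
  have p2 : (X ^ 4) ^ (-(139 / 100) : ℝ) = ρ * (X ^ 7)⁻¹ := by
    have e : (X ^ 7)⁻¹ = (X ^ 4) ^ (-(7 / 4) : ℝ) := by
      rw [← Real.rpow_natCast X 4, ← Real.rpow_mul hX.le, ← Real.rpow_natCast X 7,
        ← Real.rpow_neg hX.le]
      norm_num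
    rw [hρ, e, ← Real.rpow_add hR]
    norm_num
  have p3 : (X ^ 4) ^ (-(239 / 100) : ℝ) = ρ * (X ^ 11)⁻¹ := by
    have e : (X ^ 11)⁻¹ = (X ^ 4) ^ (-(11 / 4) : ℝ) := by
      rw [← Real.rpow_natCast X 4, ← Real.rpow_mul hX.le, ← Real.rpow_natCast X 11,
        ← Real.rpow_neg hX.le]
      norm_num
    rw [hρ, e, ← Real.rpow_add hR]
    norm_num
  have i1 : IntegrableOn (fun r : ℝ => r ^ (-(139 / 100) : ℝ)) (Ioi (X ^ 4)) :=
    integrableOn_Ioi_rpow_of_lt (by norm_num) hR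
  have i2 : IntegrableOn (fun r : ℝ => -(711 / 2500) * r ^ (-(239 / 100) : ℝ)) (Ioi (X ^ 4)) :=
    (integrableOn_Ioi_rpow_of_lt (by norm_num) hR).const_mul _
  have i3 : IntegrableOn (fun r : ℝ => 9 / 50 * r ^ (-(339 / 100) : ℝ)) (Ioi (X ^ 4)) :=
    (integrableOn_Ioi_rpow_of_lt (by norm_num) hR).const_mul _
  have i4 : IntegrableOn (fun r : ℝ => -1 * r ^ (-(7 / 4) : ℝ)) (Ioi (X ^ 4)) :=
    (integrableOn_Ioi_rpow_of_lt (by norm_num) hR).const_mul _
  have hval : ∫ r in Ioi (X ^ 4), (r ^ (-(139 / 100) : ℝ) + (-(711 / 2500) * r ^ (-(239 / 100) : ℝ)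
      + (9 / 50 * r ^ (-(339 / 100) : ℝ) + -1 * r ^ (-(7 / 4) : ℝ)))) =
      ρ * ((X ^ 3)⁻¹ / (39 / 100) - 711 / 2500 * (X ^ 7)⁻¹ / (139 / 100) +
      9 / 50 * (X ^ 11)⁻¹ / (239 / 100)) - 4 / 3 * (X ^ 3)⁻¹ := by
    have j1 := integral_add i1 (i2.add (i3.add i4))
    have j2 := integral_add i2 (i3.add i4)
    have j3 := integral_add i3 i4
    simp only [Pi.add_apply] at j1 j2 j3
    rw [j1, j2, j3,
      integral_const_mul, integral_const_mul, integral_const_mul,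
      integral_Ioi_rpow_of_lt (by norm_num) hR, integral_Ioi_rpow_of_lt (by norm_num) hR,
      integral_Ioi_rpow_of_lt (by norm_num) hR, integral_Ioi_rpow_of_lt (by norm_num) hR]
    have e1 : (-(139 / 100) + 1 : ℝ) = -(39 / 100) := by norm_num
    have e2 : (-(239 / 100) + 1 : ℝ) = -(139 / 100) := by norm_num
    have e3 : (-(339 / 100) + 1 : ℝ) = -(239 / 100) := by norm_num
    have e4 : (-(7 / 4) + 1 : ℝ) = -(3 / 4) := by norm_num
    rw [e1, e2, e3, e4, p1, p2, p3, (Num1_pow hX).1]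
    ring
  have hle : ∫ r in Ioi (X ^ 4), Num1_f r ≤
      ∫ r in Ioi (X ^ 4), (r ^ (-(139 / 100) : ℝ) + (-(711 / 2500) * r ^ (-(239 / 100) : ℝ)
      + (9 / 50 * r ^ (-(339 / 100) : ℝ) + -1 * r ^ (-(7 / 4) : ℝ)))) := by
    have hsub : Ioi (X ^ 4) ⊆ Ioi 0 := fun r hr => hR.trans hr
    refine setIntegral_mono_on (Num1_int.mono_set hsub) (i1.add (i2.add (i3.add i4)))
      measurableSet_Ioi fun r hr => ?_
    have hr0 : 0 < r := hsub hr
    have h1 : (1 - 79 / 50 * r + r ^ 2) ^ (9 / 50 : ℝ) ≤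
        r ^ (9 / 25 : ℝ) * (1 + 9 / 50 * (-(79 / 50) * r⁻¹ + (r ^ 2)⁻¹)) := by
      have hpos2 : 0 < (1 - 79 / 50 * r + r ^ 2) / r ^ 2 := div_pos (Num1_y r) (by positivity)
      have e1 : 1 + (-(79 / 50) * r⁻¹ + (r ^ 2)⁻¹) = (1 - 79 / 50 * r + r ^ 2) / r ^ 2 := by
        field_simp
        ring
      have h2 := rpow_one_add_le_one_add_mul_self
        (s := -(79 / 50) * r⁻¹ + (r ^ 2)⁻¹) (by linarith) (p := 9 / 50) (by norm_num) (by norm_num)
      have e2 : (1 - 79 / 50 * r + r ^ 2) ^ (9 / 50 : ℝ) = r ^ (9 / 25 : ℝ) *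
          ((1 - 79 / 50 * r + r ^ 2) / r ^ 2) ^ (9 / 50 : ℝ) := by
        have e3 : r ^ (9 / 25 : ℝ) = (r ^ 2) ^ (9 / 50 : ℝ) := by
          rw [← Real.rpow_natCast r 2, ← Real.rpow_mul hr0.le]
          norm_num
        rw [e3, ← Real.mul_rpow (by positivity) hpos2.le]
        congr 1
        field_simp
      rw [e2, ← e1]
      exact mul_le_mul_of_nonneg_left h2 (Real.rpow_nonneg hr0.le _)
    have q1 : r ^ (-(139 / 100) : ℝ) = r ^ (9 / 25 : ℝ) * r ^ (-(7 / 4) : ℝ) := by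
      rw [← Real.rpow_add hr0]
      congr 1
      norm_num
    have q2 : r ^ (-(239 / 100) : ℝ) = r ^ (9 / 25 : ℝ) * r⁻¹ * r ^ (-(7 / 4) : ℝ) := by
      rw [← Real.rpow_neg_one r, ← Real.rpow_add hr0, ← Real.rpow_add hr0]
      congr 1
      norm_num
    have q3 : r ^ (-(339 / 100) : ℝ) = r ^ (9 / 25 : ℝ) * (r ^ 2)⁻¹ * r ^ (-(7 / 4) : ℝ) := by
      rw [← Real.rpow_natCast r 2, ← Real.rpow_neg hr0.le, ← Real.rpow_add hr0,
        ← Real.rpow_add hr0]
      congr 1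
      norm_num
    rw [q1, q2, q3]
    unfold Num1_f
    have h3 : 0 ≤ r ^ (-(7 / 4) : ℝ) := Real.rpow_nonneg hr0.le _
    have h4 := mul_le_mul_of_nonneg_right h1 h3
    calc ((1 - 79 / 50 * r + r ^ 2) ^ (9 / 50 : ℝ) - 1) * r ^ (-(7 / 4) : ℝ) =
          (1 - 79 / 50 * r + r ^ 2) ^ (9 / 50 : ℝ) * r ^ (-(7 / 4) : ℝ) -
            r ^ (-(7 / 4) : ℝ) := by ring
      _ ≤ r ^ (9 / 25 : ℝ) * (1 + 9 / 50 * (-(79 / 50) * r⁻¹ + (r ^ 2)⁻¹)) *
          r ^ (-(7 / 4) : ℝ) - r ^ (-(7 / 4) : ℝ) := by linarith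
      _ = _ := by ring
  rw [hval] at hle
  refine hle.trans ?_
  have := mul_le_mul_of_nonneg_right hρc hpos
  linarith

/-- Splitting. -/
lemma Num1_split {a b : ℝ} (ha : 0 ≤ a) (hab : a ≤ b) :
    ∫ r in Ioc 0 b, Num1_f r = (∫ r in Ioc 0 a, Num1_f r) + ∫ r in Ioc a b, Num1_f r := by
  rw [← Ioc_union_Ioc_eq_Ioc ha hab, setIntegral_union (Ioc_disjoint_Ioc_of_le le_rfl)
    measurableSet_Ioc (Num1_int.mono_set fun r hr => hr.1)
    (Num1_int.mono_set fun r hr => lt_of_le_of_lt ha hr.1)]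

/-- [D4] -/
theorem claimNum1 : ClaimNum1 := by
  refine ⟨Num1_int, ?_⟩
  have hX : (0 : ℝ) ≤ (3 / 2) ^ 4 := by positivity
  have e0 : ∫ r in Ioi (0 : ℝ), Num1_f r =
      (∫ r in Ioc 0 ((3 / 2 : ℝ) ^ 4), Num1_f r) + ∫ r in Ioi ((3 / 2 : ℝ) ^ 4), Num1_f r := by
    rw [← Ioc_union_Ioi_eq_Ioi hX, setIntegral_union (Ioc_disjoint_Ioi le_rfl)
      measurableSet_Ioi (Num1_int.mono_set fun r hr => hr.1)
      (Num1_int.mono_set fun r hr => lt_of_le_of_lt hX hr)]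
  have s9 := Num1_split (a := (27 / 20 : ℝ) ^ 4) (b := (3 / 2 : ℝ) ^ 4) (by norm_num) (by norm_num)
  have s8 := Num1_split (a := (6 / 5 : ℝ) ^ 4) (b := (27 / 20 : ℝ) ^ 4) (by norm_num) (by norm_num)
  have s7 := Num1_split (a := (11 / 10 : ℝ) ^ 4) (b := (6 / 5 : ℝ) ^ 4) (by norm_num) (by norm_num)
  have s6 := Num1_split (a := (1 : ℝ) ^ 4) (b := (11 / 10 : ℝ) ^ 4) (by norm_num) (by norm_num)
  have s5 := Num1_split (a := (9 / 10 : ℝ) ^ 4) (b := (1 : ℝ) ^ 4) (by norm_num) (by norm_num)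
  have s4 := Num1_split (a := (4 / 5 : ℝ) ^ 4) (b := (9 / 10 : ℝ) ^ 4) (by norm_num) (by norm_num)
  have s3 := Num1_split (a := (7 / 10 : ℝ) ^ 4) (b := (4 / 5 : ℝ) ^ 4) (by norm_num) (by norm_num)
  have s2 := Num1_split (a := (3 / 5 : ℝ) ^ 4) (b := (7 / 10 : ℝ) ^ 4) (by norm_num) (by norm_num)
  have s1 := Num1_split (a := (9 / 20 : ℝ) ^ 4) (b := (3 / 5 : ℝ) ^ 4) (by norm_num) (by norm_num)
  have p0 := Num1_first (b := 9 / 20) (by norm_num)
  have p1 := Num1_piece (a := 9 / 20) (b := 3 / 5) (y0 := 47 / 50) (c := 989 / 1000)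
    (by norm_num) (by norm_num) (by norm_num) (by norm_num) (by norm_num)
  have p2 := Num1_piece (a := 3 / 5) (b := 7 / 10) (y0 := 73 / 100) (c := 189 / 200)
    (by norm_num) (by norm_num) (by norm_num) (by norm_num) (by norm_num)
  have p3 := Num1_piece (a := 7 / 10) (b := 4 / 5) (y0 := 61 / 100) (c := 183 / 200)
    (by norm_num) (by norm_num) (by norm_num) (by norm_num) (by norm_num)
  have p4 := Num1_piece (a := 4 / 5) (b := 9 / 10) (y0 := 47 / 100) (c := 873 / 1000)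
    (by norm_num) (by norm_num) (by norm_num) (by norm_num) (by norm_num)
  have p5 := Num1_piece (a := 9 / 10) (b := 1) (y0 := 2 / 5) (c := 106 / 125)
    (by norm_num) (by norm_num) (by norm_num) (by norm_num) (by norm_num)
  have p6 := Num1_piece (a := 1) (b := 11 / 10) (y0 := 11 / 20) (c := 449 / 500)
    (by norm_num) (by norm_num) (by norm_num) (by norm_num) (by norm_num)
  have p7 := Num1_piece (a := 11 / 10) (b := 6 / 5) (y0 := 32 / 25) (c := 2091 / 2000)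
    (by norm_num) (by norm_num) (by norm_num) (by norm_num) (by norm_num)
  have p8 := Num1_piece (a := 6 / 5) (b := 27 / 20) (y0 := 187 / 50) (c := 317 / 250)
    (by norm_num) (by norm_num) (by norm_num) (by norm_num) (by norm_num)
  have p9 := Num1_piece (a := 27 / 20) (b := 3 / 2) (y0 := 797 / 100) (c := 1453 / 1000)
    (by norm_num) (by norm_num) (by norm_num) (by norm_num) (by norm_num)
  have pt := Num1_tail (X := 3 / 2) (c := 1793 / 1000) (by norm_num) (by norm_num) (by norm_num)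
    (by norm_num)
  change ∫ r in Ioi (0 : ℝ), Num1_f r < 0
  rw [e0, s9, s8, s7, s6, s5, s4, s3, s2, s1]
  norm_num at p0 p1 p2 p3 p4 p5 p6 p7 p8 p9 pt ⊢
  linarith

end Pool.Agent.Work.MP_440970_an

end

section

/-!
# Item D5: the planar integral of the homogeneous field
-/

open MeasureTheory Complex Set Filter Topology

namespace Pool.Agent.Work.MP_440970_an

/-- the one dimensional profile -/
noncomputable def Num2_h (k u : ℝ) : ℝ := (1 - k * u + u ^ 2) ^ (9 / 50 : ℝ) - 1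

theorem Num2_meas (k : ℝ) : Measurable (fun u : ℝ => Num2_h k u * u ^ (-(7 / 4) : ℝ)) := by
  unfold Num2_h
  fun_prop

theorem Num2_base_nonneg {k u : ℝ} (hk : k ≤ 2) (hu : 0 < u) : (1 - u) ^ 2 ≤ 1 - k * u + u ^ 2 := by
  nlinarith

theorem Num2_lower {k u : ℝ} (hk : k ≤ 2) (hu : 0 < u) : -(min u 1) ≤ Num2_h k u := by
  have h0 := Num2_base_nonneg hk hu
  have h1 : (0 : ℝ) ≤ 1 - k * u + u ^ 2 := le_trans (sq_nonneg _) h0
  unfold Num2_h
  rcases le_total u 1 with h | h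
  · rw [min_eq_left h]
    have h2 : (1 - u) ≤ ((1 - u) ^ 2) ^ (9 / 50 : ℝ) := by
      have h3 : 0 ≤ 1 - u := by linarith
      rw [← Real.rpow_natCast, ← Real.rpow_mul h3]
      calc (1 - u) = (1 - u) ^ (1 : ℝ) := (Real.rpow_one _).symm
        _ ≤ (1 - u) ^ (((2 : ℕ) : ℝ) * (9 / 50)) :=
          Real.rpow_le_rpow_of_exponent_ge_of_imp h3 (by linarith) (by norm_num)
            (by intro _ h; norm_num at h)
    have h4 : ((1 - u) ^ 2) ^ (9 / 50 : ℝ) ≤ (1 - k * u + u ^ 2) ^ (9 / 50 : ℝ) :=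
      Real.rpow_le_rpow (sq_nonneg _) h0 (by norm_num)
    linarith
  · rw [min_eq_right h]
    have := Real.rpow_nonneg h1 (9 / 50 : ℝ)
    linarith

theorem Num2_upper {k u : ℝ} (hk : k ≤ 2) (hk' : 79 / 50 ≤ k) (hu : 0 < u) :
    Num2_h k u ≤ Num2_h (79 / 50) u := by
  have h0 := Num2_base_nonneg hk hu
  have h1 : (0 : ℝ) ≤ 1 - k * u + u ^ 2 := le_trans (sq_nonneg _) h0
  unfold Num2_h
  have : (1 - k * u + u ^ 2) ^ (9 / 50 : ℝ) ≤ (1 - 79 / 50 * u + u ^ 2) ^ (9 / 50 : ℝ) :=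
    Real.rpow_le_rpow h1 (by nlinarith) (by norm_num)
  linarith

theorem Num2_min_int : IntegrableOn (fun u : ℝ => (min u 1) * u ^ (-(7 / 4) : ℝ)) (Ioi 0) := by
  rw [← Ioc_union_Ioi_eq_Ioi (zero_le_one : (0 : ℝ) ≤ 1)]
  refine IntegrableOn.union ?_ ?_
  · have h1 : IntegrableOn (fun u : ℝ => u ^ (-(3 / 4) : ℝ)) (Ioc 0 1) := by
      rw [← intervalIntegrable_iff_integrableOn_Ioc_of_le zero_le_one]
      exact intervalIntegral.intervalIntegrable_rpow' (by norm_num)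
    refine h1.congr_fun ?_ measurableSet_Ioc
    intro u hu
    have hu0 : 0 < u := hu.1
    change u ^ (-(3 / 4) : ℝ) = (min u 1) * u ^ (-(7 / 4) : ℝ)
    rw [min_eq_left hu.2]
    nth_rewrite 2 [← Real.rpow_one u]
    rw [← Real.rpow_add hu0]
    norm_num
  · have h1 : IntegrableOn (fun u : ℝ => u ^ (-(7 / 4) : ℝ)) (Ioi 1) :=
      integrableOn_Ioi_rpow_of_lt (by norm_num) zero_lt_one
    refine h1.congr_fun ?_ measurableSet_Ioi
    intro u hu
    have hu0 : 1 < u := hu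
    change u ^ (-(7 / 4) : ℝ) = (min u 1) * u ^ (-(7 / 4) : ℝ)
    rw [min_eq_right hu0.le, one_mul]

theorem Num2_int (h : ClaimNum1) {k : ℝ} (hk : k ≤ 2) (hk' : 79 / 50 ≤ k) :
    IntegrableOn (fun u : ℝ => Num2_h k u * u ^ (-(7 / 4) : ℝ)) (Ioi 0) := by
  have h1 : IntegrableOn (fun u : ℝ => ‖Num2_h (79 / 50) u * u ^ (-(7 / 4) : ℝ)‖ +
      (min u 1) * u ^ (-(7 / 4) : ℝ)) (Ioi 0) := (h.1.norm).add Num2_min_int
  refine Integrable.mono' h1 (Num2_meas k).aestronglyMeasurable ?_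
  refine (ae_restrict_iff' measurableSet_Ioi).2 (Eventually.of_forall ?_)
  intro u hu
  have hu0 : 0 < u := hu
  have hp : 0 ≤ u ^ (-(7 / 4) : ℝ) := Real.rpow_nonneg hu0.le _
  have hm : 0 ≤ min u 1 := le_min hu0.le zero_le_one
  rw [Real.norm_eq_abs, Real.norm_eq_abs, abs_mul, abs_mul, abs_of_nonneg hp, ← add_mul]
  refine mul_le_mul_of_nonneg_right ?_ hp
  have a1 := Num2_lower hk hu0
  have a2 := Num2_upper hk hk' hu0
  rw [abs_le]
  constructor
  · have := abs_nonneg (Num2_h (79 / 50) u)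
    linarith
  · have := le_abs_self (Num2_h (79 / 50) u)
    linarith

theorem Num2_neg (h : ClaimNum1) {k : ℝ} (hk : k ≤ 2) (hk' : 79 / 50 ≤ k) :
    ∫ u in Ioi (0 : ℝ), Num2_h k u * u ^ (-(7 / 4) : ℝ) < 0 := by
  refine lt_of_le_of_lt ?_ h.2
  refine setIntegral_mono_on (Num2_int h hk hk') h.1 measurableSet_Ioi ?_
  intro u hu
  have hu0 : 0 < u := hu
  exact mul_le_mul_of_nonneg_right (Num2_upper hk hk' hu0) (Real.rpow_nonneg hu0.le _)

theorem Num2_radial (c : ℝ) (hc : 0 < c) :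
    ∫ r in Ioi (0 : ℝ), r * Num2_h (2 / c) (c * r ^ (-(8 / 3) : ℝ)) =
      (3 / 8) * c ^ (3 / 4 : ℝ) * ∫ u in Ioi (0 : ℝ), Num2_h (2 / c) u * u ^ (-(7 / 4) : ℝ) := by
  have e1 : ∀ r ∈ Ioi (0 : ℝ), r * Num2_h (2 / c) (c * r ^ (-(8 / 3) : ℝ)) =
      (|(-(8 / 3) : ℝ)| * r ^ ((-(8 / 3) : ℝ) - 1)) •
        ((fun y : ℝ => 3 / 8 * y ^ (-(7 / 4) : ℝ) * Num2_h (2 / c) (c * y)) (r ^ (-(8 / 3) : ℝ))) := by
    intro r hr
    have hr0 : 0 < r := hr
    have hab : |(-(8 / 3) : ℝ)| = 8 / 3 := by rw [abs_neg, abs_of_pos]; norm_num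
    have e2 : r ^ ((-(8 / 3) : ℝ) - 1) * (r ^ (-(8 / 3) : ℝ)) ^ (-(7 / 4) : ℝ) = r := by
      rw [← Real.rpow_mul hr0.le, ← Real.rpow_add hr0]
      norm_num
    simp only [smul_eq_mul]
    rw [hab]
    calc r * Num2_h (2 / c) (c * r ^ (-(8 / 3) : ℝ))
        = (r ^ ((-(8 / 3) : ℝ) - 1) * (r ^ (-(8 / 3) : ℝ)) ^ (-(7 / 4) : ℝ)) *
          Num2_h (2 / c) (c * r ^ (-(8 / 3) : ℝ)) := by rw [e2]
      _ = _ := by ring
  rw [setIntegral_congr_fun measurableSet_Ioi e1]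
  refine (integral_comp_rpow_Ioi (fun y : ℝ => 3 / 8 * y ^ (-(7 / 4) : ℝ) *
    Num2_h (2 / c) (c * y)) (p := (-(8 / 3) : ℝ)) (by norm_num)).trans ?_
  have e3 : ∀ y ∈ Ioi (0 : ℝ), 3 / 8 * y ^ (-(7 / 4) : ℝ) * Num2_h (2 / c) (c * y) =
      (3 / 8 * c ^ (7 / 4 : ℝ)) *
        ((fun u : ℝ => Num2_h (2 / c) u * u ^ (-(7 / 4) : ℝ)) (c * y)) := by
    intro y hy
    have hy0 : 0 < y := hy
    have e4 : c ^ (7 / 4 : ℝ) * (c * y) ^ (-(7 / 4) : ℝ) = y ^ (-(7 / 4) : ℝ) := by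
      rw [Real.mul_rpow hc.le hy0.le, ← mul_assoc, ← Real.rpow_add hc]
      norm_num
    simp only []
    rw [← e4]
    ring
  have e6 : ∫ y in Ioi (0 : ℝ), (fun u : ℝ => Num2_h (2 / c) u * u ^ (-(7 / 4) : ℝ)) (c * y) =
      c⁻¹ * ∫ u in Ioi (0 : ℝ), Num2_h (2 / c) u * u ^ (-(7 / 4) : ℝ) := by
    have := integral_comp_mul_left_Ioi (fun u : ℝ => Num2_h (2 / c) u * u ^ (-(7 / 4) : ℝ)) 0 hc
    rw [mul_zero, smul_eq_mul] at this
    exact this
  rw [setIntegral_congr_fun measurableSet_Ioi e3, integral_const_mul, e6]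
  have e5 : c ^ (7 / 4 : ℝ) * c⁻¹ = c ^ (3 / 4 : ℝ) := by
    rw [← Real.rpow_neg_one, ← Real.rpow_add hc]
    norm_num
  rw [← e5]
  ring

theorem claimNum2 (h : ClaimNum1) : ClaimNum2 := by
  intro t ht
  set c : ℝ := Real.sqrt (1 + t ^ 2) with hcd
  have ht2 : t ^ 2 ≤ (97 / 125) ^ 2 := by
    rw [← sq_abs t]
    exact pow_le_pow_left₀ (abs_nonneg _) ht 2
  have hc0 : 0 < c := Real.sqrt_pos.2 (by positivity)
  have hcs : c ^ 2 = 1 + t ^ 2 := Real.sq_sqrt (by positivity)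
  have hc1 : 1 ≤ c := by
    rw [hcd]
    exact Real.one_le_sqrt.2 (by nlinarith [sq_nonneg t])
  have hc2 : c ≤ 100 / 79 := by
    rw [hcd]
    exact Real.sqrt_le_iff.2 ⟨by norm_num, by nlinarith⟩
  have hk : 2 / c ≤ 2 := by
    rw [div_le_iff₀ hc0]; linarith
  have hk' : 79 / 50 ≤ 2 / c := by
    rw [le_div_iff₀ hc0]; linarith
  have e1 : ∀ z : ℂ, (((1 - ‖z‖ ^ (-(8 / 3) : ℝ)) ^ 2 + (t * ‖z‖ ^ (-(8 / 3) : ℝ)) ^ 2) ^
      (9 / 50 : ℝ) - 1) = (fun r : ℝ => Num2_h (2 / c) (c * r ^ (-(8 / 3) : ℝ))) ‖z‖ := by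
    intro z
    simp only [Num2_h]
    congr 2
    have : 2 / c * (c * ‖z‖ ^ (-(8 / 3) : ℝ)) = 2 * ‖z‖ ^ (-(8 / 3) : ℝ) := by
      field_simp
    rw [this, mul_pow c, hcs]
    ring
  rw [integral_congr_ae (Eventually.of_forall e1)]
  rw [integral_fun_norm_addHaar (volume : Measure ℂ)
    (fun r : ℝ => Num2_h (2 / c) (c * r ^ (-(8 / 3) : ℝ)))]
  have e2 : ∫ y in Ioi (0 : ℝ), y ^ (Module.finrank ℝ ℂ - 1) •
      Num2_h (2 / c) (c * y ^ (-(8 / 3) : ℝ)) = 
      ∫ r in Ioi (0 : ℝ), r * Num2_h (2 / c) (c * r ^ (-(8 / 3) : ℝ)) := by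
    simp [Complex.finrank_real_complex]
  rw [e2, Num2_radial c hc0]
  have hv : 0 < (volume : Measure ℂ).real (Metric.ball 0 1) := by
    rw [Measure.real]
    refine ENNReal.toReal_pos ?_ ?_
    · exact (Metric.measure_ball_pos volume 0 one_pos).ne'
    · exact measure_ball_lt_top.ne
  have hn := Num2_neg h hk hk'
  have h5 : 0 < c ^ (3 / 4 : ℝ) := Real.rpow_pos_of_pos hc0 _
  have h6 : (3 / 8) * c ^ (3 / 4 : ℝ) *
      ∫ u in Ioi (0 : ℝ), Num2_h (2 / c) u * u ^ (-(7 / 4) : ℝ) < 0 :=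
    mul_neg_of_pos_of_neg (by positivity) hn
  rw [Complex.finrank_real_complex, smul_eq_mul, nsmul_eq_mul]
  refine mul_neg_of_pos_of_neg (by norm_num) (mul_neg_of_pos_of_neg hv h6)

end Pool.Agent.Work.MP_440970_an

end

section

/-!
# [D3] Mellin transforms of the profiles
-/

open MeasureTheory Complex Set Filter Topology
open scoped ENNReal ComplexConjugate

namespace Pool.Agent.Work.MP_440970_an

/-! ### Differences of powers -/

/-- `M`-th backward difference of `x^b`. -/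
noncomputable def PPf_G (b : ℝ) (M : ℕ) (x : ℝ) : ℝ :=
  ∑ j ∈ Finset.range (M + 1), ((-1) ^ j * (M.choose j : ℝ)) * (x + j) ^ b

lemma PPf_G_zero (b x : ℝ) : PPf_G b 0 x = x ^ b := by
  simp [PPf_G]

lemma PPf_G_succ (b : ℝ) (M : ℕ) (x : ℝ) :
    PPf_G b (M + 1) x = PPf_G b M x - PPf_G b M (x + 1) := by
  have h1 : PPf_G b M x = ∑ j ∈ Finset.range (M + 2), ((-1) ^ j * (M.choose j : ℝ)) *
      (x + j) ^ b := by
    rw [Finset.sum_range_succ _ (M + 1), Nat.choose_succ_self]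
    simp [PPf_G]
  rw [h1, Finset.sum_range_succ' _ (M + 1)]
  unfold PPf_G
  rw [Finset.sum_range_succ' _ (M + 1)]
  have h2 : ∀ j : ℕ, ((-1) ^ (j + 1) * ((M + 1).choose (j + 1) : ℝ)) * (x + (j + 1 : ℕ)) ^ b =
      ((-1) ^ (j + 1) * (M.choose (j + 1) : ℝ)) * (x + (j + 1 : ℕ)) ^ b -
        ((-1) ^ j * (M.choose j : ℝ)) * (x + 1 + j) ^ b := by
    intro j
    rw [Nat.choose_succ_succ]
    have : x + 1 + (j : ℝ) = x + ((j + 1 : ℕ) : ℝ) := by push_cast; ring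
    rw [this]
    push_cast
    ring
  simp only [h2, Finset.sum_sub_distrib]
  simp only [Nat.choose_zero_right]
  ring

lemma PPf_hasDeriv (b : ℝ) (M : ℕ) {x : ℝ} (hx : 0 < x) :
    HasDerivAt (PPf_G b M) (b * PPf_G (b - 1) M x) x := by
  unfold PPf_G
  rw [Finset.mul_sum]
  refine HasDerivAt.fun_sum fun j _ => ?_
  have hpos : (0 : ℝ) < x + j := by positivity
  have h1 : HasDerivAt (fun y : ℝ => (y + j) ^ b) (1 * b * (x + j) ^ (b - 1)) x :=
    ((hasDerivAt_id x).add_const (j : ℝ)).rpow_const (Or.inl hpos.ne')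
  have h2 := h1.const_mul ((-1) ^ j * (M.choose j : ℝ))
  have h3 : (-1) ^ j * (M.choose j : ℝ) * (1 * b * (x + j) ^ (b - 1)) =
      b * ((-1) ^ j * (M.choose j : ℝ) * (x + j) ^ (b - 1)) := by ring
  rw [h3] at h2
  exact h2

lemma PPf_G_pos (M : ℕ) : ∀ b : ℝ, b < 0 → ∀ x : ℝ, 0 < x → 0 < PPf_G b M x := by
  induction M with
  | zero =>
    intro b _ x hx
    rw [PPf_G_zero]
    positivity
  | succ M ih =>
    intro b hb x hx
    rw [PPf_G_succ, sub_pos]
    have hanti : StrictAntiOn (PPf_G b M) (Ioi 0) := by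
      refine strictAntiOn_of_deriv_neg (convex_Ioi 0) ?_ ?_
      · intro y hy
        exact (PPf_hasDeriv b M hy).continuousAt.continuousWithinAt
      · intro y hy
        rw [interior_Ioi] at hy
        rw [(PPf_hasDeriv b M hy).deriv]
        exact mul_neg_of_neg_of_pos hb (ih (b - 1) (by linarith) y hy)
    exact hanti hx (by have : (0 : ℝ) < x + 1 := by linarith
                       exact this) (by linarith)

lemma PPf_G_neg {b : ℝ} (hb0 : 0 < b) (hb1 : b < 1) (M : ℕ) {x : ℝ} (hx : 0 < x) :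
    PPf_G b (M + 1) x < 0 := by
  rw [PPf_G_succ, sub_neg]
  have hmono : StrictMonoOn (PPf_G b M) (Ioi 0) := by
    refine strictMonoOn_of_deriv_pos (convex_Ioi 0) ?_ ?_
    · intro y hy
      exact (PPf_hasDeriv b M hy).continuousAt.continuousWithinAt
    · intro y hy
      rw [interior_Ioi] at hy
      rw [(PPf_hasDeriv b M hy).deriv]
      exact mul_pos hb0 (PPf_G_pos M (b - 1) (by linarith) y hy)
  exact hmono hx (by have : (0 : ℝ) < x + 1 := by linarith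
                     exact this) (by linarith)

/-! ### The two profiles -/

/-- The integrand of `I1`. -/
noncomputable def PPf_f (y : ℝ) : ℝ :=
  Real.exp (8 / 3 * y) * (1 + Real.exp (2 * y)) ^ (-(3 / 2) : ℝ)

/-- The integrand of `I2`. -/
noncomputable def PPf_g (y : ℝ) : ℝ :=
  Real.exp (11 / 3 * y) * (Real.exp (-3 * y) - (1 + Real.exp (2 * y)) ^ (-(3 / 2) : ℝ))

lemma PPf_integrable_exp_abs : Integrable fun y : ℝ => Real.exp (-(1 / 3 * |y|)) := by
  have h1 : IntegrableOn (fun y : ℝ => Real.exp (-(1 / 3 * |y|))) (Iic 0) := by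
    refine (integrableOn_exp_mul_Iic (a := 1 / 3) (by norm_num) 0).congr_fun ?_ measurableSet_Iic
    intro y hy
    simp only
    rw [abs_of_nonpos hy]
    congr 1
    ring
  have h2 : IntegrableOn (fun y : ℝ => Real.exp (-(1 / 3 * |y|))) (Ioi 0) := by
    refine (integrableOn_exp_mul_Ioi (a := -(1 / 3)) (by norm_num) 0).congr_fun ?_
      measurableSet_Ioi
    intro y hy
    have hy' : (0 : ℝ) < y := hy
    simp only
    rw [abs_of_pos hy']
    congr 1
    ring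
  have h3 := h1.union h2
  rwa [Iic_union_Ioi, integrableOn_univ] at h3

lemma PPf_rpow_exp (y : ℝ) : (Real.exp (2 * y)) ^ (-(3 / 2) : ℝ) = Real.exp (-3 * y) := by
  rw [← Real.exp_mul]
  congr 1
  ring

lemma PPf_rpow_le (y : ℝ) : (1 + Real.exp (2 * y)) ^ (-(3 / 2) : ℝ) ≤ Real.exp (-3 * y) := by
  rw [← PPf_rpow_exp]
  exact Real.rpow_le_rpow_of_nonpos (Real.exp_pos _) (by linarith) (by norm_num)

lemma PPf_rpow_le_one (y : ℝ) : (1 + Real.exp (2 * y)) ^ (-(3 / 2) : ℝ) ≤ 1 :=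
  Real.rpow_le_one_of_one_le_of_nonpos (by have := Real.exp_pos (2 * y); linarith) (by norm_num)

lemma PPf_f_integrable : Integrable PPf_f := by
  refine PPf_integrable_exp_abs.mono' ?_ (Eventually.of_forall fun y => ?_)
  · have : Continuous PPf_f := by
      unfold PPf_f
      refine (by fun_prop : Continuous fun y : ℝ => Real.exp (8 / 3 * y)).mul ?_
      exact (by fun_prop : Continuous fun y : ℝ => 1 + Real.exp (2 * y)).rpow_const
        fun y => Or.inl (by positivity)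
    exact this.aestronglyMeasurable
  · have h0 : 0 ≤ PPf_f y := by unfold PPf_f; positivity
    rw [Real.norm_of_nonneg h0]
    unfold PPf_f
    rcases le_total y 0 with hy | hy
    · rw [abs_of_nonpos hy]
      calc Real.exp (8 / 3 * y) * (1 + Real.exp (2 * y)) ^ (-(3 / 2) : ℝ)
          ≤ Real.exp (8 / 3 * y) * 1 :=
            mul_le_mul_of_nonneg_left (PPf_rpow_le_one y) (Real.exp_pos _).le
        _ ≤ _ := by rw [mul_one]; exact Real.exp_le_exp.2 (by linarith)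
    · rw [abs_of_nonneg hy]
      calc Real.exp (8 / 3 * y) * (1 + Real.exp (2 * y)) ^ (-(3 / 2) : ℝ)
          ≤ Real.exp (8 / 3 * y) * Real.exp (-3 * y) :=
            mul_le_mul_of_nonneg_left (PPf_rpow_le y) (Real.exp_pos _).le
        _ = Real.exp (-(1 / 3 * y)) := by rw [← Real.exp_add]; congr 1; ring
        _ ≤ _ := le_rfl

lemma PPf_lower (x : ℝ) (hx : 0 ≤ x) : 1 - 2 * x ≤ (1 + x) ^ (-(3 / 2) : ℝ) := by
  have h1 : (1 + x) ^ (-2 : ℝ) ≤ (1 + x) ^ (-(3 / 2) : ℝ) :=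
    Real.rpow_le_rpow_of_exponent_le (by linarith) (by norm_num)
  refine le_trans ?_ h1
  rw [Real.rpow_neg (by linarith)]
  have h2 : (1 + x) ^ (2 : ℝ) = (1 + x) ^ 2 := by norm_cast
  rw [h2, ← one_div, le_div_iff₀ (by positivity)]
  nlinarith [mul_nonneg hx hx, mul_nonneg (mul_nonneg hx hx) hx]

lemma PPf_g_integrable : Integrable PPf_g := by
  refine (PPf_integrable_exp_abs.const_mul 2).mono' ?_ (Eventually.of_forall fun y => ?_)
  · have : Continuous PPf_g := by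
      unfold PPf_g
      refine (by fun_prop : Continuous fun y : ℝ => Real.exp (11 / 3 * y)).mul ?_
      refine (by fun_prop : Continuous fun y : ℝ => Real.exp (-3 * y)).sub ?_
      exact (by fun_prop : Continuous fun y : ℝ => 1 + Real.exp (2 * y)).rpow_const
        fun y => Or.inl (by positivity)
    exact this.aestronglyMeasurable
  · have h0 : 0 ≤ PPf_g y := by
      unfold PPf_g
      exact mul_nonneg (Real.exp_pos _).le (sub_nonneg.2 (PPf_rpow_le y))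
    rw [Real.norm_of_nonneg h0]
    unfold PPf_g
    have hp : 0 ≤ (1 + Real.exp (2 * y)) ^ (-(3 / 2) : ℝ) := by positivity
    rcases le_total y 0 with hy | hy
    · rw [abs_of_nonpos hy]
      calc Real.exp (11 / 3 * y) * (Real.exp (-3 * y) - (1 + Real.exp (2 * y)) ^ (-(3 / 2) : ℝ))
          ≤ Real.exp (11 / 3 * y) * Real.exp (-3 * y) :=
            mul_le_mul_of_nonneg_left (by linarith) (Real.exp_pos _).le
        _ = Real.exp (2 / 3 * y) := by rw [← Real.exp_add]; congr 1; ring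
        _ ≤ Real.exp (-(1 / 3 * -y)) := Real.exp_le_exp.2 (by linarith)
        _ ≤ 2 * Real.exp (-(1 / 3 * -y)) := by have := Real.exp_pos (-(1 / 3 * -y)); linarith
    · rw [abs_of_nonneg hy]
      have e1 : (1 + Real.exp (2 * y)) ^ (-(3 / 2) : ℝ) =
          Real.exp (-3 * y) * (1 + Real.exp (-2 * y)) ^ (-(3 / 2) : ℝ) := by
        rw [← PPf_rpow_exp, ← Real.mul_rpow (Real.exp_pos _).le (by positivity)]
        congr 1
        rw [mul_add, mul_one, ← Real.exp_add, add_comm]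
        congr 1
        rw [show (2 * y + -2 * y) = 0 by ring, Real.exp_zero]
      have h3 := PPf_lower (Real.exp (-2 * y)) (Real.exp_pos _).le
      calc Real.exp (11 / 3 * y) * (Real.exp (-3 * y) - (1 + Real.exp (2 * y)) ^ (-(3 / 2) : ℝ))
          = Real.exp (11 / 3 * y) * Real.exp (-3 * y) *
              (1 - (1 + Real.exp (-2 * y)) ^ (-(3 / 2) : ℝ)) := by rw [e1]; ring
        _ ≤ Real.exp (11 / 3 * y) * Real.exp (-3 * y) * (2 * Real.exp (-2 * y)) :=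
            mul_le_mul_of_nonneg_left (by linarith) (by positivity)
        _ = 2 * Real.exp (-(4 / 3 * y)) := by
            rw [← Real.exp_add, mul_left_comm, ← Real.exp_add]; congr 2; ring
        _ ≤ 2 * Real.exp (-(1 / 3 * y)) :=
            mul_le_mul_of_nonneg_left (Real.exp_le_exp.2 (by linarith)) (by norm_num)

lemma PPf_base (s y : ℝ) (hs : 0 < s) :
    (1 + Real.exp (2 * (y - Real.log s))) ^ (-(3 / 2) : ℝ) =
      s ^ 3 * (s ^ 2 + Real.exp y ^ 2) ^ (-(3 / 2) : ℝ) := by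
  have e0 : Real.exp (2 * (y - Real.log s)) = Real.exp y ^ 2 / s ^ 2 := by
    have : (2 * (y - Real.log s)) = (y - Real.log s) + (y - Real.log s) := by ring
    rw [this, Real.exp_add, Real.exp_sub, Real.exp_log hs]
    ring
  have e1 : 1 + Real.exp y ^ 2 / s ^ 2 = (s ^ 2)⁻¹ * (s ^ 2 + Real.exp y ^ 2) := by
    field_simp
  rw [e0, e1, Real.mul_rpow (by positivity) (by positivity)]
  congr 1
  rw [Real.inv_rpow (by positivity), Real.rpow_neg (by positivity), inv_inv,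
    ← Real.rpow_natCast, ← Real.rpow_mul hs.le, ← Real.rpow_natCast]
  congr 1
  norm_num

lemma PPf_exp_shift (c s y : ℝ) (hs : 0 < s) :
    Real.exp (c * (y - Real.log s)) = Real.exp (c * y) * s ^ (-c) := by
  rw [mul_sub, sub_eq_add_neg, Real.exp_add, Real.rpow_def_of_pos hs]
  congr 2
  ring

lemma PPf_f_shift (s y : ℝ) (hs : 0 < s) :
    Real.exp (8 / 3 * y) * (s * (s ^ 2 + Real.exp y ^ 2) ^ (-(3 / 2) : ℝ)) =
      s ^ (2 / 3 : ℝ) * PPf_f (y - Real.log s) := by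
  unfold PPf_f
  rw [PPf_base s y hs, PPf_exp_shift _ s y hs]
  have e : s ^ (2 / 3 : ℝ) * (s ^ (-(8 / 3) : ℝ) * s ^ 3) = s := by
    rw [← Real.rpow_natCast, ← Real.rpow_add hs, ← Real.rpow_add hs]
    norm_num
  calc Real.exp (8 / 3 * y) * (s * (s ^ 2 + Real.exp y ^ 2) ^ (-(3 / 2) : ℝ))
      = (s ^ (2 / 3 : ℝ) * (s ^ (-(8 / 3) : ℝ) * s ^ 3)) *
          (Real.exp (8 / 3 * y) * (s ^ 2 + Real.exp y ^ 2) ^ (-(3 / 2) : ℝ)) := by rw [e]; ring
    _ = _ := by ring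

lemma PPf_g_shift (s y : ℝ) (hs : 0 < s) :
    Real.exp (11 / 3 * y) * (Real.exp (-3 * y) - (s ^ 2 + Real.exp y ^ 2) ^ (-(3 / 2) : ℝ)) =
      s ^ (2 / 3 : ℝ) * PPf_g (y - Real.log s) := by
  unfold PPf_g
  rw [PPf_base s y hs, PPf_exp_shift _ s y hs, PPf_exp_shift _ s y hs]
  have e3 : s ^ (-(-3) : ℝ) = s ^ 3 := by
    rw [neg_neg]
    norm_cast
  have e : s ^ (2 / 3 : ℝ) * (s ^ (-(11 / 3) : ℝ) * s ^ 3) = 1 := by
    rw [← Real.rpow_natCast, ← Real.rpow_add hs, ← Real.rpow_add hs]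
    norm_num
  rw [e3]
  calc Real.exp (11 / 3 * y) * (Real.exp (-3 * y) - (s ^ 2 + Real.exp y ^ 2) ^ (-(3 / 2) : ℝ))
      = (s ^ (2 / 3 : ℝ) * (s ^ (-(11 / 3) : ℝ) * s ^ 3)) * (Real.exp (11 / 3 * y) *
          (Real.exp (-3 * y) - (s ^ 2 + Real.exp y ^ 2) ^ (-(3 / 2) : ℝ))) := by rw [e, one_mul]
    _ = _ := by ring

lemma PPf_P1 (M : ℕ) : P1 M = PPf_G (2 / 3) M 1 * I1 := by
  have hI : I1 = ∫ y, PPf_f y := rfl
  unfold P1 d1
  have e : ∀ y : ℝ, Real.exp (8 / 3 * y) * ∑ j ∈ Finset.range (M + 1),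
      ((-1) ^ j * (M.choose j : ℝ)) *
        ((1 + j) * ((1 + j) ^ 2 + Real.exp y ^ 2) ^ (-(3 / 2) : ℝ)) =
      ∑ j ∈ Finset.range (M + 1), (((-1) ^ j * (M.choose j : ℝ)) * (1 + j) ^ (2 / 3 : ℝ)) *
        PPf_f (y - Real.log (1 + j)) := by
    intro y
    rw [Finset.mul_sum]
    refine Finset.sum_congr rfl fun j _ => ?_
    have := PPf_f_shift (1 + (j : ℝ)) y (by positivity)
    rw [mul_left_comm, this]
    ring
  simp only [e]
  rw [integral_finsetSum]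
  · rw [hI, PPf_G, Finset.sum_mul]
    refine Finset.sum_congr rfl fun j _ => ?_
    rw [integral_const_mul, integral_sub_right_eq_self PPf_f (Real.log (1 + (j : ℝ)))]
  · intro j _
    exact (PPf_f_integrable.comp_sub_right _).const_mul _

lemma PPf_alt (M : ℕ) (hM : M ≠ 0) :
    ∑ j ∈ Finset.range (M + 1), ((-1) ^ j * (M.choose j : ℝ)) = 0 := by
  have := Int.alternating_sum_range_choose_of_ne hM
  exact_mod_cast this

lemma PPf_P2 (M : ℕ) (hM : M ≠ 0) : P2 M = -(PPf_G (2 / 3) M 1 * I2) := by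
  have hI : I2 = ∫ y, PPf_g y := rfl
  unfold P2 d2
  have e : ∀ y : ℝ, Real.exp (8 / 3 * y) * ∑ j ∈ Finset.range (M + 1),
      ((-1) ^ j * (M.choose j : ℝ)) *
        (Real.exp y * ((1 + j) ^ 2 + Real.exp y ^ 2) ^ (-(3 / 2) : ℝ)) =
      -∑ j ∈ Finset.range (M + 1), (((-1) ^ j * (M.choose j : ℝ)) * (1 + j) ^ (2 / 3 : ℝ)) *
        PPf_g (y - Real.log (1 + j)) := by
    intro y
    have e1 : ∑ j ∈ Finset.range (M + 1), (((-1) ^ j * (M.choose j : ℝ)) *
        (1 + j) ^ (2 / 3 : ℝ)) * PPf_g (y - Real.log (1 + j)) =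
        ∑ j ∈ Finset.range (M + 1), (((-1) ^ j * (M.choose j : ℝ)) *
          (Real.exp (11 / 3 * y) * Real.exp (-3 * y)) - ((-1) ^ j * (M.choose j : ℝ)) *
          (Real.exp (11 / 3 * y) * ((1 + j) ^ 2 + Real.exp y ^ 2) ^ (-(3 / 2) : ℝ))) := by
      refine Finset.sum_congr rfl fun j _ => ?_
      have := PPf_g_shift (1 + (j : ℝ)) y (by positivity)
      rw [mul_assoc, ← this]
      ring
    rw [e1, Finset.sum_sub_distrib, ← Finset.sum_mul, PPf_alt M hM, zero_mul, zero_sub, neg_neg,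
      Finset.mul_sum]
    refine Finset.sum_congr rfl fun j _ => ?_
    have e2 : Real.exp (11 / 3 * y) = Real.exp (8 / 3 * y) * Real.exp y := by
      rw [← Real.exp_add]; congr 1; ring
    rw [e2]
    ring
  simp only [e]
  rw [integral_neg, integral_finsetSum]
  · rw [hI, PPf_G, Finset.sum_mul]
    congr 1
    refine Finset.sum_congr rfl fun j _ => ?_
    rw [integral_const_mul, integral_sub_right_eq_self PPf_g (Real.log (1 + (j : ℝ)))]
  · intro j _
    exact (PPf_g_integrable.comp_sub_right _).const_mul _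

theorem claimPP (hR : ClaimRatio) : ClaimPP := by
  intro M hM
  obtain ⟨N, rfl⟩ : ∃ N, M = N + 1 := ⟨M - 1, by omega⟩
  have h1 : PPf_G (2 / 3) (N + 1) 1 < 0 := PPf_G_neg (by norm_num) (by norm_num) N one_pos
  rw [PPf_P1, PPf_P2 _ (by omega)]
  refine ⟨mul_neg_of_neg_of_pos h1 hR.1, ?_⟩
  ring

end Pool.Agent.Work.MP_440970_an

end

section

/-!
# [B2] a partition of unity
-/

open MeasureTheory Complex Set Filter Topology
open scoped ENNReal ComplexConjugate NNReal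

namespace Pool.Agent.Work.MP_440970_an

theorem PartU_lip : ∃ D : ℝ≥0, LipschitzWith D Real.smoothTransition := by
  have hc : ContDiff ℝ 1 Real.smoothTransition := Real.smoothTransition.contDiff
  obtain ⟨D, hD⟩ := (isCompact_Icc (a := (0 : ℝ)) (b := 1)).exists_bound_of_continuousOn
    (hc.continuous_deriv le_rfl).continuousOn
  have hD' : ∀ x, ‖deriv Real.smoothTransition x‖ ≤ |D| := by
    intro x
    rcases lt_or_ge x 0 with hx | hx
    · have h : Real.smoothTransition =ᶠ[𝓝 x] fun _ => (0 : ℝ) := by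
        filter_upwards [gt_mem_nhds hx] with y hy
        exact Real.smoothTransition.zero_of_nonpos (le_of_lt hy)
      rw [h.deriv_eq]
      simp
    · rcases le_or_gt x 1 with hx1 | hx1
      · exact (hD x ⟨hx, hx1⟩).trans (le_abs_self D)
      · have h : Real.smoothTransition =ᶠ[𝓝 x] fun _ => (1 : ℝ) := by
          filter_upwards [lt_mem_nhds hx1] with y hy
          exact Real.smoothTransition.one_of_one_le (le_of_lt hy)
        rw [h.deriv_eq]
        simp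
  refine ⟨⟨|D|, abs_nonneg D⟩, ?_⟩
  refine lipschitzWith_of_nnnorm_deriv_le (hc.differentiable one_ne_zero) (fun x => ?_)
  exact hD' x

/-- `∑_{k=-n}^{n} λ(x - k)`. -/
noncomputable def PartU_L (n : ℕ) (x : ℝ) : ℝ :=
  Real.smoothTransition (x + n + 1) - Real.smoothTransition (x - n)

theorem PartU_L_abs (n : ℕ) (x : ℝ) : |PartU_L n x| ≤ 1 := by
  unfold PartU_L
  have h1 := Real.smoothTransition.nonneg (x + n + 1)
  have h2 := Real.smoothTransition.le_one (x + n + 1)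
  have h3 := Real.smoothTransition.nonneg (x - n)
  have h4 := Real.smoothTransition.le_one (x - n)
  rw [abs_le]
  constructor <;> linarith

theorem PartU_L_one (n : ℕ) (x : ℝ) (h : |x| < n) : PartU_L n x = 1 := by
  unfold PartU_L
  rw [abs_lt] at h
  rw [Real.smoothTransition.one_of_one_le (by linarith [h.1]),
    Real.smoothTransition.zero_of_nonpos (by linarith [h.2]), sub_zero]

theorem PartU_L_zero (x : ℝ) (h : 1 ≤ |x|) : PartU_L 0 x = 0 := by
  unfold PartU_L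
  rcases le_abs.1 h with h | h
  · rw [Real.smoothTransition.one_of_one_le (by simp; linarith),
      Real.smoothTransition.one_of_one_le (by simp; linarith), sub_self]
  · rw [Real.smoothTransition.zero_of_nonpos (by simp; linarith),
      Real.smoothTransition.zero_of_nonpos (by simp; linarith), sub_self]

theorem PartU_L_sum (n : ℕ) (x : ℝ) :
    ∑ k ∈ Finset.Icc (-(n : ℤ)) n, PartU_L 0 (x - k) = PartU_L n x := by
  induction n with
  | zero => simp
  | succ n ih =>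
    have h1 : Finset.Icc (-((n + 1 : ℕ) : ℤ)) ((n + 1 : ℕ) : ℤ) =
        insert (-((n + 1 : ℕ) : ℤ)) (insert ((n + 1 : ℕ) : ℤ) (Finset.Icc (-(n : ℤ)) n)) := by
      ext k
      simp only [Finset.mem_Icc, Finset.mem_insert]
      push_cast
      omega
    rw [h1, Finset.sum_insert, Finset.sum_insert, ih]
    · unfold PartU_L
      push_cast
      ring_nf
    · simp only [Finset.mem_Icc]
      push_cast
      omega
    · simp only [Finset.mem_Icc, Finset.mem_insert]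
      push_cast
      omega

theorem PartU_L_contDiff (n : ℕ) : ContDiff ℝ 1 (PartU_L n) := by
  unfold PartU_L
  have hc : ContDiff ℝ 1 Real.smoothTransition := Real.smoothTransition.contDiff
  exact (hc.comp ((contDiff_id.add contDiff_const).add contDiff_const)).sub
    (hc.comp (contDiff_id.sub contDiff_const))

theorem PartU_L_lip {D : ℝ≥0} (hD : LipschitzWith D Real.smoothTransition) (n : ℕ) (x y : ℝ) :
    |PartU_L n x - PartU_L n y| ≤ 2 * D * |x - y| := by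
  unfold PartU_L
  have h1 := hD.dist_le_mul (x + n + 1) (y + n + 1)
  have h2 := hD.dist_le_mul (x - n) (y - n)
  rw [Real.dist_eq, Real.dist_eq] at h1 h2
  rw [show x + n + 1 - (y + n + 1) = x - y by ring] at h1
  rw [show x - n - (y - n) = x - y by ring] at h2
  rw [abs_le] at h1 h2 ⊢
  constructor <;> linarith [h1.1, h1.2, h2.1, h2.2]

/-- The functions `Θ_n`. -/
noncomputable def PartU_T (n : ℕ) (z : ℂ) : ℂ := ((PartU_L n z.re * PartU_L n z.im : ℝ) : ℂ)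

theorem PartU_T_contDiff (n : ℕ) : ContDiff ℝ 1 (PartU_T n) := by
  unfold PartU_T
  refine Complex.ofRealCLM.contDiff.comp ?_
  exact ((PartU_L_contDiff n).comp Complex.reCLM.contDiff).mul
    ((PartU_L_contDiff n).comp Complex.imCLM.contDiff)

theorem PartU_T_norm (n : ℕ) (z : ℂ) : ‖PartU_T n z‖ ≤ 1 := by
  unfold PartU_T
  rw [Complex.norm_real, Real.norm_eq_abs, abs_mul]
  exact mul_le_one₀ (PartU_L_abs n _) (abs_nonneg _) (PartU_L_abs n _)

theorem PartU_T_fderiv {D : ℝ≥0} (hD : LipschitzWith D Real.smoothTransition) (n : ℕ) (z : ℂ) :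
    ‖fderiv ℝ (PartU_T n) z‖ ≤ (4 * D : ℝ≥0) := by
  refine norm_fderiv_le_of_lipschitz ℝ (LipschitzWith.of_dist_le_mul fun z w => ?_)
  rw [dist_eq_norm, dist_eq_norm]
  unfold PartU_T
  rw [← Complex.ofReal_sub, Complex.norm_real, Real.norm_eq_abs]
  have e : PartU_L n z.re * PartU_L n z.im - PartU_L n w.re * PartU_L n w.im =
      (PartU_L n z.re - PartU_L n w.re) * PartU_L n z.im +
        PartU_L n w.re * (PartU_L n z.im - PartU_L n w.im) := by ring
  rw [e]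
  have h1 := PartU_L_lip hD n z.re w.re
  have h2 := PartU_L_lip hD n z.im w.im
  have h3 := PartU_L_abs n z.im
  have h4 := PartU_L_abs n w.re
  have h5 : |z.re - w.re| ≤ ‖z - w‖ := by
    rw [← Complex.sub_re]; exact Complex.abs_re_le_norm _
  have h6 : |z.im - w.im| ≤ ‖z - w‖ := by
    rw [← Complex.sub_im]; exact Complex.abs_im_le_norm _
  have hD0 : (0 : ℝ) ≤ D := D.coe_nonneg
  calc |(PartU_L n z.re - PartU_L n w.re) * PartU_L n z.im +
        PartU_L n w.re * (PartU_L n z.im - PartU_L n w.im)|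
      ≤ |PartU_L n z.re - PartU_L n w.re| * |PartU_L n z.im| +
        |PartU_L n w.re| * |PartU_L n z.im - PartU_L n w.im| := by
        refine (abs_add_le _ _).trans ?_
        rw [abs_mul, abs_mul]
    _ ≤ (2 * D * ‖z - w‖) * 1 + 1 * (2 * D * ‖z - w‖) := by
        have a1 := h1.trans (mul_le_mul_of_nonneg_left h5 (by positivity : (0 : ℝ) ≤ 2 * D))
        have a2 := h2.trans (mul_le_mul_of_nonneg_left h6 (by positivity : (0 : ℝ) ≤ 2 * D))
        exact add_le_add (mul_le_mul a1 h3 (abs_nonneg _) (by positivity))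
          (mul_le_mul h4 a2 (abs_nonneg _) zero_le_one)
    _ = ((4 * D : ℝ≥0) : ℝ) * ‖z - w‖ := by
        push_cast
        ring

/-- [B2] a partition of unity -/
theorem claimPart : ClaimPart := by
  obtain ⟨D, hD⟩ := PartU_lip
  refine ⟨PartU_T 0, PartU_T_contDiff 0, PartU_T_norm 0, ⟨_, PartU_T_fderiv hD 0⟩, ?_, PartU_T,
    ?_, PartU_T_contDiff, PartU_T_norm, ⟨_, PartU_T_fderiv hD⟩, ?_⟩
  · intro z hz
    unfold PartU_T
    by_cases h : 1 ≤ |z.re|
    · rw [PartU_L_zero _ h, zero_mul, Complex.ofReal_zero]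
    · have h2 : 1 ≤ |z.im| := by
        have := Complex.norm_le_abs_re_add_abs_im z
        push Not at h
        linarith
      rw [PartU_L_zero _ h2, mul_zero, Complex.ofReal_zero]
  · intro n z
    unfold PartU_T
    rw [Finset.sum_product]
    have e : ∀ k l : ℤ, (((PartU_L 0 (z - ((k : ℂ) + l * I)).re *
        PartU_L 0 (z - ((k : ℂ) + l * I)).im : ℝ)) : ℂ) =
        ((PartU_L 0 (z.re - k) : ℝ) : ℂ) * ((PartU_L 0 (z.im - l) : ℝ) : ℂ) := by
      intro k l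
      rw [Complex.ofReal_mul]
      simp
    simp only [e]
    rw [Complex.ofReal_mul, ← PartU_L_sum n z.re, ← PartU_L_sum n z.im, Complex.ofReal_sum,
      Complex.ofReal_sum, Finset.sum_mul_sum]
  · intro n z hz
    unfold PartU_T
    rw [PartU_L_one n _ ((Complex.abs_re_le_norm z).trans_lt hz),
      PartU_L_one n _ ((Complex.abs_im_le_norm z).trans_lt hz)]
    simp

end Pool.Agent.Work.MP_440970_an

end

section

/-!
# [A4] integration by parts on `ℂ`, weakly singular integral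
-/

open MeasureTheory Complex Set Filter Topology
open scoped ENNReal ComplexConjugate ContDiff

namespace Pool.Agent.Work.MP_440970_an

theorem Parts_dbar2_mul (u v : ℂ → ℂ) (a : ℂ) (hu : DifferentiableAt ℝ u a)
    (hv : DifferentiableAt ℝ v a) :
    dbar2 (fun x => u x * v x) a = dbar2 u a * v a + u a * dbar2 v a := by
  unfold dbar2
  have h : fderiv ℝ (fun x => u x * v x) a = u a • fderiv ℝ v a + v a • fderiv ℝ u a :=
    fderiv_mul hu hv
  rw [h]
  simp only [add_apply, smul_apply, smul_eq_mul]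
  ring

theorem Parts_cont (u : ℂ → ℂ) (hu : ContDiff ℝ 1 u) (w : ℂ) :
    Continuous (fun a => fderiv ℝ u a w) :=
  (hu.continuous_fderiv (by simp)).clm_apply continuous_const

theorem Parts_dbar2_cont (u : ℂ → ℂ) (hu : ContDiff ℝ 1 u) : Continuous (dbar2 u) :=
  (Parts_cont u hu 1).add (continuous_const.mul (Parts_cont u hu I))

theorem Parts_cut (t w : ℂ → ℂ) (ht : ContDiff ℝ 1 t) (hw : ContDiff ℝ 1 w)
    (hc : HasCompactSupport t) :
    ∫ a, t a * dbar2 w a = - ∫ a, dbar2 t a * w a := by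
  have h0 : ∀ e : ℂ, Integrable (fun a => t a * fderiv ℝ w a e) := fun e =>
    (ht.continuous.mul (Parts_cont w hw e)).integrable_of_hasCompactSupport (hc.mul_right)
  have hc' : ∀ e : ℂ, HasCompactSupport (fun a => fderiv ℝ t a e) := fun e =>
    hc.fderiv_apply (𝕜 := ℝ) e
  have h1 : ∀ e : ℂ, Integrable (fun a => fderiv ℝ t a e * w a) := fun e =>
    ((Parts_cont t ht e).mul hw.continuous).integrable_of_hasCompactSupport ((hc' e).mul_right)
  have h2 : Integrable (fun a => t a * w a) :=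
    (ht.continuous.mul hw.continuous).integrable_of_hasCompactSupport (hc.mul_right)
  have h3 : ∀ e : ℂ, ∫ a, t a * fderiv ℝ w a e = - ∫ a, fderiv ℝ t a e * w a := fun e =>
    integral_mul_fderiv_eq_neg_fderiv_mul_of_integrable (h1 e) (h0 e) h2
      (fun x _ => ht.differentiable (by simp) x) (fun x _ => hw.differentiable (by simp) x)
  have h4 : ∀ a, t a * dbar2 w a = t a * fderiv ℝ w a 1 + I * (t a * fderiv ℝ w a I) := by
    intro a
    unfold dbar2
    ring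
  have h5 : ∀ a, dbar2 t a * w a = fderiv ℝ t a 1 * w a + I * (fderiv ℝ t a I * w a) := by
    intro a
    unfold dbar2
    ring
  simp only [h4, h5]
  rw [integral_add (h0 1) ((h0 I).const_mul I), integral_add (h1 1) ((h1 I).const_mul I),
    integral_const_mul, integral_const_mul, h3, h3]
  ring

/-- the integral of a `dbar` derivative is zero -/
theorem Parts_zero (w : ℂ → ℂ) (hw : ContDiff ℝ 1 w) (h1 : Integrable w)
    (h2 : Integrable (dbar2 w)) : ∫ a, dbar2 w a = 0 := by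
  let b : ContDiffBump (0 : ℂ) := ⟨1, 2, by norm_num, by norm_num⟩
  have hbs : ContDiff ℝ ∞ (b : ℂ → ℝ) := b.contDiff
  let t : ℕ → ℂ → ℂ := fun n a => ((b (((n : ℝ) + 1)⁻¹ • a) : ℝ) : ℂ)
  have hbC : ContDiff ℝ 1 (fun a : ℂ => ((b a : ℝ) : ℂ)) :=
    Complex.ofRealCLM.contDiff.comp (hbs.of_le (by simp))
  have hbcs : HasCompactSupport (fun a : ℂ => ((b a : ℝ) : ℂ)) :=
    b.hasCompactSupport.comp_left (g := fun r : ℝ => (r : ℂ)) (by simp)
  obtain ⟨C, hC⟩ := (hbC.continuous_fderiv (by simp)).bounded_above_of_compact_support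
    (hbcs.fderiv (𝕜 := ℝ))
  have hC0 : 0 ≤ C := (norm_nonneg _).trans (hC 0)
  have hpos : ∀ n : ℕ, (0 : ℝ) < (n : ℝ) + 1 := fun n => by positivity
  have ht1 : ∀ n, ContDiff ℝ 1 (t n) := fun n => hbC.comp (contDiff_const_smul _)
  have ht2 : ∀ n, HasCompactSupport (t n) := by
    intro n
    exact hbcs.comp_smul (inv_ne_zero (hpos n).ne')
  have ht3 : ∀ n a, fderiv ℝ (t n) a = ((n : ℝ) + 1)⁻¹ •
      fderiv ℝ (fun a : ℂ => ((b a : ℝ) : ℂ)) (((n : ℝ) + 1)⁻¹ • a) := by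
    intro n a
    exact fderiv_comp_smul (f := fun a : ℂ => ((b a : ℝ) : ℂ)) _
  have ht4 : ∀ n a, ‖dbar2 (t n) a‖ ≤ 2 * C * ((n : ℝ) + 1)⁻¹ := by
    intro n a
    have h5 : ∀ e : ℂ, ‖e‖ = 1 → ‖fderiv ℝ (t n) a e‖ ≤ C * ((n : ℝ) + 1)⁻¹ := by
      intro e he
      refine (ContinuousLinearMap.le_opNorm _ _).trans ?_
      rw [he, mul_one, ht3, norm_smul, Real.norm_of_nonneg (inv_nonneg.mpr (hpos n).le), mul_comm]
      exact mul_le_mul_of_nonneg_right (hC _) (inv_nonneg.mpr (hpos n).le)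
    unfold dbar2
    calc ‖fderiv ℝ (t n) a 1 + I * fderiv ℝ (t n) a I‖
        ≤ ‖fderiv ℝ (t n) a 1‖ + ‖I * fderiv ℝ (t n) a I‖ := norm_add_le _ _
      _ ≤ C * ((n : ℝ) + 1)⁻¹ + C * ((n : ℝ) + 1)⁻¹ := by
          refine add_le_add (h5 1 norm_one) ?_
          rw [norm_mul, norm_I, one_mul]
          exact h5 I norm_I
      _ = _ := by ring
  have ht5 : ∀ n a, ‖t n a‖ ≤ 1 := by
    intro n a
    show ‖((b (((n : ℝ) + 1)⁻¹ • a) : ℝ) : ℂ)‖ ≤ 1
    rw [Complex.norm_real, Real.norm_of_nonneg b.nonneg]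
    exact b.le_one
  have ht6 : ∀ a, ∀ᶠ n in atTop, t n a = 1 := by
    intro a
    filter_upwards [eventually_ge_atTop ⌈‖a‖⌉₊] with n hn
    show ((b (((n : ℝ) + 1)⁻¹ • a) : ℝ) : ℂ) = 1
    rw [b.one_of_mem_closedBall, Complex.ofReal_one]
    rw [mem_closedBall_zero_iff, norm_smul, Real.norm_of_nonneg (inv_nonneg.mpr (hpos n).le),
      inv_mul_le_iff₀ (hpos n)]
    have := (Nat.le_ceil ‖a‖).trans (Nat.cast_le.mpr hn)
    show ‖a‖ ≤ (n + 1) * 1
    linarith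
  have l1 : Tendsto (fun n => ∫ a, t n a * dbar2 w a) atTop (𝓝 (∫ a, dbar2 w a)) := by
    refine tendsto_integral_of_dominated_convergence (fun a => ‖dbar2 w a‖)
      (fun n => ((ht1 n).continuous.mul (Parts_dbar2_cont w hw)).aestronglyMeasurable)
      h2.norm (fun n => Eventually.of_forall fun a => ?_) (Eventually.of_forall fun a => ?_)
    · rw [norm_mul]
      exact mul_le_of_le_one_left (norm_nonneg _) (ht5 n a)
    · refine tendsto_const_nhds.congr' ?_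
      filter_upwards [ht6 a] with n hn
      rw [hn, one_mul]
  have l2 : Tendsto (fun n => ∫ a, t n a * dbar2 w a) atTop (𝓝 0) := by
    rw [tendsto_zero_iff_norm_tendsto_zero]
    have hz : Tendsto (fun n : ℕ => (2 * C * ∫ a, ‖w a‖) * ((n : ℝ) + 1)⁻¹) atTop (𝓝 0) := by
      have := (tendsto_one_div_add_atTop_nhds_zero_nat (𝕜 := ℝ)).const_mul (2 * C * ∫ a, ‖w a‖)
      simpa using this
    refine squeeze_zero (fun n => norm_nonneg _) (fun n => ?_) hz
    rw [Parts_cut (t n) w (ht1 n) hw (ht2 n), norm_neg]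
    refine (norm_integral_le_integral_norm _).trans ?_
    have e1 : 2 * C * (∫ a, ‖w a‖) * ((n : ℝ) + 1)⁻¹ =
        ∫ a, 2 * C * ((n : ℝ) + 1)⁻¹ * ‖w a‖ := by
      rw [integral_const_mul]
      ring
    rw [e1]
    refine integral_mono_of_nonneg (Eventually.of_forall fun a => norm_nonneg _)
      (h1.norm.const_mul _) (Eventually.of_forall fun a => ?_)
    show ‖dbar2 (t n) a * w a‖ ≤ _
    rw [norm_mul]
    exact mul_le_mul_of_nonneg_right (ht4 n a) (norm_nonneg _)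
  exact tendsto_nhds_unique l1 l2

theorem claimParts : ClaimParts := by
  intro u v hu hv h1 h2 h3
  have e : ∀ a, dbar2 (fun x => u x * v x) a = dbar2 u a * v a + u a * dbar2 v a := fun a =>
    Parts_dbar2_mul u v a (hu.differentiable (by simp) a) (hv.differentiable (by simp) a)
  have h4 : Integrable (dbar2 fun x => u x * v x) := (h2.add h3).congr
    (Eventually.of_forall fun a => (e a).symm)
  have h5 := Parts_zero (fun x => u x * v x) (hu.mul hv) h1 h4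
  simp only [e] at h5
  rw [integral_add h2 h3] at h5
  exact eq_neg_of_add_eq_zero_left h5

/-- the singular part -/
theorem Parts_sing_int :
    Integrable (fun a : ℂ => (indicator (Iio (1 : ℝ)) (fun r => r⁻¹)) ‖a‖) := by
  rw [integrable_fun_norm_addHaar (μ := (volume : Measure ℂ))
    (f := indicator (Iio (1 : ℝ)) (fun r => r⁻¹))]
  have h1 : IntegrableOn (fun _ : ℝ => (1 : ℝ)) (Ioo (0 : ℝ) 1) := by
    simp
  have h2 : IntegrableOn (indicator (Ioo (0 : ℝ) 1) fun _ : ℝ => (1 : ℝ)) (Ioi (0 : ℝ)) :=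
    (h1.integrable_indicator measurableSet_Ioo).integrableOn
  refine h2.congr_fun (fun y hy => ?_) measurableSet_Ioi
  have hy' : (0 : ℝ) < y := hy
  by_cases h : y < 1
  · rw [indicator_of_mem (show y ∈ Ioo (0 : ℝ) 1 from ⟨hy, h⟩)]
    simp only [smul_eq_mul]
    rw [indicator_of_mem (show y ∈ Iio (1 : ℝ) from h)]
    rw [Complex.finrank_real_complex]
    norm_num
    rw [mul_inv_cancel₀ hy'.ne']
  · rw [indicator_of_notMem (fun h' => h h'.2)]
    simp only [smul_eq_mul]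
    rw [indicator_of_notMem (show y ∉ Iio (1 : ℝ) from h), mul_zero]

theorem claimSing : ClaimSing := by
  have i1 := Parts_sing_int
  have i2 : Integrable (fun a : ℂ => (1 + ‖a‖) ^ (-(3 : ℝ))) := by
    refine integrable_one_add_norm ?_
    rw [Complex.finrank_real_complex]
    norm_num
  have i1z : ∀ z : ℂ, Integrable (fun a : ℂ => (indicator (Iio (1 : ℝ)) (fun r => r⁻¹)) ‖z - a‖) :=
    fun z => i1.comp_sub_left z
  have ub : ∀ z a : ℂ, ‖z - a‖⁻¹ * (1 + ‖a‖) ^ (-(3 : ℝ)) ≤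
      (indicator (Iio (1 : ℝ)) (fun r => r⁻¹)) ‖z - a‖ + (1 + ‖a‖) ^ (-(3 : ℝ)) := by
    intro z a
    have p1 : (0 : ℝ) ≤ (1 + ‖a‖) ^ (-(3 : ℝ)) := Real.rpow_nonneg (by positivity) _
    have p2 : (1 + ‖a‖) ^ (-(3 : ℝ)) ≤ 1 :=
      Real.rpow_le_one_of_one_le_of_nonpos (by linarith [norm_nonneg a]) (by norm_num)
    by_cases h : ‖z - a‖ < 1
    · rw [indicator_of_mem (show ‖z - a‖ ∈ Iio (1 : ℝ) from h)]
      have := mul_le_of_le_one_right (inv_nonneg.mpr (norm_nonneg (z - a))) p2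
      linarith
    · rw [indicator_of_notMem (show ‖z - a‖ ∉ Iio (1 : ℝ) from h), zero_add]
      push Not at h
      exact mul_le_of_le_one_left p1 (inv_le_one_of_one_le₀ h)
  refine ⟨(∫ a : ℂ, (indicator (Iio (1 : ℝ)) (fun r => r⁻¹)) ‖a‖) +
    (∫ a : ℂ, (1 + ‖a‖) ^ (-(3 : ℝ))) + 1, ?_, fun z => ?_⟩
  · have q1 : 0 ≤ ∫ a : ℂ, (indicator (Iio (1 : ℝ)) (fun r => r⁻¹)) ‖a‖ := by
      refine integral_nonneg fun a => ?_
      by_cases h : ‖a‖ < 1
      · show 0 ≤ (indicator (Iio (1 : ℝ)) (fun r => r⁻¹)) ‖a‖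
        rw [indicator_of_mem (show ‖a‖ ∈ Iio (1 : ℝ) from h)]
        positivity
      · show 0 ≤ (indicator (Iio (1 : ℝ)) (fun r => r⁻¹)) ‖a‖
        rw [indicator_of_notMem (show ‖a‖ ∉ Iio (1 : ℝ) from h)]
    have q2 : 0 ≤ ∫ a : ℂ, (1 + ‖a‖) ^ (-(3 : ℝ)) :=
      integral_nonneg fun a => Real.rpow_nonneg (by positivity) _
    linarith
  · have hI : Integrable (fun a : ℂ => ‖z - a‖⁻¹ * (1 + ‖a‖) ^ (-(3 : ℝ))) := by
      refine ((i1z z).add i2).mono' ?_ (Eventually.of_forall fun a => ?_)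
      · exact (by fun_prop : Measurable (fun a : ℂ =>
          ‖z - a‖⁻¹ * (1 + ‖a‖) ^ (-(3 : ℝ)))).aestronglyMeasurable
      · rw [Real.norm_of_nonneg (mul_nonneg (inv_nonneg.mpr (norm_nonneg _))
          (Real.rpow_nonneg (by positivity) _))]
        exact ub z a
    refine ⟨hI, ?_⟩
    have h1 := integral_mono hI ((i1z z).add i2) (ub z)
    have h2 : ∫ a : ℂ, ((indicator (Iio (1 : ℝ)) (fun r => r⁻¹)) ‖z - a‖ +
        (1 + ‖a‖) ^ (-(3 : ℝ))) = (∫ a : ℂ, (indicator (Iio (1 : ℝ)) (fun r => r⁻¹)) ‖z - a‖) +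
          ∫ a : ℂ, (1 + ‖a‖) ^ (-(3 : ℝ)) := integral_add (i1z z) i2
    have h3 : ∫ a : ℂ, (indicator (Iio (1 : ℝ)) (fun r => r⁻¹)) ‖z - a‖ =
        ∫ a : ℂ, (indicator (Iio (1 : ℝ)) (fun r => r⁻¹)) ‖a‖ :=
      integral_sub_left_eq_self (fun a : ℂ => (indicator (Iio (1 : ℝ)) (fun r => r⁻¹)) ‖a‖) _ z
    have h4 : (∫ a : ℂ, ‖z - a‖⁻¹ * (1 + ‖a‖) ^ (-(3 : ℝ))) ≤
        ∫ a : ℂ, ((indicator (Iio (1 : ℝ)) (fun r => r⁻¹)) ‖z - a‖ +
          (1 + ‖a‖) ^ (-(3 : ℝ))) := h1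
    rw [h2, h3] at h4
    linarith

end Pool.Agent.Work.MP_440970_an

end

section

/-!
# Item A2: growth of polynomials
-/

open MeasureTheory Complex Set Filter Topology
open scoped ENNReal ComplexConjugate

namespace Pool.Agent.Work.MP_440970_an

/-- The monomials. -/
noncomputable def PolB_mon (i j : ℕ) (a : ℂ) : ℂ := a ^ i * conj a ^ j

theorem PolB_contDiff (i j : ℕ) : ContDiff ℝ 1 (PolB_mon i j) := by
  unfold PolB_mon
  exact (contDiff_id.pow i).mul (Complex.conjCLE.contDiff.pow j)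

theorem PolB_norm (i j : ℕ) (a : ℂ) : ‖PolB_mon i j a‖ = ‖a‖ ^ (i + j) := by
  unfold PolB_mon
  rw [norm_mul, norm_pow, norm_pow, RCLike.norm_conj, pow_add]

theorem PolB_hasFDerivAt (i j : ℕ) (a : ℂ) : ∃ D : ℂ →L[ℝ] ℂ, HasFDerivAt (PolB_mon i j) D a ∧
    ∀ v, D v = a ^ i * (j * (conj a) ^ (j - 1) * conj v) + conj a ^ j * (i * a ^ (i - 1) * v) := by
  have h1 : HasFDerivAt (fun a : ℂ => a ^ i) ((i * a ^ (i - 1)) • (1 : ℂ →L[ℝ] ℂ)) a :=
    (hasDerivAt_pow i a).complexToReal_fderiv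
  have h2 : HasFDerivAt (fun a : ℂ => (conj a) ^ j)
      (((j * (conj a) ^ (j - 1)) • (1 : ℂ →L[ℝ] ℂ)).comp (Complex.conjCLE : ℂ →L[ℝ] ℂ)) a := by
    have h3 : HasFDerivAt (fun a : ℂ => a ^ j) ((j * (conj a) ^ (j - 1)) • (1 : ℂ →L[ℝ] ℂ))
      (conj a) := (hasDerivAt_pow j (conj a)).complexToReal_fderiv
    exact HasFDerivAt.comp a (f := fun a : ℂ => conj a) (g := fun a : ℂ => a ^ j) h3
      (Complex.conjCLE : ℂ →L[ℝ] ℂ).hasFDerivAt
  refine ⟨_, h1.mul h2, fun v => ?_⟩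
  simp

theorem PolB_fderiv (i j m : ℕ) (hi : i ≤ m) (hj : j ≤ m) (a : ℂ) :
    ‖fderiv ℝ (PolB_mon i j) a‖ ≤ (2 * m) * (1 + ‖a‖) ^ (2 * m) := by
  obtain ⟨D, hD, hv⟩ := PolB_hasFDerivAt i j a
  rw [hD.fderiv]
  have h0 : 0 ≤ ‖a‖ := norm_nonneg a
  have h1 : (1 : ℝ) ≤ 1 + ‖a‖ := by linarith
  have key : ∀ s t : ℕ, s + t ≤ 2 * m → ‖a‖ ^ s * ‖a‖ ^ t ≤ (1 + ‖a‖) ^ (2 * m) := by
    intro s t hst
    rw [← pow_add]
    exact (pow_le_pow_left₀ h0 (by linarith) _).trans (pow_le_pow_right₀ h1 hst)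
  refine ContinuousLinearMap.opNorm_le_bound _ (by positivity) fun v => ?_
  rw [hv]
  refine (norm_add_le _ _).trans ?_
  rw [norm_mul, norm_mul, norm_mul, norm_mul, norm_mul, norm_mul, norm_pow, norm_pow, norm_pow,
    norm_pow, RCLike.norm_conj, RCLike.norm_conj, Complex.norm_natCast, Complex.norm_natCast]
  have e1 : ‖a‖ ^ i * (j * ‖a‖ ^ (j - 1) * ‖v‖) ≤ m * (1 + ‖a‖) ^ (2 * m) * ‖v‖ := by
    calc ‖a‖ ^ i * (j * ‖a‖ ^ (j - 1) * ‖v‖) = j * (‖a‖ ^ i * ‖a‖ ^ (j - 1)) * ‖v‖ := by ring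
      _ ≤ m * (1 + ‖a‖) ^ (2 * m) * ‖v‖ := by
        refine mul_le_mul_of_nonneg_right ?_ (norm_nonneg v)
        exact mul_le_mul (by exact_mod_cast hj) (key _ _ (by omega)) (by positivity)
          (by positivity)
  have e2 : ‖a‖ ^ j * (i * ‖a‖ ^ (i - 1) * ‖v‖) ≤ m * (1 + ‖a‖) ^ (2 * m) * ‖v‖ := by
    calc ‖a‖ ^ j * (i * ‖a‖ ^ (i - 1) * ‖v‖) = i * (‖a‖ ^ j * ‖a‖ ^ (i - 1)) * ‖v‖ := by ring
      _ ≤ m * (1 + ‖a‖) ^ (2 * m) * ‖v‖ := by
        refine mul_le_mul_of_nonneg_right ?_ (norm_nonneg v)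
        exact mul_le_mul (by exact_mod_cast hi) (key _ _ (by omega)) (by positivity)
          (by positivity)
  linarith

/-- Item A2. -/
theorem claimPol : ClaimPol := by
  intro m P hP
  unfold Pol at hP
  induction hP using Submodule.span_induction with
  | mem P hP =>
    obtain ⟨⟨i, j⟩, rfl⟩ := hP
    have hi : (i : ℕ) ≤ m := by omega
    have hj : (j : ℕ) ≤ m := by omega
    refine ⟨PolB_contDiff i j, ⟨1, fun a => ?_⟩, ⟨2 * m, fun a => PolB_fderiv i j m hi hj a⟩⟩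
    have h0 : 0 ≤ ‖a‖ := norm_nonneg a
    have h1 := PolB_norm i j a
    unfold PolB_mon at h1
    simp only
    rw [h1, one_mul]
    exact (pow_le_pow_left₀ h0 (by linarith) _).trans (pow_le_pow_right₀ (by linarith) (by omega))
  | zero =>
    refine ⟨contDiff_const, ⟨0, fun a => by simp⟩, ⟨0, fun a => ?_⟩⟩
    have : (0 : ℂ → ℂ) = fun _ => 0 := rfl
    rw [this, fderiv_const_apply]
    simp
  | add P Q _ _ hP hQ =>
    obtain ⟨c1, ⟨C1, h1⟩, ⟨C1', h1'⟩⟩ := hP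
    obtain ⟨c2, ⟨C2, h2⟩, ⟨C2', h2'⟩⟩ := hQ
    refine ⟨c1.add c2, ⟨C1 + C2, fun a => ?_⟩, ⟨C1' + C2', fun a => ?_⟩⟩
    · rw [add_mul]
      exact (norm_add_le _ _).trans (add_le_add (h1 a) (h2 a))
    · rw [add_mul, fderiv_add (c1.differentiable one_ne_zero a) (c2.differentiable one_ne_zero a)]
      exact (norm_add_le _ _).trans (add_le_add (h1' a) (h2' a))
  | smul c P _ hP =>
    obtain ⟨c1, ⟨C1, h1⟩, ⟨C1', h1'⟩⟩ := hP
    refine ⟨c1.const_smul c, ⟨‖c‖ * C1, fun a => ?_⟩, ⟨‖c‖ * C1', fun a => ?_⟩⟩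
    · rw [Pi.smul_apply, norm_smul, mul_assoc]
      exact mul_le_mul_of_nonneg_left (h1 a) (norm_nonneg _)
    · rw [fderiv_const_smul (c1.differentiable one_ne_zero a), mul_assoc]
      exact (norm_smul_le _ _).trans (mul_le_mul_of_nonneg_left (h1' a) (norm_nonneg _))

/-- Item A2, dilations. -/
theorem claimPolDil : ClaimPolDil := by
  intro m P hP c
  unfold Pol at hP ⊢
  induction hP using Submodule.span_induction with
  | mem P hP =>
    obtain ⟨⟨i, j⟩, rfl⟩ := hP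
    have : (fun a : ℂ => (fun a : ℂ => a ^ (i : ℕ) * conj a ^ (j : ℕ)) (c * a)) =
        (c ^ (i : ℕ) * conj c ^ (j : ℕ)) • fun a : ℂ => a ^ (i : ℕ) * conj a ^ (j : ℕ) := by
      funext a
      simp only [Pi.smul_apply, smul_eq_mul, map_mul]
      ring
    rw [this]
    exact Submodule.smul_mem _ _ (Submodule.subset_span ⟨(i, j), rfl⟩)
  | zero => exact Submodule.zero_mem _
  | add P Q _ _ hP hQ => exact Submodule.add_mem _ hP hQ
  | smul d P _ hP => exact Submodule.smul_mem _ d hP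

end Pool.Agent.Work.MP_440970_an

end

section

/-!
# Item C1: the Newtonian potential of the Poisson kernel
`|z-a|⁻¹ (s²+|a|²)^{-3/2} = (4/π) ∫₀^∞ (s²+|a|²+x²|z-a|²)^{-2} dx`, Tonelli, and completing the
square.
-/

open MeasureTheory Set Filter Topology
open scoped ENNReal ComplexConjugate

namespace Pool.Agent.Work.MP_440970_an

theorem Pot_ftc {f f' : ℝ → ℝ} {m : ℝ} (hd : ∀ x, HasDerivAt f (f' x) x)
    (hpos : ∀ x ∈ Ioi (0 : ℝ), 0 ≤ f' x) (ht : Tendsto f atTop (𝓝 m)) :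
    ∫⁻ x in Ioi (0 : ℝ), ENNReal.ofReal (f' x) = ENNReal.ofReal (m - f 0) := by
  have h1 : IntegrableOn f' (Ioi 0) :=
    integrableOn_Ioi_deriv_of_nonneg' (fun x _ => hd x) hpos ht
  have h2 : ∫ x in Ioi (0 : ℝ), f' x = m - f 0 :=
    integral_Ioi_of_hasDerivAt_of_nonneg' (fun x _ => hd x) hpos ht
  rw [← h2, ofReal_integral_eq_lintegral_ofReal h1]
  exact (ae_restrict_iff' measurableSet_Ioi).2 (Eventually.of_forall fun x hx => hpos x hx)

theorem Pot_arctan {c : ℝ} (hc : 0 < c) :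
    Tendsto (fun x : ℝ => Real.arctan (c * x)) atTop (𝓝 (Real.pi / 2)) := by
  have h1 : Tendsto (fun x : ℝ => c * x) atTop atTop := tendsto_id.const_mul_atTop hc
  exact (Real.tendsto_arctan_atTop.mono_right nhdsWithin_le_nhds).comp h1

/-- `∫₀^∞ dx / (s² + t² x²) = π / (2 s t)`. -/
theorem Pot_int3 {s t : ℝ} (hs : 0 < s) (ht : 0 < t) :
    ∫⁻ x in Ioi (0 : ℝ), ENNReal.ofReal (1 / (s ^ 2 + t ^ 2 * x ^ 2)) =
      ENNReal.ofReal (Real.pi / (2 * s * t)) := by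
  have hc : 0 < t / s := div_pos ht hs
  have h := Pot_ftc (f := fun x => Real.arctan (t / s * x) / (s * t))
    (f' := fun x => 1 / (s ^ 2 + t ^ 2 * x ^ 2)) (m := Real.pi / 2 / (s * t)) ?_ ?_ ?_
  · rw [h]
    congr 1
    simp only [mul_zero, Real.arctan_zero, zero_div, sub_zero]
    field_simp
  · intro x
    have h1 : HasDerivAt (fun x : ℝ => t / s * x) (t / s) x := by
      simpa using (hasDerivAt_id x).const_mul (t / s)
    have h2 := (h1.arctan).div_const (s * t)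
    refine h2.congr_deriv ?_
    have : 0 < s ^ 2 + t ^ 2 * x ^ 2 := by positivity
    have h8 : 1 + (t / s * x) ^ 2 = (s ^ 2 + t ^ 2 * x ^ 2) / s ^ 2 := by field_simp
    rw [h8]
    field_simp
  · intro x _
    positivity
  · exact (Pot_arctan hc).div_const _

/-- `∫₀^∞ dx / (A² + B² x²)² = π / (4 A³ B)`. -/
theorem Pot_int1 {A B : ℝ} (hA : 0 < A) (hB : 0 < B) :
    ∫⁻ x in Ioi (0 : ℝ), ENNReal.ofReal (1 / (A ^ 2 + B ^ 2 * x ^ 2) ^ 2) =
      ENNReal.ofReal (Real.pi / (4 * A ^ 3 * B)) := by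
  have hc : 0 < B / A := div_pos hB hA
  have h := Pot_ftc (f := fun x => x / (2 * A ^ 2 * (A ^ 2 + B ^ 2 * x ^ 2)) +
      Real.arctan (B / A * x) / (2 * A ^ 3 * B))
    (f' := fun x => 1 / (A ^ 2 + B ^ 2 * x ^ 2) ^ 2) (m := 0 + Real.pi / 2 / (2 * A ^ 3 * B))
    ?_ ?_ ?_
  · rw [h]
    congr 1
    simp only [mul_zero, Real.arctan_zero, zero_div, sub_zero, zero_add]
    field_simp
    ring
  · intro x
    have hq : 0 < A ^ 2 + B ^ 2 * x ^ 2 := by positivity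
    have h1 : HasDerivAt (fun x : ℝ => B / A * x) (B / A) x := by
      simpa using (hasDerivAt_id x).const_mul (B / A)
    have h2 := (h1.arctan).div_const (2 * A ^ 3 * B)
    have h3 : HasDerivAt (fun x : ℝ => 2 * A ^ 2 * (A ^ 2 + B ^ 2 * x ^ 2))
        (2 * A ^ 2 * (B ^ 2 * (2 * x))) x := by
      have h4 : HasDerivAt (fun x : ℝ => x ^ 2) (2 * x) x := by
        simpa using hasDerivAt_pow 2 x
      exact ((h4.const_mul (B ^ 2)).const_add (A ^ 2)).const_mul _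
    have h5 := (hasDerivAt_id x).div h3 (by positivity)
    refine (h5.add h2).congr_deriv ?_
    have h8 : 1 + (B / A * x) ^ 2 = (A ^ 2 + B ^ 2 * x ^ 2) / A ^ 2 := by field_simp
    rw [h8]
    simp only [id]
    field_simp
    ring
  · intro x _
    positivity
  · refine Tendsto.add ?_ ((Pot_arctan hc).div_const _)
    have h1 : ∀ x : ℝ, 1 ≤ x → 0 ≤ x / (2 * A ^ 2 * (A ^ 2 + B ^ 2 * x ^ 2)) ∧
        x / (2 * A ^ 2 * (A ^ 2 + B ^ 2 * x ^ 2)) ≤ (1 / (2 * A ^ 2 * B ^ 2)) * x⁻¹ := by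
      intro x hx
      have hx0 : 0 < x := by linarith
      refine ⟨by positivity, ?_⟩
      rw [div_le_iff₀ (by positivity)]
      have : (1 / (2 * A ^ 2 * B ^ 2)) * x⁻¹ * (2 * A ^ 2 * (A ^ 2 + B ^ 2 * x ^ 2)) =
          x + A ^ 2 / (B ^ 2 * x) := by
        field_simp
        ring
      rw [this]
      have : 0 < A ^ 2 / (B ^ 2 * x) := by positivity
      linarith
    refine squeeze_zero' (g := fun x => (1 / (2 * A ^ 2 * B ^ 2)) * x⁻¹) ?_ ?_ ?_
    · filter_upwards [eventually_ge_atTop 1] with x hx using (h1 x hx).1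
    · filter_upwards [eventually_ge_atTop 1] with x hx using (h1 x hx).2
    · have h2 := (tendsto_inv_atTop_zero (𝕜 := ℝ)).const_mul (1 / (2 * A ^ 2 * B ^ 2))
      rwa [mul_zero] at h2

/-- `∫₀^∞ r dr / (β r² + γ)² = 1 / (2 β γ)`. -/
theorem Pot_int2r {β γ : ℝ} (hβ : 0 < β) (hγ : 0 < γ) :
    ∫⁻ r in Ioi (0 : ℝ), ENNReal.ofReal (r / (β * r ^ 2 + γ) ^ 2) =
      ENNReal.ofReal (1 / (2 * β * γ)) := by
  have h := Pot_ftc (f := fun r => -(1 / (2 * β * (β * r ^ 2 + γ))))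
    (f' := fun r => r / (β * r ^ 2 + γ) ^ 2) (m := -0) ?_ ?_ ?_
  · rw [h]
    congr 1
    simp
  · intro x
    have h3 : HasDerivAt (fun x : ℝ => 2 * β * (β * x ^ 2 + γ)) (2 * β * (β * (2 * x))) x := by
      have h4 : HasDerivAt (fun x : ℝ => x ^ 2) (2 * x) x := by
        simpa using hasDerivAt_pow 2 x
      exact ((h4.const_mul β).add_const γ).const_mul _
    have hq : 0 < β * x ^ 2 + γ := by positivity
    have h5 := ((hasDerivAt_const x (1 : ℝ)).div h3 (by positivity)).neg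
    refine h5.congr_deriv ?_
    field_simp
    ring
  · intro x hx
    have : (0 : ℝ) < x := hx
    positivity
  · refine Tendsto.neg ?_
    have h1 : Tendsto (fun r : ℝ => 2 * β * (β * r ^ 2 + γ)) atTop atTop := by
      have h2 : Tendsto (fun r : ℝ => r ^ 2) atTop atTop := tendsto_pow_atTop two_ne_zero
      exact (tendsto_atTop_add_const_right _ _ (h2.const_mul_atTop hβ)).const_mul_atTop
        (by positivity)
    simp only [one_div]
    exact h1.inv_tendsto_atTop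

/-- `∫_ℂ da / (β |a|² + γ)² = π / (β γ)`. -/
theorem Pot_int2 {β γ : ℝ} (hβ : 0 < β) (hγ : 0 < γ) :
    ∫⁻ a : ℂ, ENNReal.ofReal (1 / (β * ‖a‖ ^ 2 + γ) ^ 2) =
      ENNReal.ofReal (Real.pi / (β * γ)) := by
  rw [← Complex.lintegral_comp_polarCoord_symm]
  have h1 : ∀ p ∈ polarCoord.target, ENNReal.ofReal p.1 •
      ENNReal.ofReal (1 / (β * ‖Complex.polarCoord.symm p‖ ^ 2 + γ) ^ 2) =
      ENNReal.ofReal (p.1 / (β * p.1 ^ 2 + γ) ^ 2) := by
    intro p hp
    have hp1 : 0 < p.1 := hp.1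
    rw [Complex.norm_polarCoord_symm, sq_abs, smul_eq_mul, ← ENNReal.ofReal_mul hp1.le]
    congr 1
    rw [mul_one_div]
  have hmt : MeasurableSet polarCoord.target := polarCoord.open_target.measurableSet
  rw [setLIntegral_congr_fun hmt h1]
  have h2 : (polarCoord.target : Set (ℝ × ℝ)) = Ioi (0 : ℝ) ×ˢ Ioo (-Real.pi) Real.pi := rfl
  have hm : Measurable fun p : ℝ × ℝ => ENNReal.ofReal (p.1 / (β * p.1 ^ 2 + γ) ^ 2) := by
    fun_prop
  rw [h2, Measure.volume_eq_prod, ← Measure.prod_restrict, lintegral_prod _ hm.aemeasurable]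
  simp only [lintegral_const, Measure.restrict_apply MeasurableSet.univ, univ_inter,
    Real.volume_Ioo]
  rw [lintegral_mul_const _ (by fun_prop), Pot_int2r hβ hγ, ← ENNReal.ofReal_mul (by positivity)]
  congr 1
  field_simp
  ring

theorem Pot_square (s : ℝ) (z a : ℂ) (x : ℝ) :
    s ^ 2 + ‖a‖ ^ 2 + ‖z - a‖ ^ 2 * x ^ 2 =
      (1 + x ^ 2) * ‖a - ((x ^ 2 / (1 + x ^ 2) : ℝ) : ℂ) * z‖ ^ 2 +
        (s ^ 2 + x ^ 2 / (1 + x ^ 2) * ‖z‖ ^ 2) := by
  have h : 0 < 1 + x ^ 2 := by positivity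
  simp only [← Complex.normSq_eq_norm_sq, Complex.normSq_apply, Complex.sub_re, Complex.sub_im,
    Complex.mul_re, Complex.mul_im, Complex.ofReal_re, Complex.ofReal_im]
  field_simp
  ring

theorem Pot_lintegral {s : ℝ} (z : ℂ) (hs : 0 < s) :
    ∫⁻ a : ℂ, ENNReal.ofReal (‖z - a‖⁻¹ * (s * (s ^ 2 + ‖a‖ ^ 2) ^ (-(3 / 2) : ℝ))) =
      ENNReal.ofReal (2 * Real.pi * (s ^ 2 + ‖z‖ ^ 2) ^ (-(1 / 2) : ℝ)) := by
  have hpi := Real.pi_pos
  have key : ∀ a : ℂ, a ≠ z →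
      ENNReal.ofReal (‖z - a‖⁻¹ * (s * (s ^ 2 + ‖a‖ ^ 2) ^ (-(3 / 2) : ℝ))) =
      ENNReal.ofReal (4 * s / Real.pi) * ∫⁻ x in Ioi (0 : ℝ),
        ENNReal.ofReal (1 / (s ^ 2 + ‖a‖ ^ 2 + ‖z - a‖ ^ 2 * x ^ 2) ^ 2) := by
    intro a ha
    have hB : 0 < ‖z - a‖ := norm_pos_iff.2 (sub_ne_zero.2 (Ne.symm ha))
    have hq : 0 < s ^ 2 + ‖a‖ ^ 2 := by positivity
    have hA : 0 < Real.sqrt (s ^ 2 + ‖a‖ ^ 2) := Real.sqrt_pos.2 hq
    have h1 := Pot_int1 hA hB
    rw [Real.sq_sqrt hq.le] at h1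
    rw [h1, ← ENNReal.ofReal_mul (by positivity)]
    congr 1
    have h2 : (s ^ 2 + ‖a‖ ^ 2) ^ (-(3 / 2) : ℝ) = (Real.sqrt (s ^ 2 + ‖a‖ ^ 2) ^ 3)⁻¹ := by
      rw [Real.rpow_neg hq.le, Real.sqrt_eq_rpow, ← Real.rpow_mul_natCast hq.le]
      norm_num
    rw [h2]
    field_simp
  have hae : ∀ᵐ a : ℂ, ENNReal.ofReal (‖z - a‖⁻¹ * (s * (s ^ 2 + ‖a‖ ^ 2) ^ (-(3 / 2) : ℝ))) =
      ENNReal.ofReal (4 * s / Real.pi) * ∫⁻ x in Ioi (0 : ℝ),
        ENNReal.ofReal (1 / (s ^ 2 + ‖a‖ ^ 2 + ‖z - a‖ ^ 2 * x ^ 2) ^ 2) := by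
    have : ∀ᵐ a : ℂ, a ≠ z := by
      rw [ae_iff]
      simp
    filter_upwards [this] with a ha using key a ha
  rw [lintegral_congr_ae hae]
  have hm : Measurable fun p : ℂ × ℝ =>
      ENNReal.ofReal (1 / (s ^ 2 + ‖p.1‖ ^ 2 + ‖z - p.1‖ ^ 2 * p.2 ^ 2) ^ 2) := by
    fun_prop
  rw [lintegral_const_mul _ (Measurable.lintegral_prod_right' hm), lintegral_lintegral_swap hm.aemeasurable]
  have hin : ∀ x : ℝ, ∫⁻ a : ℂ, ENNReal.ofReal (1 / (s ^ 2 + ‖a‖ ^ 2 + ‖z - a‖ ^ 2 * x ^ 2) ^ 2) =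
      ENNReal.ofReal Real.pi * ENNReal.ofReal (1 / (s ^ 2 +
        Real.sqrt (s ^ 2 + ‖z‖ ^ 2) ^ 2 * x ^ 2)) := by
    intro x
    have h0 : 0 < 1 + x ^ 2 := by positivity
    have hγ : 0 < s ^ 2 + x ^ 2 / (1 + x ^ 2) * ‖z‖ ^ 2 := by positivity
    simp_rw [Pot_square s z _ x]
    rw [lintegral_sub_right_eq_self (μ := (volume : Measure ℂ)) (fun a : ℂ => ENNReal.ofReal
      (1 / ((1 + x ^ 2) * ‖a‖ ^ 2 + (s ^ 2 + x ^ 2 / (1 + x ^ 2) * ‖z‖ ^ 2)) ^ 2)),
      Pot_int2 h0 hγ, ← ENNReal.ofReal_mul hpi.le, Real.sq_sqrt (by positivity)]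
    congr 1
    have h3 : (1 + x ^ 2) * (s ^ 2 + x ^ 2 / (1 + x ^ 2) * ‖z‖ ^ 2) =
        s ^ 2 + (s ^ 2 + ‖z‖ ^ 2) * x ^ 2 := by
      field_simp
      ring
    rw [h3, mul_one_div]
  simp_rw [hin]
  have ht : 0 < Real.sqrt (s ^ 2 + ‖z‖ ^ 2) := Real.sqrt_pos.2 (by positivity)
  rw [lintegral_const_mul _ (by fun_prop), Pot_int3 hs ht, ← ENNReal.ofReal_mul hpi.le,
    ← ENNReal.ofReal_mul (by positivity)]
  congr 1
  have h4 : (s ^ 2 + ‖z‖ ^ 2) ^ (-(1 / 2) : ℝ) = (Real.sqrt (s ^ 2 + ‖z‖ ^ 2))⁻¹ := by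
    rw [Real.rpow_neg (by positivity), Real.sqrt_eq_rpow]
  rw [h4]
  field_simp
  ring

theorem claimPot : ClaimPot := by
  intro s z hs
  have h := Pot_lintegral z hs
  have hnn : ∀ a : ℂ, 0 ≤ ‖z - a‖⁻¹ * (s * (s ^ 2 + ‖a‖ ^ 2) ^ (-(3 / 2) : ℝ)) := fun a => by
    positivity
  have hm : Measurable fun a : ℂ => ‖z - a‖⁻¹ * (s * (s ^ 2 + ‖a‖ ^ 2) ^ (-(3 / 2) : ℝ)) := by
    fun_prop
  constructor
  · refine ⟨hm.aestronglyMeasurable, ?_⟩
    rw [hasFiniteIntegral_iff_ofReal (Eventually.of_forall hnn), h]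
    exact ENNReal.ofReal_lt_top
  · rw [integral_eq_lintegral_of_nonneg_ae (Eventually.of_forall hnn) hm.aestronglyMeasurable, h,
      ENNReal.toReal_ofReal (by positivity)]

end Pool.Agent.Work.MP_440970_an

end

section

/-!
Algebra of `q2`.
-/

open MeasureTheory Complex Set Filter Topology
open scoped ENNReal ComplexConjugate

namespace Pool.Agent.Work.MP_440970_an

theorem Q2f_sqrt (p : ℝ) (a b : ℂ) :
    q2 p a b = Real.sqrt (‖a‖ ^ 2 + ‖b‖ ^ 2) ^ p := by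
  unfold q2
  rw [Real.sqrt_eq_rpow, ← Real.rpow_mul (by positivity)]
  congr 1
  ring

theorem Q2f_norm (a b : ℂ) :
    Real.sqrt (‖a‖ ^ 2 + ‖b‖ ^ 2) = ‖WithLp.toLp 2 (a, b)‖ := by
  rw [WithLp.prod_norm_eq_of_L2]
  rfl

theorem Q2f_tri (a b a' b' : ℂ) :
    Real.sqrt (‖a + a'‖ ^ 2 + ‖b + b'‖ ^ 2) ≤
      Real.sqrt (‖a‖ ^ 2 + ‖b‖ ^ 2) + Real.sqrt (‖a'‖ ^ 2 + ‖b'‖ ^ 2) := by
  rw [Q2f_norm, Q2f_norm, Q2f_norm]
  have : WithLp.toLp 2 (a + a', b + b') = WithLp.toLp 2 (a, b) + WithLp.toLp 2 (a', b') := rfl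
  rw [this]
  exact norm_add_le _ _

theorem Q2f_add (p : ℝ) (hp : 0 < p) (hp1 : p < 1) (a b a' b' : ℂ) :
    q2 p (a + a') (b + b') ≤ q2 p a b + q2 p a' b' := by
  rw [Q2f_sqrt, Q2f_sqrt, Q2f_sqrt]
  refine (Real.rpow_le_rpow (Real.sqrt_nonneg _) (Q2f_tri a b a' b') hp.le).trans ?_
  exact Real.rpow_add_le_add_rpow (Real.sqrt_nonneg _) (Real.sqrt_nonneg _) hp.le hp1.le

theorem Q2f_sqp (p : ℝ) (a : ℂ) : (‖a‖ ^ 2) ^ (p / 2) = ‖a‖ ^ p := by
  rw [← Real.rpow_natCast, ← Real.rpow_mul (norm_nonneg _)]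
  congr 1
  push_cast
  ring

theorem claimQ2 : ClaimQ2 := by
  intro p hp hp1
  refine ⟨fun a b => ?_, fun a b a' b' => Q2f_add p hp hp1 a b a' b', fun a b x y => ?_,
    fun a b => ⟨?_, ?_, ?_⟩⟩
  · unfold q2; positivity
  · unfold q2
    rw [← Real.mul_rpow (by positivity) (by positivity)]
    congr 1
    simp only [← Complex.normSq_eq_norm_sq, Complex.normSq_apply]
    simp only [Complex.sub_re, Complex.sub_im, Complex.add_re, Complex.add_im, Complex.mul_re,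
      Complex.mul_im, Complex.conj_re, Complex.conj_im]
    ring
  · unfold q2
    rw [← Q2f_sqp]
    exact Real.rpow_le_rpow (by positivity) (by nlinarith [sq_nonneg ‖b‖]) (by positivity)
  · unfold q2
    rw [← Q2f_sqp]
    exact Real.rpow_le_rpow (by positivity) (by nlinarith [sq_nonneg ‖a‖]) (by positivity)
  · have h := Q2f_add p hp hp1 a 0 0 b
    have h1 : q2 p a 0 = ‖a‖ ^ p := by
      unfold q2
      rw [← Q2f_sqp]
      simp
    have h2 : q2 p 0 b = ‖b‖ ^ p := by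
      unfold q2
      rw [← Q2f_sqp]
      simp
    rw [add_zero, zero_add, h1, h2] at h
    exact h

end Pool.Agent.Work.MP_440970_an

end

section

/-!
# [D2] The ratio of two beta integrals
-/

open MeasureTheory Complex Set Filter Topology
open scoped ENNReal ComplexConjugate

namespace Pool.Agent.Work.MP_440970_an

/-- The real beta integral. -/
lemma Ratio_beta {u v : ℝ} (hu : 0 < u) (hv : 0 < v) :
    IntegrableOn (fun x : ℝ => x ^ (u - 1) * (1 - x) ^ (v - 1)) (Ioo 0 1) ∧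
    ∫ x in Ioo (0 : ℝ) 1, x ^ (u - 1) * (1 - x) ^ (v - 1) =
      Real.Gamma u * Real.Gamma v / Real.Gamma (u + v) := by
  have e : ∀ x ∈ Ioo (0 : ℝ) 1, ((x : ℂ) ^ ((u : ℂ) - 1) * (1 - (x : ℂ)) ^ ((v : ℂ) - 1)) =
      ((x ^ (u - 1) * (1 - x) ^ (v - 1) : ℝ) : ℂ) := by
    intro x hx
    push_cast
    rw [Complex.ofReal_cpow hx.1.le, Complex.ofReal_cpow (by linarith [hx.2])]
    push_cast
    rfl
  have h1 := betaIntegral_convergent (u := (u : ℂ)) (v := (v : ℂ)) (by simpa) (by simpa)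
  rw [intervalIntegrable_iff_integrableOn_Ioo_of_le zero_le_one] at h1
  have h2 : IntegrableOn (fun x : ℝ => ((x ^ (u - 1) * (1 - x) ^ (v - 1) : ℝ) : ℂ)) (Ioo 0 1) :=
    h1.congr_fun e measurableSet_Ioo
  have h3 : IntegrableOn (fun x : ℝ => x ^ (u - 1) * (1 - x) ^ (v - 1)) (Ioo 0 1) := by
    have := h2.re
    unfold IntegrableOn
    simpa using this
  refine ⟨h3, ?_⟩
  have h4 := betaIntegral_eq_Gamma_mul_div (u : ℂ) (v : ℂ) (by simpa) (by simpa)
  unfold betaIntegral at h4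
  rw [intervalIntegral.integral_of_le zero_le_one, integral_Ioc_eq_integral_Ioo,
    setIntegral_congr_fun measurableSet_Ioo e, integral_complex_ofReal, ← ofReal_add, Gamma_ofReal,
    Gamma_ofReal, Gamma_ofReal] at h4
  exact_mod_cast h4

/-- The beta integral on the line. -/
lemma Ratio_F {u v : ℝ} (hu : 0 < u) (hv : 0 < v) :
    Integrable (fun y : ℝ => Real.exp (2 * u * y) * (1 + Real.exp (2 * y)) ^ (-(u + v))) ∧
    ∫ y : ℝ, Real.exp (2 * u * y) * (1 + Real.exp (2 * y)) ^ (-(u + v)) =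
      Real.Gamma u * Real.Gamma v / Real.Gamma (u + v) / 2 := by
  set f : ℝ → ℝ := fun y => 1 - (1 + Real.exp (2 * y))⁻¹ with hf
  set f' : ℝ → ℝ := fun y => 2 * Real.exp (2 * y) / (1 + Real.exp (2 * y)) ^ 2 with hf'
  have hpos : ∀ y : ℝ, 0 < 1 + Real.exp (2 * y) := fun y => by positivity
  have hder : ∀ y ∈ (univ : Set ℝ), HasDerivWithinAt f (f' y) univ y := by
    intro y _
    have h1 : HasDerivAt (fun y : ℝ => 1 + Real.exp (2 * y)) (Real.exp (2 * y) * (2 * 1)) y :=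
      (((hasDerivAt_id y).const_mul 2).exp).const_add 1
    have h2 := (h1.inv (hpos y).ne').const_sub 1
    refine (h2.congr_deriv ?_).hasDerivWithinAt
    rw [hf']
    simp only
    rw [neg_div, neg_neg]
    ring
  have hinj : InjOn f univ := by
    intro a _ b _ hab
    rw [hf] at hab
    simp only [sub_right_inj, inv_inj, add_right_inj, Real.exp_eq_exp] at hab
    linarith
  have himg : f '' univ = Ioo 0 1 := by
    ext x
    simp only [image_univ, mem_range, mem_Ioo]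
    constructor
    · rintro ⟨y, rfl⟩
      have h1 := hpos y
      have h2 : 0 < Real.exp (2 * y) := Real.exp_pos _
      have h3 : (1 + Real.exp (2 * y))⁻¹ < 1 := inv_lt_one_of_one_lt₀ (by linarith)
      have h4 : 0 < (1 + Real.exp (2 * y))⁻¹ := inv_pos.2 h1
      exact ⟨by rw [hf]; simp only; linarith, by rw [hf]; simp only; linarith⟩
    · rintro ⟨h0, h1⟩
      refine ⟨Real.log (x / (1 - x)) / 2, ?_⟩
      have h2 : 0 < x / (1 - x) := div_pos h0 (by linarith)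
      rw [hf]
      simp only
      rw [show 2 * (Real.log (x / (1 - x)) / 2) = Real.log (x / (1 - x)) by ring, Real.exp_log h2]
      have h3 : 1 - x ≠ 0 := by linarith
      have h4 : 1 + x / (1 - x) = (1 - x)⁻¹ := by field_simp; ring
      rw [h4, inv_inv]
      ring
  have hcomp : ∀ y : ℝ, |f' y| • ((f y) ^ (u - 1) * (1 - f y) ^ (v - 1)) =
      2 * (Real.exp (2 * u * y) * (1 + Real.exp (2 * y)) ^ (-(u + v))) := by
    intro y
    have h1 := hpos y
    have h2 : 0 < Real.exp (2 * y) := Real.exp_pos _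
    have e1 : f y = Real.exp (2 * y) * (1 + Real.exp (2 * y))⁻¹ := by
      rw [hf]; simp only; field_simp; ring
    have e2 : 1 - f y = (1 + Real.exp (2 * y))⁻¹ := by rw [hf]; simp only; ring
    have e3 : |f' y| = 2 * Real.exp (2 * y) / (1 + Real.exp (2 * y)) ^ 2 := abs_of_pos (by
      rw [hf']; positivity)
    rw [e2, e1, e3, smul_eq_mul, Real.mul_rpow h2.le (inv_pos.2 h1).le, Real.inv_rpow h1.le,
      Real.inv_rpow h1.le, ← Real.rpow_neg h1.le, ← Real.rpow_neg h1.le, ← Real.exp_mul,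
      div_eq_mul_inv, ← Real.rpow_natCast, ← Real.rpow_neg h1.le]
    have e4 : 2 * Real.exp (2 * y) * (1 + Real.exp (2 * y)) ^ (-((2 : ℕ) : ℝ)) *
        (Real.exp (2 * y * (u - 1)) * (1 + Real.exp (2 * y)) ^ (-(u - 1)) *
          (1 + Real.exp (2 * y)) ^ (-(v - 1))) =
        2 * ((Real.exp (2 * y) * Real.exp (2 * y * (u - 1))) *
          ((1 + Real.exp (2 * y)) ^ (-((2 : ℕ) : ℝ)) * (1 + Real.exp (2 * y)) ^ (-(u - 1)) *
          (1 + Real.exp (2 * y)) ^ (-(v - 1)))) := by ring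
    rw [e4, ← Real.exp_add, ← Real.rpow_add h1, ← Real.rpow_add h1]
    congr 2
    · congr 1; ring
    · congr 1; push_cast; ring
  obtain ⟨h1, h2⟩ := Ratio_beta hu hv
  rw [← himg] at h1 h2
  rw [integrableOn_image_iff_integrableOn_abs_deriv_smul MeasurableSet.univ hder hinj] at h1
  rw [integral_image_eq_integral_abs_deriv_smul MeasurableSet.univ hder hinj] at h2
  simp only [hcomp] at h1 h2
  rw [integrableOn_univ] at h1
  rw [Measure.restrict_univ, integral_const_mul] at h2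
  refine ⟨?_, by linarith⟩
  have h3 := h1.const_mul (1 / 2)
  refine h3.congr (Eventually.of_forall fun y => ?_)
  simp only
  ring

/-- Log-convexity of the Gamma function. -/
lemma Ratio_half {x : ℝ} (hx : 0 < x) :
    Real.Gamma (x + 1 / 2) ≤ Real.sqrt x * Real.Gamma x := by
  have h := Real.Gamma_mul_add_mul_le_rpow_Gamma_mul_rpow_Gamma hx (by linarith : 0 < x + 1)
    (a := 1 / 2) (b := 1 / 2) (by norm_num) (by norm_num) (by norm_num)
  have e : (1 / 2 : ℝ) * x + 1 / 2 * (x + 1) = x + 1 / 2 := by ring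
  rw [e, Real.Gamma_add_one hx.ne', ← Real.sqrt_eq_rpow, ← Real.sqrt_eq_rpow,
    Real.sqrt_mul hx.le] at h
  have hG := (Real.Gamma_pos_of_pos hx).le
  calc Real.Gamma (x + 1 / 2) ≤ _ := h
    _ = Real.sqrt x * (Real.sqrt (Real.Gamma x) * Real.sqrt (Real.Gamma x)) := by ring
    _ = _ := by rw [Real.mul_self_sqrt hG]

/-- Shifted upper bound. -/
lemma Ratio_shift {x : ℝ} (hx : 0 < x) (n : ℕ) :
    Real.Gamma (x + 1 / 2) ≤ Real.sqrt (x + n) *
      (∏ i ∈ Finset.range n, (x + i) / (x + i + 1 / 2)) * Real.Gamma x := by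
  have key : ∀ n : ℕ, Real.Gamma (x + n) = (∏ i ∈ Finset.range n, (x + i)) * Real.Gamma x := by
    intro n
    induction n with
    | zero => simp
    | succ n ih =>
      rw [Finset.prod_range_succ]
      push_cast
      rw [← add_assoc, Real.Gamma_add_one (by positivity), ih]
      ring
  have key2 : ∀ n : ℕ, Real.Gamma (x + n + 1 / 2) =
      (∏ i ∈ Finset.range n, (x + i + 1 / 2)) * Real.Gamma (x + 1 / 2) := by
    intro n
    induction n with
    | zero => simp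
    | succ n ih =>
      rw [Finset.prod_range_succ]
      have e : x + ((n + 1 : ℕ) : ℝ) + 1 / 2 = (x + n + 1 / 2) + 1 := by push_cast; ring
      rw [e, Real.Gamma_add_one (by positivity), ih]
      ring
  have h1 := Ratio_half (x := x + n) (by positivity)
  rw [key2 n, key n] at h1
  rw [Finset.prod_div_distrib]
  have hP : 0 < ∏ i ∈ Finset.range n, (x + (i : ℝ) + 1 / 2) :=
    Finset.prod_pos fun i _ => by positivity
  rw [mul_div_assoc', div_mul_eq_mul_div, le_div_iff₀ hP]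
  calc Real.Gamma (x + 1 / 2) * ∏ i ∈ Finset.range n, (x + (i : ℝ) + 1 / 2) =
        (∏ i ∈ Finset.range n, (x + (i : ℝ) + 1 / 2)) * Real.Gamma (x + 1 / 2) := by ring
    _ ≤ _ := h1
    _ = _ := by ring

/-- The numerical inequality for Gamma functions. -/
lemma Ratio_num : 3 / 2 * (Real.Gamma (11 / 6) * Real.Gamma (2 / 3)) ≤
    97 / 250 * (Real.Gamma (4 / 3) * Real.Gamma (1 / 6)) := by
  have h1 := Ratio_shift (x := 4 / 3) (by norm_num) 40
  have h2 := Ratio_shift (x := 1 / 6) (by norm_num) 40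
  have e1 : (4 / 3 : ℝ) + 1 / 2 = 11 / 6 := by norm_num
  have e2 : (1 / 6 : ℝ) + 1 / 2 = 2 / 3 := by norm_num
  rw [e1] at h1
  rw [e2] at h2
  set A : ℝ := ∏ i ∈ Finset.range 40, ((4 / 3 : ℝ) + i) / (4 / 3 + i + 1 / 2) with hA
  set B : ℝ := ∏ i ∈ Finset.range 40, ((1 / 6 : ℝ) + i) / (1 / 6 + i + 1 / 2) with hB
  have hA0 : 0 ≤ A := Finset.prod_nonneg fun i _ => by positivity
  have hB0 : 0 ≤ B := Finset.prod_nonneg fun i _ => by positivity
  have hG1 : 0 < Real.Gamma (4 / 3) := Real.Gamma_pos_of_pos (by norm_num)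
  have hG2 : 0 < Real.Gamma (1 / 6) := Real.Gamma_pos_of_pos (by norm_num)
  have hG3 : 0 < Real.Gamma (11 / 6) := Real.Gamma_pos_of_pos (by norm_num)
  have hG4 : 0 < Real.Gamma (2 / 3) := Real.Gamma_pos_of_pos (by norm_num)
  have h3 : Real.Gamma (11 / 6) * Real.Gamma (2 / 3) ≤
      (Real.sqrt (4 / 3 + (40 : ℕ)) * A * Real.Gamma (4 / 3)) *
      (Real.sqrt (1 / 6 + (40 : ℕ)) * B * Real.Gamma (1 / 6)) :=
    mul_le_mul h1 h2 hG4.le (by positivity)
  have hs : Real.sqrt (4 / 3 + (40 : ℕ)) * Real.sqrt (1 / 6 + (40 : ℕ)) ≤ 163 / 4 := by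
    rw [← Real.sqrt_mul (by positivity), Real.sqrt_le_left (by norm_num)]
    norm_num
  have hAB : 3 / 2 * (163 / 4) * (A * B) ≤ 97 / 250 := by
    rw [hA, hB, ← Finset.prod_mul_distrib]
    simp only [Finset.prod_range_succ, Finset.prod_range_zero]
    norm_num
  have hAB0 : 0 ≤ A * B := mul_nonneg hA0 hB0
  calc 3 / 2 * (Real.Gamma (11 / 6) * Real.Gamma (2 / 3)) ≤
        3 / 2 * ((Real.sqrt (4 / 3 + (40 : ℕ)) * A * Real.Gamma (4 / 3)) *
      (Real.sqrt (1 / 6 + (40 : ℕ)) * B * Real.Gamma (1 / 6))) :=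
        mul_le_mul_of_nonneg_left h3 (by norm_num)
    _ = (Real.sqrt (4 / 3 + (40 : ℕ)) * Real.sqrt (1 / 6 + (40 : ℕ))) *
        (3 / 2 * (A * B) * (Real.Gamma (4 / 3) * Real.Gamma (1 / 6))) := by ring
    _ ≤ 163 / 4 * (3 / 2 * (A * B) * (Real.Gamma (4 / 3) * Real.Gamma (1 / 6))) :=
        mul_le_mul_of_nonneg_right hs (by positivity)
    _ = (3 / 2 * (163 / 4) * (A * B)) * (Real.Gamma (4 / 3) * Real.Gamma (1 / 6)) := by ring
    _ ≤ _ := mul_le_mul_of_nonneg_right hAB (by positivity)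

/-- The integrand of `I2`. -/
lemma Ratio_g (y : ℝ) :
    0 ≤ Real.exp (11 / 3 * y) * (Real.exp (-3 * y) - (1 + Real.exp (2 * y)) ^ (-(3 / 2) : ℝ)) ∧
    Real.exp (11 / 3 * y) * (Real.exp (-3 * y) - (1 + Real.exp (2 * y)) ^ (-(3 / 2) : ℝ)) ≤
      2 * (Real.exp (2 * (1 / 3) * y) * (1 + Real.exp (2 * y)) ^ (-(1 / 3 + 2 / 3) : ℝ)) := by
  set T : ℝ := Real.exp (2 * y) with hT
  have hT0 : 0 < T := Real.exp_pos _
  have h1 : (0 : ℝ) < 1 + T := by linarith
  have h2 : Real.exp (-3 * y) = T ^ (-(3 / 2) : ℝ) := by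
    rw [hT, ← Real.exp_mul]; congr 1; ring
  have h3 : (1 + T) ^ (-(3 / 2) : ℝ) ≤ T ^ (-(3 / 2) : ℝ) :=
    Real.rpow_le_rpow_of_nonpos hT0 (by linarith) (by norm_num)
  have h4 : Real.exp (11 / 3 * y) = Real.exp (2 * (1 / 3) * y) * T ^ (3 / 2 : ℝ) := by
    rw [hT, ← Real.exp_mul, ← Real.exp_add]; congr 1; ring
  have h5 : (1 + T) ^ (-(1 / 3 + 2 / 3) : ℝ) = (1 + T)⁻¹ := by
    rw [show (-(1 / 3 + 2 / 3) : ℝ) = -1 by norm_num, Real.rpow_neg_one]
  have hE : 0 < Real.exp (2 * (1 / 3) * y) := Real.exp_pos _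
  rw [h2]
  refine ⟨mul_nonneg (Real.exp_pos _).le (by linarith), ?_⟩
  rw [h4, h5, mul_assoc, mul_left_comm (2 : ℝ)]
  refine mul_le_mul_of_nonneg_left ?_ hE.le
  have h6 : T ^ (3 / 2 : ℝ) * T ^ (-(3 / 2) : ℝ) = 1 := by
    rw [← Real.rpow_add hT0]; norm_num
  set w : ℝ := T / (1 + T) with hw
  have hw0 : 0 < w := div_pos hT0 h1
  have hw1 : w ≤ 1 := by rw [hw, div_le_one h1]; linarith
  have h7 : T ^ (3 / 2 : ℝ) * (1 + T) ^ (-(3 / 2) : ℝ) = w ^ (3 / 2 : ℝ) := by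
    rw [hw, Real.div_rpow hT0.le h1.le, Real.rpow_neg h1.le]
    exact (div_eq_mul_inv _ _).symm
  have h8 : w ^ (2 : ℝ) ≤ w ^ (3 / 2 : ℝ) :=
    Real.rpow_le_rpow_of_exponent_ge hw0 hw1 (by norm_num)
  rw [Real.rpow_two] at h8
  have h9 : (1 + T)⁻¹ = 1 - w := by rw [hw]; field_simp; ring
  rw [mul_sub, h6, h7, h9]
  nlinarith [sq_nonneg (1 - w)]

lemma Ratio_I2 : 0 ≤ I2 ∧ I2 = 9 / 2 * (Real.Gamma (11 / 6) * Real.Gamma (2 / 3) /
    Real.Gamma (11 / 6 + 2 / 3) / 2) := by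
  set g : ℝ → ℝ := fun y => Real.exp (11 / 3 * y) * (Real.exp (-3 * y) -
    (1 + Real.exp (2 * y)) ^ (-(3 / 2) : ℝ)) with hg
  have hg0 : ∀ y, 0 ≤ g y := fun y => (Ratio_g y).1
  have hgle : ∀ y, g y ≤ 2 * (Real.exp (2 * (1 / 3) * y) *
    (1 + Real.exp (2 * y)) ^ (-(1 / 3 + 2 / 3) : ℝ)) := fun y => (Ratio_g y).2
  obtain ⟨hF1, -⟩ := Ratio_F (u := 1 / 3) (v := 2 / 3) (by norm_num) (by norm_num)
  obtain ⟨hF2, hF3⟩ := Ratio_F (u := 11 / 6) (v := 2 / 3) (by norm_num) (by norm_num)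
  have hpos : ∀ y : ℝ, 0 < 1 + Real.exp (2 * y) := fun y => by positivity
  have hgc : Continuous g := by
    rw [hg]
    refine Continuous.mul (by fun_prop) (Continuous.sub (by fun_prop) ?_)
    exact Continuous.rpow_const (by fun_prop) fun y => Or.inl (hpos y).ne'
  have hgi : Integrable g := by
    refine (hF1.const_mul 2).mono' hgc.aestronglyMeasurable (Eventually.of_forall fun y => ?_)
    rw [Real.norm_of_nonneg (hg0 y)]
    exact hgle y
  have hI2 : I2 = ∫ y, g y := rfl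
  refine ⟨by rw [hI2]; exact integral_nonneg hg0, ?_⟩
  have hder : ∀ y : ℝ, HasDerivAt (fun y => 3 / 2 * g y) (g y - 9 / 2 *
      (Real.exp (2 * (11 / 6) * y) * (1 + Real.exp (2 * y)) ^ (-(11 / 6 + 2 / 3) : ℝ))) y := by
    intro y
    have h1 : HasDerivAt (fun y : ℝ => 1 + Real.exp (2 * y)) (Real.exp (2 * y) * (2 * 1)) y :=
      (((hasDerivAt_id y).const_mul 2).exp).const_add 1
    have h2 := h1.rpow_const (p := (-(3 / 2) : ℝ)) (Or.inl (hpos y).ne')
    have h3 : HasDerivAt (fun y : ℝ => Real.exp (-3 * y)) (Real.exp (-3 * y) * (-3 * 1)) y :=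
      ((hasDerivAt_id y).const_mul (-3)).exp
    have h4 : HasDerivAt (fun y : ℝ => Real.exp (11 / 3 * y))
        (Real.exp (11 / 3 * y) * (11 / 3 * 1)) y := ((hasDerivAt_id y).const_mul (11 / 3)).exp
    have h5 := (h4.mul (h3.sub h2)).const_mul (3 / 2)
    refine h5.congr_deriv ?_
    have e1 : (-(11 / 6 + 2 / 3) : ℝ) = -(3 / 2) - 1 := by norm_num
    have e2 : Real.exp (2 * (11 / 6) * y) = Real.exp (11 / 3 * y) := by congr 1; ring
    have e3 : (1 + Real.exp (2 * y)) ^ (-(3 / 2) : ℝ) =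
        (1 + Real.exp (2 * y)) * (1 + Real.exp (2 * y)) ^ (-(3 / 2) - 1 : ℝ) := by
      rw [← Real.rpow_one_add' (hpos y).le (by norm_num)]
      congr 1
      ring
    rw [e1, e2, hg]
    simp only [Pi.sub_apply]
    rw [e3]
    ring
  have hsmall : ∀ y, g y ≤ 2 * Real.exp (2 / 3 * y) := by
    intro y
    refine (hgle y).trans ?_
    rw [show (-(1 / 3 + 2 / 3) : ℝ) = -1 by norm_num, Real.rpow_neg_one]
    have h1 : (1 + Real.exp (2 * y))⁻¹ ≤ 1 := inv_le_one_of_one_le₀ (by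
      have := Real.exp_pos (2 * y); linarith)
    have h2 : Real.exp (2 * (1 / 3) * y) = Real.exp (2 / 3 * y) := by congr 1; ring
    rw [h2]
    have h3 := Real.exp_pos (2 / 3 * y)
    nlinarith
  have hsmall' : ∀ y, g y ≤ 2 * Real.exp (-(4 / 3 * y)) := by
    intro y
    refine (hgle y).trans ?_
    rw [show (-(1 / 3 + 2 / 3) : ℝ) = -1 by norm_num, Real.rpow_neg_one]
    have h1 : (1 + Real.exp (2 * y))⁻¹ ≤ (Real.exp (2 * y))⁻¹ :=
      inv_anti₀ (Real.exp_pos _) (by linarith)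
    rw [← Real.exp_neg] at h1
    have h2 : Real.exp (2 * (1 / 3) * y) * Real.exp (-(2 * y)) = Real.exp (-(4 / 3 * y)) := by
      rw [← Real.exp_add]; congr 1; ring
    have h3 := Real.exp_pos (2 * (1 / 3) * y)
    have h4 := mul_le_mul_of_nonneg_left h1 h3.le
    rw [h2] at h4
    linarith
  have hbot : Tendsto (fun y => 3 / 2 * g y) atBot (𝓝 0) := by
    have h1 : Tendsto (fun y : ℝ => 3 / 2 * (2 * Real.exp (2 / 3 * y))) atBot (𝓝 0) := by
      have h2 : Tendsto (fun y : ℝ => Real.exp (2 / 3 * y)) atBot (𝓝 0) :=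
        Real.tendsto_exp_atBot.comp (tendsto_id.const_mul_atBot (by norm_num))
      simpa using (h2.const_mul 2).const_mul (3 / 2)
    refine squeeze_zero (fun y => ?_) (fun y => ?_) h1
    · have := hg0 y; positivity
    · have := hsmall y; linarith
  have htop : Tendsto (fun y => 3 / 2 * g y) atTop (𝓝 0) := by
    have h1 : Tendsto (fun y : ℝ => 3 / 2 * (2 * Real.exp (-(4 / 3 * y)))) atTop (𝓝 0) := by
      have h2 : Tendsto (fun y : ℝ => Real.exp (-(4 / 3 * y))) atTop (𝓝 0) :=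
        Real.tendsto_exp_neg_atTop_nhds_zero.comp (tendsto_id.const_mul_atTop (by norm_num))
      simpa using (h2.const_mul 2).const_mul (3 / 2)
    refine squeeze_zero (fun y => ?_) (fun y => ?_) h1
    · have := hg0 y; positivity
    · have := hsmall' y; linarith
  have hint := integral_of_hasDerivAt_of_tendsto hder (hgi.sub (hF2.const_mul (9 / 2))) hbot htop
  rw [integral_sub hgi (hF2.const_mul (9 / 2)), integral_const_mul, hF3, sub_zero] at hint
  rw [hI2]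
  linarith

lemma Ratio_I1 : I1 = Real.Gamma (4 / 3) * Real.Gamma (1 / 6) / Real.Gamma (4 / 3 + 1 / 6) / 2 := by
  obtain ⟨-, h⟩ := Ratio_F (u := 4 / 3) (v := 1 / 6) (by norm_num) (by norm_num)
  rw [← h]
  unfold I1
  congr 1
  funext y
  congr 2
  · ring
  · norm_num

/-- [D2] -/
theorem claimRatio : ClaimRatio := by
  have hG1 : 0 < Real.Gamma (4 / 3) := Real.Gamma_pos_of_pos (by norm_num)
  have hG2 : 0 < Real.Gamma (1 / 6) := Real.Gamma_pos_of_pos (by norm_num)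
  have hG3 : 0 < Real.Gamma (3 / 2) := Real.Gamma_pos_of_pos (by norm_num)
  obtain ⟨h0, h2⟩ := Ratio_I2
  have h1 := Ratio_I1
  have e1 : (4 / 3 + 1 / 6 : ℝ) = 3 / 2 := by norm_num
  have e2 : Real.Gamma (11 / 6 + 2 / 3) = 3 / 2 * Real.Gamma (3 / 2) := by
    rw [show (11 / 6 + 2 / 3 : ℝ) = 3 / 2 + 1 by norm_num, Real.Gamma_add_one (by norm_num)]
  rw [e1] at h1
  rw [e2] at h2
  refine ⟨by rw [h1]; positivity, h0, ?_⟩
  rw [h1, h2]
  have h3 := Ratio_num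
  have e3 : 9 / 2 * (Real.Gamma (11 / 6) * Real.Gamma (2 / 3) /
      (3 / 2 * Real.Gamma (3 / 2)) / 2) =
      (3 / 2 * (Real.Gamma (11 / 6) * Real.Gamma (2 / 3))) / Real.Gamma (3 / 2) := by
    field_simp
    ring
  have e4 : 97 / 125 * (Real.Gamma (4 / 3) * Real.Gamma (1 / 6) / Real.Gamma (3 / 2) / 2) =
      (97 / 250 * (Real.Gamma (4 / 3) * Real.Gamma (1 / 6))) / Real.Gamma (3 / 2) := by
    field_simp
    ring
  rw [e3, e4]
  exact div_le_div_of_nonneg_right h3 hG3.le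

end Pool.Agent.Work.MP_440970_an

end

section

/-!
# Item D1: Riemann sums on the line
-/

open MeasureTheory Complex Set Filter Topology
open scoped ENNReal ComplexConjugate

namespace Pool.Agent.Work.MP_440970_an

theorem Riem_exp {c : ℝ} (hc : 0 < c) : Integrable (fun y : ℝ => Real.exp (-(c * |y|))) := by
  rw [← integrableOn_univ, ← Iic_union_Ioi (a := (0 : ℝ)), integrableOn_union]
  constructor
  · refine (integrableOn_exp_mul_Iic hc 0).congr_fun (fun y hy => ?_) measurableSet_Iic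
    simp only
    rw [abs_of_nonpos hy]
    ring_nf
  · refine (integrableOn_exp_mul_Ioi (a := -c) (by linarith) 0).congr_fun (fun y hy => ?_)
      measurableSet_Ioi
    simp only
    rw [abs_of_pos hy]
    ring_nf

/-- The set covered by the cells. -/
def Riem_S (n : ℕ) : Set ℝ :=
  ⋃ i ∈ Finset.Icc (-(n : ℤ) ^ 2) ((n : ℤ) ^ 2), Ico ((i : ℝ) / n) (((i : ℝ) + 1) / n)

theorem Riem_mem {n : ℕ} (hn : 1 ≤ n) (i : ℤ) (t : ℝ) :
    t ∈ Ico ((i : ℝ) / n) (((i : ℝ) + 1) / n) ↔ ⌊(n : ℝ) * t⌋ = i := by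
  have hn0 : (0 : ℝ) < n := by exact_mod_cast hn
  rw [mem_Ico, Int.floor_eq_iff, div_le_iff₀ hn0, lt_div_iff₀ hn0, mul_comm t]

theorem Riem_meas (n : ℕ) : MeasurableSet (Riem_S n) :=
  Finset.measurableSet_biUnion _ fun _ _ => measurableSet_Ico

theorem Riem_sum (Φ : ℝ → ℝ) {n : ℕ} (hn : 1 ≤ n) (x : ℝ) :
    (n : ℝ)⁻¹ * ∑ i ∈ Finset.Icc (-(n : ℤ) ^ 2) ((n : ℤ) ^ 2), Φ (x - i / n) =
      ∫ t, (Riem_S n).indicator (fun t => Φ (x - ⌊(n : ℝ) * t⌋ / n)) t := by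
  have hn0 : (0 : ℝ) < n := by exact_mod_cast hn
  have hval : ∀ i : ℤ, ∀ t ∈ Ico ((i : ℝ) / n) (((i : ℝ) + 1) / n),
      Φ (x - ⌊(n : ℝ) * t⌋ / n) = Φ (x - i / n) := by
    intro i t ht
    rw [(Riem_mem hn i t).mp ht]
  have hvol : ∀ i : ℤ, volume (Ico ((i : ℝ) / n) (((i : ℝ) + 1) / n)) ≠ ⊤ := fun i => by
    rw [Real.volume_Ico]
    exact ENNReal.ofReal_ne_top
  rw [integral_indicator (Riem_meas n)]
  unfold Riem_S
  rw [integral_biUnion_finset _ (fun _ _ => measurableSet_Ico)]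
  · rw [Finset.mul_sum]
    refine Finset.sum_congr rfl fun i _ => ?_
    rw [setIntegral_congr_fun measurableSet_Ico (hval i), setIntegral_const, smul_eq_mul,
      Measure.real, Real.volume_Ico, ENNReal.toReal_ofReal]
    · congr 1
      field_simp
      ring
    · rw [← sub_div]
      have : (i : ℝ) + 1 - i = 1 := by ring
      rw [this]
      positivity
  · intro i _ j _ hij
    rw [Function.onFun, Set.disjoint_left]
    intro t hi hj
    exact hij (((Riem_mem hn i t).mp hi).symm.trans ((Riem_mem hn j t).mp hj))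
  · intro i _
    refine (integrableOn_const (C := Φ (x - i / n)) (hvol i)).congr_fun (fun t ht => ?_)
      measurableSet_Ico
    exact (hval i t ht).symm

theorem Riem_bound {Φ : ℝ → ℝ} {C c : ℝ} (hc : 0 < c)
    (h : ∀ y, |Φ y| ≤ C * Real.exp (-(c * |y|))) {n : ℕ} (hn : 1 ≤ n) (x t : ℝ) :
    |Φ (x - ⌊(n : ℝ) * t⌋ / n)| ≤ C * Real.exp c * Real.exp (-(c * |x - t|)) := by
  have hn0 : (0 : ℝ) < n := by exact_mod_cast hn
  have hn1 : (1 : ℝ) ≤ n := by exact_mod_cast hn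
  have hC : 0 ≤ C := by
    have h1 := (abs_nonneg _).trans (h 0)
    by_contra h2
    have h3 : C * Real.exp (-(c * |(0 : ℝ)|)) < 0 :=
      mul_neg_of_neg_of_pos (not_le.mp h2) (Real.exp_pos _)
    linarith
  refine (h _).trans ?_
  rw [mul_assoc, ← Real.exp_add]
  refine mul_le_mul_of_nonneg_left (Real.exp_le_exp.mpr ?_) hC
  have h1 : |(x - t)| ≤ |x - ⌊(n : ℝ) * t⌋ / n| + 1 := by
    have e : x - t = (x - ⌊(n : ℝ) * t⌋ / n) + (⌊(n : ℝ) * t⌋ / n - t) := by ring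
    rw [e]
    refine (abs_add_le _ _).trans (add_le_add le_rfl ?_)
    have h2 := Int.floor_le ((n : ℝ) * t)
    have h3 := Int.lt_floor_add_one ((n : ℝ) * t)
    have e2 : (⌊(n : ℝ) * t⌋ : ℝ) / n - t = (⌊(n : ℝ) * t⌋ - n * t) / n := by
      field_simp
    rw [e2, abs_div, abs_of_pos hn0, div_le_one hn0, abs_le]
    constructor <;> linarith
  nlinarith

/-- Item D1. -/
theorem claimRS : ClaimRS := by
  intro Φ C c hΦ hc h
  have hC : 0 ≤ C := by
    have h1 := (abs_nonneg _).trans (h 0)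
    by_contra h2
    have h3 : C * Real.exp (-(c * |(0 : ℝ)|)) < 0 :=
      mul_neg_of_neg_of_pos (not_le.mp h2) (Real.exp_pos _)
    linarith
  have hbint : ∀ x : ℝ, Integrable (fun t : ℝ => C * Real.exp c * Real.exp (-(c * |x - t|))) :=
    fun x => ((Riem_exp hc).comp_sub_left x).const_mul _
  have hind : ∀ {n : ℕ}, 1 ≤ n → ∀ x t,
      ‖(Riem_S n).indicator (fun t => Φ (x - ⌊(n : ℝ) * t⌋ / n)) t‖ ≤
        C * Real.exp c * Real.exp (-(c * |x - t|)) := by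
    intro n hn x t
    refine (norm_indicator_le_norm_self _ _).trans ?_
    rw [Real.norm_eq_abs]
    exact Riem_bound hc h hn x t
  refine ⟨fun x => ?_, ⟨∫ t, C * Real.exp c * Real.exp (-(c * |t|)), fun n x => ?_⟩⟩
  · have e1 : ∫ y, Φ y = ∫ t, Φ (x - t) := (integral_sub_left_eq_self Φ volume x).symm
    rw [e1]
    have key : Tendsto (fun n : ℕ => ∫ t, (Riem_S n).indicator
        (fun t => Φ (x - ⌊(n : ℝ) * t⌋ / n)) t) atTop (𝓝 (∫ t, Φ (x - t))) := by
      refine tendsto_integral_filter_of_dominated_convergence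
        (fun t => C * Real.exp c * Real.exp (-(c * |x - t|))) ?_ ?_ (hbint x) ?_
      · refine Eventually.of_forall fun n => ?_
        have hm : Measurable (fun t : ℝ => Φ (x - ⌊(n : ℝ) * t⌋ / n)) := by
          refine hΦ.measurable.comp ?_
          refine measurable_const.sub (Measurable.div_const ?_ _)
          exact (measurable_of_countable (fun i : ℤ => (i : ℝ))).comp
            (Int.measurable_floor.comp (measurable_const.mul measurable_id))
        exact (hm.indicator (Riem_meas n)).aestronglyMeasurable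
      · filter_upwards [eventually_ge_atTop 1] with n hn
        exact Eventually.of_forall fun t => hind hn x t
      · refine Eventually.of_forall fun t => ?_
        have hlim : Tendsto (fun n : ℕ => Φ (x - ⌊(n : ℝ) * t⌋ / n)) atTop (𝓝 (Φ (x - t))) := by
          refine (hΦ.tendsto _).comp (tendsto_const_nhds.sub ?_)
          have h1 : Tendsto (fun n : ℕ => t - 1 / ((n : ℝ))) atTop (𝓝 (t - 0)) :=
            tendsto_const_nhds.sub tendsto_one_div_atTop_nhds_zero_nat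
          rw [sub_zero] at h1
          refine tendsto_of_tendsto_of_tendsto_of_le_of_le' h1 tendsto_const_nhds ?_ ?_
          · filter_upwards [eventually_ge_atTop 1] with n hn
            have hn0 : (0 : ℝ) < n := by exact_mod_cast hn
            have h3 := Int.lt_floor_add_one ((n : ℝ) * t)
            rw [le_div_iff₀ hn0, sub_mul, one_div, inv_mul_cancel₀ hn0.ne']
            linarith
          · filter_upwards [eventually_ge_atTop 1] with n hn
            have hn0 : (0 : ℝ) < n := by exact_mod_cast hn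
            have h3 := Int.floor_le ((n : ℝ) * t)
            rw [div_le_iff₀ hn0]
            linarith
        refine hlim.congr' ?_
        obtain ⟨N, hN⟩ := exists_nat_ge (|t| + 1)
        filter_upwards [eventually_ge_atTop (max N 1)] with n hn
        have hn1 : 1 ≤ n := (le_max_right _ _).trans hn
        have hnN : N ≤ n := (le_max_left _ _).trans hn
        have hnr : |t| + 1 ≤ (n : ℝ) := hN.trans (by exact_mod_cast hnN)
        have hn1r : (1 : ℝ) ≤ n := by exact_mod_cast hn1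
        rw [indicator_of_mem]
        unfold Riem_S
        simp only [mem_iUnion]
        refine ⟨⌊(n : ℝ) * t⌋, ?_, (Riem_mem hn1 _ _).mpr rfl⟩
        rw [Finset.mem_Icc]
        have h1 := abs_le.mp (le_refl |t|)
        constructor
        · rw [Int.le_floor]
          push_cast
          nlinarith
        · have h3 : ⌊(n : ℝ) * t⌋ ≤ ((n : ℤ) ^ 2) := by
            have h4 : (⌊(n : ℝ) * t⌋ : ℝ) ≤ (((n : ℤ) ^ 2 : ℤ) : ℝ) := by
              refine (Int.floor_le _).trans ?_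
              push_cast
              nlinarith
            exact_mod_cast h4
          exact h3
    refine key.congr' ?_
    filter_upwards [eventually_ge_atTop 1] with n hn
    exact (Riem_sum Φ hn x).symm
  · rcases Nat.eq_zero_or_pos n with rfl | hn
    · simp only [Nat.cast_zero, inv_zero, zero_mul, abs_zero]
      exact integral_nonneg fun t => by positivity
    · rw [Riem_sum Φ hn x, ← Real.norm_eq_abs]
      refine (norm_integral_le_of_norm_le (hbint x)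
        (Eventually.of_forall fun t => hind hn x t)).trans (le_of_eq ?_)
      exact integral_sub_left_eq_self (fun t => C * Real.exp c * Real.exp (-(c * |t|))) volume x

end Pool.Agent.Work.MP_440970_an

end

section

/-!
# [E2] Approximation of pairs by step functions on equal cubes
-/

open MeasureTheory Complex Set Filter Topology
open scoped ENNReal ComplexConjugate

namespace Pool.Agent.Work.MP_440970_an

lemma StepF_enorm (p : ℝ) (hp : 0 ≤ p) (a : ℂ) : ‖a‖ₑ ^ p = ENNReal.ofReal (‖a‖ ^ p) := by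
  rw [← ofReal_norm, ENNReal.ofReal_rpow_of_nonneg (norm_nonneg _) hp]

lemma StepF_approx (p : ℝ) (hp : 0 < p) (f : ℂ → ℂ) (hf : Measurable f) (hfin : np p f < ⊤)
    (δ : ℝ≥0∞) (hδ : δ ≠ 0) :
    ∃ g : ℂ → ℂ, Continuous g ∧ HasCompactSupport g ∧ np p (fun z => f z - g z) ≤ δ := by
  have hp0 : ENNReal.ofReal p ≠ 0 := by
    rw [Ne, ENNReal.ofReal_eq_zero, not_le]; exact hp
  have hpt : ENNReal.ofReal p ≠ ⊤ := ENNReal.ofReal_ne_top
  have hpr : (ENNReal.ofReal p).toReal = p := ENNReal.toReal_ofReal hp.le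
  have hm : MemLp f (ENNReal.ofReal p) volume := by
    refine ⟨hf.aestronglyMeasurable, ?_⟩
    rw [eLpNorm_eq_lintegral_rpow_enorm_toReal hp0 hpt, hpr]
    exact ENNReal.rpow_lt_top_of_nonneg (by positivity) hfin.ne
  have hδ' : δ ^ (1 / p) ≠ 0 := by
    intro h
    rw [ENNReal.rpow_eq_zero_iff] at h
    rcases h with ⟨h, -⟩ | ⟨-, h⟩
    · exact hδ h
    · have : 0 < 1 / p := by positivity
      linarith
  obtain ⟨g, h1, h2, h3, -⟩ := hm.exists_hasCompactSupport_eLpNorm_sub_le hpt hδ'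
  refine ⟨g, h3, h1, ?_⟩
  rw [eLpNorm_eq_lintegral_rpow_enorm_toReal hp0 hpt, hpr] at h2
  exact (ENNReal.rpow_le_rpow_iff (by positivity)).1 h2

/-- the grid point -/
noncomputable def StepF_pt (l : ℝ) (k : ℤ × ℤ) : ℂ := ⟨2 * l * k.1, 2 * l * k.2⟩

lemma StepF_floor {l x : ℝ} (hl : 0 < l) (k : ℤ) :
    x - 2 * l * k ∈ Ico (-l) l ↔ ⌊(x + l) / (2 * l)⌋ = k := by
  rw [Int.floor_eq_iff, mem_Ico, le_div_iff₀ (by positivity), div_lt_iff₀ (by positivity)]
  constructor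
  · rintro ⟨h1, h2⟩; constructor <;> nlinarith
  · rintro ⟨h1, h2⟩; constructor <;> nlinarith

lemma StepF_mem {l : ℝ} (hl : 0 < l) (k : ℤ × ℤ) (z : ℂ) :
    z ∈ Cube (StepF_pt l k) l ↔ ⌊(z.re + l) / (2 * l)⌋ = k.1 ∧ ⌊(z.im + l) / (2 * l)⌋ = k.2 := by
  rw [← StepF_floor hl, ← StepF_floor hl]
  rfl

/-- the grid -/
noncomputable def StepF_grid (l : ℝ) (n : ℤ) : Finset ℂ :=
  (Finset.Icc (-n) n ×ˢ Finset.Icc (-n) n).image (StepF_pt l)

lemma StepF_disj {l : ℝ} (hl : 0 < l) (n : ℤ) : ∀ c ∈ StepF_grid l n, ∀ c' ∈ StepF_grid l n,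
    c ≠ c' → Disjoint (Cube c l) (Cube c' l) := by
  intro c hc c' hc' hne
  obtain ⟨k, -, rfl⟩ := Finset.mem_image.1 hc
  obtain ⟨k', -, rfl⟩ := Finset.mem_image.1 hc'
  rw [Set.disjoint_left]
  intro z hz hz'
  rw [StepF_mem hl] at hz hz'
  apply hne
  have : k = k' := Prod.ext (hz.1.symm.trans hz'.1) (hz.2.symm.trans hz'.2)
  rw [this]

/-- the step function -/
noncomputable def StepF_st (l : ℝ) (n : ℤ) (v : ℂ → ℂ × ℂ) (z : ℂ) : ℂ × ℂ :=
  ∑ c ∈ StepF_grid l n, (Cube c l).indicator (fun _ => v c) z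

lemma StepF_st_mem {l : ℝ} (hl : 0 < l) (n : ℤ) (v : ℂ → ℂ × ℂ) {z c : ℂ}
    (hc : c ∈ StepF_grid l n) (hz : z ∈ Cube c l) : StepF_st l n v z = v c := by
  unfold StepF_st
  rw [Finset.sum_eq_single c, indicator_of_mem hz]
  · intro c' hc' hne
    exact indicator_of_notMem (fun h => Set.disjoint_left.1
      (StepF_disj hl n c' hc' c hc hne) h hz) _
  · intro h
    exact absurd hc h

lemma StepF_st_zero {l : ℝ} (n : ℤ) (v : ℂ → ℂ × ℂ) {z : ℂ}
    (h : ∀ c ∈ StepF_grid l n, z ∉ Cube c l) : StepF_st l n v z = 0 := by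
  unfold StepF_st
  exact Finset.sum_eq_zero fun c hc => indicator_of_notMem (h c hc) _

lemma StepF_dist {c z : ℂ} {l : ℝ} (h : z ∈ Cube c l) : ‖z - c‖ ≤ 2 * l := by
  have h1 := Complex.norm_le_abs_re_add_abs_im (z - c)
  have h2 : |(z - c).re| ≤ l := by
    rw [Complex.sub_re]; exact abs_le.2 ⟨h.1.1, h.1.2.le⟩
  have h3 : |(z - c).im| ≤ l := by
    rw [Complex.sub_im]; exact abs_le.2 ⟨h.2.1, h.2.2.le⟩
  linarith

/-- pointwise error of one component -/
lemma StepF_err {g : ℂ → ℂ} {R ε δ l : ℝ} {n : ℤ} (hl : 0 < l) (hl1 : l ≤ 1) (hlδ : 2 * l < δ)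
    (hR : 0 < R) (hε : 0 < ε) (hg : ∀ z, R ≤ ‖z‖ → g z = 0)
    (hu : ∀ a b, dist a b < δ → dist (g a) (g b) < ε)
    (hn : (R + 1) / (2 * l) ≤ n) (hn' : (n : ℝ) ≤ (R + 1) / (2 * l) + 1)
    (v : ℂ → ℂ × ℂ) (π : ℂ × ℂ → ℂ) (hπ0 : π 0 = 0) (hπ : ∀ c, π (v c) = g c) (z : ℂ) :
    ‖g z - π (StepF_st l n v z)‖ ≤ ε ∧
      (2 * R + 8 < ‖z‖ → g z - π (StepF_st l n v z) = 0) := by
  have hl2 : 0 < 2 * l := by positivity
  by_cases hex : ∃ c ∈ StepF_grid l n, z ∈ Cube c l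
  · obtain ⟨c, hc, hz⟩ := hex
    rw [StepF_st_mem hl n v hc hz, hπ]
    have hd := StepF_dist hz
    constructor
    · have := hu z c (by rw [dist_eq_norm]; linarith)
      rw [dist_eq_norm] at this
      exact this.le
    · intro hbig
      exfalso
      obtain ⟨k, hk, rfl⟩ := Finset.mem_image.1 hc
      rw [Finset.mem_product, Finset.mem_Icc, Finset.mem_Icc] at hk
      have hk1 : |(k.1 : ℝ)| ≤ n := abs_le.2 ⟨by exact_mod_cast hk.1.1, by exact_mod_cast hk.1.2⟩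
      have hk2 : |(k.2 : ℝ)| ≤ n := abs_le.2 ⟨by exact_mod_cast hk.2.1, by exact_mod_cast hk.2.2⟩
      have hln : 2 * l * n ≤ R + 1 + 2 * l := by
        have h1 : 2 * l * n ≤ 2 * l * ((R + 1) / (2 * l) + 1) :=
          mul_le_mul_of_nonneg_left hn' hl2.le
        have h2 : 2 * l * ((R + 1) / (2 * l) + 1) = R + 1 + 2 * l := by field_simp
        linarith
      have hc1 : ‖StepF_pt l k‖ ≤ 2 * (R + 1 + 2 * l) := by
        have h1 := Complex.norm_le_abs_re_add_abs_im (StepF_pt l k)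
        have h2 : |(StepF_pt l k).re| ≤ R + 1 + 2 * l := by
          show |2 * l * (k.1 : ℝ)| ≤ _
          rw [abs_mul, abs_of_pos hl2]
          exact (mul_le_mul_of_nonneg_left hk1 hl2.le).trans hln
        have h3 : |(StepF_pt l k).im| ≤ R + 1 + 2 * l := by
          show |2 * l * (k.2 : ℝ)| ≤ _
          rw [abs_mul, abs_of_pos hl2]
          exact (mul_le_mul_of_nonneg_left hk2 hl2.le).trans hln
        linarith
      have h4 : ‖z‖ ≤ ‖z - StepF_pt l k‖ + ‖StepF_pt l k‖ := by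
        calc ‖z‖ = ‖z - StepF_pt l k + StepF_pt l k‖ := by rw [sub_add_cancel]
          _ ≤ _ := norm_add_le _ _
      linarith
  · have hno : ∀ c ∈ StepF_grid l n, z ∉ Cube c l := fun c hc h => hex ⟨c, hc, h⟩
    rw [StepF_st_zero n v hno, hπ0, sub_zero]
    have hz : R ≤ ‖z‖ := by
      by_contra hlt
      rw [not_le] at hlt
      have key : ∀ x : ℝ, |x| ≤ ‖z‖ → -n ≤ ⌊(x + l) / (2 * l)⌋ ∧ ⌊(x + l) / (2 * l)⌋ ≤ n := by
        intro x hx
        have h1 := (StepF_floor (x := x) hl ⌊(x + l) / (2 * l)⌋).2 rfl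
        set k : ℤ := ⌊(x + l) / (2 * l)⌋ with hk
        have hx' := abs_le.1 hx
        have h2 : 2 * l * (k : ℝ) ≤ R + 1 := by linarith [h1.1]
        have h3 : -(R + 1) ≤ 2 * l * (k : ℝ) := by linarith [h1.2]
        have h4 : (k : ℝ) ≤ (R + 1) / (2 * l) := by
          rw [le_div_iff₀ hl2]; linarith
        have h5 : -((R + 1) / (2 * l)) ≤ (k : ℝ) := by
          rw [← neg_div, div_le_iff₀ hl2]; linarith
        constructor
        · have : (-(n : ℝ)) ≤ k := by linarith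
          exact_mod_cast this
        · have : (k : ℝ) ≤ n := by linarith
          exact_mod_cast this
      have hk1 := key z.re (Complex.abs_re_le_norm z)
      have hk2 := key z.im (Complex.abs_im_le_norm z)
      refine hno (StepF_pt l (⌊(z.re + l) / (2 * l)⌋, ⌊(z.im + l) / (2 * l)⌋)) ?_ ?_
      · refine Finset.mem_image_of_mem _ ?_
        rw [Finset.mem_product, Finset.mem_Icc, Finset.mem_Icc]
        exact ⟨hk1, hk2⟩
      · rw [StepF_mem hl]
        exact ⟨rfl, rfl⟩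
    rw [hg z hz]
    exact ⟨by rw [norm_zero]; exact hε.le, fun _ => rfl⟩

/-- [E2]. -/
theorem claimStep (hQ : ClaimQ2) : ClaimStep := by
  intro p hp hp1 E hE hfin η hη
  obtain ⟨hq0, -, -, hq⟩ := hQ p hp hp1
  have hE1 : Measurable (fun z => (E z).1) := hE.fst
  have hE2 : Measurable (fun z => (E z).2) := hE.snd
  have hf1 : np p (fun z => (E z).1) < ⊤ := by
    refine lt_of_le_of_lt (lintegral_mono fun z => ?_) hfin
    rw [StepF_enorm p hp.le]
    exact ENNReal.ofReal_le_ofReal (hq _ _).1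
  have hf2 : np p (fun z => (E z).2) < ⊤ := by
    refine lt_of_le_of_lt (lintegral_mono fun z => ?_) hfin
    rw [StepF_enorm p hp.le]
    exact ENNReal.ofReal_le_ofReal (hq _ _).2.1
  -- the small quantities
  set t : ℝ≥0∞ := min η 1 / 4 with ht
  have hm0 : min η 1 ≠ 0 := (lt_min hη one_pos).ne'
  have hmt : min η 1 ≠ ⊤ := ne_top_of_le_ne_top ENNReal.one_ne_top (min_le_right _ _)
  have ht0 : t ≠ 0 := (ENNReal.div_pos hm0 (by norm_num)).ne'
  have htt : t ≠ ⊤ := ENNReal.div_ne_top hmt (by norm_num)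
  have h4t : 4 * t ≤ η := by
    rw [ht, ENNReal.mul_div_cancel (by norm_num) (by norm_num)]
    exact min_le_left _ _
  obtain ⟨g1, hc1, hs1, ha1⟩ := StepF_approx p hp _ hE1 hf1 t ht0
  obtain ⟨g2, hc2, hs2, ha2⟩ := StepF_approx p hp _ hE2 hf2 t ht0
  obtain ⟨R1, hR1, hz1⟩ := hs1.exists_pos_le_norm
  obtain ⟨R2, hR2, hz2⟩ := hs2.exists_pos_le_norm
  set R : ℝ := max R1 R2 with hRdef
  have hR : 0 < R := lt_max_of_lt_left hR1
  set V : ℝ≥0∞ := volume (Metric.closedBall (0 : ℂ) (2 * R + 8)) with hV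
  have hVt : V ≠ ⊤ := (measure_closedBall_lt_top (μ := (volume : Measure ℂ))).ne
  set x : ℝ≥0∞ := t / (V + 1) with hx
  have hx0 : x ≠ 0 := (ENNReal.div_pos ht0 (ENNReal.add_ne_top.2 ⟨hVt, ENNReal.one_ne_top⟩)).ne'
  have hxt : x ≠ ⊤ := ENNReal.div_ne_top htt (by positivity)
  have hxV : x * V ≤ t := by
    calc x * V ≤ x * (V + 1) := by gcongr; exact le_self_add
      _ = t := ENNReal.div_mul_cancel (by positivity) (ENNReal.add_ne_top.2 ⟨hVt, ENNReal.one_ne_top⟩)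
  have hip : 0 < 1 / p := by positivity
  have hy0 : x ^ (1 / p) ≠ 0 := by
    intro h
    rw [ENNReal.rpow_eq_zero_iff] at h
    rcases h with ⟨h, -⟩ | ⟨-, h⟩
    · exact hx0 h
    · linarith
  have hyt : x ^ (1 / p) ≠ ⊤ := ENNReal.rpow_ne_top_of_nonneg hip.le hxt
  set ε : ℝ := (x ^ (1 / p)).toReal with hε
  have hε0 : 0 < ε := ENNReal.toReal_pos hy0 hyt
  have hεx : ENNReal.ofReal ε ^ p = x := by
    rw [hε, ENNReal.ofReal_toReal hyt, ← ENNReal.rpow_mul, one_div, inv_mul_cancel₀ hp.ne',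
      ENNReal.rpow_one]
  obtain ⟨δ1, hδ1, hu1⟩ := Metric.uniformContinuous_iff.1
    (hs1.uniformContinuous_of_continuous hc1) ε hε0
  obtain ⟨δ2, hδ2, hu2⟩ := Metric.uniformContinuous_iff.1
    (hs2.uniformContinuous_of_continuous hc2) ε hε0
  set l : ℝ := min (min δ1 δ2 / 4) 1 with hl
  have hl0 : 0 < l := lt_min (by positivity) one_pos
  have hl1 : l ≤ 1 := min_le_right _ _
  have hlδ : 2 * l < min δ1 δ2 := by
    have h1 : l ≤ min δ1 δ2 / 4 := min_le_left _ _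
    have h2 : 0 < min δ1 δ2 := lt_min hδ1 hδ2
    linarith
  set n : ℤ := ⌈(R + 1) / (2 * l)⌉ with hn
  have hn1 : (R + 1) / (2 * l) ≤ n := Int.le_ceil _
  have hn2 : (n : ℝ) ≤ (R + 1) / (2 * l) + 1 := (Int.ceil_lt_add_one _).le
  let v : ℂ → ℂ × ℂ := fun c => (g1 c, g2 c)
  have e1 : ∀ z, _ := fun z => StepF_err (g := g1) (δ := min δ1 δ2) hl0 hl1 hlδ hR hε0
    (fun z hz => hz1 z ((le_max_left _ _).trans hz))
    (fun a b hab => hu1 (lt_of_lt_of_le hab (min_le_left _ _))) hn1 hn2 v Prod.fst rfl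
    (fun c => rfl) z
  have e2 : ∀ z, _ := fun z => StepF_err (g := g2) (δ := min δ1 δ2) hl0 hl1 hlδ hR hε0
    (fun z hz => hz2 z ((le_max_right _ _).trans hz))
    (fun a b hab => hu2 (lt_of_lt_of_le hab (min_le_right _ _))) hn1 hn2 v Prod.snd rfl
    (fun c => rfl) z
  refine ⟨l, StepF_grid l n, v, hl0, StepF_disj hl0 n, ?_⟩
  set S : ℂ → ℂ × ℂ := StepF_st l n v with hS
  let J : ℂ → ℝ≥0∞ := (Metric.closedBall (0 : ℂ) (2 * R + 8)).indicator (fun _ => x)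
  have hJ : ∫⁻ z, J z = x * V := by
    rw [lintegral_indicator measurableSet_closedBall, setLIntegral_const]
  have hb : ∀ (a : ℂ) (z : ℂ), ‖a‖ ≤ ε → (2 * R + 8 < ‖z‖ → a = 0) → ‖a‖ₑ ^ p ≤ J z := by
    intro a z h1 h2
    by_cases hz : z ∈ Metric.closedBall (0 : ℂ) (2 * R + 8)
    · show _ ≤ (Metric.closedBall (0 : ℂ) (2 * R + 8)).indicator (fun _ => x) z
      rw [indicator_of_mem hz, ← hεx, ← ofReal_norm]
      exact ENNReal.rpow_le_rpow (ENNReal.ofReal_le_ofReal h1) hp.le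
    · rw [mem_closedBall_zero_iff, not_le] at hz
      rw [h2 hz, enorm_zero, ENNReal.zero_rpow_of_pos hp]
      exact zero_le
  have hpt : ∀ z, ENNReal.ofReal (q2 p (E z - S z).1 (E z - S z).2) ≤
      (‖(E z).1 - g1 z‖ₑ ^ p + J z) + (‖(E z).2 - g2 z‖ₑ ^ p + J z) := by
    intro z
    have h1 : ‖(E z).1 - (S z).1‖ₑ ^ p ≤ ‖(E z).1 - g1 z‖ₑ ^ p + J z := by
      have h3 : (E z).1 - (S z).1 = ((E z).1 - g1 z) + (g1 z - (S z).1) := by ring
      rw [h3]
      refine (ENNReal.rpow_le_rpow (enorm_add_le _ _) hp.le).trans ?_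
      refine (ENNReal.rpow_add_le_add_rpow _ _ hp.le hp1.le).trans ?_
      gcongr
      exact hb _ z (e1 z).1 (e1 z).2
    have h2 : ‖(E z).2 - (S z).2‖ₑ ^ p ≤ ‖(E z).2 - g2 z‖ₑ ^ p + J z := by
      have h3 : (E z).2 - (S z).2 = ((E z).2 - g2 z) + (g2 z - (S z).2) := by ring
      rw [h3]
      refine (ENNReal.rpow_le_rpow (enorm_add_le _ _) hp.le).trans ?_
      refine (ENNReal.rpow_add_le_add_rpow _ _ hp.le hp1.le).trans ?_
      gcongr
      exact hb _ z (e2 z).1 (e2 z).2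
    calc ENNReal.ofReal (q2 p (E z - S z).1 (E z - S z).2)
        ≤ ENNReal.ofReal (‖(E z - S z).1‖ ^ p + ‖(E z - S z).2‖ ^ p) :=
          ENNReal.ofReal_le_ofReal (hq _ _).2.2
      _ = ‖(E z).1 - (S z).1‖ₑ ^ p + ‖(E z).2 - (S z).2‖ₑ ^ p := by
          rw [ENNReal.ofReal_add (by positivity) (by positivity), ← StepF_enorm p hp.le,
            ← StepF_enorm p hp.le]
          rfl
      _ ≤ _ := add_le_add h1 h2
  have hA : Measurable (fun z => ‖(E z).1 - g1 z‖ₑ ^ p) :=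
    ((hE1.sub hc1.measurable).enorm).pow_const p
  have hB : Measurable (fun z => ‖(E z).2 - g2 z‖ₑ ^ p) :=
    ((hE2.sub hc2.measurable).enorm).pow_const p
  have hJm : Measurable J := measurable_const.indicator measurableSet_closedBall
  have hAJ : Measurable (fun z => ‖(E z).1 - g1 z‖ₑ ^ p + J z) := hA.add hJm
  calc cost p (fun z => E z - ∑ c ∈ StepF_grid l n, (Cube c l).indicator (fun _ => v c) z)
      = ∫⁻ z, ENNReal.ofReal (q2 p (E z - S z).1 (E z - S z).2) := rfl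
    _ ≤ ∫⁻ z, (‖(E z).1 - g1 z‖ₑ ^ p + J z) + (‖(E z).2 - g2 z‖ₑ ^ p + J z) := lintegral_mono hpt
    _ = (np p (fun z => (E z).1 - g1 z) + x * V) + (np p (fun z => (E z).2 - g2 z) + x * V) := by
        rw [lintegral_add_left hAJ, lintegral_add_left hA, lintegral_add_left hB, hJ]
        rfl
    _ ≤ (t + t) + (t + t) := by gcongr
    _ = 4 * t := by ring
    _ ≤ η := h4t

end Pool.Agent.Work.MP_440970_an

end
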