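import Pool.Agent.Work.MP_440970_an.Bd.B01

/-! Bundle of small proof modules (one section per former module). -/

section

/-!
# [A3] expansion of `|1-w|^{-1}` and of `K (1-w)`
-/

open MeasureTheory Complex Set Filter Topology
open scoped ENNReal ComplexConjugate

namespace Pool.Agent.Work.MP_440970_an

theorem TaylorK_split (n : ℕ) : ∀ f : ℂ → ℂ, DifferentiableOn ℂ f (Metric.ball 0 1) →
    ∃ (q : Polynomial ℂ) (r : ℂ → ℂ), (∀ i, n ≤ i → q.coeff i = 0) ∧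
      DifferentiableOn ℂ r (Metric.ball 0 1) ∧ ∀ w, f w = q.eval w + w ^ n * r w := by
  induction n with
  | zero => exact fun f hf => ⟨0, f, fun i _ => by simp, hf, fun w => by simp⟩
  | succ n ih =>
    intro f hf
    obtain ⟨q, r, hq, hr, h⟩ := ih (dslope f 0)
      ((Complex.differentiableOn_dslope (Metric.ball_mem_nhds 0 zero_lt_one)).2 hf)
    refine ⟨Polynomial.C (f 0) + Polynomial.X * q, r, ?_, hr, fun w => ?_⟩
    · intro i hi
      obtain ⟨j, rfl⟩ : ∃ j, i = j + 1 := ⟨i - 1, by omega⟩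
      rw [Polynomial.coeff_add, Polynomial.coeff_X_mul, hq j (by omega),
        Polynomial.coeff_C_of_ne_zero (by omega), add_zero]
    · have h1 := sub_smul_dslope f 0 w
      rw [sub_zero, smul_eq_mul, h w] at h1
      simp only [Polynomial.eval_add, Polynomial.eval_C, Polynomial.eval_mul, Polynomial.eval_X]
      rw [pow_succ]
      linear_combination -h1

theorem TaylorK_eval (m : ℕ) (q : Polynomial ℂ) (hq : ∀ i, m + 1 ≤ i → q.coeff i = 0) (w : ℂ) :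
    q.eval w = ∑ i : Fin (m + 1), q.coeff i * w ^ (i : ℕ) := by
  rw [Polynomial.eval_eq_sum_range' (n := m + 1) _ w, ← Fin.sum_univ_eq_sum_range
    (fun i => q.coeff i * w ^ i)]
  rw [Nat.lt_succ_iff, Polynomial.natDegree_le_iff_coeff_eq_zero]
  exact fun i hi => hq i hi

theorem TaylorK_mem (m : ℕ) (q p : Polynomial ℂ) (hq : ∀ i, m + 1 ≤ i → q.coeff i = 0)
    (hp : ∀ i, m + 1 ≤ i → p.coeff i = 0) (c : ℂ) :
    (fun w : ℂ => c * (q.eval w * conj (p.eval w))) ∈ Pol m := by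
  have h : (fun w : ℂ => c * (q.eval w * conj (p.eval w))) =
      ∑ i : Fin (m + 1), ∑ j : Fin (m + 1), (c * (q.coeff i * conj (p.coeff j))) •
        (fun a : ℂ => a ^ (i : ℕ) * conj a ^ (j : ℕ)) := by
    funext w
    rw [TaylorK_eval m q hq, TaylorK_eval m p hp, map_sum, Finset.sum_mul_sum, Finset.mul_sum,
      Finset.sum_apply]
    refine Finset.sum_congr rfl fun i _ => ?_
    rw [Finset.mul_sum, Finset.sum_apply]
    refine Finset.sum_congr rfl fun j _ => ?_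
    rw [Pi.smul_apply, smul_eq_mul, map_mul, map_pow]
    ring
  rw [h]
  exact Submodule.sum_mem _ fun i _ => Submodule.sum_mem _ fun j _ =>
    Submodule.smul_mem _ _ (Submodule.subset_span ⟨(i, j), rfl⟩)

theorem TaylorK_dbar (q : Polynomial ℂ) (w : ℂ) :
    dbar2 (fun w : ℂ => 1 * (q.eval w * conj (q.eval w))) w =
      2 * (q.eval w * conj (q.derivative.eval w)) := by
  have h1 : HasFDerivAt (fun w : ℂ => q.eval w)
      ((ContinuousLinearMap.toSpanSingleton ℂ (q.derivative.eval w)).restrictScalars ℝ) w :=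
    (q.hasDerivAt w).hasFDerivAt.restrictScalars ℝ
  have h2 : HasFDerivAt (fun w : ℂ => conj (q.eval w))
      ((Complex.conjCLE : ℂ →L[ℝ] ℂ).comp
        ((ContinuousLinearMap.toSpanSingleton ℂ (q.derivative.eval w)).restrictScalars ℝ)) w :=
    (Complex.conjCLE : ℂ →L[ℝ] ℂ).hasFDerivAt.comp w h1
  have h3 := (h1.mul h2).const_mul (1 : ℂ)
  have h4 : fderiv ℝ (fun w : ℂ => 1 * (q.eval w * conj (q.eval w))) w = _ := h3.fderiv
  unfold dbar2
  rw [h4]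
  simp only [_root_.smul_apply, _root_.add_apply, smul_eq_mul,
    ContinuousLinearMap.comp_apply, ContinuousLinearMap.coe_restrictScalars',
    ContinuousLinearMap.toSpanSingleton_apply, ContinuousLinearEquiv.coe_coe,
    Complex.conjCLE_apply, map_mul, map_one, Complex.conj_I]
  linear_combination (conj (Polynomial.eval w q) * Polynomial.eval w (Polynomial.derivative q) -
    Polynomial.eval w q * conj (Polynomial.eval w (Polynomial.derivative q))) * Complex.I_sq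

theorem TaylorK_bdd (f : ℂ → ℂ) (hf : DifferentiableOn ℂ f (Metric.ball 0 1)) :
    ∃ M, 0 ≤ M ∧ ∀ w : ℂ, ‖w‖ ≤ 1 / 2 → ‖f w‖ ≤ M := by
  have h1 : ContinuousOn f (Metric.closedBall 0 (1 / 2)) :=
    hf.continuousOn.mono (Metric.closedBall_subset_ball (by norm_num))
  obtain ⟨M, hM⟩ := (isCompact_closedBall (0 : ℂ) (1 / 2)).exists_bound_of_continuousOn h1
  refine ⟨M, (norm_nonneg _).trans (hM 0 (by simp)), fun w hw => hM w ?_⟩
  rwa [mem_closedBall_zero_iff]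

theorem claimTaylor : ClaimTaylor := by
  intro m
  have hslit : ∀ w : ℂ, ‖w‖ < 1 → 1 - w ∈ slitPlane := fun w hw => by
    refine Or.inl ?_
    have h1 := (abs_le.1 (Complex.abs_re_le_norm w)).2
    rw [Complex.sub_re, Complex.one_re]
    linarith
  set g : ℂ → ℂ := fun w => (1 - w) ^ (-(1 / 2) : ℂ) with hg
  have hgd : ∀ w : ℂ, ‖w‖ < 1 → HasDerivAt g (1 / 2 * (g w / (1 - w))) w := fun w hw => by
    have h1 : HasDerivAt (fun w : ℂ => 1 - w) (-1) w := by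
      simpa using (hasDerivAt_id w).const_sub 1
    have h2 := h1.cpow_const (c := (-(1 / 2) : ℂ)) (hslit w hw)
    have h0 : (1 - w) ≠ 0 := slitPlane_ne_zero (hslit w hw)
    rw [Complex.cpow_sub _ _ h0, Complex.cpow_one] at h2
    convert h2 using 1
    rw [hg]
    ring
  have hgdiff : DifferentiableOn ℂ g (Metric.ball 0 1) := fun w hw =>
    (hgd w (mem_ball_zero_iff.1 hw)).differentiableAt.differentiableWithinAt
  obtain ⟨q, r, hq, hr, hsplit⟩ := TaylorK_split (m + 1) g hgdiff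
  have hq' : ∀ i, m + 1 ≤ i → q.derivative.coeff i = 0 := fun i hi => by
    rw [Polynomial.coeff_derivative, hq (i + 1) (by omega), zero_mul]
  have hr' : DifferentiableOn ℂ (deriv r) (Metric.ball 0 1) := hr.deriv Metric.isOpen_ball
  obtain ⟨M1, hM1, b1⟩ := TaylorK_bdd g hgdiff
  obtain ⟨M2, hM2, b2⟩ := TaylorK_bdd (fun w => q.eval w) q.differentiable.differentiableOn
  obtain ⟨M3, hM3, b3⟩ := TaylorK_bdd r hr
  obtain ⟨M4, hM4, b4⟩ := TaylorK_bdd (deriv r) hr'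
  obtain ⟨M5, hM5, b5⟩ := TaylorK_bdd (deriv g) (hgdiff.deriv Metric.isOpen_ball)
  refine ⟨fun w : ℂ => 1 * (q.eval w * conj (q.eval w)), TaylorK_mem m q q hq hq 1,
    fun w : ℂ => 2 * (q.eval w * conj (q.derivative.eval w)),
    TaylorK_mem m q q.derivative hq hq' 2,
    1 + (M3 * M1 + M2 * M3) + 2 * (M3 * M5 + M2 * ((m + 1) * M3 + M4)), by positivity,
    fun w => TaylorK_dbar q w, fun w hw => ?_⟩
  have hw1 : ‖w‖ < 1 := by linarith
  have h0 : (1 - w) ≠ 0 := slitPlane_ne_zero (hslit w hw1)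
  have hgw := hgd w hw1
  -- the value of `g` and of its derivative
  have e1 : (‖1 - w‖ : ℂ)⁻¹ = g w * conj (g w) := by
    rw [Complex.mul_conj, Complex.normSq_eq_norm_sq]
    have h1 : ‖g w‖ = ‖1 - w‖ ^ (-(1 / 2) : ℝ) := by
      have h2 := Complex.norm_cpow_real (1 - w) (-(1 / 2))
      rw [← h2]
      simp only [hg]
      norm_num
    have h3 : ‖g w‖ ^ 2 = ‖1 - w‖⁻¹ := by
      rw [h1, ← Real.rpow_natCast, ← Real.rpow_mul (norm_nonneg _), ← Real.rpow_neg_one]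
      norm_num
    rw [h3, Complex.ofReal_inv]
  have e2 : K (1 - w) = 2 * (g w * conj (deriv g w)) := by
    rw [hgw.deriv]
    have h1 : 2 * (g w * conj (1 / 2 * (g w / (1 - w)))) = (g w * conj (g w)) / conj (1 - w) := by
      rw [map_mul, map_div₀, map_div₀, map_one]
      have h2 : conj (2 : ℂ) = 2 := by
        rw [show (2 : ℂ) = ((2 : ℝ) : ℂ) by norm_num, Complex.conj_ofReal]
      rw [h2]
      ring
    rw [h1, ← e1]
    have h3 : conj (1 - w) ≠ 0 := by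
      rw [Ne, map_eq_zero]
      exact h0
    have h4 : (‖1 - w‖ : ℂ) ≠ 0 := by
      rw [Ne, Complex.ofReal_eq_zero, norm_eq_zero]
      exact h0
    have h5 : (1 - w) * conj (1 - w) = (‖1 - w‖ : ℂ) ^ 2 := by
      rw [Complex.mul_conj, Complex.normSq_eq_norm_sq, Complex.ofReal_pow]
    unfold K
    rw [div_eq_div_iff (pow_ne_zero _ h4) h3, h5]
    field_simp
  have e3 : deriv g w = q.derivative.eval w + w ^ m * ((m + 1) * r w + w * deriv r w) := by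
    have h1 : HasDerivAt (fun w : ℂ => q.eval w + w ^ (m + 1) * r w)
        (q.derivative.eval w + (((m + 1 : ℕ) : ℂ) * w ^ m * r w + w ^ (m + 1) * deriv r w)) w := by
      have h2 : HasDerivAt (fun w : ℂ => w ^ (m + 1)) (((m + 1 : ℕ) : ℂ) * w ^ m) w := by
        simpa using hasDerivAt_pow (m + 1) w
      have h3 : HasDerivAt r (deriv r w) w :=
        (hr.differentiableAt (Metric.isOpen_ball.mem_nhds (mem_ball_zero_iff.2 hw1))).hasDerivAt
      exact (q.hasDerivAt w).add (h2.mul h3)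
    have h4 : g = fun w : ℂ => q.eval w + w ^ (m + 1) * r w := funext hsplit
    rw [h4, h1.deriv]
    push_cast
    ring
  -- the errors
  have d1 : ‖g w - q.eval w‖ ≤ ‖w‖ ^ (m + 1) * M3 := by
    rw [hsplit w, add_sub_cancel_left, norm_mul, norm_pow]
    exact mul_le_mul_of_nonneg_left (b3 w hw) (by positivity)
  have d2 : ‖deriv g w - q.derivative.eval w‖ ≤ ‖w‖ ^ m * ((m + 1) * M3 + M4) := by
    rw [e3, add_sub_cancel_left, norm_mul, norm_pow]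
    refine mul_le_mul_of_nonneg_left ((norm_add_le _ _).trans (add_le_add ?_ ?_)) (by positivity)
    · rw [norm_mul]
      have h1 : ‖(m + 1 : ℂ)‖ = m + 1 := by
        have h2 : (m + 1 : ℂ) = ((m + 1 : ℕ) : ℂ) := by push_cast; rfl
        rw [h2, Complex.norm_natCast]
        push_cast
        rfl
      rw [h1]
      exact mul_le_mul_of_nonneg_left (b3 w hw) (by positivity)
    · rw [norm_mul]
      calc ‖w‖ * ‖deriv r w‖ ≤ 1 * M4 :=
            mul_le_mul hw1.le (b4 w hw) (norm_nonneg _) zero_le_one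
        _ = M4 := one_mul _
  constructor
  · have h1 : (‖1 - w‖ : ℂ)⁻¹ - 1 * (q.eval w * conj (q.eval w)) =
        (g w - q.eval w) * conj (g w) + q.eval w * conj (g w - q.eval w) := by
      rw [e1, map_sub]
      ring
    rw [h1]
    refine (norm_add_le _ _).trans ?_
    rw [norm_mul, norm_mul, Complex.norm_conj, Complex.norm_conj]
    have h2 : ‖g w - q.eval w‖ * ‖g w‖ ≤ (‖w‖ ^ (m + 1) * M3) * M1 :=
      mul_le_mul d1 (b1 w hw) (norm_nonneg _) (by positivity)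
    have h3 : ‖q.eval w‖ * ‖g w - q.eval w‖ ≤ M2 * (‖w‖ ^ (m + 1) * M3) :=
      mul_le_mul (b2 w hw) d1 (norm_nonneg _) hM2
    have h4 : 0 ≤ ‖w‖ ^ (m + 1) := by positivity
    have h5 : 0 ≤ ‖w‖ ^ (m + 1) * (1 + 2 * (M3 * M5 + M2 * ((m + 1) * M3 + M4))) := by positivity
    calc _ ≤ (‖w‖ ^ (m + 1) * M3) * M1 + M2 * (‖w‖ ^ (m + 1) * M3) := add_le_add h2 h3
      _ ≤ (1 + (M3 * M1 + M2 * M3) + 2 * (M3 * M5 + M2 * ((m + 1) * M3 + M4))) *
          ‖w‖ ^ (m + 1) := by linarith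
  · have h1 : K (1 - w) - 2 * (q.eval w * conj (q.derivative.eval w)) =
        2 * ((g w - q.eval w) * conj (deriv g w) +
          q.eval w * conj (deriv g w - q.derivative.eval w)) := by
      rw [e2, map_sub]
      ring
    rw [h1, norm_mul, Complex.norm_two]
    have h0' : ‖(g w - q.eval w) * conj (deriv g w) +
        q.eval w * conj (deriv g w - q.derivative.eval w)‖ ≤
        ‖g w - q.eval w‖ * ‖deriv g w‖ + ‖q.eval w‖ * ‖deriv g w - q.derivative.eval w‖ := by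
      refine (norm_add_le _ _).trans ?_
      rw [norm_mul, norm_mul, Complex.norm_conj, Complex.norm_conj]
    have h2 : ‖g w - q.eval w‖ * ‖deriv g w‖ ≤ (‖w‖ ^ m * M3) * M5 := by
      refine mul_le_mul (d1.trans ?_) ?_ (norm_nonneg _) (by positivity)
      · refine mul_le_mul_of_nonneg_right ?_ hM3
        exact pow_le_pow_of_le_one (norm_nonneg _) hw1.le (Nat.le_succ m)
      · exact b5 w hw
    have h3 : ‖q.eval w‖ * ‖deriv g w - q.derivative.eval w‖ ≤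
        M2 * (‖w‖ ^ m * ((m + 1) * M3 + M4)) :=
      mul_le_mul (b2 w hw) d2 (norm_nonneg _) hM2
    have h5 : 0 ≤ ‖w‖ ^ m * (1 + (M3 * M1 + M2 * M3)) := by positivity
    calc _ ≤ 2 * ((‖w‖ ^ m * M3) * M5 + M2 * (‖w‖ ^ m * ((m + 1) * M3 + M4))) := by
          refine mul_le_mul_of_nonneg_left (h0'.trans (add_le_add h2 h3)) zero_le_two
      _ ≤ (1 + (M3 * M1 + M2 * M3) + 2 * (M3 * M5 + M2 * ((m + 1) * M3 + M4))) *
          ‖w‖ ^ m := by linarith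

end Pool.Agent.Work.MP_440970_an

end

section

/-!
# Item A6: `bH` is bounded from the weighted `C¹` space to `L^p`
-/

open MeasureTheory Complex Set Filter Topology
open scoped ENNReal ComplexConjugate

namespace Pool.Agent.Work.MP_440970_an

/-! ### Measurability -/

lemma Wlp_K : Measurable K := by
  unfold K
  exact measurable_id.div ((Complex.measurable_ofReal.comp measurable_norm).pow_const 3)

lemma Wlp_dbar2 {h : ℂ → ℂ} (hh : ContDiff ℝ 1 h) : Continuous (dbar2 h) := by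
  have h1 : Continuous (fderiv ℝ h) := hh.continuous_fderiv one_ne_zero
  unfold dbar2
  exact (h1.clm_apply continuous_const).add (continuous_const.mul (h1.clm_apply continuous_const))

lemma Wlp_bb {h : ℂ → ℂ} (hh : ContDiff ℝ 1 h) : Measurable (bb h) := by
  unfold bb
  refine Measurable.const_mul ?_ _
  have h1 : Measurable (fun q : ℂ × ℂ => (‖q.1 - q.2‖ : ℂ)⁻¹ * dbar2 h q.2) := by
    refine Measurable.mul ?_ ((Wlp_dbar2 hh).measurable.comp measurable_snd)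
    exact (Complex.measurable_ofReal.comp (measurable_fst.sub measurable_snd).norm).inv
  exact (h1.stronglyMeasurable.integral_prod_right' (ν := volume)).measurable

lemma Wlp_bH {L : ℕ} (y : Fin L → ℂ) (φ : Fin L → ℂ → ℂ) {h : ℂ → ℂ} (hh : ContDiff ℝ 1 h) :
    Measurable (bH y φ h) := by
  unfold bH
  refine (Wlp_bb hh).sub (Measurable.const_mul ?_ _)
  refine Finset.measurable_sum _ fun l _ => ?_
  exact (Wlp_K.comp (measurable_id.sub_const _)).const_mul _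

/-! ### Integrability of the majorants -/

lemma Wlp_near {p : ℝ} (_hp : 0 < p) (hp1 : p < 1) {R : ℝ} (hR : 0 < R) :
    Integrable (fun z : ℂ => if ‖z‖ ≤ R then ((‖z‖ ^ 2)⁻¹) ^ p else 0) := by
  rw [integrable_fun_norm_addHaar (volume : Measure ℂ)
    (f := fun y : ℝ => if y ≤ R then ((y ^ 2)⁻¹) ^ p else 0), Complex.finrank_real_complex]
  have h1 : IntegrableOn (fun y : ℝ => y ^ (2 - 1) • (if y ≤ R then ((y ^ 2)⁻¹) ^ p else 0))
      (Ioc 0 R) := by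
    have h2 : IntegrableOn (fun y : ℝ => y ^ (1 - 2 * p)) (Ioc 0 R) := by
      rw [← intervalIntegrable_iff_integrableOn_Ioc_of_le hR.le]
      exact intervalIntegral.intervalIntegrable_rpow' (by linarith)
    refine IntegrableOn.congr_fun h2 (fun y hy => ?_) measurableSet_Ioc
    rw [if_pos hy.2, smul_eq_mul, Real.rpow_sub hy.1, Real.rpow_one, Real.inv_rpow (by positivity),
      Real.rpow_mul hy.1.le, show (2 : ℝ) = ((2 : ℕ) : ℝ) by norm_num, Real.rpow_natCast,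
      div_eq_mul_inv]
    norm_num
  have h2 : IntegrableOn (fun y : ℝ => y ^ (2 - 1) • (if y ≤ R then ((y ^ 2)⁻¹) ^ p else 0))
      (Ioi R) := by
    refine IntegrableOn.congr_fun (integrableOn_zero (μ := volume)) (fun y hy => ?_)
      measurableSet_Ioi
    have hy' : R < y := hy
    rw [if_neg (not_le.2 hy'), smul_zero]
  have h3 := h1.union h2
  rwa [Ioc_union_Ioi_eq_Ioi hR.le] at h3

lemma Wlp_far {p : ℝ} {m : ℕ} (hp2 : 2 < (m + 2) * p) {R : ℝ} (hR : 0 < R) :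
    Integrable (fun z : ℂ => if R ≤ ‖z‖ then ((‖z‖ ^ (m + 2))⁻¹) ^ p else 0) := by
  rw [integrable_fun_norm_addHaar (volume : Measure ℂ)
    (f := fun y : ℝ => if R ≤ y then ((y ^ (m + 2))⁻¹) ^ p else 0),
    Complex.finrank_real_complex]
  have h1 : IntegrableOn (fun y : ℝ => y ^ (2 - 1) • (if R ≤ y then ((y ^ (m + 2))⁻¹) ^ p else 0))
      (Ioi R) := by
    have h2 : IntegrableOn (fun y : ℝ => y ^ (1 - (m + 2) * p)) (Ioi R) :=
      integrableOn_Ioi_rpow_of_lt (by linarith) hR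
    refine IntegrableOn.congr_fun h2 (fun y hy => ?_) measurableSet_Ioi
    have hy' : R < y := hy
    have hy0 : 0 < y := hR.trans hy'
    rw [if_pos hy'.le, smul_eq_mul, Real.rpow_sub hy0, Real.rpow_one,
      Real.inv_rpow (by positivity), Real.rpow_mul hy0.le,
      show ((m : ℝ) + 2) = ((m + 2 : ℕ) : ℝ) by push_cast; ring, Real.rpow_natCast,
      div_eq_mul_inv]
    norm_num
  have h2 : IntegrableOn (fun y : ℝ => y ^ (2 - 1) • (if R ≤ y then ((y ^ (m + 2))⁻¹) ^ p else 0))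
      (Ioc 0 R) := by
    refine IntegrableOn.congr_fun_ae (f := fun _ => (0 : ℝ)) (integrableOn_zero (μ := volume)) ?_
    have h3 : ∀ᵐ y : ℝ ∂(volume.restrict (Ioc (0 : ℝ) R)), y ≠ R := by
      refine ae_restrict_of_ae ?_
      rw [ae_iff]
      simp
    filter_upwards [h3, ae_restrict_mem measurableSet_Ioc] with y hy1 hy
    have h4 : ¬ R ≤ y := fun h => hy1 (le_antisymm hy.2 h)
    rw [if_neg h4, smul_zero]
  have h3 := h2.union h1
  rwa [Ioc_union_Ioi_eq_Ioi hR.le] at h3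

lemma Wlp_sum_rpow {ι : Type} (s : Finset ι) (f : ι → ℝ) (hf : ∀ i ∈ s, 0 ≤ f i) {p : ℝ}
    (hp : 0 < p) (hp1 : p ≤ 1) : (∑ i ∈ s, f i) ^ p ≤ ∑ i ∈ s, f i ^ p := by
  classical
  induction s using Finset.induction_on with
  | empty => simp [Real.zero_rpow hp.ne']
  | insert i s hi ih =>
    rw [Finset.sum_insert hi, Finset.sum_insert hi]
    have h1 : 0 ≤ f i := hf i (Finset.mem_insert_self _ _)
    have h2 : 0 ≤ ∑ j ∈ s, f j := Finset.sum_nonneg fun j hj => hf j (Finset.mem_insert_of_mem hj)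
    exact (Real.rpow_add_le_add_rpow h1 h2 hp.le hp1).trans
      (by linarith [ih fun j hj => hf j (Finset.mem_insert_of_mem hj)])

/-- Item A6. -/
theorem claimW (hW : ClaimWpt) : ClaimW := by
  intro m p L y φ hN hp hp1 hp2
  obtain ⟨R, hR, C, hC, hh⟩ := hW m L y φ hN
  set W : ℂ → ℝ := fun z => (if ‖z‖ ≤ R then (1 : ℝ) else 0) +
    (∑ l, (if ‖z - y l‖ ≤ R + ‖y l‖ then ((‖z - y l‖ ^ 2)⁻¹) ^ p else 0)) +
    (if R ≤ ‖z‖ then ((‖z‖ ^ (m + 2))⁻¹) ^ p else 0) with hWdef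
  have hWint : Integrable W := by
    refine (Integrable.add ?_ (integrable_finsetSum _ fun l _ => ?_)).add (Wlp_far hp2 hR)
    · have h1 : Integrable (Set.indicator (Metric.closedBall (0 : ℂ) R) (fun _ => (1 : ℝ))) := by
        rw [integrable_indicator_iff Metric.isClosed_closedBall.measurableSet]
        exact integrableOn_const (isCompact_closedBall (0 : ℂ) R).measure_ne_top
      refine h1.congr (Eventually.of_forall fun z => ?_)
      by_cases hz : ‖z‖ ≤ R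
      · simp [Set.indicator, hz]
      · simp [Set.indicator, hz]
    · exact (Wlp_near hp hp1 (R := R + ‖y l‖) (by positivity)).comp_sub_right (y l)
  have hs0 : ∀ z : ℂ, ∀ l, 0 ≤ ((‖z - y l‖ ^ 2)⁻¹) ^ p := fun z l => Real.rpow_nonneg
    (by positivity) p
  have hW0 : ∀ z, 0 ≤ W z := by
    intro z
    have a1 : (0 : ℝ) ≤ if ‖z‖ ≤ R then (1 : ℝ) else 0 := by split_ifs <;> norm_num
    have a2 : 0 ≤ ∑ l, (if ‖z - y l‖ ≤ R + ‖y l‖ then ((‖z - y l‖ ^ 2)⁻¹) ^ p else 0) :=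
      Finset.sum_nonneg fun l _ => by split_ifs; exacts [hs0 z l, le_rfl]
    have a3 : 0 ≤ (if R ≤ ‖z‖ then ((‖z‖ ^ (m + 2))⁻¹) ^ p else 0) := by
      split_ifs
      · exact Real.rpow_nonneg (by positivity) p
      · exact le_rfl
    exact add_nonneg (add_nonneg a1 a2) a3
  have hI0 : 0 ≤ ∫ z, W z := integral_nonneg hW0
  refine ⟨C ^ p * (∫ z, W z) + 1, by positivity, ?_⟩
  intro A h hNice
  have hA0 : 0 ≤ A := le_trans (by positivity) (hNice.bd 0)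
  refine ⟨Wlp_bH y φ hNice.smooth, ?_⟩
  obtain ⟨w1, w2⟩ := hh A h hNice
  have hpt : ∀ z, ‖bH y φ h z‖ ^ p ≤ (C * A) ^ p * W z := by
    intro z
    have hCA : 0 ≤ C * A := mul_nonneg hC.le hA0
    have hCAp : 0 ≤ (C * A) ^ p := Real.rpow_nonneg hCA p
    have a1 : (0 : ℝ) ≤ if ‖z‖ ≤ R then (1 : ℝ) else 0 := by split_ifs <;> norm_num
    have a2 : 0 ≤ ∑ l, (if ‖z - y l‖ ≤ R + ‖y l‖ then ((‖z - y l‖ ^ 2)⁻¹) ^ p else 0) :=
      Finset.sum_nonneg fun l _ => by split_ifs; exacts [hs0 z l, le_rfl]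
    have a3 : 0 ≤ (if R ≤ ‖z‖ then ((‖z‖ ^ (m + 2))⁻¹) ^ p else 0) := by
      split_ifs
      · exact Real.rpow_nonneg (by positivity) p
      · exact le_rfl
    rcases le_total R ‖z‖ with hz | hz
    · have h1 : ‖bH y φ h z‖ ^ p ≤ (C * A * (‖z‖ ^ (m + 2))⁻¹) ^ p :=
        Real.rpow_le_rpow (norm_nonneg _) (w2 z hz) hp.le
      rw [Real.mul_rpow hCA (by positivity)] at h1
      refine h1.trans (mul_le_mul_of_nonneg_left ?_ hCAp)
      rw [hWdef]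
      dsimp only
      rw [if_pos hz]
      linarith
    · have h1 : ‖bH y φ h z‖ ^ p ≤ (C * A * (1 + ∑ l, (‖z - y l‖ ^ 2)⁻¹)) ^ p :=
        Real.rpow_le_rpow (norm_nonneg _) (w1 z) hp.le
      have hs : 0 ≤ ∑ l, (‖z - y l‖ ^ 2)⁻¹ := Finset.sum_nonneg fun l _ => by positivity
      rw [Real.mul_rpow hCA (by linarith)] at h1
      refine h1.trans (mul_le_mul_of_nonneg_left ?_ hCAp)
      have h2 : (1 + ∑ l, (‖z - y l‖ ^ 2)⁻¹) ^ p ≤ 1 + ∑ l, ((‖z - y l‖ ^ 2)⁻¹) ^ p := by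
        refine (Real.rpow_add_le_add_rpow zero_le_one hs hp.le hp1.le).trans ?_
        rw [Real.one_rpow]
        have := Wlp_sum_rpow Finset.univ (fun l => (‖z - y l‖ ^ 2)⁻¹)
          (fun l _ => by positivity) hp hp1.le
        linarith
      refine h2.trans ?_
      rw [hWdef]
      dsimp only
      rw [if_pos hz]
      have h3 : ∑ l, ((‖z - y l‖ ^ 2)⁻¹) ^ p =
          ∑ l, (if ‖z - y l‖ ≤ R + ‖y l‖ then ((‖z - y l‖ ^ 2)⁻¹) ^ p else 0) := by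
        refine Finset.sum_congr rfl fun l _ => ?_
        have : ‖z - y l‖ ≤ R + ‖y l‖ := (norm_sub_le _ _).trans (by linarith)
        rw [if_pos this]
      rw [h3]
      linarith
  have hWi2 : Integrable (fun z => (C * A) ^ p * W z) := hWint.const_mul _
  unfold np
  calc ∫⁻ z, ‖bH y φ h z‖ₑ ^ p
      ≤ ∫⁻ z, ENNReal.ofReal ((C * A) ^ p * W z) := by
        refine lintegral_mono fun z => ?_
        rw [← ofReal_norm, ENNReal.ofReal_rpow_of_nonneg (norm_nonneg _) hp.le]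
        exact ENNReal.ofReal_le_ofReal (hpt z)
    _ = ENNReal.ofReal (∫ z, (C * A) ^ p * W z) := by
        rw [ofReal_integral_eq_lintegral_ofReal hWi2]
        exact Eventually.of_forall fun z =>
          mul_nonneg (Real.rpow_nonneg (mul_nonneg hC.le hA0) p) (hW0 z)
    _ ≤ ENNReal.ofReal ((C ^ p * (∫ z, W z) + 1) * A ^ p) := by
        refine ENNReal.ofReal_le_ofReal ?_
        rw [integral_const_mul, Real.mul_rpow hC.le hA0]
        have : 0 ≤ A ^ p := Real.rpow_nonneg hA0 p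
        nlinarith

end Pool.Agent.Work.MP_440970_an

end

section

/-!
# [A5] pointwise bounds of `bH`
-/

open MeasureTheory Complex Set Filter Topology
open scoped ENNReal ComplexConjugate

namespace Pool.Agent.Work.MP_440970_an

/-- The weight `(1+|a|)^{-k}`. -/
noncomputable def Wpt_w (k : ℕ) (a : ℂ) : ℝ := ((1 + ‖a‖) ^ k)⁻¹

lemma Wpt_one_le (a : ℂ) : 1 ≤ 1 + ‖a‖ := by linarith [norm_nonneg a]

lemma Wpt_w_pos (k : ℕ) (a : ℂ) : 0 < Wpt_w k a := by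
  unfold Wpt_w
  have := Wpt_one_le a
  positivity

lemma Wpt_w_nonneg (k : ℕ) (a : ℂ) : 0 ≤ Wpt_w k a := (Wpt_w_pos k a).le

lemma Wpt_w_add (j k : ℕ) (a : ℂ) : Wpt_w (j + k) a = Wpt_w j a * Wpt_w k a := by
  unfold Wpt_w
  rw [pow_add, mul_inv]

lemma Wpt_w_le {j k : ℕ} (h : j ≤ k) (a : ℂ) : Wpt_w k a ≤ Wpt_w j a := by
  unfold Wpt_w
  have h1 := Wpt_one_le a
  exact inv_anti₀ (by positivity) (pow_le_pow_right₀ h1 h)

lemma Wpt_w_zero (a : ℂ) : Wpt_w 0 a = 1 := by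
  unfold Wpt_w; simp

lemma Wpt_w_le_one (k : ℕ) (a : ℂ) : Wpt_w k a ≤ 1 := by
  have := Wpt_w_le (Nat.zero_le k) a
  rwa [Wpt_w_zero] at this

lemma Wpt_w_meas (k : ℕ) : Measurable (Wpt_w k) := by
  unfold Wpt_w
  fun_prop

lemma Wpt_pow_mul (k : ℕ) (a : ℂ) : (1 + ‖a‖) ^ k * Wpt_w k a = 1 := by
  unfold Wpt_w
  have := Wpt_one_le a
  exact mul_inv_cancel₀ (by positivity)

lemma Wpt_norm_pow_mul (k : ℕ) (a : ℂ) : ‖a‖ ^ k * Wpt_w k a ≤ 1 := by
  rw [← Wpt_pow_mul k a]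
  refine mul_le_mul_of_nonneg_right ?_ (Wpt_w_nonneg k a)
  exact pow_le_pow_left₀ (norm_nonneg a) (by linarith) k

lemma Wpt_w_three (a : ℂ) : (1 + ‖a‖) ^ (-(3 : ℝ)) = Wpt_w 3 a := by
  unfold Wpt_w
  have := Wpt_one_le a
  rw [Real.rpow_neg (by linarith)]
  norm_cast

lemma Wpt_w_int {k : ℕ} (h : 3 ≤ k) : Integrable (Wpt_w k) := by
  have h3 : Integrable (fun a : ℂ => (1 + ‖a‖) ^ (-(3 : ℝ))) := by
    refine integrable_one_add_norm (E := ℂ) (r := 3) ?_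
    rw [Complex.finrank_real_complex]
    norm_num
  have h4 : Integrable (Wpt_w 3) := by
    refine h3.congr (Eventually.of_forall fun a => ?_)
    exact Wpt_w_three a
  refine h4.mono' (Wpt_w_meas k).aestronglyMeasurable (Eventually.of_forall fun a => ?_)
  rw [Real.norm_of_nonneg (Wpt_w_nonneg k a)]
  exact Wpt_w_le h a

lemma Wpt_sing_pt (z a : ℂ) : ‖z - a‖⁻¹ * Wpt_w 2 a ≤
    8 * (‖z - a‖⁻¹ * Wpt_w 3 (z - a)) + 8 * Wpt_w 3 (z - a) + 8 * Wpt_w 3 a := by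
  have hx := norm_nonneg (z - a)
  have hxi : 0 ≤ ‖z - a‖⁻¹ := inv_nonneg.2 hx
  have h3 := Wpt_w_nonneg 3 (z - a)
  have h3' := Wpt_w_nonneg 3 a
  rcases lt_or_ge ‖z - a‖ 1 with h | h
  · have h1 : 1 ≤ 8 * Wpt_w 3 (z - a) := by
      unfold Wpt_w
      have h2 : (1 + ‖z - a‖) ^ 3 ≤ 8 := by
        have : 1 + ‖z - a‖ ≤ 2 := by linarith
        calc (1 + ‖z - a‖) ^ 3 ≤ 2 ^ 3 := pow_le_pow_left₀ (by linarith) this 3
          _ = 8 := by norm_num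
      have h4 : 0 < (1 + ‖z - a‖) ^ 3 := by positivity
      rw [← div_eq_mul_inv, le_div_iff₀ h4]
      linarith
    have h5 : ‖z - a‖⁻¹ * Wpt_w 2 a ≤ ‖z - a‖⁻¹ * (8 * Wpt_w 3 (z - a)) :=
      mul_le_mul_of_nonneg_left ((Wpt_w_le_one 2 a).trans h1) hxi
    nlinarith
  · have e1 : ‖z - a‖⁻¹ ≤ 2 * (1 + ‖z - a‖)⁻¹ := by
      rw [← div_eq_mul_inv, inv_eq_one_div, div_le_div_iff₀ (by linarith) (by linarith)]
      linarith
    set p := (1 + ‖z - a‖)⁻¹ with hp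
    set q := (1 + ‖a‖)⁻¹ with hq
    have hp0 : 0 ≤ p := by positivity
    have hq0 : 0 ≤ q := by positivity
    have e2 : Wpt_w 3 (z - a) = p ^ 3 := by unfold Wpt_w; rw [hp, inv_pow]
    have e3 : Wpt_w 3 a = q ^ 3 := by unfold Wpt_w; rw [hq, inv_pow]
    have e4 : Wpt_w 2 a = q ^ 2 := by unfold Wpt_w; rw [hq, inv_pow]
    have e5 : p * q ^ 2 ≤ p ^ 3 + q ^ 3 := by
      rcases le_total p q with hpq | hpq
      · have : p * q ^ 2 ≤ q * q ^ 2 := mul_le_mul_of_nonneg_right hpq (by positivity)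
        nlinarith [pow_nonneg hp0 3]
      · have h6 : q ^ 2 ≤ p ^ 2 := pow_le_pow_left₀ hq0 hpq 2
        have : p * q ^ 2 ≤ p * p ^ 2 := mul_le_mul_of_nonneg_left h6 hp0
        nlinarith [pow_nonneg hq0 3]
    have e6 : ‖z - a‖⁻¹ * Wpt_w 2 a ≤ 2 * p * q ^ 2 := by
      rw [e4]
      exact mul_le_mul_of_nonneg_right e1 (by positivity)
    have e7 : 0 ≤ ‖z - a‖⁻¹ * Wpt_w 3 (z - a) := mul_nonneg hxi h3
    rw [e2] at e7 ⊢
    rw [e3]
    nlinarith [pow_nonneg hp0 3, pow_nonneg hq0 3]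

lemma Wpt_sing (hS : ClaimSing) : ∃ C > 0, ∀ z : ℂ,
    Integrable (fun a : ℂ => ‖z - a‖⁻¹ * Wpt_w 2 a) ∧ ∫ a : ℂ, ‖z - a‖⁻¹ * Wpt_w 2 a ≤ C := by
  obtain ⟨C, hC, h⟩ := hS
  obtain ⟨h0, h1⟩ := h 0
  simp only [zero_sub, norm_neg, Wpt_w_three] at h0 h1
  have hw3 := Wpt_w_int (k := 3) le_rfl
  have hJ : 0 ≤ ∫ a, Wpt_w 3 a := integral_nonneg fun a => Wpt_w_nonneg 3 a
  refine ⟨8 * C + 16 * ∫ a, Wpt_w 3 a, by positivity, fun z => ?_⟩
  have i1 : Integrable fun a : ℂ => ‖z - a‖⁻¹ * Wpt_w 3 (z - a) := h0.comp_sub_left z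
  have i2 : Integrable fun a : ℂ => Wpt_w 3 (z - a) := hw3.comp_sub_left z
  have i12 : Integrable fun a : ℂ => 8 * (‖z - a‖⁻¹ * Wpt_w 3 (z - a)) + 8 * Wpt_w 3 (z - a) :=
    (i1.const_mul 8).add (i2.const_mul 8)
  have hB : Integrable fun a : ℂ => 8 * (‖z - a‖⁻¹ * Wpt_w 3 (z - a)) + 8 * Wpt_w 3 (z - a) +
      8 * Wpt_w 3 a := i12.add (hw3.const_mul 8)
  have hm : AEStronglyMeasurable (fun a : ℂ => ‖z - a‖⁻¹ * Wpt_w 2 a) := by
    refine Measurable.aestronglyMeasurable ?_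
    exact ((measurable_const.sub measurable_id).norm.inv).mul (Wpt_w_meas 2)
  have hI : Integrable fun a : ℂ => ‖z - a‖⁻¹ * Wpt_w 2 a := by
    refine hB.mono' hm (Eventually.of_forall fun a => ?_)
    rw [Real.norm_of_nonneg (mul_nonneg (inv_nonneg.2 (norm_nonneg _)) (Wpt_w_nonneg 2 a))]
    exact Wpt_sing_pt z a
  refine ⟨hI, ?_⟩
  calc ∫ a : ℂ, ‖z - a‖⁻¹ * Wpt_w 2 a
      ≤ ∫ a : ℂ, (8 * (‖z - a‖⁻¹ * Wpt_w 3 (z - a)) + 8 * Wpt_w 3 (z - a) + 8 * Wpt_w 3 a) :=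
        integral_mono hI hB fun a => Wpt_sing_pt z a
    _ = 8 * (∫ a : ℂ, ‖z - a‖⁻¹ * Wpt_w 3 (z - a)) + 8 * (∫ a : ℂ, Wpt_w 3 (z - a)) +
        8 * ∫ a, Wpt_w 3 a := by
        rw [integral_add i12 (hw3.const_mul 8),
          integral_add (i1.const_mul 8) (i2.const_mul 8), integral_const_mul, integral_const_mul,
          integral_const_mul]
    _ ≤ _ := by
        rw [integral_sub_left_eq_self (fun a => Wpt_w 3 a) volume z,
          integral_sub_left_eq_self (fun a : ℂ => ‖a‖⁻¹ * Wpt_w 3 a) volume z]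
        linarith

/-! ### algebra of the kernel -/

lemma Wpt_K_mul (z w : ℂ) : K (z * w) = K z * K w := by
  unfold K
  rw [norm_mul]
  push_cast
  rw [mul_pow, mul_div_mul_comm]

lemma Wpt_K_norm (z : ℂ) : ‖K z‖ = (‖z‖ ^ 2)⁻¹ := by
  unfold K
  rw [norm_div, norm_pow, Complex.norm_real, Real.norm_of_nonneg (norm_nonneg z)]
  rcases eq_or_ne z 0 with rfl | h
  · simp
  · have : ‖z‖ ≠ 0 := norm_ne_zero_iff.2 h
    field_simp

lemma Wpt_dbar_le (h : ℂ → ℂ) (a : ℂ) : ‖dbar2 h a‖ ≤ 2 * ‖fderiv ℝ h a‖ := by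
  unfold dbar2
  have h1 : ‖fderiv ℝ h a 1‖ ≤ ‖fderiv ℝ h a‖ := by
    have := (fderiv ℝ h a).le_opNorm 1
    simpa using this
  have h2 : ‖fderiv ℝ h a I‖ ≤ ‖fderiv ℝ h a‖ := by
    have := (fderiv ℝ h a).le_opNorm I
    simpa using this
  calc ‖fderiv ℝ h a 1 + I * fderiv ℝ h a I‖ ≤ ‖fderiv ℝ h a 1‖ + ‖I * fderiv ℝ h a I‖ :=
        norm_add_le _ _
    _ ≤ 2 * ‖fderiv ℝ h a‖ := by
        rw [norm_mul, Complex.norm_I, one_mul]
        linarith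

lemma Wpt_lin (D : ℂ →L[ℝ] ℂ) (w : ℂ) : D w + I * D (w * I) = conj w * (D 1 + I * D I) := by
  have e1 : w = w.re • (1 : ℂ) + w.im • I := by
    apply Complex.ext <;> simp
  have e2 : w * I = (-w.im) • (1 : ℂ) + w.re • I := by
    apply Complex.ext <;> simp
  have e3 : conj w = (w.re : ℂ) - w.im * I := by
    apply Complex.ext <;> simp
  rw [e2, e3]
  conv_lhs => rw [show D w = D (w.re • (1 : ℂ) + w.im • I) by rw [← e1]]
  rw [map_add, map_add, map_smul, map_smul, map_smul, map_smul]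
  simp only [Complex.real_smul]
  push_cast
  linear_combination ((w.im : ℂ) * D I) * Complex.I_sq

lemma Wpt_dbar_mul {T : ℂ → ℂ} (hT : ContDiff ℝ 1 T) (c w a : ℂ) :
    dbar2 (fun a => c * T (w * a)) a = c * conj w * dbar2 T (w * a) := by
  have hd : HasFDerivAt T (fderiv ℝ T (w * a)) (w * a) :=
    (hT.differentiable (by norm_num) (w * a)).hasFDerivAt
  have hl : HasFDerivAt (fun a : ℂ => w * a) (ContinuousLinearMap.mul ℝ ℂ w) a :=
    (ContinuousLinearMap.mul ℝ ℂ w).hasFDerivAt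
  have h1 : HasFDerivAt (fun a => c * T (w * a))
      (c • (fderiv ℝ T (w * a)).comp (ContinuousLinearMap.mul ℝ ℂ w)) a :=
    (hd.comp a hl).const_mul c
  unfold dbar2
  rw [h1.fderiv]
  simp only [_root_.smul_apply, ContinuousLinearMap.comp_apply,
    ContinuousLinearMap.mul_apply', smul_eq_mul, mul_one]
  have := Wpt_lin (fderiv ℝ T (w * a)) w
  linear_combination c * this

lemma Wpt_dbar_cont {h : ℂ → ℂ} (hh : ContDiff ℝ 1 h) : Continuous (dbar2 h) := by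
  have h1 : Continuous (fderiv ℝ h) := hh.continuous_fderiv (by norm_num)
  unfold dbar2
  exact (h1.clm_apply continuous_const).add
    (continuous_const.mul (h1.clm_apply continuous_const))

lemma Wpt_inv_scale {z : ℂ} (hz : z ≠ 0) (a : ℂ) :
    (‖z - a‖ : ℂ)⁻¹ = (‖z‖ : ℂ)⁻¹ * (‖1 - z⁻¹ * a‖ : ℂ)⁻¹ := by
  rw [← mul_inv, ← Complex.ofReal_mul, ← norm_mul, mul_sub, mul_one, mul_inv_cancel_left₀ hz]

lemma Wpt_K_scale {z : ℂ} (hz : z ≠ 0) (a : ℂ) : K (z - a) = K z * K (1 - z⁻¹ * a) := by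
  rw [← Wpt_K_mul, mul_sub, mul_one, mul_inv_cancel_left₀ hz]

/-- pointwise bound of the remainder of the expansion of the potential -/
lemma Wpt_pt {m : ℕ} {T : ℂ → ℂ} {CT CP : ℝ} (hCT : 0 < CT) (hCP0 : 0 ≤ CP)
    (htay : ∀ w : ℂ, ‖w‖ ≤ 1 / 2 → ‖(‖1 - w‖ : ℂ)⁻¹ - T w‖ ≤ CT * ‖w‖ ^ (m + 1))
    (hCP : ∀ a, ‖T a‖ ≤ CP * (1 + ‖a‖) ^ (2 * m)) {z : ℂ} (hz : 2 ≤ ‖z‖) (a : ℂ) :
    ‖(‖z - a‖ : ℂ)⁻¹ - (‖z‖ : ℂ)⁻¹ * T (z⁻¹ * a)‖ * Wpt_w (2 * m + 4) a ≤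
      (‖z‖ ^ (m + 2))⁻¹ * ((CT + 2 * CP * 9 ^ m) * Wpt_w 3 a +
        4 ^ (m + 1) * (‖z - a‖⁻¹ * Wpt_w 2 a)) := by
  have hz0 : z ≠ 0 := by
    rintro rfl
    norm_num at hz
  have hzp : 0 < ‖z‖ := by linarith
  have hw3 := Wpt_w_nonneg 3 a
  have hwN := Wpt_w_nonneg (2 * m + 4) a
  have hA := norm_nonneg a
  have hsi : 0 ≤ ‖z - a‖⁻¹ * Wpt_w 2 a :=
    mul_nonneg (inv_nonneg.2 (norm_nonneg _)) (Wpt_w_nonneg 2 a)
  have hzm : 0 < (‖z‖ ^ (m + 2))⁻¹ := by positivity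
  have hwn : ‖z⁻¹ * a‖ = ‖a‖ / ‖z‖ := by
    rw [norm_mul, norm_inv]
    ring
  rcases le_or_gt ‖a‖ (‖z‖ / 2) with h | h
  · have hw : ‖z⁻¹ * a‖ ≤ 1 / 2 := by
      rw [hwn, div_le_iff₀ hzp]
      linarith
    have h1 := htay _ hw
    have h2 : ‖(‖z - a‖ : ℂ)⁻¹ - (‖z‖ : ℂ)⁻¹ * T (z⁻¹ * a)‖ =
        ‖z‖⁻¹ * ‖(‖1 - z⁻¹ * a‖ : ℂ)⁻¹ - T (z⁻¹ * a)‖ := by
      rw [Wpt_inv_scale hz0, ← mul_sub, norm_mul, norm_inv, Complex.norm_real,
        Real.norm_of_nonneg hzp.le]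
    have h3 : ‖a‖ ^ (m + 1) * Wpt_w (2 * m + 4) a ≤ Wpt_w 3 a := by
      have e : 2 * m + 4 = (m + 1) + (m + 3) := by ring
      rw [e, Wpt_w_add, ← mul_assoc]
      calc ‖a‖ ^ (m + 1) * Wpt_w (m + 1) a * Wpt_w (m + 3) a ≤ 1 * Wpt_w (m + 3) a :=
            mul_le_mul_of_nonneg_right (Wpt_norm_pow_mul _ _) (Wpt_w_nonneg _ _)
        _ ≤ Wpt_w 3 a := by
            rw [one_mul]
            exact Wpt_w_le (by omega) a
    calc ‖(‖z - a‖ : ℂ)⁻¹ - (‖z‖ : ℂ)⁻¹ * T (z⁻¹ * a)‖ * Wpt_w (2 * m + 4) a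
        ≤ ‖z‖⁻¹ * (CT * (‖a‖ / ‖z‖) ^ (m + 1)) * Wpt_w (2 * m + 4) a := by
          rw [h2]
          rw [hwn] at h1
          gcongr
      _ = (‖z‖ ^ (m + 2))⁻¹ * CT * (‖a‖ ^ (m + 1) * Wpt_w (2 * m + 4) a) := by
          have e : ‖z‖ ^ (m + 2) = ‖z‖ * ‖z‖ ^ (m + 1) := by ring
          rw [e, mul_inv, div_pow, div_eq_mul_inv]
          ring
      _ ≤ (‖z‖ ^ (m + 2))⁻¹ * CT * Wpt_w 3 a := by gcongr
      _ ≤ _ := by
          have e1 : 0 ≤ 2 * CP * 9 ^ m * Wpt_w 3 a := by positivity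
          have e2 : 0 ≤ 4 ^ (m + 1) * (‖z - a‖⁻¹ * Wpt_w 2 a) := by positivity
          nlinarith
  · have h1 : ‖(‖z - a‖ : ℂ)⁻¹ - (‖z‖ : ℂ)⁻¹ * T (z⁻¹ * a)‖ ≤
        ‖z - a‖⁻¹ + ‖z‖⁻¹ * (CP * (3 * (‖a‖ / ‖z‖)) ^ (2 * m)) := by
      refine (norm_sub_le _ _).trans ?_
      rw [norm_mul, norm_inv, norm_inv, Complex.norm_real, Complex.norm_real,
        Real.norm_of_nonneg hzp.le, Real.norm_of_nonneg (norm_nonneg _)]
      have h2 := hCP (z⁻¹ * a)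
      rw [hwn] at h2
      have h3 : 1 + ‖a‖ / ‖z‖ ≤ 3 * (‖a‖ / ‖z‖) := by
        have : 1 / 2 ≤ ‖a‖ / ‖z‖ := by
          rw [le_div_iff₀ hzp]
          linarith
        linarith
      gcongr
      exact h2.trans (by gcongr)
    have hwk : ∀ k, Wpt_w k a ≤ 2 ^ k * (‖z‖ ^ k)⁻¹ := by
      intro k
      unfold Wpt_w
      rw [← div_eq_mul_inv, ← div_pow, ← inv_div, inv_pow]
      refine inv_anti₀ (by positivity) (pow_le_pow_left₀ (by positivity) (by linarith) k)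
    have hzz : (‖z‖ ^ (2 * m + 2))⁻¹ ≤ (‖z‖ ^ (m + 2))⁻¹ :=
      inv_anti₀ (by positivity) (pow_le_pow_right₀ (by linarith) (by omega))
    have t1 : ‖z - a‖⁻¹ * Wpt_w (2 * m + 4) a ≤
        (‖z‖ ^ (m + 2))⁻¹ * (4 ^ (m + 1) * (‖z - a‖⁻¹ * Wpt_w 2 a)) := by
      have e : 2 * m + 4 = 2 + (2 * m + 2) := by ring
      rw [e, Wpt_w_add, ← mul_assoc]
      calc ‖z - a‖⁻¹ * Wpt_w 2 a * Wpt_w (2 * m + 2) a
          ≤ ‖z - a‖⁻¹ * Wpt_w 2 a * (2 ^ (2 * m + 2) * (‖z‖ ^ (2 * m + 2))⁻¹) :=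
            mul_le_mul_of_nonneg_left (hwk _) hsi
        _ ≤ ‖z - a‖⁻¹ * Wpt_w 2 a * (2 ^ (2 * m + 2) * (‖z‖ ^ (m + 2))⁻¹) := by gcongr
        _ = _ := by
            have e4 : (2 : ℝ) ^ (2 * m + 2) = 4 ^ (m + 1) := by
              rw [show 2 * m + 2 = 2 * (m + 1) by ring, pow_mul]
              norm_num
            rw [e4]
            ring
    have t2 : ‖z‖⁻¹ * (CP * (3 * (‖a‖ / ‖z‖)) ^ (2 * m)) * Wpt_w (2 * m + 4) a ≤
        (‖z‖ ^ (m + 2))⁻¹ * (2 * CP * 9 ^ m * Wpt_w 3 a) := by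
      have e9 : (3 : ℝ) ^ (2 * m) = 9 ^ m := by
        rw [pow_mul]
        norm_num
      have e : 2 * m + 4 = 2 * m + (3 + 1) := by ring
      have hw1 := hwk 1
      calc ‖z‖⁻¹ * (CP * (3 * (‖a‖ / ‖z‖)) ^ (2 * m)) * Wpt_w (2 * m + 4) a
          = ‖z‖⁻¹ * (‖z‖ ^ (2 * m))⁻¹ * (CP * 9 ^ m) *
            (‖a‖ ^ (2 * m) * Wpt_w (2 * m) a) * (Wpt_w 3 a * Wpt_w 1 a) := by
            rw [e, Wpt_w_add, Wpt_w_add, mul_pow, div_pow, e9]
            ring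
        _ ≤ ‖z‖⁻¹ * (‖z‖ ^ (2 * m))⁻¹ * (CP * 9 ^ m) * 1 *
            (Wpt_w 3 a * (2 ^ 1 * (‖z‖ ^ 1)⁻¹)) := by
            have := Wpt_norm_pow_mul (2 * m) a
            gcongr
            exact mul_nonneg hw3 (Wpt_w_nonneg 1 a)
        _ = (‖z‖ ^ (2 * m + 2))⁻¹ * (2 * CP * 9 ^ m * Wpt_w 3 a) := by
            have e5 : ‖z‖ ^ (2 * m + 2) = ‖z‖ * ‖z‖ ^ (2 * m) * ‖z‖ := by ring
            rw [e5, mul_inv, mul_inv]
            ring
        _ ≤ _ := by gcongr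
    calc ‖(‖z - a‖ : ℂ)⁻¹ - (‖z‖ : ℂ)⁻¹ * T (z⁻¹ * a)‖ * Wpt_w (2 * m + 4) a
        ≤ (‖z - a‖⁻¹ + ‖z‖⁻¹ * (CP * (3 * (‖a‖ / ‖z‖)) ^ (2 * m))) * Wpt_w (2 * m + 4) a :=
          mul_le_mul_of_nonneg_right h1 hwN
      _ ≤ _ := by
          rw [add_mul]
          have e1 : 0 ≤ (‖z‖ ^ (m + 2))⁻¹ * (CT * Wpt_w 3 a) := by positivity
          nlinarith

theorem claimWpt (hP : ClaimPol) (hD : ClaimPolDil) (hT : ClaimTaylor) (hPa : ClaimParts)
    (hS : ClaimSing) : ClaimWpt := by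
  intro m L y φ hN
  obtain ⟨C2, hC2, hs⟩ := Wpt_sing hS
  obtain ⟨T, hTm, τ, hτm, CT, hCT, hdb, htay⟩ := hT m
  have hgr : ∀ P ∈ Pol m, ∃ C, 0 ≤ C ∧ ∀ a, ‖P a‖ ≤ C * (1 + ‖a‖) ^ (2 * m) := by
    intro P hPm
    obtain ⟨C, hC⟩ := (hP m P hPm).2.1
    refine ⟨|C|, abs_nonneg C, fun a => (hC a).trans ?_⟩
    have := Wpt_one_le a
    exact mul_le_mul_of_nonneg_right (le_abs_self C) (by positivity)
  choose Cφ hCφ0 hCφ using fun l => hgr (φ l) (hN.mem l)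
  obtain ⟨CP, hCP0, hCP⟩ := hgr T hTm
  have hw3 := Wpt_w_int (k := 3) le_rfl
  have hw4 := Wpt_w_int (k := 4) (by norm_num)
  obtain ⟨J3, hJ3⟩ : ∃ J, J = ∫ a, Wpt_w 3 a := ⟨_, rfl⟩
  obtain ⟨J4, hJ4⟩ : ∃ J, J = ∫ a, Wpt_w 4 a := ⟨_, rfl⟩
  have hJ30 : 0 ≤ J3 := hJ3 ▸ integral_nonneg fun a => Wpt_w_nonneg 3 a
  have hJ40 : 0 ≤ J4 := hJ4 ▸ integral_nonneg fun a => Wpt_w_nonneg 4 a
  have hpi : ‖(1 / (2 * Real.pi : ℂ))‖ ≤ 1 := by
    rw [norm_div, norm_one, norm_mul, Complex.norm_real, Complex.norm_ofNat,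
      Real.norm_of_nonneg Real.pi_pos.le, div_le_one (by positivity)]
    linarith [Real.pi_gt_three]
  -- constants
  obtain ⟨S1, hS1⟩ : ∃ S, S = ∑ l, Cφ l * J4 := ⟨_, rfl⟩
  obtain ⟨S2, hS2⟩ : ∃ S, S = ∑ l, Cφ l * J4 * (CT * ‖y l‖ ^ m) := ⟨_, rfl⟩
  have hS10 : 0 ≤ S1 := hS1 ▸ Finset.sum_nonneg fun l _ => mul_nonneg (hCφ0 l) hJ40
  have hS20 : 0 ≤ S2 := hS2 ▸ Finset.sum_nonneg fun l _ =>
    mul_nonneg (mul_nonneg (hCφ0 l) hJ40) (by positivity)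
  obtain ⟨F, hF⟩ : ∃ F, F = (CT + 2 * CP * 9 ^ m) * J3 + 4 ^ (m + 1) * C2 := ⟨_, rfl⟩
  have hF0 : 0 ≤ F := by rw [hF]; positivity
  refine ⟨2 * ∑ l, ‖y l‖ + 2, by positivity, 2 * C2 + S1 + 2 * F + S2, by positivity,
    fun A h hh => ?_⟩
  have hA : 0 ≤ A := le_trans (by positivity) (hh.bd 0)
  have hb : ∀ a, ‖h a‖ ≤ A * Wpt_w (2 * m + 4) a := by
    intro a
    have := Wpt_one_le a
    have h1 := hh.bd a
    unfold Wpt_w
    rw [← div_eq_mul_inv, le_div_iff₀ (by positivity)]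
    exact h1
  have hb' : ∀ a, ‖dbar2 h a‖ ≤ 2 * A * Wpt_w (2 * m + 4) a := by
    intro a
    have := Wpt_one_le a
    have h1 := hh.bd' a
    refine (Wpt_dbar_le h a).trans ?_
    unfold Wpt_w
    rw [← div_eq_mul_inv, le_div_iff₀ (by positivity)]
    linarith
  have hhc : Continuous h := hh.smooth.continuous
  have hdc : Continuous (dbar2 h) := Wpt_dbar_cont hh.smooth
  -- polynomial times decaying functions
  have hpw : ∀ (C : ℝ) (P : ℂ → ℂ), (∀ a, ‖P a‖ ≤ C * (1 + ‖a‖) ^ (2 * m)) → 0 ≤ C →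
      ∀ (B : ℝ) (f : ℂ → ℂ), (∀ a, ‖f a‖ ≤ B * Wpt_w (2 * m + 4) a) → 0 ≤ B →
      ∀ a, ‖P a * f a‖ ≤ C * B * Wpt_w 4 a := by
    intro C P h1 hC B f h2 hB a
    have h3 := Wpt_one_le a
    have h4 := Wpt_w_nonneg (2 * m + 4) a
    rw [norm_mul]
    calc ‖P a‖ * ‖f a‖ ≤ (C * (1 + ‖a‖) ^ (2 * m)) * (B * Wpt_w (2 * m + 4) a) := by
          gcongr
          · exact h1 a
          · exact h2 a
      _ = C * B * (((1 + ‖a‖) ^ (2 * m) * Wpt_w (2 * m) a) * Wpt_w 4 a) := by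
          rw [Wpt_w_add]
          ring
      _ = _ := by rw [Wpt_pow_mul, one_mul]
  have hpi2 : ∀ (C : ℝ) (P : ℂ → ℂ), Continuous P → (∀ a, ‖P a‖ ≤ C * (1 + ‖a‖) ^ (2 * m)) →
      0 ≤ C → ∀ (B : ℝ) (f : ℂ → ℂ), Continuous f → (∀ a, ‖f a‖ ≤ B * Wpt_w (2 * m + 4) a) →
      0 ≤ B → Integrable (fun a => P a * f a) ∧ ‖∫ a, P a * f a‖ ≤ C * B * J4 := by
    intro C P hPc h1 hC B f hfc h2 hB
    have h3 := hpw C P h1 hC B f h2 hB
    have h4 : Integrable fun a => C * B * Wpt_w 4 a := hw4.const_mul _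
    refine ⟨h4.mono' (hPc.mul hfc).aestronglyMeasurable (Eventually.of_forall h3), ?_⟩
    refine (norm_integral_le_of_norm_le h4 (Eventually.of_forall h3)).trans ?_
    rw [integral_const_mul, ← hJ4]
  have hφc : ∀ l, Continuous (φ l) := fun l => (hP m _ (hN.mem l)).1.continuous
  have hE : ∀ l, Integrable (fun a => φ l a * h a) ∧ ‖∫ a, φ l a * h a‖ ≤ Cφ l * A * J4 :=
    fun l => hpi2 _ _ (hφc l) (hCφ l) (hCφ0 l) A h hhc hb hA
  -- the singular integral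
  have hsm : ∀ z : ℂ, AEStronglyMeasurable (fun a => (‖z - a‖ : ℂ)⁻¹ * dbar2 h a) := by
    intro z
    refine Measurable.aestronglyMeasurable (Measurable.mul ?_ hdc.measurable)
    exact (Complex.measurable_ofReal.comp (measurable_const.sub measurable_id).norm).inv
  have hsb : ∀ z a : ℂ, ‖(‖z - a‖ : ℂ)⁻¹ * dbar2 h a‖ ≤
      2 * A * (‖z - a‖⁻¹ * Wpt_w 2 a) := by
    intro z a
    rw [norm_mul, norm_inv, Complex.norm_real, Real.norm_of_nonneg (norm_nonneg _)]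
    have h1 : ‖dbar2 h a‖ ≤ 2 * A * Wpt_w 2 a :=
      (hb' a).trans (mul_le_mul_of_nonneg_left (Wpt_w_le (by omega) a) (by positivity))
    calc ‖z - a‖⁻¹ * ‖dbar2 h a‖ ≤ ‖z - a‖⁻¹ * (2 * A * Wpt_w 2 a) :=
          mul_le_mul_of_nonneg_left h1 (inv_nonneg.2 (norm_nonneg _))
      _ = _ := by ring
  have hsi : ∀ z : ℂ, Integrable (fun a => (‖z - a‖ : ℂ)⁻¹ * dbar2 h a) := fun z =>
    ((hs z).1.const_mul (2 * A)).mono' (hsm z) (Eventually.of_forall (hsb z))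
  refine ⟨fun z => ?_, fun z hz => ?_⟩
  · -- all z
    have h1 : ‖bb h z‖ ≤ 2 * A * C2 := by
      unfold bb
      rw [norm_mul, norm_neg]
      have h2 : ‖∫ a, (‖z - a‖ : ℂ)⁻¹ * dbar2 h a‖ ≤ 2 * A * C2 := by
        refine (norm_integral_le_of_norm_le ((hs z).1.const_mul (2 * A))
          (Eventually.of_forall (hsb z))).trans ?_
        rw [integral_const_mul]
        exact mul_le_mul_of_nonneg_left (hs z).2 (by positivity)
      calc _ ≤ 1 * (2 * A * C2) := by gcongr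
        _ = _ := one_mul _
    have h3 : ‖∑ l, (∫ a, φ l a * h a) * K (z - y l)‖ ≤
        ∑ l, Cφ l * A * J4 * (‖z - y l‖ ^ 2)⁻¹ := by
      refine (norm_sum_le _ _).trans (Finset.sum_le_sum fun l _ => ?_)
      rw [norm_mul, Wpt_K_norm]
      exact mul_le_mul_of_nonneg_right (hE l).2 (by positivity)
    have h4 : ∑ l, Cφ l * A * J4 * (‖z - y l‖ ^ 2)⁻¹ ≤
        S1 * A * ∑ l, (‖z - y l‖ ^ 2)⁻¹ := by
      rw [Finset.mul_sum]
      refine Finset.sum_le_sum fun l _ => ?_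
      have h5 : Cφ l * J4 ≤ S1 := by
        rw [hS1]
        exact Finset.single_le_sum (f := fun l => Cφ l * J4)
          (fun l _ => mul_nonneg (hCφ0 l) hJ40) (Finset.mem_univ l)
      calc Cφ l * A * J4 * (‖z - y l‖ ^ 2)⁻¹ = (Cφ l * J4) * A * (‖z - y l‖ ^ 2)⁻¹ := by ring
        _ ≤ S1 * A * (‖z - y l‖ ^ 2)⁻¹ := by gcongr
    have h6 : 0 ≤ ∑ l, (‖z - y l‖ ^ 2)⁻¹ := Finset.sum_nonneg fun l _ => by positivity
    calc ‖bH y φ h z‖ ≤ ‖bb h z‖ +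
          ‖(1 / (2 * Real.pi : ℂ)) * ∑ l, (∫ a, φ l a * h a) * K (z - y l)‖ := norm_sub_le _ _
      _ ≤ 2 * A * C2 + 1 * (S1 * A * ∑ l, (‖z - y l‖ ^ 2)⁻¹) := by
          rw [norm_mul]
          gcongr
          exact h3.trans h4
      _ ≤ _ := by
          have e1 : 0 ≤ A * (S1 + 2 * F + S2) := by positivity
          have e2 : 0 ≤ A * (2 * C2 + 2 * F + S2) * ∑ l, (‖z - y l‖ ^ 2)⁻¹ := by positivity
          nlinarith
  · -- far field
    have hz2 : 2 ≤ ‖z‖ := by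
      have : 0 ≤ ∑ l, ‖y l‖ := Finset.sum_nonneg fun l _ => norm_nonneg _
      linarith
    have hzp : 0 < ‖z‖ := by linarith
    have hz0 : z ≠ 0 := norm_pos_iff.1 hzp
    have hyl : ∀ l, ‖y l‖ ≤ ‖z‖ / 2 := by
      intro l
      have : ‖y l‖ ≤ ∑ l, ‖y l‖ := Finset.single_le_sum (f := fun l => ‖y l‖)
        (fun l _ => norm_nonneg _) (Finset.mem_univ l)
      linarith
    -- the scaled polynomials
    obtain ⟨Tz, hTz⟩ : ∃ Tz : ℂ → ℂ, Tz = fun a => (‖z‖ : ℂ)⁻¹ * T (z⁻¹ * a) := ⟨_, rfl⟩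
    obtain ⟨τz, hτz⟩ : ∃ τz : ℂ → ℂ, τz = fun a => K z * τ (z⁻¹ * a) := ⟨_, rfl⟩
    have hTzm : Tz ∈ Pol m := by
      rw [hTz]
      exact (Pol m).smul_mem ((‖z‖ : ℂ)⁻¹) (hD m T hTm z⁻¹)
    have hτzm : τz ∈ Pol m := by
      rw [hτz]
      exact (Pol m).smul_mem (K z) (hD m τ hτm z⁻¹)
    have hTzd : ∀ a, dbar2 Tz a = τz a := by
      intro a
      rw [hTz, hτz, Wpt_dbar_mul (hP m T hTm).1, hdb]
      simp only
      congr 1
      unfold K
      rw [map_inv₀]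
      have e : (z : ℂ) * conj z = (‖z‖ : ℂ) ^ 2 := by
        rw [Complex.mul_conj, Complex.normSq_eq_norm_sq]
        push_cast
        rfl
      have hc0 : conj z ≠ 0 := by
        rwa [Ne, map_eq_zero]
      have hn0 : (‖z‖ : ℂ) ≠ 0 := by
        exact_mod_cast hzp.ne'
      field_simp
      linear_combination -e
    obtain ⟨CTz, hCTz0, hCTz⟩ := hgr Tz hTzm
    obtain ⟨Cτz, hCτz0, hCτz⟩ := hgr τz hτzm
    have hTzc : ContDiff ℝ 1 Tz := (hP m _ hTzm).1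
    have hτzc : ContDiff ℝ 1 τz := (hP m _ hτzm).1
    have hb1 : ∀ a, ‖dbar2 h a‖ ≤ (2 * A) * Wpt_w (2 * m + 4) a := hb'
    have i1 : Integrable fun a => Tz a * h a :=
      (hpi2 _ _ hTzc.continuous hCTz hCTz0 A h hhc hb hA).1
    have i2 : Integrable fun a => τz a * h a :=
      (hpi2 _ _ hτzc.continuous hCτz hCτz0 A h hhc hb hA).1
    have i3 : Integrable fun a => Tz a * dbar2 h a :=
      (hpi2 _ _ hTzc.continuous hCTz hCTz0 (2 * A) _ hdc hb1 (by positivity)).1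
    have hparts : ∫ a, τz a * h a = - ∫ a, Tz a * dbar2 h a := by
      have := hPa Tz h hTzc hh.smooth i1 (by simpa only [hTzd] using i2) i3
      simpa only [hTzd] using this
    -- the first error term
    have hE1 : ‖∫ a, ((‖z - a‖ : ℂ)⁻¹ - Tz a) * dbar2 h a‖ ≤
        2 * A * ((‖z‖ ^ (m + 2))⁻¹ * F) := by
      have hbd : ∀ a, ‖((‖z - a‖ : ℂ)⁻¹ - Tz a) * dbar2 h a‖ ≤ 2 * A * ((‖z‖ ^ (m + 2))⁻¹ *
          ((CT + 2 * CP * 9 ^ m) * Wpt_w 3 a + 4 ^ (m + 1) * (‖z - a‖⁻¹ * Wpt_w 2 a))) := by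
        intro a
        rw [norm_mul]
        have h1 := Wpt_pt hCT hCP0 (fun w hw => (htay w hw).1) hCP hz2 a
        have h2 := hb' a
        calc ‖(‖z - a‖ : ℂ)⁻¹ - Tz a‖ * ‖dbar2 h a‖
            ≤ ‖(‖z - a‖ : ℂ)⁻¹ - Tz a‖ * (2 * A * Wpt_w (2 * m + 4) a) := by gcongr
          _ = 2 * A * (‖(‖z - a‖ : ℂ)⁻¹ - Tz a‖ * Wpt_w (2 * m + 4) a) := by ring
          _ ≤ _ := by
              rw [hTz]
              exact mul_le_mul_of_nonneg_left h1 (by positivity)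
      have hI1 : Integrable fun a => (CT + 2 * CP * 9 ^ m) * Wpt_w 3 a := hw3.const_mul _
      have hI2 : Integrable fun a : ℂ => (4 : ℝ) ^ (m + 1) * (‖z - a‖⁻¹ * Wpt_w 2 a) :=
        (hs z).1.const_mul _
      have hI : Integrable fun a => 2 * A * ((‖z‖ ^ (m + 2))⁻¹ *
          ((CT + 2 * CP * 9 ^ m) * Wpt_w 3 a + 4 ^ (m + 1) * (‖z - a‖⁻¹ * Wpt_w 2 a))) :=
        ((hI1.add hI2).const_mul _).const_mul _
      refine (norm_integral_le_of_norm_le hI (Eventually.of_forall hbd)).trans ?_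
      rw [integral_const_mul, integral_const_mul, integral_add hI1 hI2, integral_const_mul,
        integral_const_mul, ← hJ3, hF]
      have := (hs z).2
      gcongr
    -- the second error term
    have hE2 : ‖∑ l, (∫ a, φ l a * h a) * (K (z - y l) - τz (y l))‖ ≤
        A * ((‖z‖ ^ (m + 2))⁻¹ * S2) := by
      rw [hS2, Finset.mul_sum, Finset.mul_sum]
      refine (norm_sum_le _ _).trans (Finset.sum_le_sum fun l _ => ?_)
      rw [norm_mul]
      have hwn : ‖z⁻¹ * y l‖ = ‖y l‖ / ‖z‖ := by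
        rw [norm_mul, norm_inv]
        ring
      have hw : ‖z⁻¹ * y l‖ ≤ 1 / 2 := by
        rw [hwn, div_le_iff₀ hzp]
        linarith [hyl l]
      have h1 := (htay _ hw).2
      have h2 : ‖K (z - y l) - τz (y l)‖ = (‖z‖ ^ 2)⁻¹ * ‖K (1 - z⁻¹ * y l) - τ (z⁻¹ * y l)‖ := by
        rw [hτz]
        simp only
        rw [Wpt_K_scale hz0, ← mul_sub, norm_mul, Wpt_K_norm]
      have h3 : ‖K (z - y l) - τz (y l)‖ ≤ (‖z‖ ^ (m + 2))⁻¹ * (CT * ‖y l‖ ^ m) := by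
        rw [h2]
        rw [hwn] at h1
        calc _ ≤ (‖z‖ ^ 2)⁻¹ * (CT * (‖y l‖ / ‖z‖) ^ m) := by gcongr
          _ = _ := by
            rw [div_pow, pow_add]
            field_simp
      calc ‖∫ a, φ l a * h a‖ * ‖K (z - y l) - τz (y l)‖
          ≤ (Cφ l * A * J4) * ((‖z‖ ^ (m + 2))⁻¹ * (CT * ‖y l‖ ^ m)) := by
            have := (hE l).2
            have h0 : 0 ≤ Cφ l * A * J4 := mul_nonneg (mul_nonneg (hCφ0 l) hA) hJ40
            gcongr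
        _ = _ := by ring
    -- the identity
    have hid : bH y φ h z = -(1 / (2 * Real.pi : ℂ)) *
        ((∫ a, ((‖z - a‖ : ℂ)⁻¹ - Tz a) * dbar2 h a) +
          ∑ l, (∫ a, φ l a * h a) * (K (z - y l) - τz (y l))) := by
      have e1 : ∫ a, ((‖z - a‖ : ℂ)⁻¹ - Tz a) * dbar2 h a =
          (∫ a, (‖z - a‖ : ℂ)⁻¹ * dbar2 h a) + ∫ a, τz a * h a := by
        rw [hparts, ← sub_eq_add_neg, ← integral_sub (hsi z) i3]
        simp only [sub_mul]
      have e2 : ∑ l, (∫ a, φ l a * h a) * (K (z - y l) - τz (y l)) =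
          (∑ l, (∫ a, φ l a * h a) * K (z - y l)) - ∫ a, τz a * h a := by
        have e3 : ∫ a, τz a * h a = ∑ l, (∫ a, φ l a * h a) * τz (y l) := by
          have e4 : ∀ a, τz a * h a = ∑ l, (φ l a * h a) * τz (y l) := by
            intro a
            rw [hN.exact τz hτzm a, Finset.sum_mul]
            exact Finset.sum_congr rfl fun l _ => by ring
          rw [integral_congr_ae (Eventually.of_forall e4),
            integral_finsetSum _ fun l _ => (hE l).1.mul_const _]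
          exact Finset.sum_congr rfl fun l _ => integral_mul_const _ _
        rw [e3, ← Finset.sum_sub_distrib]
        exact Finset.sum_congr rfl fun l _ => by ring
      rw [e1, e2]
      unfold bH bb
      ring
    rw [hid, norm_mul, norm_neg]
    calc _ ≤ 1 * (2 * A * ((‖z‖ ^ (m + 2))⁻¹ * F) + A * ((‖z‖ ^ (m + 2))⁻¹ * S2)) := by
          gcongr
          exact (norm_add_le _ _).trans (add_le_add hE1 hE2)
      _ = (2 * F + S2) * A * (‖z‖ ^ (m + 2))⁻¹ := by ring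
      _ ≤ _ := by
          have e1 : 2 * F + S2 ≤ 2 * C2 + S1 + 2 * F + S2 := by linarith
          gcongr

end Pool.Agent.Work.MP_440970_an

end

section

/-!
# From `ClaimMain` to the closure statement in `L^p(ℂ)`
-/

open MeasureTheory Complex Set Filter Topology
open scoped ENNReal ComplexConjugate

namespace Pool.Agent.Work.MP_440970_an

theorem Final_closure (hM : ClaimMain) (hDX : ClaimDX) (p : ℝ) (hp : 0 < p) (hp' : p ≤ 9 / 25)
    (g : ℂ → ℂ) (hg : MemLp g (ENNReal.ofReal p) volume) (ε : ℝ) (hε : 0 < ε) :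
    ∃ f ∈ X, MemLp f (ENNReal.ofReal p) volume ∧
      ∫⁻ z, ‖g z - f z‖ₑ ^ p < ENNReal.ofReal ε := by
  have hp1 : p < 1 := by linarith
  have hp0 : ENNReal.ofReal p ≠ 0 := (ENNReal.ofReal_pos.2 hp).ne'
  have hpt : ENNReal.ofReal p ≠ ⊤ := ENNReal.ofReal_ne_top
  obtain ⟨hX1, -⟩ := hDX p hp hp1
  set g' := hg.1.mk g with hg'
  have hg'm : Measurable g' := hg.1.measurable_mk
  have hae : g =ᵐ[volume] g' := hg.1.ae_eq_mk
  have hfin : np p g' < ⊤ := by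
    have h1 := (eLpNorm_lt_top_iff_lintegral_rpow_enorm_lt_top hp0 hpt).1 hg.2
    rw [ENNReal.toReal_ofReal hp.le] at h1
    refine lt_of_le_of_lt (le_of_eq ?_) h1
    unfold np
    refine lintegral_congr_ae ?_
    filter_upwards [hae] with z hz
    rw [hz]
  have h0 := hM p hp hp' g' hg'm hfin
  have hlt : dX p g' < ENNReal.ofReal ε := by
    rw [h0]
    exact ENNReal.ofReal_pos.2 hε
  unfold dX at hlt
  simp only [iInf_lt_iff] at hlt
  obtain ⟨f, hf, hfn, hfl⟩ := hlt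
  refine ⟨f, hf, ⟨(hX1 f hf).aestronglyMeasurable, ?_⟩, ?_⟩
  · rw [eLpNorm_lt_top_iff_lintegral_rpow_enorm_lt_top hp0 hpt, ENNReal.toReal_ofReal hp.le]
    exact hfn
  · refine lt_of_le_of_lt (le_of_eq ?_) hfl
    unfold np
    refine lintegral_congr_ae ?_
    filter_upwards [hae] with z hz
    rw [hz]

end Pool.Agent.Work.MP_440970_an

end

section

/-!
# Item C2: `bb (hs s) = ks s`
-/

open MeasureTheory Complex Set Filter Topology
open scoped ENNReal ComplexConjugate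

namespace Pool.Agent.Work.MP_440970_an

theorem I1f_dbar {s : ℝ} (hs0 : 0 < s) (a : ℂ) :
    dbar2 (hs s) a =
      ((-3 * s * (s ^ 2 + ‖a‖ ^ 2) ^ (-(5 / 2) : ℝ) * a.re : ℝ) : ℂ) +
      I * ((-3 * s * (s ^ 2 + ‖a‖ ^ 2) ^ (-(5 / 2) : ℝ) * a.im : ℝ) : ℂ) := by
  have h3 : HasFDerivAt
      (fun z : ℂ => (s : ℂ) * (((s ^ 2 + ‖z‖ ^ 2) ^ (-(3 / 2) : ℝ) : ℝ) : ℂ)) _ a :=
    (I2f_rho hs0 a).const_mul (s : ℂ)
  have h4 : hs s =
      fun z => (s : ℂ) * (((s ^ 2 + ‖z‖ ^ 2) ^ (-(3 / 2) : ℝ) : ℝ) : ℂ) := by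
    funext z
    simp [hs]
  unfold dbar2
  rw [h4, h3.fderiv]
  simp only [smul_apply, I2f_rho_apply]
  generalize (s ^ 2 + ‖a‖ ^ 2) ^ (-(5 / 2) : ℝ) = r
  simp
  ring

theorem I1f_dir (hP : ClaimPot) (hS : ClaimSing) {s : ℝ} (hs0 : 0 < s) (z e : ℂ)
    (he : ‖e‖ = 1) :
    Integrable (fun a : ℂ => ‖a‖⁻¹ *
      (-3 * s * (s ^ 2 + ‖z - a‖ ^ 2) ^ (-(5 / 2) : ℝ) * inner ℝ (z - a) e)) ∧
    ∫ a : ℂ, ‖a‖⁻¹ *
      (-3 * s * (s ^ 2 + ‖z - a‖ ^ 2) ^ (-(5 / 2) : ℝ) * inner ℝ (z - a) e) =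
      2 * Real.pi * (-(inner ℝ z e * (s ^ 2 + ‖z‖ ^ 2) ^ (-(3 / 2) : ℝ))) := by
  obtain ⟨C, hC, hb⟩ := I2f_bound (s := s) hs0
  obtain ⟨C1, -, hS1⟩ := hS
  have hmem : Ioo (-1 : ℝ) 1 ∈ 𝓝 (0 : ℝ) := Ioo_mem_nhds (by norm_num) (by norm_num)
  have hS0 : Integrable (fun a : ℂ => ‖a‖⁻¹ * (1 + ‖a‖) ^ (-(3 : ℝ))) := by
    have := (hS1 0).1
    simpa using this
  -- the potential, translated
  have hPt : ∀ w : ℂ, Integrable
      (fun a : ℂ => ‖a‖⁻¹ * (s * (s ^ 2 + ‖w - a‖ ^ 2) ^ (-(3 / 2) : ℝ))) ∧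
      ∫ a : ℂ, ‖a‖⁻¹ * (s * (s ^ 2 + ‖w - a‖ ^ 2) ^ (-(3 / 2) : ℝ)) =
        2 * Real.pi * (s ^ 2 + ‖w‖ ^ 2) ^ (-(1 / 2) : ℝ) := by
    intro w
    obtain ⟨h1, h2⟩ := hP s w hs0
    have h3 := h1.comp_sub_left w
    have h4 := integral_sub_left_eq_self (μ := (volume : Measure ℂ))
      (fun a : ℂ => ‖w - a‖⁻¹ * (s * (s ^ 2 + ‖a‖ ^ 2) ^ (-(3 / 2) : ℝ))) w
    simp only [sub_sub_cancel] at h3 h4
    exact ⟨h3, h4.trans h2⟩
  have hcontr : ∀ p : ℝ, Continuous (fun a : ℂ => (s ^ 2 + ‖z - a‖ ^ 2) ^ p) := by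
    intro p
    refine Continuous.rpow_const (by fun_prop) (fun a => Or.inl (I2f_pos hs0 ‖z - a‖).ne')
  have hmeas2 : AEStronglyMeasurable
      (fun a : ℂ => ‖a‖⁻¹ *
      (-3 * s * (s ^ 2 + ‖z - a‖ ^ 2) ^ (-(5 / 2) : ℝ) * inner ℝ (z - a) e))
      volume := by
    refine AEStronglyMeasurable.mul ?_ ?_
    · exact (Measurable.inv (by fun_prop)).aestronglyMeasurable
    · refine Continuous.aestronglyMeasurable ?_
      exact Continuous.mul (Continuous.mul (by fun_prop) (hcontr _))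
        (Continuous.inner (by fun_prop) (by fun_prop))
  have key := hasDerivAt_integral_of_dominated_loc_of_deriv_le (μ := (volume : Measure ℂ))
    (F := fun (t : ℝ) (a : ℂ) => ‖a‖⁻¹ * (s * (s ^ 2 + ‖z + t * e - a‖ ^ 2) ^ (-(3 / 2) : ℝ)))
    (F' := fun (t : ℝ) (a : ℂ) => ‖a‖⁻¹ *
      (-3 * s * (s ^ 2 + ‖z + t * e - a‖ ^ 2) ^ (-(5 / 2) : ℝ) * inner ℝ (z + t * e - a) e))
    (x₀ := 0) (s := Ioo (-1) 1)
    (bound := fun a => 3 * C * (2 + ‖z‖) ^ (3 : ℝ) * (‖a‖⁻¹ * (1 + ‖a‖) ^ (-(3 : ℝ)))) hmem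
    (Eventually.of_forall fun t => (hPt (z + t * e)).1.aestronglyMeasurable)
    (hPt (z + (0 : ℝ) * e)).1
    (by simpa using hmeas2)
    (by
      refine Eventually.of_forall ?_
      intro a t ht
      set w : ℂ := z + t * e - a with hw
      have e1 := hb s le_rfl w
      have e2 := I2f_rpow hs0 ‖w‖
      have e3 : 0 ≤ (s ^ 2 + ‖w‖ ^ 2) ^ (-(5 / 2) : ℝ) := by positivity
      have e4 : |inner ℝ w e| ≤ ‖w‖ := by
        have := abs_real_inner_le_norm w e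
        rwa [he, mul_one] at this
      have e5 : s * ‖w‖ ≤ s ^ 2 + ‖w‖ ^ 2 := by nlinarith [sq_nonneg (s - ‖w‖), norm_nonneg w]
      have e6 : 0 ≤ ‖a‖⁻¹ := by positivity
      have e7 : 1 + ‖a‖ ≤ (2 + ‖z‖) * (1 + ‖w‖) := by
        have f1 : a = z + t * e - w := by rw [hw]; ring
        have f2 : ‖a‖ ≤ ‖z‖ + 1 + ‖w‖ := by
          calc ‖a‖ = ‖z + t * e - w‖ := by rw [← f1]
            _ ≤ ‖z + t * e‖ + ‖w‖ := norm_sub_le _ _
            _ ≤ ‖z‖ + ‖(t : ℂ) * e‖ + ‖w‖ := by gcongr; exact norm_add_le _ _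
            _ ≤ ‖z‖ + 1 + ‖w‖ := by
                gcongr
                rw [norm_mul, he, mul_one, Complex.norm_real, Real.norm_eq_abs]
                exact (abs_lt.2 ⟨ht.1, ht.2⟩).le
        nlinarith [norm_nonneg z, norm_nonneg w, mul_nonneg (norm_nonneg z) (norm_nonneg w)]
      have e8 : (1 + ‖w‖) ^ (-(3 : ℝ)) ≤ (2 + ‖z‖) ^ (3 : ℝ) * (1 + ‖a‖) ^ (-(3 : ℝ)) := by
        have p0 : 0 < 1 + ‖a‖ := by positivity
        have pz : 0 < 2 + ‖z‖ := by positivity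
        have pw : 0 < 1 + ‖w‖ := by positivity
        have g1 := Real.rpow_le_rpow_of_nonpos p0 e7 (show (-(3 : ℝ)) ≤ 0 by norm_num)
        rw [Real.mul_rpow pz.le pw.le, Real.rpow_neg pz.le] at g1
        have g2 : 0 < (2 + ‖z‖) ^ (3 : ℝ) := Real.rpow_pos_of_pos pz _
        calc (1 + ‖w‖) ^ (-(3 : ℝ)) =
            (2 + ‖z‖) ^ (3 : ℝ) * (((2 + ‖z‖) ^ (3 : ℝ))⁻¹ * (1 + ‖w‖) ^ (-(3 : ℝ))) := by
              field_simp
          _ ≤ _ := by gcongr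
      rw [norm_mul, norm_mul, norm_inv, norm_norm, Real.norm_eq_abs, Real.norm_eq_abs,
        abs_mul, abs_mul, abs_of_nonneg e3, abs_of_pos hs0]
      have e9 : |(-3 : ℝ)| = 3 := by norm_num
      rw [e9]
      have e10 : 3 * s * (s ^ 2 + ‖w‖ ^ 2) ^ (-(5 / 2) : ℝ) * |inner ℝ w e| ≤
          3 * C * (2 + ‖z‖) ^ (3 : ℝ) * (1 + ‖a‖) ^ (-(3 : ℝ)) := by
        calc _ ≤ 3 * s * (s ^ 2 + ‖w‖ ^ 2) ^ (-(5 / 2) : ℝ) * ‖w‖ := by gcongr
          _ = 3 * (s * ‖w‖) * (s ^ 2 + ‖w‖ ^ 2) ^ (-(5 / 2) : ℝ) := by ring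
          _ ≤ 3 * (s ^ 2 + ‖w‖ ^ 2) * (s ^ 2 + ‖w‖ ^ 2) ^ (-(5 / 2) : ℝ) := by gcongr
          _ = 3 * (s ^ 2 + ‖w‖ ^ 2) ^ (-(3 / 2) : ℝ) := by rw [e2]; ring
          _ ≤ 3 * (C * (1 + ‖w‖) ^ (-(3 : ℝ))) := by gcongr
          _ ≤ 3 * (C * ((2 + ‖z‖) ^ (3 : ℝ) * (1 + ‖a‖) ^ (-(3 : ℝ)))) := by gcongr
          _ = _ := by ring
      calc _ ≤ ‖a‖⁻¹ * (3 * C * (2 + ‖z‖) ^ (3 : ℝ) * (1 + ‖a‖) ^ (-(3 : ℝ))) := by gcongr
        _ = _ := by ring)
    (hS0.const_mul _)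
    (by
      refine Eventually.of_forall ?_
      intro a t ht
      have d0 : HasDerivAt (fun t : ℝ => z + t * e - a) e t := by
        have := (((hasDerivAt_id t).ofReal_comp.mul_const e).const_add z).sub_const a
        simpa using this
      have d1 : HasDerivAt (fun t : ℝ => s ^ 2 + ‖z + t * e - a‖ ^ 2)
          (2 * inner ℝ (z + t * e - a) e) t := d0.norm_sq.const_add _
      have d2 := d1.rpow_const (p := -(3 / 2)) (Or.inl (I2f_pos hs0 _).ne')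
      have h6 : ((-(3 / 2) : ℝ) - 1) = -(5 / 2) := by norm_num
      rw [h6] at d2
      have d3 := (d2.const_mul s).const_mul (‖a‖⁻¹)
      exact d3.congr_deriv (by ring))
  have hder := key.2
  have hint := key.1
  -- the right hand side
  have hrhs : HasDerivAt (fun t : ℝ => 2 * Real.pi * (s ^ 2 + ‖z + t * e‖ ^ 2) ^ (-(1 / 2) : ℝ))
      (2 * Real.pi * (-(inner ℝ z e * (s ^ 2 + ‖z‖ ^ 2) ^ (-(3 / 2) : ℝ)))) 0 := by
    have d0 : HasDerivAt (fun t : ℝ => z + t * e) e 0 := by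
      have := (((hasDerivAt_id (0 : ℝ)).ofReal_comp.mul_const e).const_add z)
      simpa using this
    have d1 : HasDerivAt (fun t : ℝ => s ^ 2 + ‖z + t * e‖ ^ 2)
        (2 * inner ℝ (z + (0 : ℝ) * e) e) 0 := d0.norm_sq.const_add _
    have d2 := (d1.rpow_const (p := -(1 / 2)) (Or.inl (I2f_pos hs0 _).ne')).const_mul
      (2 * Real.pi)
    have h6 : ((-(1 / 2) : ℝ) - 1) = -(3 / 2) := by norm_num
    rw [h6] at d2
    refine d2.congr_deriv ?_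
    simp only [Complex.ofReal_zero, zero_mul, add_zero]
    ring
  have heq : (fun t : ℝ => ∫ a : ℂ, ‖a‖⁻¹ * (s * (s ^ 2 + ‖z + t * e - a‖ ^ 2) ^ (-(3 / 2) : ℝ)))
      = (fun t : ℝ => 2 * Real.pi * (s ^ 2 + ‖z + t * e‖ ^ 2) ^ (-(1 / 2) : ℝ)) := by
    funext t
    exact (hPt (z + t * e)).2
  rw [heq] at hder
  have hval := hder.unique hrhs
  simp only [Complex.ofReal_zero, zero_mul, add_zero] at hval hint
  exact ⟨hint, hval⟩

theorem claimI1 (hP : ClaimPot) (hS : ClaimSing) : ClaimI1 := by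
  intro s z hs0
  obtain ⟨i1, v1⟩ := I1f_dir hP hS hs0 z 1 (by simp)
  obtain ⟨i2, v2⟩ := I1f_dir hP hS hs0 z I (by simp)
  have in1 : ∀ w : ℂ, inner ℝ w (1 : ℂ) = w.re := by intro w; simp [Complex.inner]
  have in2 : ∀ w : ℂ, inner ℝ w I = w.im := by intro w; simp [Complex.inner]
  simp only [in1] at i1 v1
  simp only [in2] at i2 v2
  unfold bb
  have h1 : (∫ a, (‖z - a‖ : ℂ)⁻¹ * dbar2 (hs s) a) =
      ∫ a, (((‖a‖⁻¹ * (-3 * s * (s ^ 2 + ‖z - a‖ ^ 2) ^ (-(5 / 2) : ℝ) * (z - a).re) : ℝ) : ℂ) +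
        I * ((‖a‖⁻¹ * (-3 * s * (s ^ 2 + ‖z - a‖ ^ 2) ^ (-(5 / 2) : ℝ) * (z - a).im) : ℝ) : ℂ)) := by
    rw [← integral_sub_left_eq_self (μ := (volume : Measure ℂ)) _ z]
    congr 1
    funext a
    rw [I1f_dbar hs0, sub_sub_cancel]
    push_cast
    ring
  have i1' : Integrable (fun a : ℂ =>
      (((‖a‖⁻¹ * (-3 * s * (s ^ 2 + ‖z - a‖ ^ 2) ^ (-(5 / 2) : ℝ) * (z - a).re) : ℝ)) : ℂ)) :=
    i1.ofReal
  have i2' : Integrable (fun a : ℂ =>
      I * (((‖a‖⁻¹ * (-3 * s * (s ^ 2 + ‖z - a‖ ^ 2) ^ (-(5 / 2) : ℝ) * (z - a).im) : ℝ)) : ℂ)) :=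
    i2.ofReal.const_mul I
  rw [h1, integral_add i1' i2', integral_const_mul,
    integral_complex_ofReal, integral_complex_ofReal, v1, v2]
  unfold ks
  have hpi : (Real.pi : ℂ) ≠ 0 := by exact_mod_cast Real.pi_ne_zero
  have hz : z = z.re + z.im * I := (Complex.re_add_im z).symm
  generalize (s ^ 2 + ‖z‖ ^ 2) ^ (-(3 / 2) : ℝ) = r
  push_cast
  field_simp
  linear_combination (-(r : ℂ)) * hz

end Pool.Agent.Work.MP_440970_an

end
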